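import Pool.Agent.Lib.MP_0087d5_lc.AUG.Dist

/-!
# Augmenting paths

A matching of `G` is given by an involution `m` with `m x ≠ x → G.Adj x (m x)` (the vertices with `m x = x` are exposed). Jobs BA (`swap_walk`, `aug_bigger`), BB (`berge`), BM (matchings as graphs).
-/

namespace Pool.Agent.AUG

open Relation Finset

variable {V : Type*} [Fintype V]

/-- The nonmatching edges between covered vertices. -/
def EE (G : SimpleGraph V) (m : V → V) (x y : V) : Prop := G.Adj x y ∧ m x ≠ y ∧ m x ≠ x ∧ m y ≠ y

/-- `m` is the mate map of a matching of `G`. -/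
structure Mate (G : SimpleGraph V) (m : V → V) : Prop where
  invol : ∀ x, m (m x) = x
  adj : ∀ x, m x ≠ x → G.Adj x (m x)

variable {G : SimpleGraph V} {m ν : V → V} {x y z s t u : V} {L : List V} {k : ℕ}

/-- Job BM. -/
theorem Mate.mm (h : Mate G m) : MM m (EE G m) := by
  refine ⟨h.invol, ?_, fun x hx => G.loopless.irrefl x hx.1, fun x y hx => hx.2.2.1⟩
  rintro x y ⟨h1, h2, h3, h4⟩
  refine ⟨h1.symm, fun h5 => h2 ?_, h4, h3⟩
  rw [← h5, h.invol]

/-- There is an augmenting path: exposed vertices `s ≠ t` which are adjacent, or connected by an edge from `s` to `m z`, a regular walk from `z` to `x`, and an edge from `x` to `t`. -/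
def AugPath (G : SimpleGraph V) (m : V → V) : Prop :=
  ∃ s t, s ≠ t ∧ m s = s ∧ m t = t ∧
    (G.Adj s t ∨ ∃ z x, m z ≠ z ∧ G.Adj s (m z) ∧ dd m (EE G m) z x < ZZ V ∧ G.Adj x t)

open Classical in
/-- Job BA. Moving an exposed vertex along a matching edge: `x` exposed, `{y, ν y}` matched, `x` adjacent to `ν y`. -/
theorem ba_op (hν : Mate G ν) (hx : ν x = x) (hy : ν y ≠ y) (hadj : G.Adj x (ν y)) :
    ∃ ν', Mate G ν' ∧ ν' y = y ∧ ν' x ≠ x ∧ (∀ w, w ≠ x → w ≠ y → w ≠ ν y → ν' w = ν w) ∧
      (univ.filter (fun w => ν' w ≠ w)).card = (univ.filter (fun w => ν w ≠ w)).card := by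
  have hxy : x ≠ y := by
    rintro rfl
    exact hy hx
  have hxy' : x ≠ ν y := hadj.ne
  have hinv := hν.invol
  refine ⟨fun w => if w = x then ν y else if w = ν y then x else if w = y then y else ν w, ⟨?_, ?_⟩, ?_, ?_, ?_, ?_⟩
  · intro w
    by_cases h1 : w = x
    · subst h1
      simp [hxy'.symm]
    · by_cases h2 : w = ν y
      · subst h2
        simp [hxy'.symm]
      · by_cases h3 : w = y
        · subst h3
          simp [h1, h2]
        · have h4 : ν w ≠ x := by
            intro h
            apply h1
            rw [← hinv w, h, hx]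
          have h5 : ν w ≠ ν y := by
            intro h
            apply h3
            rw [← hinv w, h, hinv]
          have h6 : ν w ≠ y := by
            intro h
            apply h2
            rw [← hinv w, h]
          simp [h1, h2, h3, h4, h5, h6, hinv w]
  · intro w hw
    by_cases h1 : w = x
    · subst h1
      simpa using hadj
    · by_cases h2 : w = ν y
      · subst h2
        simpa [hxy'.symm] using hadj.symm
      · by_cases h3 : w = y
        · subst h3
          exfalso
          apply hw
          simp [h1, h2]
        · simp only [h1, h2, h3, if_false] at hw ⊢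
          exact hν.adj w hw
  · simp [hxy.symm, hy.symm]
  · simp [hxy'.symm]
  · intro w h1 h3 h2
    simp [h1, h2, h3]
  · have hset : (univ.filter (fun w => (if w = x then ν y else if w = ν y then x else if w = y then y else ν w) ≠ w)) =
        insert x ((univ.filter (fun w => ν w ≠ w)).erase y) := by
      ext w
      simp only [mem_filter, mem_univ, true_and, mem_insert, mem_erase]
      by_cases h1 : w = x
      · subst h1
        simp [hxy'.symm]
      · by_cases h2 : w = ν y
        · subst h2
          simp only [h1, if_false, if_true, false_or, hinv]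
          simp [hxy', hy, Ne.symm hy]
        · by_cases h3 : w = y
          · subst h3
            simp [h1, h2]
          · simp [h1, h2, h3]
    rw [hset, card_insert_of_notMem, card_erase_of_mem]
    · have : 0 < (univ.filter (fun w => ν w ≠ w)).card := card_pos.2 ⟨y, by simp [hy]⟩
      omega
    · simp [hy]
    · simp [hx]

open Classical in
/-- Job BA. Joining two exposed adjacent vertices. -/
theorem ba_join (hν : Mate G ν) (hx : ν x = x) (ht : ν t = t) (hadj : G.Adj x t) :
    ∃ ν', Mate G ν' ∧ (univ.filter (fun w => ν w ≠ w)).card < (univ.filter (fun w => ν' w ≠ w)).card := by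
  have hxt : x ≠ t := hadj.ne
  have hinv := hν.invol
  refine ⟨fun w => if w = x then t else if w = t then x else ν w, ⟨?_, ?_⟩, ?_⟩
  · intro w
    by_cases h1 : w = x
    · subst h1
      simp [hxt.symm]
    · by_cases h2 : w = t
      · subst h2
        simp [hxt.symm]
      · have h4 : ν w ≠ x := by
          intro h
          apply h1
          rw [← hinv w, h, hx]
        have h5 : ν w ≠ t := by
          intro h
          apply h2
          rw [← hinv w, h, ht]
        simp [h1, h2, h4, h5, hinv w]
  · intro w hw
    by_cases h1 : w = x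
    · subst h1
      simpa using hadj
    · by_cases h2 : w = t
      · subst h2
        simpa [hxt.symm] using hadj.symm
      · simp only [h1, h2, if_false] at hw ⊢
        exact hν.adj w hw
  · apply card_lt_card
    rw [ssubset_iff_of_subset]
    · refine ⟨x, ?_, ?_⟩
      · simp [hxt.symm]
      · simp [hx]
    · intro w hw
      simp only [mem_filter, mem_univ, true_and] at hw ⊢
      have h1 : w ≠ x := by
        rintro rfl
        exact hw hx
      have h2 : w ≠ t := by
        rintro rfl
        exact hw ht
      simpa [h1, h2] using hw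

/-- Job BA. The vertices of a walk from a covered vertex are covered. -/
theorem ba_covered {F : V → V → Prop} (hM : MM m F) (hz : m z ≠ z) (hW : WW m (one F) z L k) :
    ∀ w ∈ L, m w ≠ w := by
  induction hW with
  | nil =>
    intro w hw
    rw [List.mem_singleton] at hw
    rw [hw]
    exact hz
  | @cons x y L s k h hk h1 h2 ih =>
    intro w hw
    rcases List.mem_cons.1 hw with h3 | h3
    · subst h3
      intro he
      have := hM.cov _ _ (hM.symm _ _ hk.1)
      rw [hM.invol] at this
      exact this he.symm
    · exact ih w h3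

open Classical in
/-- Job BA. Swapping for arbitrary lists. -/
theorem ba_swap (h : Mate G m) (hs : m s = s) (hz : m z ≠ z) (hsz : G.Adj s (m z)) (hW : WW m (one (EE G m)) z L k) :
    ∃ ν x, L.head? = some x ∧ Mate G ν ∧ ν x = x ∧ ν s ≠ s ∧ (∀ w, w ≠ s → w ∉ L → m w ∉ L → ν w = m w) ∧
      (univ.filter (fun w => ν w ≠ w)).card = (univ.filter (fun w => m w ≠ w)).card := by
  induction hW with
  | nil =>
    obtain ⟨ν, h1, h2, h3, h4, h5⟩ := ba_op h hs hz hsz
    refine ⟨ν, z, rfl, h1, h2, h3, ?_, h5⟩
    intro w hw1 hw2 hw3
    simp only [List.mem_singleton] at hw2 hw3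
    refine h4 w hw1 hw2 ?_
    intro he
    apply hw3
    rw [he, h.invol]
  | @cons x y L s' k hW hk h1 h2 ih =>
    obtain ⟨ν, x', hx', hν1, hν2, hν3, hν4, hν5⟩ := ih
    have hxx : x' = x := by simpa using hx'.symm
    subst hxx
    have hE := hk.1
    have hmy : m y ≠ y := by
      intro he
      have := hE.2.2.2
      rw [h.invol] at this
      exact this he.symm
    have hys : y ≠ s := by
      rintro rfl
      exact hmy hs
    have hνy : ν y = m y := hν4 y hys h1 h2
    obtain ⟨ν', g1, g2, g3, g4, g5⟩ := ba_op hν1 hν2 (by rw [hνy]; exact hmy) (by rw [hνy]; exact hE.1)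
    refine ⟨ν', y, rfl, g1, g2, ?_, ?_, g5.trans hν5⟩
    · have e1 : s ≠ x' := by
        rintro rfl
        exact hν3 hν2
      have e2 : s ≠ ν y := by
        rw [hνy]
        intro he
        apply hys
        rw [← h.invol y, ← he, hs]
      rw [g4 s e1 hys.symm e2]
      exact hν3
    · intro w hw1 hw2 hw3
      simp only [List.mem_cons, not_or] at hw2 hw3
      have e1 : w ≠ ν y := by
        rw [hνy]
        intro he
        apply hw3.1
        rw [he, h.invol]
      rw [g4 w hw2.2.1 hw2.1 e1]
      refine hν4 w hw1 ?_ ?_
      · simp only [List.mem_cons, not_or]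
        exact hw2.2
      · simp only [List.mem_cons, not_or]
        exact hw3.2

open Classical in
/-- Job BA. Swapping along a regular walk: `s` exposed, `G.Adj s (m z)`, `z` covered, regular walk from `z` to `x` with list `x :: L`. There is a matching `ν` in which `s` is covered, `x` is exposed, which agrees with `m` outside of `s` and the pairs of the walk, and
such that every vertex `w ∉ x :: L` with `w ≠ s` is covered by `ν` iff it is covered by `m`, and vertices of `L` are covered. So `ν` and `m` cover the same number of vertices.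
Induction on the walk. Start (`[z]`): match `s` with `m z`, `z` becomes exposed. Step to `y` over the edge `EE G m x (m y)`: in `ν` `x` is exposed and the pair `{y, m y}` is matched (it is not on the walk so far, and `y, m y ≠ s` as `s` is exposed); now match `x` with `m y`; `y` becomes exposed.
(`Function.update`, or `fun w => if w = x then m y else if w = m y then x else if w = y then y else ν w`.) -/
theorem swap_walk (h : Mate G m) (hs : m s = s) (hz : m z ≠ z) (hsz : G.Adj s (m z)) (hW : WW m (one (EE G m)) z (x :: L) k) :
    ∃ ν, Mate G ν ∧ ν x = x ∧ ν s ≠ s ∧ (∀ w, w ≠ s → w ∉ x :: L → m w ∉ x :: L → ν w = m w) ∧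
      (univ.filter (fun w => ν w ≠ w)).card = (univ.filter (fun w => m w ≠ w)).card := by
  obtain ⟨ν, x', hx', h1⟩ := ba_swap h hs hz hsz hW
  have hxx : x' = x := by simpa using hx'.symm
  subst hxx
  exact ⟨ν, h1⟩

open Classical in
/-- Job BA. An augmenting path gives a larger matching. (Direct edge `s t`: match them. Otherwise `swap_walk`, then `x` and `t` are exposed (`t` is not on the walk and no mate of a vertex of the walk, since the vertices of the walk are covered: `mate_ne`-like: the start `z` is covered, the other vertices by `cov`) and adjacent: match them.) -/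
theorem aug_bigger (h : Mate G m) (ha : AugPath G m) :
    ∃ ν, Mate G ν ∧ (univ.filter (fun w => m w ≠ w)).card < (univ.filter (fun w => ν w ≠ w)).card := by
  obtain ⟨s, t, hst, hs, ht, h1⟩ := ha
  rcases h1 with h1 | ⟨z, x, hz, hsz, hd, hxt⟩
  · exact ba_join h hs ht h1
  · obtain ⟨L, hW⟩ := dd_walk hd
    obtain ⟨ν, g1, g2, g3, g4, g5⟩ := swap_walk h hs hz hsz hW
    have hcov := ba_covered h.mm hz hW
    have htL : t ∉ x :: L := fun hm => hcov t hm ht
    have hνt : ν t = t := by
      rw [g4 t hst.symm htL (by rw [ht]; exact htL), ht]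
    obtain ⟨ν', k1, k2⟩ := ba_join g1 g2 hνt hxt
    exact ⟨ν', k1, by rw [← g5]; exact k2⟩

/-- Job BB. The edges of the alternating path with respect to `ν`. -/
def bbE (G : SimpleGraph V) (m ν : V → V) (a b : V) : Prop := EE G m a b ∧ ν a = b

/-- Job BB. An alternating path from `s` to `t`. -/
def bbP (G : SimpleGraph V) (m ν : V → V) (s t : V) : Prop :=
  ν s = t ∨ ∃ z x L k, m z ≠ z ∧ ν s = m z ∧ ν x = t ∧ WW m (one (bbE G m ν)) z (x :: L) k

theorem bbE_mm (h : Mate G m) (hν : Mate G ν) : MM m (bbE G m ν) := by
  refine ⟨h.invol, ?_, ?_, ?_⟩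
  · intro a b hab
    refine ⟨h.mm.symm a b hab.1, ?_⟩
    rw [← hab.2, hν.invol]
  · intro a ha
    exact h.mm.irrefl a ha.1
  · intro a b hab
    exact h.mm.cov a b hab.1

theorem bbP_symm (h : Mate G m) (hν : Mate G ν) (hp : bbP G m ν s t) : bbP G m ν t s := by
  rcases hp with hp | ⟨z, x, L, k, h1, h2, h3, h4⟩
  · left
    rw [← hp, hν.invol]
  · right
    have hcov := ba_covered (bbE_mm h hν) h1 h4
    have hmir := h4.mirror (bbE_mm h hν).mt
    obtain ⟨L', hL'⟩ := h4.last
    rw [hL', List.map_append, List.reverse_append, List.map_singleton, List.reverse_singleton,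
      List.singleton_append] at hmir
    refine ⟨m x, m z, _, _, ?_, ?_, ?_, hmir⟩
    · rw [h.invol]
      exact (hcov x (by simp)).symm
    · rw [h.invol, ← h3, hν.invol]
    · rw [← h2, hν.invol]

theorem bb_mono {F F' : V → V → Prop} (hF : ∀ a b, F a b → F' a b) {Lx : List V} (hW : WW m (one F) z Lx k) :
    WW m (one F') z Lx k := by
  induction hW with
  | nil => exact WW.nil
  | cons h hk h1 h2 ih => exact WW.cons ih ⟨hF _ _ hk.1, hk.2⟩ h1 h2

open Classical in
/-- Job BB. The main claim. -/
theorem bb_claim (n : ℕ) : ∀ (m ν : V → V), Mate G m → Mate G ν →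
    (univ.filter (fun w => ν w ≠ w)).card = n →
    (univ.filter (fun w => m w ≠ w)).card < (univ.filter (fun w => ν w ≠ w)).card →
    ∃ s t, s ≠ t ∧ m s = s ∧ m t = t ∧ ν s ≠ s ∧ ν t ≠ t ∧ bbP G m ν s t := by
  induction n using Nat.strong_induction_on with
  | _ n ih =>
    intro m ν h hν hn hc
    -- a vertex covered by `ν` and exposed in `m`
    obtain ⟨s, hs1, hs2⟩ : ∃ s, s ∈ univ.filter (fun w => ν w ≠ w) ∧ s ∉ univ.filter (fun w => m w ≠ w) := by
      by_contra hcon
      push Not at hcon
      have := card_le_card (fun w hw => hcon w hw : (univ.filter (fun w => ν w ≠ w)) ⊆ (univ.filter (fun w => m w ≠ w)))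
      omega
    simp only [mem_filter, mem_univ, true_and, not_not] at hs1 hs2
    set y := ν s with hy
    have hνy : ν y = s := by rw [hy, hν.invol]
    by_cases hmy : m y = y
    · exact ⟨s, y, hs1.symm, hs2, hmy, hs1, by rw [hνy]; exact hs1.symm, Or.inl rfl⟩
    · set z := m y with hz
      have hmz : m z = y := by rw [hz, h.invol]
      have hys : y ≠ s := hs1
      have hzs : z ≠ s := by
        intro he
        apply hys
        rw [← hmz, he, hs2]
      set m₁ : V → V := fun w => if w = y ∨ w = z then w else m w with hm₁
      set ν₁ : V → V := fun w => if w = s ∨ w = y then w else ν w with hν₁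
      have hm₁v : ∀ w, w ≠ y → w ≠ z → m₁ w = m w := by
        intro w h1 h2
        simp [hm₁, h1, h2]
      have hν₁v : ∀ w, w ≠ s → w ≠ y → ν₁ w = ν w := by
        intro w h1 h2
        simp [hν₁, h1, h2]
      have hm₁c : ∀ w, m₁ w ≠ w → w ≠ y ∧ w ≠ z ∧ m₁ w = m w := by
        intro w hw
        by_cases h1 : w = y ∨ w = z
        · exfalso
          apply hw
          simp only [hm₁, h1, if_true]
        · rw [not_or] at h1
          exact ⟨h1.1, h1.2, hm₁v w h1.1 h1.2⟩
      have hν₁c : ∀ w, ν₁ w ≠ w → w ≠ s ∧ w ≠ y ∧ ν₁ w = ν w := by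
        intro w hw
        by_cases h1 : w = s ∨ w = y
        · exfalso
          apply hw
          simp only [hν₁, h1, if_true]
        · rw [not_or] at h1
          exact ⟨h1.1, h1.2, hν₁v w h1.1 h1.2⟩
      have hM₁ : Mate G m₁ := by
        constructor
        · intro w
          by_cases h1 : w = y ∨ w = z
          · simp only [hm₁, h1, if_true]
          · rw [not_or] at h1
            have e1 : m w ≠ y := by
              intro he
              apply h1.2
              rw [← h.invol w, he]
            have e2 : m w ≠ z := by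
              intro he
              apply h1.1
              rw [← h.invol w, he, hmz]
            rw [hm₁v w h1.1 h1.2, hm₁v _ e1 e2, h.invol]
        · intro w hw
          obtain ⟨h1, h2, h3⟩ := hm₁c w hw
          rw [h3] at hw ⊢
          exact h.adj w hw
      have hN₁ : Mate G ν₁ := by
        constructor
        · intro w
          by_cases h1 : w = s ∨ w = y
          · simp only [hν₁, h1, if_true]
          · rw [not_or] at h1
            have e1 : ν w ≠ s := by
              intro he
              apply h1.2
              rw [← hν.invol w, he]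
            have e2 : ν w ≠ y := by
              intro he
              apply h1.1
              rw [← hν.invol w, he, hνy]
            rw [hν₁v w h1.1 h1.2, hν₁v _ e1 e2, hν.invol]
        · intro w hw
          obtain ⟨h1, h2, h3⟩ := hν₁c w hw
          rw [h3] at hw ⊢
          exact hν.adj w hw
      have hcm : (univ.filter (fun w => m₁ w ≠ w)).card + 2 = (univ.filter (fun w => m w ≠ w)).card := by
        have hset : univ.filter (fun w => m₁ w ≠ w) = ((univ.filter (fun w => m w ≠ w)).erase y).erase z := by
          ext w
          simp only [mem_filter, mem_univ, true_and, mem_erase]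
          constructor
          · intro hw
            obtain ⟨h1, h2, h3⟩ := hm₁c w hw
            rw [h3] at hw
            exact ⟨h2, h1, hw⟩
          · rintro ⟨h2, h1, hw⟩
            rw [hm₁v w h1 h2]
            exact hw
        have hy1 : y ∈ univ.filter (fun w => m w ≠ w) := by
          simp only [mem_filter, mem_univ, true_and]
          exact hmy
        have hz1 : z ∈ (univ.filter (fun w => m w ≠ w)).erase y := by
          simp only [mem_filter, mem_univ, true_and, mem_erase]
          refine ⟨hmy, ?_⟩
          rw [hmz]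
          exact Ne.symm hmy
        rw [hset]
        have e1 := card_erase_add_one hz1
        have e2 := card_erase_add_one hy1
        omega
      have hcν : (univ.filter (fun w => ν₁ w ≠ w)).card + 2 = (univ.filter (fun w => ν w ≠ w)).card := by
        have hset : univ.filter (fun w => ν₁ w ≠ w) = ((univ.filter (fun w => ν w ≠ w)).erase s).erase y := by
          ext w
          simp only [mem_filter, mem_univ, true_and, mem_erase]
          constructor
          · intro hw
            obtain ⟨h1, h2, h3⟩ := hν₁c w hw
            rw [h3] at hw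
            exact ⟨h2, h1, hw⟩
          · rintro ⟨h2, h1, hw⟩
            rw [hν₁v w h1 h2]
            exact hw
        have hs3 : s ∈ univ.filter (fun w => ν w ≠ w) := by
          simp only [mem_filter, mem_univ, true_and]
          exact hs1
        have hy1 : y ∈ (univ.filter (fun w => ν w ≠ w)).erase s := by
          simp only [mem_filter, mem_univ, true_and, mem_erase]
          refine ⟨hys, ?_⟩
          rw [hνy]
          exact hys.symm
        rw [hset]
        have e1 := card_erase_add_one hy1
        have e2 := card_erase_add_one hs3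
        omega
      obtain ⟨s₁, t₁, hst, hs₁, ht₁, hνs₁, hνt₁, hp⟩ := ih _ (by omega) m₁ ν₁ hM₁ hN₁ rfl (by omega)
      -- transfer of the walks
      have htr : ∀ a b, bbE G m₁ ν₁ a b → bbE G m ν a b := by
        intro a b hab
        have h1 := hm₁c a hab.1.2.2.1
        have h2 := hm₁c b hab.1.2.2.2
        have hne : ν₁ a ≠ a := by
          rw [hab.2]
          exact hab.1.1.ne'
        have h3 := hν₁c a hne
        refine ⟨⟨hab.1.1, ?_, ?_, ?_⟩, ?_⟩
        · rw [← h1.2.2]; exact hab.1.2.1
        · rw [← h1.2.2]; exact hab.1.2.2.1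
        · rw [← h2.2.2]; exact hab.1.2.2.2
        · rw [← h3.2.2]; exact hab.2
      have htrW : ∀ {z₁ : V} {Lx : List V} {k : ℕ}, WW m₁ (one (bbE G m₁ ν₁)) z₁ Lx k →
          WW m (one (bbE G m ν)) z₁ Lx k := by
        intro z₁ Lx k hW
        induction hW with
        | nil => exact WW.nil
        | @cons x' y' L' s' k' hW' hk h1 h2 ih' =>
          have hc' : m₁ y' ≠ y' := by
            intro he
            have := hk.1.1.2.2.2
            rw [hM₁.invol] at this
            exact this he.symm
          have e1 := hm₁c y' hc'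
          refine WW.cons ih' ⟨?_, hk.2⟩ h1 ?_
          · rw [← e1.2.2]
            exact htr _ _ hk.1
          · rw [← e1.2.2]
            exact h2
      -- the case that `z` is not an end
      have hfin : ∀ s₁ t₁, s₁ ≠ t₁ → m₁ s₁ = s₁ → m₁ t₁ = t₁ → ν₁ s₁ ≠ s₁ → ν₁ t₁ ≠ t₁ →
          bbP G m₁ ν₁ s₁ t₁ → t₁ ≠ z →
          ∃ s t, s ≠ t ∧ m s = s ∧ m t = t ∧ ν s ≠ s ∧ ν t ≠ t ∧ bbP G m ν s t := by
        intro s₁ t₁ hst hs₁ ht₁ hνs₁ hνt₁ hp htz
        have a1 := hν₁c s₁ hνs₁
        have a2 := hν₁c t₁ hνt₁
        have hmt : m t₁ = t₁ := by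
          rw [← hm₁v t₁ a2.2.1 htz]
          exact ht₁
        have hνt : ν t₁ ≠ t₁ := by
          rw [← a2.2.2]
          exact hνt₁
        by_cases hsz : s₁ = z
        · -- the new path starts at `s`
          refine ⟨s, t₁, a2.1.symm, hs2, hmt, hs1, hνt, ?_⟩
          right
          rcases hp with hp | ⟨z₁, x₁, L, k, h1, h2, h3, h4⟩
          · refine ⟨z, z, [], 0, ?_, ?_, ?_, WW.nil⟩
            · rw [hmz]; exact Ne.symm hmy
            · rw [hmz]
            · rw [← hsz, ← a1.2.2]
              exact hp
          · have b1 := hm₁c z₁ h1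
            have hcov := ba_covered (bbE_mm hM₁ hN₁) h1 h4
            have hW := htrW h4
            have hx₁ : ν₁ x₁ ≠ x₁ := by
              intro he
              rw [he] at h3
              rw [h3] at he
              exact hνt₁ he
            have b2 := hν₁c x₁ hx₁
            have harc : one (bbE G m ν) z (m z₁) 1 := by
              refine ⟨⟨⟨?_, ?_, ?_, ?_⟩, ?_⟩, rfl⟩
              · have := hν.adj s₁ (by rw [← a1.2.2]; exact hνs₁)
                rw [← a1.2.2, h2, b1.2.2, hsz] at this
                exact this
              · intro he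
                apply b1.2.1
                rw [← h.invol z₁, ← he, h.invol]
              · rw [hmz]; exact Ne.symm hmy
              · rw [h.invol, ← b1.2.2]
                exact h1.symm
              · rw [← hsz, ← a1.2.2, h2, b1.2.2]
            have hW2 : WW m (one (bbE G m ν)) z ((x₁ :: L) ++ z :: []) (0 + 1 + k) := by
              refine WW.append_arc WW.nil harc hW ?_
              intro w hw
              have c1 := hm₁c w (hcov w hw)
              simp only [List.mem_singleton]
              refine ⟨c1.2.1, ?_⟩
              intro he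
              apply c1.1
              rw [← h.invol w, he, hmz]
            refine ⟨z, x₁, L ++ [z], _, ?_, ?_, ?_, hW2⟩
            · rw [hmz]; exact Ne.symm hmy
            · rw [hmz]
            · rw [← b2.2.2]
              exact h3
        · refine ⟨s₁, t₁, hst, ?_, hmt, ?_, hνt, ?_⟩
          · rw [← hm₁v s₁ a1.2.1 hsz]
            exact hs₁
          · rw [← a1.2.2]
            exact hνs₁
          · rcases hp with hp | ⟨z₁, x₁, L, k, h1, h2, h3, h4⟩
            · left
              rw [← a1.2.2]
              exact hp
            · right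
              have b1 := hm₁c z₁ h1
              have hx₁ : ν₁ x₁ ≠ x₁ := by
                intro he
                rw [he] at h3
                rw [h3] at he
                exact hνt₁ he
              have b2 := hν₁c x₁ hx₁
              refine ⟨z₁, x₁, L, k, ?_, ?_, ?_, htrW h4⟩
              · rw [← b1.2.2]; exact h1
              · rw [← a1.2.2, ← b1.2.2]; exact h2
              · rw [← b2.2.2]; exact h3
      by_cases htz : t₁ = z
      · exact hfin t₁ s₁ hst.symm ht₁ hs₁ hνt₁ hνs₁ (bbP_symm hM₁ hN₁ hp) (by rw [← htz]; exact hst)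
      · exact hfin s₁ t₁ hst hs₁ ht₁ hνs₁ hνt₁ hp htz

open Classical in
/-- Job BB. Berge's theorem. More precisely we claim by induction on the number of vertices covered by `ν`: if `ν` covers more vertices than `m` then there are `s, t` with `m s = s`, `m t = t`, `s ≠ t`, `ν s ≠ s`, `ν t ≠ t` and either `ν s = t`, or there are `z, x` with `m z ≠ z`, `ν s = m z`, `ν x = t` and a regular walk
from `z` to `x` for the edge relation `fun a b => EE G m a b ∧ ν a = b`.
Proof: some vertex `s` is covered by `ν` and exposed in `m`. `y = ν s`. If `m y = y` take `t = y`. Otherwise `z = m y ≠ y`. Let `m₁` = `m` with `y`, `z` made exposed, `ν₁` = `ν` with `s`, `y` made exposed; `ν₁` covers more vertices than `m₁`. By induction we get `s₁, t₁` for `m₁`, `ν₁`. All vertices on this path are covered by `ν₁` or mates (under `m₁`) of such vertices;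
in particular `s, y` are not among `s₁, t₁` (they are exposed in `ν₁`). The walk does not contain `y`, `z` (they are exposed in `m₁`, `EE G m₁` has no edges there), so it is a walk for `m`, `ν`. If `z ∉ {s₁, t₁}` then `s₁, t₁` are exposed in `m`: done. If `z = s₁` (or `z = t₁`, reverse the path by `WW.mirror`): the new path starts at `s`, `ν s = y = m z`; if
`ν z = t₁` the walk is `[z]` with end `x = z`; otherwise `ν z = m z₁` and the walk `z₁ … x₁` is prolonged to `z → z₁ … x₁` (`EE G m z (m z₁)`; `WW.append_arc`), `ν x₁ = t₁`.
(The symmetric case: from the path `s₁ … t₁` with walk from `z₁` to `x₁` (`ν s₁ = m z₁`, `ν x₁ = t₁`) we get the path `t₁ … s₁` with walk from `m x₁` to `m z₁` by `WW.mirror`.) -/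
theorem berge (h : Mate G m) (hν : Mate G ν) (hc : (univ.filter (fun w => m w ≠ w)).card < (univ.filter (fun w => ν w ≠ w)).card) : AugPath G m := by
  obtain ⟨s, t, hst, hs, ht, hνs, hνt, hp⟩ := bb_claim _ m ν h hν rfl hc
  refine ⟨s, t, hst, hs, ht, ?_⟩
  rcases hp with hp | ⟨z, x, L, k, h1, h2, h3, h4⟩
  · left
    rw [← hp]
    exact hν.adj s hνs
  · right
    refine ⟨z, x, h1, ?_, ?_, ?_⟩
    · rw [← h2]
      exact hν.adj s hνs
    · exact dd_lt_of_walk (bb_mono (fun a b hab => hab.1) h4)
    · have hx : ν x ≠ x := by
        intro he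
        rw [he] at h3
        rw [h3] at he
        exact hνt he
      rw [← h3]
      exact hν.adj x hx

/-- `M` is (the graph of) a matching of `G`. -/
def IsMat (G M : SimpleGraph V) : Prop := M ≤ G ∧ ∀ v w w', M.Adj v w → M.Adj v w' → w = w'

/-- `M` is a matching of `G` with the largest number of edges. -/
def IsMaxMat (G M : SimpleGraph V) : Prop := IsMat G M ∧ ∀ N, IsMat G N → N.edgeSet.ncard ≤ M.edgeSet.ncard

/-- `m` is the mate map of the graph `M`. -/
def IsMateOf (M : SimpleGraph V) (m : V → V) : Prop := ∀ x y, M.Adj x y ↔ (m x = y ∧ x ≠ y)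

/-- Job BM. The graph of a mate map. -/
theorem exists_graph (h : Mate G m) : ∃ M, IsMat G M ∧ IsMateOf M m := by
  refine ⟨⟨fun x y => m x = y ∧ x ≠ y, ⟨?_⟩, ⟨fun x hx => hx.2 rfl⟩⟩, ⟨?_, ?_⟩, fun x y => Iff.rfl⟩
  · rintro x y ⟨h1, h2⟩
    refine ⟨?_, h2.symm⟩
    rw [← h1, h.invol]
  · rintro x y ⟨h1, h2⟩
    have h3 := h.adj x (by rw [h1]; exact h2.symm)
    rwa [h1] at h3
  · rintro x y z ⟨h1, -⟩ ⟨h2, -⟩
    rw [← h1, ← h2]

/-- Job BM. The mate map of a matching. -/
theorem exists_mate {M : SimpleGraph V} (h : IsMat G M) : ∃ m, Mate G m ∧ IsMateOf M m := by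
  classical
  have hex : ∀ x, ∃ y, (M.Adj x y ∨ (y = x ∧ ∀ z, ¬ M.Adj x z)) := by
    intro x
    by_cases hx : ∃ z, M.Adj x z
    · obtain ⟨z, hz⟩ := hx
      exact ⟨z, Or.inl hz⟩
    · exact ⟨x, Or.inr ⟨rfl, fun z hz => hx ⟨z, hz⟩⟩⟩
  choose m hm using hex
  have hof : IsMateOf M m := by
    intro x y
    constructor
    · intro hxy
      refine ⟨?_, hxy.ne⟩
      rcases hm x with h1 | ⟨-, h1⟩
      · exact h.2 x _ _ h1 hxy
      · exact absurd hxy (h1 y)
    · rintro ⟨h1, h2⟩
      rcases hm x with h3 | ⟨h3, -⟩
      · rwa [h1] at h3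
      · rw [h1] at h3
        exact absurd h3.symm h2
  refine ⟨m, ⟨fun x => ?_, fun x hx => ?_⟩, hof⟩
  · rcases hm x with h1 | ⟨h1, -⟩
    · exact ((hof _ _).1 h1.symm).1
    · rw [h1, h1]
  · exact h.1 ((hof x (m x)).2 ⟨rfl, fun h => hx h.symm⟩)

open Classical in
/-- Job BM. Twice the number of edges is the number of covered vertices. (Sum of the degrees.) -/
theorem two_edges {M : SimpleGraph V} (h : Mate G m) (hM : IsMateOf M m) :
    2 * M.edgeSet.ncard = (univ.filter (fun w => m w ≠ w)).card := by
  have h1 : M.edgeSet.ncard = M.edgeFinset.card := by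
    rw [← SimpleGraph.coe_edgeFinset, Set.ncard_coe_finset]
  rw [h1, ← SimpleGraph.sum_degrees_eq_twice_card_edges, Finset.card_filter]
  refine Finset.sum_congr rfl fun x _ => ?_
  split_ifs with hx
  · rw [SimpleGraph.degree, Finset.card_eq_one]
    refine ⟨m x, ?_⟩
    ext y
    rw [SimpleGraph.mem_neighborFinset, Finset.mem_singleton, hM x y]
    constructor
    · rintro ⟨h2, -⟩
      exact h2.symm
    · intro h2
      subst h2
      exact ⟨rfl, fun h => hx h.symm⟩
  · rw [SimpleGraph.degree, Finset.card_eq_zero, Finset.eq_empty_iff_forall_notMem]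
    intro y hy
    rw [SimpleGraph.mem_neighborFinset, hM x y] at hy
    push Not at hx
    exact hy.2 (hx.symm.trans hy.1)

/-- Job BM. `aug_bigger` and `berge`. -/
theorem isMaxMat_iff {M : SimpleGraph V} (h : IsMat G M) (hm : Mate G m) (hM : IsMateOf M m) : IsMaxMat G M ↔ ¬ AugPath G m := by
  constructor
  · rintro ⟨-, h1⟩ h2
    obtain ⟨ν, hν, hlt⟩ := aug_bigger hm h2
    obtain ⟨N, hN, hNν⟩ := exists_graph hν
    have h3 := h1 N hN
    have h4 := two_edges hν hNν
    have h5 := two_edges hm hM
    omega
  · intro h1
    refine ⟨h, fun N hN => ?_⟩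
    by_contra hlt
    push Not at hlt
    obtain ⟨ν, hν, hNν⟩ := exists_mate hN
    have h4 := two_edges hν hNν
    have h5 := two_edges hm hM
    exact h1 (berge hm hν (by omega))

end Pool.Agent.AUG
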