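import Pool.Agent.Lib.MP_0087d5_lc.AUG.NC2
import Pool.Agent.Lib.MP_0087d5_lc.UPM.Compile

/-!
# Programs for pairs of graphs compute relations in NC

Job CF2: adapt the end of `UPM/Compile.lean` (`inNC_of_comp`).
-/

namespace Pool.Agent.AUG

open Pool.Agent.UPM

/-- Input: a pair of graphs. -/
abbrev GS2 (n : ℕ) : Type := SimpleGraph (Fin n) × SimpleGraph (Fin n)

inductive GB2 : Readers GS2
  | fst : GB2 (Fin 2) (fun _ s x => s.1.Adj (x 0) (x 1))
  | snd : GB2 (Fin 2) (fun _ s x => s.2.Adj (x 0) (x 1))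

/-- Version of `Comp.not` in which the output map is a bijection. -/
private theorem cf2_not {S : ℕ → Type} {B : Readers S} {ι : Type} {P : RF S ι} (h : Comp S B ι P) :
    ∃ (C : OC S B) (o : C.T) (e : C.A o ≃ ι) (c k : ℕ),
      (∀ n, C.FanInTwo n ∧ C.DepthLE n (c * (Nat.log 2 n + 1) ^ k)) ∧
      ∀ n s, ∃ v, C.Consistent n s v ∧ ∀ x, v ⟨o, fun i => x (e i)⟩ ↔ ¬ P n s x := by
  obtain ⟨hι, C, o, e, c, k, hC, hv⟩ := h
  let N : CnNew C :=
    { T := Unit
      finT := inferInstance
      A := fun _ => ι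
      finA := fun _ => hι
      inp := fun _ => none
      w1 := fun _ b n x y => (⟨b, y⟩ : C.Gate n) = ⟨o, fun i => x (e i)⟩
      w2 := fun _ _ _ _ _ => False
      u1 := fun _ b => cn_fo_out C o b e
      u2 := fun _ _ => FODef.const False }
  refine ⟨N.ext, Sum.inr (), Equiv.refl ι, c + 2, k, ?_, ?_⟩
  · intro n
    have hb := N.bounds (n := n) (d₂ := 0) (hC n).1 (hC n).2 (fun _ _ => 0) (fun _ _ => le_rfl) (fun _ _ _ _ w => absurd w id) (by
      rintro a x ⟨b₁ | b₁, y₁⟩ ⟨b₂ | b₂, y₂⟩ ⟨b₃ | b₃, y₃⟩ w₁ w₂ w₃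
      · left
        have h1 : (⟨b₁, y₁⟩ : C.Gate n) = ⟨b₂, y₂⟩ := Eq.trans w₁ (Eq.symm w₂)
        cases h1
        rfl
      · exact absurd w₃ id
      · exact absurd w₂ id
      · exact absurd w₂ id
      · exact absurd w₁ id
      · exact absurd w₁ id
      · exact absurd w₁ id
      · exact absurd w₁ id)
    refine ⟨hb.1, ?_⟩
    obtain ⟨l, hl1, hl2⟩ := hb.2
    refine ⟨l, fun g => (hl1 g).trans ?_, hl2⟩
    have := cn_depth (c := c) (k := k) (n := n)
    omega
  · intro n s
    obtain ⟨v, hcons, hval⟩ := hv n s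
    refine ⟨N.val v (fun _ x => ¬ v ⟨o, fun i => x (e i)⟩), N.consistent hcons (fun a x r hr => ?_) (fun a x _ => ?_), ?_⟩
    · exact absurd hr (by simp [N])
    · show ¬ v ⟨o, fun i => x (e i)⟩ ↔ ¬ ((∀ b y, (⟨b, y⟩ : C.Gate n) = ⟨o, fun i => x (e i)⟩ → v ⟨b, y⟩) ∧
        ∀ (_ : Unit) (y : ι → Fin n), False → ¬ v ⟨o, fun i => y (e i)⟩)
      apply not_congr
      constructor
      · intro h1
        refine ⟨fun b y hby => ?_, fun _ _ hf => hf.elim⟩
        rw [hby]
        exact h1
      · rintro ⟨h1, _⟩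
        exact h1 _ _ rfl
    · intro x
      exact not_congr (hval x)

/-- The meaning of an input map of a circuit for two graphs. -/
private def cf2_read {A : Type} (q : Bool × A × A) (n : ℕ) (s : GS2 n) (x : A → Fin n) : Prop :=
  match q with
  | (true, i, j) => s.1.Adj (x i) (x j)
  | (false, i, j) => s.2.Adj (x i) (x j)

/-- A reader of `GB2` reads one entry of one of the adjacency matrices. -/
private theorem cf2_reader {ι A : Type} {P : RF GS2 ι} (h : GB2 ι P) (e : ι → A) :
    ∃ q : Bool × A × A, ∀ (n : ℕ) (s : GS2 n) (x : A → Fin n),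
      P n s (fun i => x (e i)) ↔ cf2_read q n s x := by
  cases h
  · exact ⟨(true, e 0, e 1), fun n s x => Iff.rfl⟩
  · exact ⟨(false, e 0, e 1), fun n s x => Iff.rfl⟩

/-- The input maps of the closed circuit. -/
private theorem cf2_inp (C : OC GS2 GB2) (t : C.T) : ∃ q : Option (Bool × C.A t × C.A t),
    (C.inp t = none ∧ q = none) ∨
    ∃ (ι : Type) (P : RF GS2 ι) (hB : GB2 ι P) (e : ι → C.A t) (q' : Bool × C.A t × C.A t),
      C.inp t = some ⟨ι, P, hB, e⟩ ∧ q = some q' ∧
      ∀ (n : ℕ) (s : GS2 n) (x : C.A t → Fin n), P n s (fun i => x (e i)) ↔ cf2_read q' n s x := by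
  rcases C.inp t with _ | ⟨ι, P, hB, e⟩
  · exact ⟨none, Or.inl ⟨rfl, rfl⟩⟩
  · obtain ⟨q, hq⟩ := cf2_reader hB e
    exact ⟨some q, Or.inr ⟨ι, P, hB, e, q, rfl, rfl, hq⟩⟩

/-- Consistent assignments of a circuit with levels are unique. -/
private theorem cf2_unique {r : ℕ} (C : CircuitFamily2 r) (n d : ℕ) (hd : C.DepthLE n d)
    (G M : SimpleGraph (Fin n)) {v w : C.Gate n → Prop} (hv : C.Consistent n G M v)
    (hw : C.Consistent n G M w) (g : C.Gate n) : v g ↔ w g := by
  obtain ⟨lev, -, hlev⟩ := hd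
  suffices H : ∀ (m : ℕ) (g : C.Gate n), lev g < m → (v g ↔ w g) from H _ g (Nat.lt_succ_self _)
  intro m
  induction m with
  | zero => exact fun g hg => absurd hg (Nat.not_lt_zero _)
  | succ m ih =>
    intro g hg
    have h1 := hv g
    have h2 := hw g
    rcases hC : C.inp g.1 with _ | ⟨b, i, j⟩
    · rw [hC] at h1 h2
      rw [h1, h2]
      have hih : ∀ h, C.Wire n g h → (v h ↔ w h) := fun h hh => ih h (by
        have := hlev g h hh
        omega)
      refine not_congr (forall_congr' fun h => ?_)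
      exact ⟨fun k hh => (hih h hh).1 (k hh), fun k hh => (hih h hh).2 (k hh)⟩
    · rw [hC] at h1 h2
      cases b <;> exact h1.trans h2.symm

/-- Job CF2. The open circuit of `h.comp` (`NCP.comp`) has an output tag `o` and a map `e : C.A o → Fin r`, which need not be a bijection. Add one new tag `t` with `A t = Fin r`, two new gates per tuple (double negation): first replace `h` by `NCP.not (NCP.not h)` and look at the proof of
`Comp.not` in `UPM/Compile.lean`: its output tag has `A = ι` and `e = id`; so it is enough to take the circuit produced by `Comp.not (Comp.not …)`, if one states a version of `Comp.not` which says that `e` is the identity (e.g. `∃ C o (e : C.A o ≃ ι) …`). Then as in `inNC_of_comp`. -/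
theorem relNC2_of_NCP {r : ℕ} {F : RF GS2 (Fin r)} (h : NCP GS2 GB2 (Fin r) F) : RelNC2 r (fun n G M x => F n (G, M) x) := by
  obtain ⟨C, o, e, c, k, hCD, hV⟩ := cf2_not (Comp.not h.comp)
  choose q hq using cf2_inp C
  let C' : CircuitFamily2 r :=
    { T := C.T
      finT := C.finT
      A := C.A
      finA := C.finA
      inp := q
      wire := C.wire
      uniform := C.uniform
      out := o
      outA := e }
  refine ⟨C', c, k, fun n => ⟨(hCD n).1, (hCD n).2, fun G M => ?_⟩⟩
  obtain ⟨v, hv, hvF⟩ := hV n (G, M)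
  have hcons : C'.Consistent n G M v := by
    intro g
    have h1 := hv g
    have h2 : C'.inp g.1 = q g.1 := rfl
    rw [h2]
    rcases hq g.1 with ⟨h3, h4⟩ | ⟨ι, P, hB, e', q', h3, h4, h5⟩
    · rw [h3] at h1
      rw [h4]
      exact h1
    · rw [h3] at h1
      rw [h4]
      obtain ⟨b, i, j⟩ := q'
      cases b <;> exact h1.trans (h5 n (G, M) g.2)
  refine ⟨⟨v, hcons⟩, fun w hw x => ?_⟩
  rw [← cf2_unique C' n _ (hCD n).2 G M hcons hw (C'.outGate n x)]
  exact (hvF x).trans not_not

end Pool.Agent.AUG
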