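import Pool.Agent.Lib.MP_0087d5_lc.AUG.Walk

/-!
# Counting crossing edges and alive vertices along a regular walk

The list of a walk is in reversed order (head = last vertex). The edges of the walk `y :: x :: L` are: `{x, m y}` (from `x` to the next pair), and those of `x :: L`.
`CE c` = number of edges with `a x + a (m y) + 1 > c` (crossing at c); `LV c` = number of vertices alive at `c`, without the start of the walk (= the last entry of the list);
`LA c` = number of vertices alive at `c`, including the start. `TE`, `TV`, `TA` are the corresponding sums of the values. Jobs CA, CB.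
-/

namespace Pool.Agent.AUG

open Relation Finset

variable {V : Type*}

def CE (m : V → V) (a : V → ℕ) (c : ℕ) : List V → ℕ
  | y :: x :: L => (if c < a x + a (m y) + 1 then 1 else 0) + CE m a c (x :: L)
  | _ => 0

def LV (m : V → V) (a : V → ℕ) (c : ℕ) : List V → ℕ
  | y :: x :: L => (if c < a y + a (m y) then 1 else 0) + LV m a c (x :: L)
  | _ => 0

def LA (m : V → V) (a : V → ℕ) (c : ℕ) : List V → ℕ
  | y :: L => (if c < a y + a (m y) then 1 else 0) + LA m a c L
  | [] => 0

def TE (m : V → V) (a : V → ℕ) : List V → ℕ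
  | y :: x :: L => (a x + a (m y) + 1) + TE m a (x :: L)
  | _ => 0

def TV (m : V → V) (a : V → ℕ) : List V → ℕ
  | y :: x :: L => (a y + a (m y)) + TV m a (x :: L)
  | _ => 0

def TA (m : V → V) (a : V → ℕ) : List V → ℕ
  | y :: L => (a y + a (m y)) + TA m a L
  | [] => 0

variable {m : V → V} {E : V → V → Prop} {a : V → ℕ} {L : List V} {x y g b₀ y₀ : V} {c s N Z : ℕ}

/-- Job CA. Summation over the thresholds (for a number `t ≤ N`: `∑ c ∈ range N, (if c < t then 1 else 0) = t`). -/
theorem sum_ite (h : s ≤ N) : ∑ c ∈ range N, (if c < s then 1 else 0) = s := by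
  rw [← Finset.card_filter]
  have h1 : (range N).filter (fun c => c < s) = range s := by
    ext c
    simp only [Finset.mem_filter, Finset.mem_range]
    omega
  rw [h1, Finset.card_range]

/-- Job CA. -/
theorem sum_CE (h : ∀ x, a x ≤ Z) (hN : 2 * Z + 1 ≤ N) : ∑ c ∈ range N, CE m a c L = TE m a L := by
  induction L with
  | nil => simp [CE, TE]
  | cons y L ih =>
    cases L with
    | nil => simp [CE, TE]
    | cons x L =>
      simp only [CE, TE]
      have h1 := h x
      have h2 := h (m y)
      rw [Finset.sum_add_distrib, ih, sum_ite (by omega)]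

/-- Job CA. -/
theorem sum_LV (h : ∀ x, a x ≤ Z) (hN : 2 * Z + 1 ≤ N) : ∑ c ∈ range N, LV m a c L = TV m a L := by
  induction L with
  | nil => simp [LV, TV]
  | cons y L ih =>
    cases L with
    | nil => simp [LV, TV]
    | cons x L =>
      simp only [LV, TV]
      have h1 := h y
      have h2 := h (m y)
      rw [Finset.sum_add_distrib, ih, sum_ite (by omega)]

/-- Job CA. -/
theorem sum_LA (h : ∀ x, a x ≤ Z) (hN : 2 * Z + 1 ≤ N) : ∑ c ∈ range N, LA m a c L = TA m a L := by
  induction L with
  | nil => simp [LA, TA]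
  | cons y L ih =>
    simp only [LA, TA]
    have h1 := h y
    have h2 := h (m y)
    rw [Finset.sum_add_distrib, ih, sum_ite (by omega)]

private theorem ca_tel (hW : WW m (one E) y₀ L s) :
    ∀ x L', L = x :: L' → TE m a L + a x = TV m a L + a y₀ + s := by
  induction hW with
  | nil =>
    intro x L' h
    simp only [List.cons.injEq] at h
    rw [← h.1]
    simp [TE, TV]
  | @cons x' y L s k _ hk h1 h2 ih =>
    intro x L' h
    simp only [List.cons.injEq] at h
    obtain ⟨rfl, -⟩ := h
    have h3 := ih x' L rfl
    have h4 : k = 1 := hk.2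
    simp only [TE, TV]
    omega

private theorem ca_telA (hW : WW m (one E) y₀ L s) :
    TA m a L = TV m a L + (a y₀ + a (m y₀)) := by
  induction hW with
  | nil => simp [TA, TV]
  | @cons x' y L s k _ hk h1 h2 ih =>
    simp only [TA, TV] at ih ⊢
    omega

/-- Job CA. Telescoping (induction on the walk). -/
theorem telescope (hW : WW m (one E) y₀ (x :: L) s) : TE m a (x :: L) + a x = TV m a (x :: L) + a y₀ + s :=
  ca_tel hW x L rfl

/-- Job CA. -/
theorem telescopeA (hW : WW m (one E) y₀ (x :: L) s) : TA m a (x :: L) = TV m a (x :: L) + (a y₀ + a (m y₀)) :=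
  ca_telA hW

private theorem ca_LV (hW : WW m (one E) y₀ L s) (h : ∀ y ∈ L, y ≠ y₀ → a y + a (m y) ≤ c) :
    LV m a c L = 0 := by
  induction hW with
  | nil => simp [LV]
  | @cons x' y L s k hW hk h1 h2 ih =>
    have h3 := ih (fun z hz => h z (List.mem_cons_of_mem _ hz))
    have h4 : y ≠ y₀ := fun h5 => h1 (h5 ▸ hW.start_mem)
    have h5 := h y List.mem_cons_self h4
    simp only [LV]
    rw [h3, if_neg (by omega)]

/-- Job CA. No vertex except possibly the start is alive at `c`. -/
theorem LV_zero (hW : WW m (one E) y₀ (x :: L) s) (h : ∀ y ∈ x :: L, y ≠ y₀ → a y + a (m y) ≤ c) : LV m a c (x :: L) = 0 :=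
  ca_LV hW h

/-- Job CA. -/
theorem LA_zero (h : ∀ y ∈ L, a y + a (m y) ≤ c) : LA m a c L = 0 := by
  induction L with
  | nil => rfl
  | cons y L ih =>
    have h3 := ih (fun z hz => h z (List.mem_cons_of_mem _ hz))
    have h5 := h y List.mem_cons_self
    simp only [LA]
    rw [h3, if_neg (by omega)]

private theorem ca_cn (hM : MM m E) (hW : WW m (one E) y₀ L s) (h : ∀ y ∈ L, y ≠ y₀ → a y + a (m y) ≤ c)
    (h0 : CE m a c L = 0) : ∀ y ∈ L, Cn m E a c y₀ y := by
  induction hW with
  | nil =>
    intro y hy
    rw [List.mem_singleton] at hy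
    rw [hy]
  | @cons x' z L s k hW hk h1 h2 ih =>
    simp only [CE] at h0
    have h3 := ih (fun z hz => h z (List.mem_cons_of_mem _ hz)) (by omega)
    intro y hy
    rcases List.mem_cons.mp hy with rfl | hy'
    · have h4 : y ≠ y₀ := fun h5 => h1 (h5 ▸ hW.start_mem)
      have h5 := h y List.mem_cons_self h4
      have h6 : a x' + a (m y) + 1 ≤ c := by
        by_contra h7
        rw [if_pos (by omega)] at h0
        omega
      have h7 : GA m E a c x' (m y) := Or.inl ⟨hk.1, h6⟩
      have h8 : GA m E a c (m y) y := Or.inr ⟨(hM.invol y).symm, by omega⟩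
      exact ((h3 x' List.mem_cons_self).tail h7).tail h8
    · exact h3 y hy'

/-- Job CA. If no edge of the walk is crossing at `c` then consecutive vertices are connected: all vertices of the list and their mates are in the component of the start, if
all vertices except the start are absorbed. -/
theorem cn_of_CE_zero (hM : MM m E) (hW : WW m (one E) y₀ (x :: L) s) (h : ∀ y ∈ x :: L, y ≠ y₀ → a y + a (m y) ≤ c) (h0 : CE m a c (x :: L) = 0)
    (hy : y ∈ x :: L) : Cn m E a c y₀ y :=
  ca_cn hM hW h h0 y hy

/-- The hypothesis of the counting lemma: `b₀` is alive at `c`, in the component of the start `y₀`, and is not the mate of an alive vertex of the walk other than the start. -/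
def Good (m : V → V) (E : V → V → Prop) (a : V → ℕ) (c : ℕ) (b₀ y₀ : V) (L : List V) : Prop :=
  Al m a c b₀ ∧ Cn m E a c b₀ y₀ ∧ ∀ y ∈ L, y ≠ y₀ → Al m a c y → m y ≠ b₀

/-- Job CB. -/
theorem GA.symm (hM : MM m E) (h : GA m E a c x y) : GA m E a c y x := by
  rcases h with ⟨h1, h2⟩ | ⟨h1, h2⟩
  · exact Or.inl ⟨hM.symm _ _ h1, by omega⟩
  · refine Or.inr ⟨?_, by omega⟩
    rw [h1, hM.invol]

/-- Job CB. -/
theorem Cn.symm (hM : MM m E) (h : Cn m E a c x y) : Cn m E a c y x := by
  induction h with
  | refl => exact ReflTransGen.refl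
  | tail _ hbc ih => exact (ReflTransGen.single (GA.symm hM hbc)).trans ih

/-- Job CB. -/
theorem Al.mate (hm : ∀ x, m (m x) = x) (h : Al m a c x) : Al m a c (m x) := by
  unfold Al at h ⊢
  rw [hm]
  omega

/-- Job CB. An absorbed vertex is connected with its mate. -/
theorem Cn.mate (h : a x + a (m x) ≤ c) : Cn m E a c x (m x) :=
  ReflTransGen.single (Or.inr ⟨rfl, h⟩)

/-- Job CB. The mate of the start is not a later vertex. -/
theorem cb_mate_start (hm : ∀ x, m (m x) = x) {F : V → V → ℕ → Prop} (hW : WW m F y₀ L s) :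
    ∀ y ∈ L, y ≠ y₀ → m y ≠ y₀ := by
  induction hW with
  | nil =>
    intro y hy hne
    rw [List.mem_singleton] at hy
    exact absurd hy hne
  | @cons x z L s k h hk h1 h2 ih =>
    intro y hy hne
    rcases List.mem_cons.1 hy with h3 | h3
    · subst h3
      intro he
      apply h2
      rw [he]
      exact h.start_mem
    · exact ih y h3 hne

/-- Job CB. A start which is alive is good (regularity). -/
theorem good_start (hW : WW m (one E) y₀ L s) (h : Al m a c y₀) (hm : ∀ x, m (m x) = x) : Good m E a c y₀ y₀ L := by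
  refine ⟨h, ReflTransGen.refl, ?_⟩
  intro y hy hne _
  exact cb_mate_start hm hW y hy hne

/-- Job CB. The counting lemma for arbitrary lists. -/
theorem cb_aux (hM : MM m E) (hU : UU m E a c) {Lx : List V} (hW : WW m (one E) y₀ Lx s)
    (hg : Good m E a c b₀ y₀ Lx) :
    LV m a c Lx < CE m a c Lx ∨
      (LV m a c Lx = CE m a c Lx ∧ ∃ b, Al m a c b ∧ (∃ x, Lx.head? = some x ∧ Cn m E a c b x) ∧
        (b = b₀ ∨ b ∈ Lx)) := by
  induction hW with
  | nil =>
    right
    exact ⟨rfl, b₀, hg.1, ⟨y₀, rfl, hg.2.1⟩, Or.inl rfl⟩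
  | @cons x z L s k h hk h1 h2 ih =>
    have hg' : Good m E a c b₀ y₀ (x :: L) :=
      ⟨hg.1, hg.2.1, fun y hy => hg.2.2 y (List.mem_cons_of_mem _ hy)⟩
    have ih' := ih hg'
    have hz0 : z ≠ y₀ := by
      rintro rfl
      exact h1 h.start_mem
    have e1 : LV m a c (z :: x :: L) = (if c < a z + a (m z) then 1 else 0) + LV m a c (x :: L) := rfl
    have e2 : CE m a c (z :: x :: L) = (if c < a x + a (m z) + 1 then 1 else 0) + CE m a c (x :: L) := rfl
    by_cases hz : c < a z + a (m z)
    · rw [if_pos hz] at e1
      by_cases hx : c < a x + a (m z) + 1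
      · rw [if_pos hx] at e2
        rcases ih' with hlt | ⟨heq, _⟩
        · left; omega
        · right
          exact ⟨by omega, z, hz, ⟨z, rfl, ReflTransGen.refl⟩, Or.inr (by simp)⟩
      · rw [if_neg hx] at e2
        rcases ih' with hlt | ⟨heq, b, hb1, ⟨x', hx', hb2⟩, hb3⟩
        · rcases Nat.lt_or_ge (LV m a c (z :: x :: L)) (CE m a c (z :: x :: L)) with h5 | h5
          · left; exact h5
          · right
            exact ⟨by omega, z, hz, ⟨z, rfl, ReflTransGen.refl⟩, Or.inr (by simp)⟩
        · exfalso
          have hxx : x' = x := by simpa using hx'.symm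
          subst hxx
          have hcn : Cn m E a c b (m z) := hb2.tail (Or.inl ⟨hk.1, by omega⟩)
          have hbz : b = m z := hU b (m z) hcn hb1 (Al.mate hM.invol hz)
          rcases hb3 with h6 | h6
          · exact hg.2.2 z (by simp) hz0 hz (hbz.symm.trans h6)
          · exact h2 (hbz ▸ h6)
    · rw [if_neg hz] at e1
      by_cases hx : c < a x + a (m z) + 1
      · rw [if_pos hx] at e2
        rcases ih' with hlt | ⟨heq, _⟩
        · left; omega
        · left; omega
      · rw [if_neg hx] at e2
        rcases ih' with hlt | ⟨heq, b, hb1, ⟨x', hx', hb2⟩, hb3⟩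
        · left; omega
        · right
          have hxx : x' = x := by simpa using hx'.symm
          subst hxx
          have hcn : Cn m E a c b (m z) := hb2.tail (Or.inl ⟨hk.1, by omega⟩)
          have hcn2 : Cn m E a c b z := hcn.trans (Cn.symm hM (Cn.mate (E := E) (by omega)))
          refine ⟨by omega, b, hb1, ⟨z, rfl, hcn2⟩, ?_⟩
          rcases hb3 with h6 | h6
          · exact Or.inl h6
          · exact Or.inr (List.mem_cons_of_mem _ h6)

/-- Job CB. The counting lemma. Induction on the walk. Start: `LV = CE = 0`, take `b = b₀`. Step: new vertex `z`, edge `{x, m z}`.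
If `LV < CE` before: if `z` is absorbed or the edge is crossing, `LV < CE` holds again; if `z` is alive and the edge not crossing then `LV + 1 ≤ CE`, and in case of equality take `b = z`.
If `LV = CE` and `b` is alive and connected with `x`: if the edge is crossing: `CE` increases; if `z` is absorbed now `LV < CE`, if `z` is alive then `LV = CE` and `b = z`.
If the edge is not crossing, `b` is connected with `m z`. If `z` is alive then so is `m z`, and `m z = b` by `UU`; this contradicts `Good` (if `b = b₀`) or regularity (`m z ∉ x :: L`).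
So `z` is absorbed, `z` is connected with `m z`, hence with `b`, `LV = CE`. -/
theorem cc (hM : MM m E) (hU : UU m E a c) (hW : WW m (one E) y₀ (x :: L) s) (hg : Good m E a c b₀ y₀ (x :: L)) :
    LV m a c (x :: L) < CE m a c (x :: L) ∨
      (LV m a c (x :: L) = CE m a c (x :: L) ∧ ∃ b, Al m a c b ∧ Cn m E a c b x ∧ (b = b₀ ∨ b ∈ x :: L)) := by
  rcases cb_aux hM hU hW hg with h | ⟨h, b, hb1, ⟨x', hx', hb2⟩, hb3⟩
  · exact Or.inl h
  · right
    have hxx : x' = x := by simpa using hx'.symm
    subst hxx
    exact ⟨h, b, hb1, hb2, hb3⟩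

/-- Job CB. -/
theorem cc_le (hM : MM m E) (hU : UU m E a c) (hW : WW m (one E) y₀ (x :: L) s) (hg : Good m E a c b₀ y₀ (x :: L)) :
    LV m a c (x :: L) ≤ CE m a c (x :: L) := by
  rcases cc hM hU hW hg with h | h
  · exact h.le
  · exact h.1.le

/-- Job CB. If the last vertex `x` is alive there is one more crossing edge. (From `cc` for `g :: L`: otherwise the last edge `{g, m x}` is not crossing and `b` is connected with `m x`, which is alive; so
`m x = b` by `UU`, contradiction as before.) -/
theorem cc_alive (hM : MM m E) (hU : UU m E a c) (hW : WW m (one E) y₀ (x :: g :: L) s) (hg : Good m E a c b₀ y₀ (x :: g :: L))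
    (hx : Al m a c x) : LV m a c (g :: L) + 1 ≤ CE m a c (x :: g :: L) := by
  have hg' : Good m E a c b₀ y₀ (g :: L) :=
    ⟨hg.1, hg.2.1, fun y hy => hg.2.2 y (List.mem_cons_of_mem _ hy)⟩
  have e2 : CE m a c (x :: g :: L) = (if c < a g + a (m x) + 1 then 1 else 0) + CE m a c (g :: L) := rfl
  cases hW with
  | cons h hk h1 h2 =>
    have hx0 : x ≠ y₀ := by
      rintro rfl
      exact h1 h.start_mem
    rcases cc hM hU h hg' with h3 | ⟨h3, b, hb1, hb2, hb3⟩
    · omega
    · by_cases hc : c < a g + a (m x) + 1
      · rw [if_pos hc] at e2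
        omega
      · exfalso
        have hcn : Cn m E a c b (m x) := hb2.tail (Or.inl ⟨hk.1, by omega⟩)
        have hbz : b = m x := hU b (m x) hcn hb1 (Al.mate hM.invol hx)
        rcases hb3 with h6 | h6
        · exact hg.2.2 x (by simp) hx0 hx (hbz.symm.trans h6)
        · exact h2 (hbz ▸ h6)

/-- Job CB. The version counting the start too, for arbitrary lists. -/
theorem cb_auxA (hM : MM m E) (hU : UU m E a c) {Lx : List V} (hW : WW m (one E) y₀ Lx s) :
    LA m a c Lx ≤ CE m a c Lx ∨
      (LA m a c Lx = CE m a c Lx + 1 ∧ ∃ b ∈ Lx, Al m a c b ∧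
        ∃ x, Lx.head? = some x ∧ Cn m E a c b x) := by
  induction hW with
  | nil =>
    have e1 : LA m a c [y₀] = (if c < a y₀ + a (m y₀) then 1 else 0) + 0 := rfl
    have e2 : CE m a c [y₀] = 0 := rfl
    by_cases h : c < a y₀ + a (m y₀)
    · right
      rw [if_pos h] at e1
      exact ⟨by omega, y₀, by simp, h, y₀, rfl, ReflTransGen.refl⟩
    · left
      rw [if_neg h] at e1
      omega
  | @cons x z L s k h hk h1 h2 ih =>
    have e1 : LA m a c (z :: x :: L) = (if c < a z + a (m z) then 1 else 0) + LA m a c (x :: L) := rfl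
    have e2 : CE m a c (z :: x :: L) = (if c < a x + a (m z) + 1 then 1 else 0) + CE m a c (x :: L) := rfl
    by_cases hz : c < a z + a (m z)
    · rw [if_pos hz] at e1
      by_cases hx : c < a x + a (m z) + 1
      · rw [if_pos hx] at e2
        rcases ih with hle | ⟨heq, _⟩
        · left; omega
        · right
          exact ⟨by omega, z, by simp, hz, z, rfl, ReflTransGen.refl⟩
      · rw [if_neg hx] at e2
        rcases ih with hle | ⟨heq, b, hb3, hb1, x', hx', hb2⟩
        · rcases Nat.lt_or_ge (CE m a c (z :: x :: L)) (LA m a c (z :: x :: L)) with h5 | h5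
          · right
            exact ⟨by omega, z, by simp, hz, z, rfl, ReflTransGen.refl⟩
          · left; exact h5
        · exfalso
          have hxx : x' = x := by simpa using hx'.symm
          subst hxx
          have hcn : Cn m E a c b (m z) := hb2.tail (Or.inl ⟨hk.1, by omega⟩)
          have hbz : b = m z := hU b (m z) hcn hb1 (Al.mate hM.invol hz)
          exact h2 (hbz ▸ hb3)
    · rw [if_neg hz] at e1
      by_cases hx : c < a x + a (m z) + 1
      · rw [if_pos hx] at e2
        rcases ih with hle | ⟨heq, _⟩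
        · left; omega
        · left; omega
      · rw [if_neg hx] at e2
        rcases ih with hle | ⟨heq, b, hb3, hb1, x', hx', hb2⟩
        · left; omega
        · right
          have hxx : x' = x := by simpa using hx'.symm
          subst hxx
          have hcn : Cn m E a c b (m z) := hb2.tail (Or.inl ⟨hk.1, by omega⟩)
          have hcn2 : Cn m E a c b z := hcn.trans (Cn.symm hM (Cn.mate (E := E) (by omega)))
          exact ⟨by omega, b, List.mem_cons_of_mem _ hb3, hb1, z, rfl, hcn2⟩

/-- Job CB. The version counting the start too. Induction on the walk as in `cc`; start: `LA = 0` or (`LA = 1` and `b = y₀`). -/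
theorem ccA (hM : MM m E) (hU : UU m E a c) (hW : WW m (one E) y₀ (x :: L) s) :
    LA m a c (x :: L) ≤ CE m a c (x :: L) ∨
      (LA m a c (x :: L) = CE m a c (x :: L) + 1 ∧ ∃ b ∈ x :: L, Al m a c b ∧ Cn m E a c b x) := by
  rcases cb_auxA hM hU hW with h | ⟨h, b, hb3, hb1, x', hx', hb2⟩
  · exact Or.inl h
  · right
    have hxx : x' = x := by simpa using hx'.symm
    subst hxx
    exact ⟨h, b, hb3, hb1, hb2⟩

end Pool.Agent.AUG
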