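import Mathlib

/-!
# Regular walks

`V` is a finite type with a mate map `m` (an involution; `x' = m x`). A weighted multigraph is a relation `E : V → V → ℕ → Prop`: `E x y k` says that there is an edge of
weight `k` between `x` and `y`. There is an ARC of weight `k` from `x` to `y` if `E x (m y) k`. (So `x → y` is an arc iff `m y → m x` is.)
A REGULAR WALK is a sequence x_0, …, x_k of vertices with arcs x_i → x_{i+1} such that the pairs {x_i, m x_i} are pairwise distinct. Walks are lists in REVERSED order:
the head of the list is the last vertex of the walk, the last entry is the start.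

The unweighted case is `one E`. For levels `a : V → ℕ` (later `a = dd m E u`, the distances from a root `u`) and a threshold `θ`:
`GA m E a θ` is the adjacency of the graph `G_θ` (edges `{x,y}` with `a x + a y + 1 ≤ θ`, pairs `{x, m x}` with `a x + a (m x) ≤ θ`), `Cn m E a θ` its reachability,
`Al m a θ x` means that x is alive at θ: `θ < a x + a (m x)`; otherwise `x` is absorbed at θ.
-/

namespace Pool.Agent.AUG

open Relation

/-- Hypotheses on the mate map and the edges (weighted multigraph). -/
structure Mt {V : Type*} (m : V → V) (E : V → V → ℕ → Prop) : Prop where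
  invol : ∀ x, m (m x) = x
  symm : ∀ x y k, E x y k → E y x k
  irrefl : ∀ x k, ¬ E x x k
  pos : ∀ x y k, E x y k → 1 ≤ k
  cov : ∀ x y k, E x y k → m x ≠ x

/-- Hypotheses on the mate map and the edges. -/
structure MM {V : Type*} (m : V → V) (E : V → V → Prop) : Prop where
  invol : ∀ x, m (m x) = x
  symm : ∀ x y, E x y → E y x
  irrefl : ∀ x, ¬ E x x
  cov : ∀ x y, E x y → m x ≠ x

/-- The multigraph with weights one. -/
def one {V : Type*} (E : V → V → Prop) : V → V → ℕ → Prop := fun x y k => E x y ∧ k = 1

/-- Regular walks from `u` with their weights; the list is in reversed order. -/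
inductive WW {V : Type*} (m : V → V) (E : V → V → ℕ → Prop) (u : V) : List V → ℕ → Prop
  | nil : WW m E u [u] 0
  | cons {x y : V} {L : List V} {s k : ℕ} : WW m E u (x :: L) s → E x (m y) k → y ∉ x :: L → m y ∉ x :: L →
      WW m E u (y :: x :: L) (s + k)

/-- Adjacency in the graph `G_θ` for the levels `a`. -/
def GA {V : Type*} (m : V → V) (E : V → V → Prop) (a : V → ℕ) (θ : ℕ) (x y : V) : Prop :=
  (E x y ∧ a x + a y + 1 ≤ θ) ∨ (y = m x ∧ a x + a y ≤ θ)

/-- Reachability in `G_θ`. -/
abbrev Cn {V : Type*} (m : V → V) (E : V → V → Prop) (a : V → ℕ) (θ : ℕ) : V → V → Prop := ReflTransGen (GA m E a θ)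

/-- `x` is alive at the threshold `θ`. -/
def Al {V : Type*} (m : V → V) (a : V → ℕ) (θ : ℕ) (x : V) : Prop := θ < a x + a (m x)

/-- Two alive vertices in one component of `G_θ` are equal. -/
def UU {V : Type*} (m : V → V) (E : V → V → Prop) (a : V → ℕ) (θ : ℕ) : Prop :=
  ∀ x y, Cn m E a θ x y → Al m a θ x → Al m a θ y → x = y

/-- The level of unreachable vertices. -/
def ZZ (V : Type*) [Fintype V] : ℕ := 8 * Fintype.card V + 8

open Classical in
/-- The distance from `u` to `x`: the length of a shortest regular walk, `ZZ V` if there is none. -/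
noncomputable def dd {V : Type*} [Fintype V] (m : V → V) (E : V → V → Prop) (u x : V) : ℕ :=
  if h : ∃ s, ∃ L, WW m (one E) u (x :: L) s then Nat.find h else ZZ V

end Pool.Agent.AUG
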