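import Pool.Agent.Lib.MP_0087d5_lc.AUG.Seg

/-!
# The triangle inequality and the separation criterion

Jobs DL (`dl`), PP (`dl'`, `pp`), SB (`sb_iff`), PH (`phi_…`), PX (`phi_change`).
-/

namespace Pool.Agent.AUG

open Relation Finset

variable {V : Type*} [Fintype V] {m : V → V} {E : V → V → Prop} {L L₁ L₂ : List V} {u v w x y z g b p q : V} {c s k r θ : ℕ}

/-- Job DL, the main step: the first violation. -/
private theorem dl_aux (hM : MM m E) (hu : m u ≠ u) :
    ∀ s : ℕ, ∀ (w x : V) (L : List V), WW m (one E) w (x :: L) s → dd m E u w + s < dd m E u (m w) →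
      (∀ s' < s, ∀ (x' : V) (L' : List V), WW m (one E) w (x' :: L') s' → dd m E u x' ≤ dd m E u w + s') →
      dd m E u x ≤ dd m E u w + s := by
  intro s w x L hW hmw IH
  have hle : ∀ y, dd m E u y ≤ ZZ V := fun y => dd_le_ZZ
  have hZ : ZZ V = 8 * Fintype.card V + 8 := rfl
  by_contra hx
  have hx' : dd m E u w + s < dd m E u x := not_le.1 hx
  have hmwZ := hle (m w)
  have hwZ : dd m E u w < ZZ V := by omega
  cases hW with
  | nil => omega
  | @cons g _ L' s' k hW' he h1 h2 =>
    obtain ⟨he1, hk⟩ := he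
    subst hk
    have hW : WW m (one E) w (x :: g :: L') (s' + 1) := WW.snoc hW' he1 h1 h2
    -- bounds on the vertices before `x`
    have hub : ∀ P y Q, g :: L' = P ++ y :: Q → ∃ s₁ s₂, WW m (one E) y (x :: (P ++ [y])) s₁ ∧
        WW m (one E) w (y :: Q) s₂ ∧ s' + 1 = s₂ + s₁ ∧ s₂ < s' + 1 ∧
          dd m E u y ≤ dd m E u w + s₂ := by
      intro P y Q hPQ
      have hWs : WW m (one E) w ((x :: P) ++ y :: Q) (s' + 1) := by
        rw [List.cons_append, ← hPQ]
        exact hW
      obtain ⟨s₁, s₂, ha, hb, hc⟩ := hWs.split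
      have hlen := ha.length
      simp only [List.cons_append, List.length_cons, List.length_append, List.length_nil] at hlen
      have hlt : s₂ < s' + 1 := by omega
      exact ⟨s₁, s₂, ha, hb, hc, hlt, IH s₂ hlt y Q hb⟩
    have hyb : ∀ y ∈ g :: L', dd m E u y < ZZ V ∧ ∃ j, j < s' + 1 ∧ dd m E u y ≤ dd m E u w + j := by
      intro y hy
      obtain ⟨P, Q, hPQ⟩ := List.append_of_mem hy
      obtain ⟨s₁, s₂, _, _, _, hlt, hyle⟩ := hub P y Q hPQ
      exact ⟨by omega, s₂, hlt, hyle⟩
    -- the mates of the vertices before `x` are reachable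
    have hmate : ∀ y ∈ g :: L', dd m E u (m y) < ZZ V := by
      intro y hy
      by_contra hlt
      have hmy : dd m E u (m y) = ZZ V := le_antisymm (hle _) (not_lt.1 hlt)
      obtain ⟨P, Q, hPQ⟩ := List.append_of_mem hy
      obtain ⟨s₁, s₂, ha, hb, hs, hlt2, hyle⟩ := hub P y Q hPQ
      have hyZ : dd m E u y < ZZ V := (hyb y hy).1
      have hw := weak (a := dd m E u) hM hle
        (fun z hz => by
          have := dd_card hz
          omega)
        (fun z z' hz hzz' => by
          rcases dd_rel hM hz hzz' with h | h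
          · exact Or.inl h
          · right
            omega)
        (fun θ hθ => dist_UU hM hu hθ) hyZ hmy ha
      omega
    have hgm : g ∈ g :: L' := List.mem_cons_self
    have hgZ := (hyb g hgm).1
    obtain ⟨sg, hsg, hgle⟩ : ∃ j, j = s' ∧ dd m E u g ≤ dd m E u w + j :=
      ⟨s', rfl, IH s' (by omega) g L' hW'⟩
    have hmx : dd m E u (m x) + 1 ≤ dd m E u g := by
      rcases dd_rel hM hgZ he1 with h | h
      · omega
      · exact h
    set t := dd m E u w + dd m E u (m w) with ht
    obtain ⟨Θ, hΘ⟩ : ∃ Θ, Θ = dd m E u (m x) + dd m E u w + (s' + 1) := ⟨_, rfl⟩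
    have hcw := dd_card hwZ
    have hcg := dd_card hgZ
    have hcs := hW.lt_card
    have hΘZ : Θ < ZZ V := by omega
    -- the good vertex
    have hgood : ∀ c, c < ZZ V → ∃ b₀, Good m E (dd m E u) c b₀ w (g :: L') ∧
        (c ≤ Θ → Good m E (dd m E u) c b₀ w (x :: g :: L')) := by
      intro c hc
      by_cases hct : c < t
      · exact ⟨w, good_start hW' hct hM.invol, fun _ => good_start hW hct hM.invol⟩
      · obtain ⟨b, hbA, hbC, hbw, _⟩ := base_exists hM hu hc (x := w) (by omega)
        have hg1 : ∀ y ∈ g :: L', y ≠ w → Al m (dd m E u) c y → m y ≠ b := by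
          intro y hy _ hyA hmy
          obtain ⟨_, j, hj, hyj⟩ := hyb y hy
          have hyA' : c < dd m E u y + dd m E u (m y) := hyA
          rw [hmy] at hyA'
          omega
        refine ⟨b, ⟨hbA, hbC, hg1⟩, fun hcΘ => ⟨hbA, hbC, ?_⟩⟩
        intro y hy hyw hyA
        rcases List.mem_cons.1 hy with rfl | hy
        · intro hmy
          rw [hmy] at hΘ
          omega
        · exact hg1 y hy hyw hyA
    -- the inequality for every threshold
    have hkey : ∀ c, LV m (dd m E u) c (g :: L') + (if c < Θ + 1 then 1 else 0) ≤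
        CE m (dd m E u) c (x :: g :: L') := by
      intro c
      have hCE : CE m (dd m E u) c (g :: L') ≤ CE m (dd m E u) c (x :: g :: L') := by
        show CE m (dd m E u) c (g :: L') ≤ _ + CE m (dd m E u) c (g :: L')
        omega
      by_cases hcΘ : c < Θ + 1
      · rw [if_pos hcΘ]
        have hcZ : c < ZZ V := by omega
        obtain ⟨b₀, _, hg2⟩ := hgood c hcZ
        refine cc_alive hM (dist_UU hM hu hcZ) hW (hg2 (by omega)) ?_
        show c < dd m E u x + dd m E u (m x)
        omega
      · rw [if_neg hcΘ, add_zero]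
        by_cases hcZ : c < ZZ V
        · obtain ⟨b₀, hg1, _⟩ := hgood c hcZ
          exact (cc_le hM (dist_UU hM hu hcZ) hW' hg1).trans hCE
        · rw [LV_zero hW' (by
            intro y hy _
            have h3 := dd_card (hyb y hy).1
            have h4 := dd_card (hmate y hy)
            omega)]
          exact Nat.zero_le _
    have hsum := Finset.sum_le_sum (s := range (2 * ZZ V + 1)) (fun c _ => hkey c)
    rw [Finset.sum_add_distrib, sum_LV hle le_rfl, sum_CE hle le_rfl, sum_ite (by omega)] at hsum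
    have hTE : TE m (dd m E u) (x :: g :: L') =
        (dd m E u g + dd m E u (m x) + 1) + TE m (dd m E u) (g :: L') := rfl
    have htel := telescope (a := dd m E u) hW'
    omega

/-- Job DL. The triangle inequality. Let `a = dd m E u`. We may assume `a w < ZZ V` and `a (m w) > a w + s` and show `a x ≤ a w + s`, by strong induction on `s`.
By induction `a y ≤ a w + j` for every vertex `y` of the walk in position `j < s` (`WW.split`; the other alternative for the shorter walk contradicts `a (m w) > a w + s`).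
Suppose `a x > a w + s`. So `s ≥ 1`; let `g` be the vertex before `x`, the list is `x :: g :: L`. If `a (m y) = ZZ V` for some `y ∈ g :: L` (possibly `y = w`), in position `j`: `weak` (with `a = dd m E u`; `hrel` from `dd_rel`, `hU` from `dist_UU`,
`hbd` from `dd_card`) for the part of the walk from `y` to `x` gives `a x ≤ a y + (s - j) ≤ a w + s`. So `a (m y) < ZZ V` for all `y ∈ g :: L`. By `dd_rel` for `g → x`: `a (m x) + 1 ≤ a g` (as `a x ≤ a g + 1 ≤ a w + s` is excluded).
Let `Θ = a (m x) + a w + s < ZZ V` and `t = a w + a (m w) > 2 a w + s`. For `c < ZZ V` we have a good `b₀` for the list `g :: L` at `c`, and for `c ≤ Θ` it is good for `x :: g :: L`: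
`c < t`: `b₀ = w` (`good_start`). `c ≥ t`: `b₀ = b` = base of `w` (`base_exists`), `a b < a w`. If `y ∈ g :: L`, `y ≠ w`, in position `j`, had `m y = b` and were alive: `c < a y + a b < 2 a w + j < t ≤ c`. If `m x = b` then `a (m x) < a w`,
`Θ < 2 a w + s < t ≤ c`, so `c > Θ`.
So for `c ≤ Θ`: `LV c (g :: L) + 1 ≤ CE c (x :: g :: L)` (`cc_alive`; `x` is alive at `c` since `a x + a (m x) > Θ`), for `Θ < c < ZZ V`: `LV c (g :: L) ≤ CE c (g :: L)` (`cc_le`), for `c ≥ ZZ V`: `LV c (g :: L) = 0` (the levels of the vertices of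
`g :: L` and of their mates are at most `card V`, `dd_card`). Sum over `c < 2 ZZ V + 1` and `telescope` give `TV + Θ + 1 ≤ TE (x :: g :: L) = TV + Θ`, a contradiction. -/
theorem dl (hM : MM m E) (hu : m u ≠ u) (hW : WW m (one E) w (x :: L) s) :
    dd m E u x ≤ dd m E u w + s ∨ dd m E u (m w) ≤ dd m E u w + s := by
  by_cases hmw : dd m E u (m w) ≤ dd m E u w + s
  · exact Or.inr hmw
  · left
    have hmw' : dd m E u w + s < dd m E u (m w) := not_le.1 hmw
    have key : ∀ s : ℕ, dd m E u w + s < dd m E u (m w) → ∀ (x : V) (L : List V),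
        WW m (one E) w (x :: L) s → dd m E u x ≤ dd m E u w + s := by
      intro s
      induction s using Nat.strong_induction_on with
      | _ s ih =>
        intro hs x L hW
        exact dl_aux hM hu s w x L hW hs fun s' hs' x' L' hW' => ih s' hs' (by omega) x' L' hW'
    exact key s hmw' x L hW

/-- Job PP. -/
theorem dl' (hM : MM m E) (hu : m u ≠ u) (w x : V) :
    dd m E u x ≤ dd m E u w + dd m E w x ∨ dd m E u (m w) ≤ dd m E u w + dd m E w x := by
  rcases lt_or_ge (dd m E w x) (ZZ V) with h | h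
  · obtain ⟨L, hL⟩ := dd_walk h
    exact dl hM hu hL
  · left
    have := dd_le_ZZ (m := m) (E := E) (u := u) (x := x)
    omega

/-- Job PP. (P'). `pp0` where `hub` follows from `dl`: `a (m v) > a v + r`. -/
theorem pp (hM : MM m E) (hu : m u ≠ u) (hθ : θ < ZZ V) (hv : Al m (dd m E u) θ v) (hvf : dd m E u v < ZZ V)
    (hW : WW m (one E) v (x :: L) r) (hr : dd m E u x = dd m E u v + r) (hx : dd m E u x + dd m E u (m x) ≤ θ) (hv' : dd m E u v + r < dd m E u (m v)) :
    ∃ b s₂, Al m (dd m E u) θ b ∧ Cn m E (dd m E u) θ b x ∧ dd m E v b ≤ s₂ ∧ dd m E u b = dd m E u v + s₂ := by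
  have hub : ∀ L₁ b L₂ s₂, x :: L = L₁ ++ b :: L₂ → WW m (one E) v (b :: L₂) s₂ →
      dd m E u b ≤ dd m E u v + s₂ := by
    intro L₁ b L₂ s₂ heq hb
    rcases dl hM hu hb with h | h
    · exact h
    · have h1 := WW.length hW
      have h2 := WW.length hb
      have h3 : (x :: L).length = (L₁ ++ b :: L₂).length := by rw [heq]
      rw [List.length_append, h1, h2] at h3
      omega
  obtain ⟨L₁, b, L₂, s₁, s₂, heq, hne, hAl, -, hW2, -, hab, -, -, hCn⟩ :=
    pp0 hM hu hθ hv hvf hW hr hx hub
  refine ⟨b, s₂, hAl, ?_, dd_le_of_walk hW2, hab⟩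
  apply hCn
  cases L₁ with
  | nil => exact absurd rfl hne
  | cons y L' =>
    rw [List.cons_append, List.cons.injEq] at heq
    rw [heq.1]
    exact List.mem_cons_self

/-- `v` lies on a shortest walk to `x`, numerically. -/
def Sb (m : V → V) (E : V → V → Prop) (u v x : V) : Prop := dd m E u v + dd m E v x = dd m E u x

/-- The indicator for the pair of `p`: `v` lies on a shortest walk to the lower vertex of the pair. -/
def psi (m : V → V) (E : V → V → Prop) (u v p : V) : Prop :=
  (dd m E u p ≤ dd m E u (m p) ∧ Sb m E u v p) ∨ (dd m E u (m p) ≤ dd m E u p ∧ Sb m E u v (m p))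

/-- The indicator at the threshold `c`. -/
def phi (m : V → V) (E : V → V → Prop) (u v : V) (c : ℕ) (p : V) : Prop :=
  (dd m E u p + dd m E u (m p) ≤ c ∧ psi m E u v p) ∨ (c < dd m E u p + dd m E u (m p) ∧ Sb m E u v p)

/-- Job PP. -/
theorem psi_mate (hM : MM m E) : psi m E u v (m p) ↔ psi m E u v p := by
  unfold psi
  rw [hM.invol p]
  exact or_comm

/-- Job SB. Let `v`, `b` be alive at `c`, `x` absorbed at `c` with `a x ≤ a (m x)` (so `2 a x ≤ c`), `b` in the component of `x` (so `b` is the base of `x`). Then `v` is on a shortest walk to `x` iff it is on a shortest walk to `b`.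
Let `a = dd m E u`. If `v = b` both hold (`dd v v = 0`; `base_lt` and `dl'` give `a b + dd b x = a x`, see below).
(→) `r = dd v x`, `a v + r = a x`. `a (m v) > c - a v ≥ 2 a x - a v ≥ a x = a v + r`. `pp` gives an alive `b'` connected with `x`, so `b' = b` (`dist_UU`), with `a b = a v + s₂`, `dd v b ≤ s₂`. By `dl'` (`w := v`, `x := b`) `a b ≤ a v + dd v b` or
`a (m v) ≤ a v + dd v b ≤ a b < a x` (`base_lt`), which is excluded. So `a v + dd v b = a b`.
(←) `a v + dd v b = a b`, `a b + dd b x ≤ a x` (`base_lt`). `m v ≠ v` (`mate_ne`). `dl'` with root `v` (`w := b`): `dd v x ≤ dd v b + dd b x ≤ a x - a v`, or `r := dd v (m b) ≤ dd v b + dd b x ≤ a x - a v`. In the second case `dl'` with root `u` (`w := v`, `x := m b`):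
`a (m b) ≤ a v + r ≤ a x` or `a (m v) ≤ a v + r ≤ a x`; but `a (m b) > c - a b ≥ 2 a x - a b > a x` and `a (m v) > c - a v ≥ 2 a x - a v ≥ a x`. So `dd v x ≤ a x - a v`. Conversely by `dl'` (`w := v`): `a x ≤ a v + dd v x` or `a (m v) ≤ a v + dd v x ≤ a x`, excluded. -/
theorem sb_iff (hM : MM m E) (hu : m u ≠ u) (hc : c < ZZ V) (hv : Al m (dd m E u) c v) (hvf : dd m E u v < ZZ V) (hb : Al m (dd m E u) c b)
    (hx : dd m E u x + dd m E u (m x) ≤ c) (hxx : dd m E u x ≤ dd m E u (m x)) (hbx : Cn m E (dd m E u) c b x) :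
    Sb m E u v x ↔ Sb m E u v b := by
  obtain ⟨hb1, hb2⟩ := base_lt hM hu hc hx hb hbx
  have hxZ : dd m E u x ≤ ZZ V := dd_le_ZZ
  unfold Al at hv hb
  unfold Sb
  constructor
  · intro h
    have hrZ : dd m E v x < ZZ V := by omega
    obtain ⟨L, hL⟩ := dd_walk hrZ
    obtain ⟨b', s₂, hb'1, hb'2, hb'3, hb'4⟩ := pp hM hu hc hv hvf hL h.symm hx (by omega)
    have hbb : b' = b := dist_UU hM hu hc b' b (hb'2.trans (Cn.symm hM hbx)) hb'1 hb
    subst hbb
    rcases dl' hM hu v b' with h1 | h1
    · omega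
    · omega
  · intro h
    have hmv : m v ≠ v := mate_ne hM hu hvf
    rcases dl' hM hmv b x with h1 | h1
    · rcases dl' hM hu v x with h2 | h2
      · omega
      · omega
    · rcases dl' hM hu v (m b) with h2 | h2
      · omega
      · omega

/-- Job PH. If `b` is the base of `p` then `phi` of `p` is `Sb` of `b`. (`p` alive: `b = p`. `p` absorbed: `sb_iff` for `p` or for `m p` or both, whichever is lower.) -/
theorem phi_base (hM : MM m E) (hu : m u ≠ u) (hc : c < ZZ V) (hv : Al m (dd m E u) c v) (hvf : dd m E u v < ZZ V) (hb : Al m (dd m E u) c b)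
    (hbp : Cn m E (dd m E u) c b p) : phi m E u v c p ↔ Sb m E u v b := by
  rcases lt_or_ge c (dd m E u p + dd m E u (m p)) with h | h
  · have hbb : b = p := dist_UU hM hu hc b p hbp hb h
    subst hbb
    unfold phi
    constructor
    · rintro (h1 | h1)
      · exact absurd h1.1 (not_le.2 h)
      · exact h1.2
    · intro h1
      exact Or.inr ⟨h, h1⟩
  · have hmp : dd m E u (m p) + dd m E u (m (m p)) ≤ c := by rw [hM.invol]; omega
    have hbm : Cn m E (dd m E u) c b (m p) := hbp.trans (Cn.mate h)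
    have key : psi m E u v p ↔ Sb m E u v b := by
      unfold psi
      constructor
      · rintro (h1 | h1)
        · exact (sb_iff hM hu hc hv hvf hb h h1.1 hbp).1 h1.2
        · exact (sb_iff hM hu hc hv hvf hb hmp (by rw [hM.invol]; exact h1.1) hbm).1 h1.2
      · intro h1
        rcases le_total (dd m E u p) (dd m E u (m p)) with h2 | h2
        · exact Or.inl ⟨h2, (sb_iff hM hu hc hv hvf hb h h2 hbp).2 h1⟩
        · exact Or.inr ⟨h2, (sb_iff hM hu hc hv hvf hb hmp (by rw [hM.invol]; exact h2) hbm).2 h1⟩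
    unfold phi
    constructor
    · rintro (h1 | h1)
      · exact key.1 h1.2
      · exact absurd h1.1 (not_lt.2 h)
    · intro h1
      exact Or.inl ⟨h, key.2 h1⟩

/-- Job PH. (S) If `v` is alive at `c`, `phi` does not change along the edges of `G_c`. -/
theorem phi_edge (hM : MM m E) (hu : m u ≠ u) (hc : c < ZZ V) (hv : Al m (dd m E u) c v) (hvf : dd m E u v < ZZ V)
    (he : E p q) (hpq : dd m E u p + dd m E u q + 1 ≤ c) : phi m E u v c p ↔ phi m E u v c q := by
  obtain ⟨b, hb, hbp⟩ := base_exists' hM hu hc p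
  have hbq : Cn m E (dd m E u) c b q := hbp.tail (Or.inl ⟨he, hpq⟩)
  rw [phi_base hM hu hc hv hvf hb hbp, phi_base hM hu hc hv hvf hb hbq]

private theorem px_list (P : V → Prop) (b : V) (hb : ¬ P b) : ∀ (y : V) (L' : List V), P y →
    ∃ A y' x B, (y :: L') ++ [b] = A ++ y' :: x :: B ∧ P y' ∧ ¬ P x ∧ y' ∈ y :: L' ∧
      (x ∈ y :: L' ∨ x = b) := by
  intro y L'
  induction L' generalizing y with
  | nil =>
    intro hy
    exact ⟨[], y, b, [], rfl, hy, hb, List.mem_cons_self, Or.inr rfl⟩
  | cons z L'' ih =>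
    intro hy
    by_cases hz : P z
    · obtain ⟨A, y', x, B, h1, h2, h3, h4, h5⟩ := ih z hz
      refine ⟨y :: A, y', x, B, ?_, h2, h3, List.mem_cons_of_mem _ h4, ?_⟩
      · rw [List.cons_append, h1, List.cons_append]
      · rcases h5 with h5 | h5
        · exact Or.inl (List.mem_cons_of_mem _ h5)
        · exact Or.inr h5
    · exact ⟨[], y, z, L'' ++ [b], rfl, hy, hz, List.mem_cons_self,
        Or.inl (List.mem_cons_of_mem _ List.mem_cons_self)⟩

/-- Job PX. (C) At the threshold at which `v` is absorbed `phi` changes along an edge of `G_c`, and both ends of the edge have smaller level than `m v`.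
Proof. Let `a = dd m E u`. `pp_root` for a shortest walk to `m v` (`θ = c`, `m (m v) = v`): the list of the walk is `L₁ ++ b :: L₂`, `b` alive, all of `L₁` absorbed, no crossing edge in `L₁ ++ [b]`. `b` is connected with `m v`, hence with `v`, so `a b < a v` (`base_lt`),
and `phi b` is false: `b` is alive, and `a v + dd v b = a b` is impossible. `phi (m v)` holds: the pair is absorbed, `a (m (m v)) = a v ≤ a (m v)`, `Sb v v`. So in the list `L₁ ++ [b]` there are consecutive entries `y :: x` (`x` before `y` in the walk) with `phi y`, `¬ phi x`. Take `p = x`, `q = m y`: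
`E x (m y)` (`WW.edge`), `a x + a (m y) + 1 ≤ c` (`CE_edge`), `phi (m y) ↔ phi y` because `y` is absorbed (`psi_mate`). `a x < a (m v)` by `dd_prefix`. `x` is absorbed or `x = b`. `a (m y) < a (m v)`: if `y = m v` this is `a v < a (m v)`. Otherwise `y ≠ v` (regularity) and by `psi y`: either `a y ≤ a (m y)` and
`a v + dd v y = a y`, so `a v < a y` (`dd_eq_zero`) and `a (m y) ≤ c - a y < c - a v = a (m v)`; or `a (m y) ≤ a y`, `2 a (m y) ≤ c < 2 a (m v)`. -/
theorem phi_change (hM : MM m E) (hu : m u ≠ u) (hvu : v ≠ u) (hv : dd m E u v < dd m E u (m v)) (hc : dd m E u v + dd m E u (m v) = c) (hcZ : c < ZZ V) :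
    ∃ p q, E p q ∧ dd m E u p + dd m E u q + 1 ≤ c ∧ ¬ phi m E u v c p ∧ phi m E u v c q ∧ dd m E u p < dd m E u (m v) ∧ dd m E u q < dd m E u (m v) ∧
      (dd m E u q + dd m E u (m q) ≤ c) ∧ (dd m E u p + dd m E u (m p) ≤ c ∨ dd m E u p < dd m E u v) := by
  have hmm : m (m v) = v := hM.invol v
  have hmvZ : dd m E u (m v) < ZZ V := by omega
  obtain ⟨L, hL⟩ := dd_walk hmvZ
  have hxa : dd m E u (m v) + dd m E u (m (m v)) ≤ c := by rw [hmm]; omega
  obtain ⟨L₁, b, L₂, s₁, s₂, heq, hne, hAl, hW1, hW2, hs, hab, habs, hCE, hCn⟩ :=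
    pp_root hM hu hcZ hL hxa
  obtain ⟨y₀, L', rfl⟩ : ∃ y₀ L', L₁ = y₀ :: L' := by
    cases L₁ with
    | nil => exact absurd rfl hne
    | cons y L' => exact ⟨y, L', rfl⟩
  have hy₀ : y₀ = m v := by
    rw [List.cons_append, List.cons.injEq] at heq
    exact heq.1.symm
  subst hy₀
  have hCv : Cn m E (dd m E u) c b v := by
    have h1 := (hCn (m v) List.mem_cons_self).trans (Cn.mate hxa)
    rwa [hmm] at h1
  have hva : dd m E u v + dd m E u (m v) ≤ c := hc.le
  have hbv : dd m E u b < dd m E u v := (base_lt hM hu hcZ hva hAl hCv).1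
  have hphib : ¬ phi m E u v c b := by
    unfold phi
    rintro (h1 | h1)
    · exact absurd h1.1 (not_le.2 hAl)
    · have h2 : dd m E u v + dd m E v b = dd m E u b := h1.2
      omega
  have hphim : phi m E u v c (m v) := by
    refine Or.inl ⟨hxa, Or.inr ⟨?_, ?_⟩⟩
    · rw [hmm]; omega
    · rw [hmm]
      unfold Sb
      rw [dd_self]
      rfl
  obtain ⟨A, y, x, B, h1, h2, h3, h4, h5⟩ := px_list (fun w => phi m E u v c w) b hphib (m v) L' hphim
  have hya : dd m E u y + dd m E u (m y) ≤ c := habs y h4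
  have hmy : dd m E u (m y) + dd m E u (m (m y)) ≤ c := by rw [hM.invol]; omega
  rw [h1] at hW1 hCE
  have hE : E x (m y) := WW.edge hW1
  have hce : dd m E u x + dd m E u (m y) + 1 ≤ c := CE_edge hCE
  have hpsi : psi m E u v y := by
    rcases h2 with h2 | h2
    · exact h2.2
    · exact absurd h2.1 (not_lt.2 hya)
  have hdec : m v :: L = (A ++ [y]) ++ x :: (B ++ L₂) := by
    rw [heq]
    have h6 : (m v :: L') ++ b :: L₂ = ((m v :: L') ++ [b]) ++ L₂ := by simp
    rw [h6, h1]
    simp
  have hyw : y ∈ m v :: L := by rw [heq]; exact List.mem_append_left _ h4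
  refine ⟨x, m y, hE, hce, h3, Or.inl ⟨hmy, (psi_mate hM).2 hpsi⟩, ?_, ?_, hmy, ?_⟩
  · rw [hdec] at hL
    have h7 := dd_prefix hL
    rw [List.length_append, List.length_singleton] at h7
    omega
  · by_cases hyv : y = m v
    · rw [hyv, hmm]; exact hv
    · have hyv' : y ≠ v := by
        intro h8
        have h9 := WW.mate_not_mem hM.mt hu hL (List.mem_cons_self (a := m v) (l := L))
        rw [hmm] at h9
        rw [h8] at hyw
        exact h9 hyw
      rcases hpsi with ⟨h8, h9⟩ | ⟨h8, h9⟩
      · have h10 : dd m E u v + dd m E v y = dd m E u y := h9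
        have h11 : dd m E v y ≠ 0 := fun h => hyv' (dd_eq_zero.1 h)
        omega
      · omega
  · rcases h5 with h5 | h5
    · exact Or.inl (habs x h5)
    · right
      rw [h5]
      exact hbv

end Pool.Agent.AUG
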