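import Pool.Agent.Lib.MP_0087d5_lc.AUG.PDmain
import Pool.Agent.Lib.MP_0087d5_lc.AUG.Count

/-!
# Distances

Jobs DA (`dd_…`), WD (`weak`), DU (`dist_UU`).
-/

namespace Pool.Agent.AUG

open Relation Finset

variable {V : Type*} [Fintype V] {m : V → V} {E : V → V → Prop} {a : V → ℕ} {L : List V} {u v w x y z g b : V} {c s k θ : ℕ}

/-- Job DA. -/
theorem dd_lt_iff : dd m E u x < ZZ V ↔ ∃ s, ∃ L, WW m (one E) u (x :: L) s := by
  classical
  constructor
  · intro h
    by_contra hc
    unfold dd at h
    rw [dif_neg hc] at h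
    exact lt_irrefl _ h
  · intro h
    obtain ⟨L, hL⟩ := Nat.find_spec h
    have h1 := hL.lt_card
    unfold dd
    rw [dif_pos h]
    unfold ZZ
    omega

/-- Job DA. -/
theorem dd_le_ZZ : dd m E u x ≤ ZZ V := by
  classical
  by_cases h : dd m E u x < ZZ V
  · exact h.le
  · have h1 : ¬ ∃ s, ∃ L, WW m (one E) u (x :: L) s := fun hc => h (dd_lt_iff.2 hc)
    unfold dd
    rw [dif_neg h1]

/-- Job DA. -/
theorem dd_walk (h : dd m E u x < ZZ V) : ∃ L, WW m (one E) u (x :: L) (dd m E u x) := by
  classical
  have h1 := dd_lt_iff.1 h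
  obtain ⟨L, hL⟩ := Nat.find_spec h1
  refine ⟨L, ?_⟩
  unfold dd
  rw [dif_pos h1]
  exact hL

/-- Job DA. -/
theorem dd_le_of_walk (h : WW m (one E) u (x :: L) s) : dd m E u x ≤ s := by
  classical
  have h1 : ∃ s, ∃ L, WW m (one E) u (x :: L) s := ⟨s, L, h⟩
  unfold dd
  rw [dif_pos h1]
  exact Nat.find_min' h1 ⟨L, h⟩

/-- Job DA. A walk to `x` makes `x` reachable. -/
theorem dd_lt_of_walk (h : WW m (one E) u (x :: L) s) : dd m E u x < ZZ V :=
  dd_lt_iff.2 ⟨s, L, h⟩

/-- Job DA. -/
theorem dd_self : dd m E u u = 0 := by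
  exact Nat.le_zero.1 (dd_le_of_walk WW.nil)

/-- Job DA. -/
theorem dd_eq_zero : dd m E u x = 0 ↔ x = u := by
  constructor
  · intro h
    have hz : dd m E u x < ZZ V := by
      rw [h]
      unfold ZZ
      omega
    obtain ⟨L, hL⟩ := dd_walk hz
    rw [h] at hL
    have key : ∀ (K : List V) (t : ℕ), WW m (one E) u K t → t = 0 → K = [u] := by
      intro K t hK
      cases hK with
      | nil => intro _; rfl
      | cons h1 h2 h3 h4 =>
        intro ht
        have := h2.2
        omega
    have h1 := key _ _ hL rfl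
    exact (List.cons.inj h1).1
  · rintro rfl
    exact dd_self

/-- Job DA. The mate of the root is not reachable (regularity). -/
theorem dd_mate_root (hM : MM m E) (hu : m u ≠ u) : dd m E u (m u) = ZZ V := by
  by_contra hne
  have h : dd m E u (m u) < ZZ V := lt_of_le_of_ne dd_le_ZZ hne
  obtain ⟨L, hL⟩ := dd_walk h
  exact hL.mate_not_mem hM.mt hu hL.start_mem List.mem_cons_self

/-- Job DA. If `m u = u` there are no edges at `u`, only `u` is reachable. -/
theorem dd_fixed (hM : MM m E) (hu : m u = u) (h : dd m E u x < ZZ V) : x = u := by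
  obtain ⟨L, hL⟩ := dd_walk h
  have key : ∀ (K : List V) (t : ℕ), WW m (one E) u K t → K = [u] := by
    intro K t hK
    induction hK with
    | nil => rfl
    | cons h1 h2 h3 h4 ih =>
      exfalso
      have hx := (List.cons.inj ih).1
      have h5 := h2.1
      rw [hx] at h5
      exact hM.cov _ _ h5 hu
  exact (List.cons.inj (key _ _ hL)).1

/-- Job DA. -/
theorem dd_card (h : dd m E u x < ZZ V) : dd m E u x + 1 ≤ Fintype.card V := by
  obtain ⟨L, hL⟩ := dd_walk h
  exact hL.lt_card

/-- Job DA. -/
theorem dd_two_card (hM : MM m E) (hu : m u ≠ u) (h : dd m E u x < ZZ V) : 2 * (dd m E u x + 1) ≤ Fintype.card V := by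
  obtain ⟨L, hL⟩ := dd_walk h
  exact hL.two_card hM hu

/-- Job DA. Relaxation. Take a shortest walk to `x`. If neither `y` nor `m y` is on it, extend it. If `y` is on it then `dd u y ≤ dd u x` (`WW.split`). If `m y` is on it:
`m y ≠ x` (otherwise `E x x`), so it comes before `x`. -/
theorem dd_rel (hM : MM m E) (h : dd m E u x < ZZ V) (he : E x (m y)) :
    dd m E u y ≤ dd m E u x + 1 ∨ dd m E u (m y) + 1 ≤ dd m E u x := by
  obtain ⟨L, hL⟩ := dd_walk h
  by_cases hy : y ∈ x :: L
  · left
    obtain ⟨L₁, L₂, he'⟩ := List.append_of_mem hy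
    rw [he'] at hL
    obtain ⟨s₁, s₂, -, h2, h3⟩ := hL.split
    have := dd_le_of_walk h2
    omega
  · by_cases hm : m y ∈ x :: L
    · right
      have hne : m y ≠ x := by
        intro h1
        rw [h1] at he
        exact hM.irrefl x he
      have hmL : m y ∈ L := (List.mem_cons.1 hm).resolve_left hne
      obtain ⟨L₁, L₂, he'⟩ := List.append_of_mem hmL
      have e2 : x :: L = (x :: L₁) ++ m y :: L₂ := by rw [he', List.cons_append]
      rw [e2] at hL
      obtain ⟨s₁, s₂, h1, h2, h3⟩ := hL.split
      have h4 := dd_le_of_walk h2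
      have h5 := h1.length
      rw [List.length_append, List.length_cons, List.length_singleton] at h5
      omega
    · left
      exact dd_le_of_walk (hL.snoc he hy hm)

/-- Job DA. -/
theorem dd_prefix {L₁ L₂ : List V} (h : WW m (one E) u (L₁ ++ b :: L₂) s) : dd m E u b + L₁.length ≤ s := by
  obtain ⟨s₁, s₂, h1, h2, h3⟩ := h.split
  have h4 := dd_le_of_walk h2
  have h5 := h1.length
  rw [List.length_append, List.length_singleton] at h5
  omega

/-- Job WD. Weak duality. Levels `a` with the relaxation property and `UU` are lower bounds for the weights of regular walks.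
(Here `8 * card V + 8 = ZZ V`, `hbd` bounds the finite levels.)
More general claim: for every regular walk from `y₀` with `a y₀ < ZZ V` and `a (m y₀) = ZZ V`, of weight `s` with end `x`: `a x ≤ a y₀ + s`. Strong induction on `s` (for all `y₀`). By induction all shorter
walks are fine: for `y` on the walk at position `j < s` (`WW.split`) `a y ≤ a y₀ + j`. Let `g` be the vertex before `x`. Suppose `a x > a y₀ + s`.
If some vertex `y ≠ y₀` before `x` has `a (m y) = ZZ V`: apply the claim to the part of the walk from `y` to `x` (`a y ≤ a y₀ + j`). Otherwise all have `a (m y) < ZZ V`. By `hrel` for `g → x`: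
`a x ≤ a g + 1 ≤ a y₀ + s` (excluded) or `a (m x) < ZZ V`. Let `Θ = a (m x) + a y₀ + s`; `Θ < ZZ V` by `hbd` and `WW.lt_card`. For `c ≤ Θ`: `x` is alive at `c` (`a x + a (m x) > Θ`), `y₀` is alive at `c`, so
`LV c (g :: L) + 1 ≤ CE c (x :: g :: L)` (`cc_alive`, `good_start`). For `Θ < c < ZZ V`: `LV c (g :: L) ≤ CE c (g :: L) ≤ CE c (x :: g :: L)` (`cc_le`). For `c ≥ ZZ V`: `LV c (g :: L) = 0` as `a y + a (m y) < ZZ V` for the
vertices in question (`hbd`). Summing over `c < N = 2 ZZ V + 1`: `TV (g :: L) + Θ + 1 ≤ TE (x :: g :: L) = TE (g :: L) + a g + a (m x) + 1 = TV (g :: L) + a y₀ + (s - 1) + a (m x) + 1 = TV (g :: L) + Θ`, a contradiction. -/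
theorem weak (hM : MM m E) (hle : ∀ x, a x ≤ ZZ V) (hbd : ∀ x, a x < ZZ V → a x ≤ Fintype.card V)
    (hrel : ∀ x y, a x < ZZ V → E x (m y) → a y ≤ a x + 1 ∨ a (m y) < ZZ V) (hU : ∀ θ < ZZ V, UU m E a θ)
    {y₀ : V} (h0 : a y₀ < ZZ V) (h0' : a (m y₀) = ZZ V) (hW : WW m (one E) y₀ (x :: L) s) : a x ≤ a y₀ + s := by
  have hZ : ZZ V = 8 * Fintype.card V + 8 := rfl
  induction s using Nat.strong_induction_on generalizing y₀ x L with
  | _ s ih =>
    by_contra hcon
    have hcon' : a y₀ + s < a x := by omega
    have hc0 := hbd y₀ h0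
    have hWl := hW.lt_card
    cases hW with
    | nil => omega
    | @cons g _ L' s' k h hk h1 h2 =>
      have hk1 : k = 1 := hk.2
      subst hk1
      have hWfull : WW m (one E) y₀ (x :: g :: L') (s' + 1) := WW.cons h hk h1 h2
      -- levels on the walk before `x`
      have hlev : ∀ y ∈ g :: L', ∃ L₁ L₂ s₁ s₂, g :: L' = L₁ ++ y :: L₂ ∧
          WW m (one E) y ((x :: L₁) ++ [y]) s₁ ∧ WW m (one E) y₀ (y :: L₂) s₂ ∧ s' + 1 = s₂ + s₁ ∧
          s₂ ≤ s' ∧ a y ≤ a y₀ + s₂ := by
        intro y hy
        obtain ⟨L₁, L₂, hL⟩ := List.append_of_mem hy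
        have hW2 : WW m (one E) y₀ ((x :: L₁) ++ y :: L₂) (s' + 1) := by
          rw [List.cons_append, ← hL]
          exact hWfull
        obtain ⟨s₁, s₂, h3, h4, h5⟩ := hW2.split
        have h3l := h3.length
        rw [List.length_append, List.length_cons, List.length_singleton] at h3l
        have hs2 : s₂ ≤ s' := by omega
        exact ⟨L₁, L₂, s₁, s₂, hL, h3, h4, h5, hs2, ih s₂ (by omega) h0 h0' h4⟩
      have hfin : ∀ y ∈ g :: L', a y < ZZ V := by
        intro y hy
        obtain ⟨_, _, s₁, s₂, _, _, _, _, h6, h7⟩ := hlev y hy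
        omega
      have hne : x ≠ y₀ := by
        rintro rfl
        exact h1 h.start_mem
      by_cases hA : ∃ y ∈ g :: L', y ≠ y₀ ∧ a (m y) = ZZ V
      · obtain ⟨y, hy, hy0, hym⟩ := hA
        obtain ⟨L₁, L₂, s₁, s₂, hL, h3, h4, h5, h6, h7⟩ := hlev y hy
        have hs2 : s₂ ≠ 0 := by
          rintro rfl
          exact hy0 (h4.zero hM.mt).1
        have h8 := ih s₁ (by omega) (hfin y hy) hym h3
        omega
      · push Not at hA
        have hB : ∀ y ∈ g :: L', y ≠ y₀ → a (m y) < ZZ V := by
          intro y hy hy0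
          have := hle (m y)
          have := hA y hy hy0
          omega
        have hg : a g < ZZ V := hfin g (by simp)
        obtain ⟨_, _, s₁, s₂, _, _, _, _, h6, h7⟩ := hlev g (by simp)
        have hx1 : a (m x) < ZZ V := by
          rcases hrel g x hg hk.1 with h8 | h8
          · omega
          · exact h8
        have hx2 := hbd (m x) hx1
        set Θ := a (m x) + a y₀ + (s' + 1) with hΘ
        have hΘZ : Θ < ZZ V := by omega
        have hal0 : ∀ c < ZZ V, Al m a c y₀ := by
          intro c hc
          unfold Al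
          omega
        have key : ∀ c, LV m a c (g :: L') + (if c < Θ + 1 then 1 else 0) ≤
            CE m a c (x :: g :: L') := by
          intro c
          have e2 : CE m a c (x :: g :: L') =
            (if c < a g + a (m x) + 1 then 1 else 0) + CE m a c (g :: L') := rfl
          by_cases hc : c < Θ + 1
          · rw [if_pos hc]
            have hcZ : c < ZZ V := by omega
            have hg0 : Good m E a c y₀ y₀ (x :: g :: L') :=
              good_start hWfull (hal0 c hcZ) hM.invol
            exact cc_alive hM (hU c hcZ) hWfull hg0 (by unfold Al; omega)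
          · rw [if_neg hc]
            by_cases hcZ : c < ZZ V
            · have hg0 : Good m E a c y₀ y₀ (g :: L') :=
                good_start h (hal0 c hcZ) hM.invol
              have := cc_le hM (hU c hcZ) h hg0
              omega
            · have h9 : LV m a c (g :: L') = 0 := by
                apply LV_zero h
                intro y hy hy0
                have h10 := hbd y (hfin y hy)
                have h11 := hbd (m y) (hB y hy hy0)
                omega
              omega
        have hsum : ∑ c ∈ range (2 * ZZ V + 1), (LV m a c (g :: L') + (if c < Θ + 1 then 1 else 0)) ≤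
            ∑ c ∈ range (2 * ZZ V + 1), CE m a c (x :: g :: L') :=
          Finset.sum_le_sum (fun c _ => key c)
        rw [Finset.sum_add_distrib, sum_LV hle (le_refl _), sum_CE hle (le_refl _),
          sum_ite (by omega)] at hsum
        have e3 : TE m a (x :: g :: L') = (a g + a (m x) + 1) + TE m a (g :: L') := rfl
        have e4 := telescope (a := a) h
        omega

open Classical in
/-- Job DU. Two alive vertices in one component of `G_θ` are equal. Take `F, ã` from `sol_exists`, `a x := if F x then ã x else ZZ V`. `F x` implies `ã x ≤ card V` (`att`, `WW.lt_card`). `¬ F (m u)`.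
`rel` gives `hrel`. For `θ < ZZ V`: `GA m E a θ` is the same as `AdjF m (one E) F ã θ` (levels `ZZ V` are too large), `Al m a θ` the same as `AlF m F ã θ`, so `UU m E a θ`. By `weak` with `y₀ = u` and `dd_walk`: `a x ≤ dd u x`;
by `att` and `dd_le_of_walk`: `dd u x ≤ a x`. So `a = dd m E u`. -/
theorem dist_UU (hM : MM m E) (hu : m u ≠ u) (hθ : θ < ZZ V) : UU m E (dd m E u) θ := by
  obtain ⟨F, a', hS, hFu, hau⟩ := sol_exists hM hu
  obtain ⟨a, ha⟩ : ∃ a : V → ℕ, a = fun x => if F x then a' x else ZZ V := ⟨_, rfl⟩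
  have haF : ∀ x, F x → a x = a' x := fun x hx => by rw [ha]; exact if_pos hx
  have haN : ∀ x, ¬ F x → a x = ZZ V := fun x hx => by rw [ha]; exact if_neg hx
  have hZ : ZZ V = 8 * Fintype.card V + 8 := rfl
  have hcard : ∀ x, F x → a' x + 1 ≤ Fintype.card V := by
    intro x hx
    obtain ⟨L, hL⟩ := hS.att x hx
    exact hL.lt_card
  have hF : ∀ x, a x < ZZ V → F x := by
    intro x hx
    by_contra h
    rw [haN x h] at hx
    omega
  have hmu : ¬ F (m u) := by
    intro h
    obtain ⟨L, hL⟩ := hS.att _ h
    have h1 := dd_lt_of_walk hL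
    rw [dd_mate_root hM hu] at h1
    omega
  have hle : ∀ x, a x ≤ ZZ V := by
    intro x
    by_cases h : F x
    · rw [haF x h]
      have := hcard x h
      omega
    · rw [haN x h]
  have hbd : ∀ x, a x < ZZ V → a x ≤ Fintype.card V := by
    intro x hx
    have h := hF x hx
    rw [haF x h]
    have := hcard x h
    omega
  have hrel : ∀ x y, a x < ZZ V → E x (m y) → a y ≤ a x + 1 ∨ a (m y) < ZZ V := by
    intro x y hx he
    have h := hF x hx
    rcases hS.rel x y 1 h ⟨he, rfl⟩ with h1 | h1
    · left
      rw [haF x h, haF y h1.1]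
      exact h1.2
    · right
      rw [haF _ h1]
      have := hcard _ h1
      omega
  have hU : ∀ θ < ZZ V, UU m E a θ := by
    intro θ hθ x y hc hx hy
    have hAl : ∀ z, Al m a θ z → AlF m F a' θ z := by
      rintro z hz ⟨h1, h2, h3⟩
      unfold Al at hz
      rw [haF z h1, haF _ h2] at hz
      omega
    refine hS.uu θ x y ?_ (hAl x hx) (hAl y hy)
    refine ReflTransGen.mono ?_ _ _ hc
    rintro z w (⟨h1, h2⟩ | ⟨h1, h2⟩)
    · have hz := hF z (by omega)
      have hw := hF w (by omega)
      rw [haF z hz, haF w hw] at h2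
      exact ⟨hz, hw, Or.inl ⟨1, ⟨h1, rfl⟩, h2⟩⟩
    · have hz := hF z (by omega)
      have hw := hF w (by omega)
      rw [haF z hz, haF w hw] at h2
      exact ⟨hz, hw, Or.inr ⟨h1, h2⟩⟩
  have hau' : a u = 0 := by rw [haF u hFu, hau]
  have heq : a = dd m E u := by
    funext x
    apply le_antisymm
    · by_cases hx : dd m E u x < ZZ V
      · obtain ⟨L, hL⟩ := dd_walk hx
        have := weak hM hle hbd hrel hU (by rw [hau']; omega) (haN _ hmu) hL
        rw [hau', zero_add] at this
        exact this
      · exact (hle x).trans (not_lt.1 hx)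
    · by_cases hx : F x
      · rw [haF x hx]
        obtain ⟨L, hL⟩ := hS.att x hx
        exact dd_le_of_walk hL
      · rw [haN x hx]
        exact dd_le_ZZ
  rw [← heq]
  exact hU θ hθ

end Pool.Agent.AUG
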