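import Pool.Agent.Lib.MP_0087d5_lc.AUG.Seg

/-!
# Exits from the component of the root

Jobs RR (`rc_…`), T2 (`t2`), CL (`cl_sound`, `cl_complete`).
-/

namespace Pool.Agent.AUG

open Relation Finset

variable {V : Type*} [Fintype V] {m : V → V} {E : V → V → Prop} {L L₁ L₂ : List V} {u v w x y z g b p q : V} {c s k r θ D : ℕ}

/-- Job RR. Vertices of the component of the root, other than the root, are absorbed (`dist_UU`; the root is alive by `dd_mate_root`). -/
theorem rc_absorbed (hM : MM m E) (hu : m u ≠ u) (hθ : θ < ZZ V) (hg : Cn m E (dd m E u) θ u g) (hgu : g ≠ u) : dd m E u g + dd m E u (m g) ≤ θ := by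
  by_contra hlt
  have h1 : Al m (dd m E u) θ g := not_le.1 hlt
  have h2 : Al m (dd m E u) θ u := by
    show θ < dd m E u u + dd m E u (m u)
    rw [dd_mate_root hM hu]
    omega
  exact hgu (dist_UU hM hu hθ u g hg h2 h1).symm

/-- Job RR. -/
theorem rc_mate (hM : MM m E) (hu : m u ≠ u) (hθ : θ < ZZ V) (hg : Cn m E (dd m E u) θ u g) (hgu : g ≠ u) : Cn m E (dd m E u) θ u (m g) :=
  hg.trans (Cn.mate (rc_absorbed hM hu hθ hg hgu))

/-- Job RR. The mate of the root is not in the component of the root. (It has level `ZZ V`, so there is no edge of `G_θ` at it.) -/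
theorem rc_mate_root (hM : MM m E) (hu : m u ≠ u) (hθ : θ < ZZ V) : ¬ Cn m E (dd m E u) θ u (m u) := by
  intro h
  have h1 := rc_absorbed hM hu hθ h hu
  rw [dd_mate_root hM hu] at h1
  omega

/-- Job RR. A shortest walk to a vertex of the component of the root stays in the component (`g = u`: trivial; otherwise `pp_root`, the base is `u` by `dist_UU`, `L₂ = []` by regularity). -/
theorem rc_walk (hM : MM m E) (hu : m u ≠ u) (hθ : θ < ZZ V) (hg : Cn m E (dd m E u) θ u g) (hW : WW m (one E) u (g :: L) (dd m E u g)) (hy : y ∈ g :: L) :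
    Cn m E (dd m E u) θ u y := by
  by_cases hgu : g = u
  · subst hgu
    rw [dd_self] at hW
    have h1 := (WW.zero hM.mt hW).2
    subst h1
    rw [List.mem_singleton] at hy
    rw [hy]
  · obtain ⟨L₁, b, L₂, s₁, s₂, hL, hL1, hbA, _, hW2, _, hbs, _, _, hC⟩ :=
      pp_root hM hu hθ hW (rc_absorbed hM hu hθ hg hgu)
    have hgL : g ∈ L₁ := by
      cases L₁ with
      | nil => exact absurd rfl hL1
      | cons g' L₁' =>
        have h1 : g = g' := (List.cons.inj hL).1
        rw [h1]
        exact List.mem_cons_self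
    have h2 : Al m (dd m E u) θ u := by
      show θ < dd m E u u + dd m E u (m u)
      rw [dd_mate_root hM hu]
      omega
    have hub : u = b := dist_UU hM hu hθ u b (hg.trans (Cn.symm hM (hC g hgL))) h2 hbA
    subst hub
    rw [dd_self] at hbs
    rw [← hbs] at hW2
    have h3 := (WW.zero hM.mt hW2).2
    subst h3
    rw [hL] at hy
    rcases List.mem_append.1 hy with hy | hy
    · exact hC y hy
    · rw [List.mem_singleton] at hy
      rw [hy]

/-- Job RR. An edge from the component of the root to the outside is not in `G_θ`. -/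
theorem rc_edge (hg : Cn m E (dd m E u) θ u g) (hz : ¬ Cn m E (dd m E u) θ u z) (he : E g z) : θ < dd m E u g + dd m E u z + 1 := by
  by_contra hlt
  exact hz (hg.tail (Or.inl ⟨he, not_lt.1 hlt⟩))

/-- Job T2, auxiliary: the longest suffix of a list with a property. -/
private theorem t2_suffix {W : Type*} (P : W → Prop) (l : List W) :
    ∃ l₁ l₂ : List W, l = l₁ ++ l₂ ∧ (∀ y ∈ l₂, P y) ∧ (l₁ = [] ∨ ∃ l₃ q, l₁ = l₃ ++ [q] ∧ ¬ P q) := by
  induction l with
  | nil => exact ⟨[], [], rfl, fun y hy => by simp at hy, Or.inl rfl⟩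
  | cons a l ih =>
    obtain ⟨l₁, l₂, h1, h2, h3⟩ := ih
    rcases h3 with h3 | ⟨l₃, q, h3, h4⟩
    · subst h3
      by_cases ha : P a
      · refine ⟨[], a :: l₂, ?_, ?_, Or.inl rfl⟩
        · rw [h1]
          rfl
        · intro y hy
          rcases List.mem_cons.1 hy with rfl | hy
          · exact ha
          · exact h2 y hy
      · refine ⟨[a], l₂, ?_, h2, Or.inr ⟨[], a, rfl, ha⟩⟩
        rw [h1]
        rfl
    · refine ⟨a :: l₁, l₂, ?_, h2, Or.inr ⟨a :: l₃, q, ?_, h4⟩⟩
      · rw [h1]
        rfl
      · rw [h3]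
        rfl

/-- Job T2, auxiliary: `R ∪ {m u}` is closed under `m`. -/
private theorem t2_closed (hM : MM m E) (hu : m u ≠ u) (hθ : θ < ZZ V)
    (h : Cn m E (dd m E u) θ u y ∨ y = m u) : Cn m E (dd m E u) θ u (m y) ∨ m y = m u := by
  rcases h with h | h
  · by_cases hy : y = u
    · right
      rw [hy]
    · exact Or.inl (rc_mate hM hu hθ h hy)
  · left
    rw [h, hM.invol]

/-- Job T2, case 1: the walk avoids `R ∪ {m u}`. -/
private theorem t2_avoid (hM : MM m E) (hu : m u ≠ u) (hθ : θ < ZZ V) (hg : Cn m E (dd m E u) θ u g)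
    (he : E g (m z)) (hW : WW m (one E) z (x :: L) k) (hgZ : dd m E u g < ZZ V)
    (hav : ∀ y ∈ x :: L, ¬ (Cn m E (dd m E u) θ u y ∨ y = m u)) :
    dd m E u x ≤ dd m E u g + 1 + k := by
  obtain ⟨Lg, hLg⟩ := dd_walk hgZ
  have hR : ∀ y ∈ g :: Lg, Cn m E (dd m E u) θ u y := fun y hy => rc_walk hM hu hθ hg hLg hy
  have h1 := WW.append_arc (L₁ := x :: L) hLg (k := 1) (⟨he, rfl⟩ : one E g (m z) 1) hW (by
    intro w hw
    constructor
    · intro hwg
      exact hav w hw (Or.inl (hR w hwg))
    · intro hwg
      apply hav w hw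
      have h2 := t2_closed hM hu hθ (Or.inl (hR (m w) hwg))
      rwa [hM.invol] at h2)
  exact dd_le_of_walk h1

/-- Job T2, the level of the last vertex of a part of the walk inside `R`. -/
private theorem t2_seg (hM : MM m E) (hu : m u ≠ u) (hθ : θ < ZZ V) {h e : V} {S : List V} {r A : ℕ}
    (hW : WW m (one E) h (e :: S) r) (hR : ∀ y ∈ e :: S, Cn m E (dd m E u) θ u y)
    (hF : h ≠ u → θ ≤ dd m E u (m h) + A) : dd m E u e ≤ A + r := by
  by_cases hmem : u ∈ e :: S
  · obtain ⟨T₁, T₂, hT⟩ := List.append_of_mem hmem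
    have hW' : WW m (one E) h (T₁ ++ u :: T₂) r := by
      rw [← hT]
      exact hW
    obtain ⟨s₁, s₂, ha, hb, hc⟩ := hW'.split
    cases T₁ with
    | nil =>
      rw [List.nil_append] at hT
      have : e = u := (List.cons.inj hT).1
      rw [this, dd_self]
      exact Nat.zero_le _
    | cons e' T₁' =>
      rw [List.cons_append] at hT
      have hee : e = e' := (List.cons.inj hT).1
      rw [List.cons_append] at ha
      have := dd_le_of_walk ha
      rw [hee]
      omega
  · have hne : h ≠ u := by
      rintro rfl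
      exact hmem hW.start_mem
    have h1 := ee hM hu hθ hW (fun y hy => rc_absorbed hM hu hθ (hR y hy) (fun hyu => hmem (hyu ▸ hy)))
    have h2 := hF hne
    omega

/-- Job T2. Let `R` be the component of the root at `θ`, `g ∈ R`, `z ∉ R`, `z ≠ m u`, arc `g → z`, and a regular walk from `z` to `x` of weight `k` with `a g + 1 + k ≤ θ` (`a = dd m E u`). Then `x ≠ m u`, and either `a x ≤ a g + k`, or the walk avoids `R ∪ {m u}` and
`a x ≤ a g + 1 + k`. Strong induction on `k` (for all `g, z, x, L`). Note `R ∪ {m u}` is closed under `m` (`rc_mate`).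
Case 1: no vertex of the walk is in `R ∪ {m u}`: compose a shortest walk to `g` (inside `R`, `rc_walk`) with the walk (`WW.append_arc`): second alternative.
Case 2: let `z_j` be the first vertex of the walk in `R ∪ {m u}`; `j ≥ 1`; `z_0, …, z_j` the walk up to it (`WW.split`). By Case 1 `a z_{j-1} ≤ a g + j`.
(2a) `z_j = m u`: the edge `{z_{j-1}, u}` leads from `u ∈ R` to `z_{j-1} ∉ R`, so `a z_{j-1} + 1 > θ` (`rc_edge`, `a u = 0`); `a g + 1 + j > θ`, contradiction.
(2b) `h := z_j ∈ R`. Then `h = u`, or `m h ∈ R` and `a z_{j-1} + a (m h) + 1 > θ` (`rc_edge`), so `a (m h) + a g + j ≥ θ`. Let `i ≥ j` be maximal such that `z_j, …, z_i ∈ R`. Claim: `a z_l ≤ a g + l` for `j ≤ l ≤ i`. If `u` does not occur among `z_j..z_l` (so all are absorbed, `rc_absorbed`): `ee` gives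
`a (m h) + a z_l ≤ θ + (l - j)`, so `a z_l ≤ a g + l`. If `u = z_{l'}`, `j ≤ l' ≤ l`: `seg` for the walk from `u` to `z_l` (the vertices after `u` are absorbed) gives `a z_l ≤ l - l'`.
If `i = k`: `x = z_k ∈ R`, so `x ≠ m u`, and `a x ≤ a g + k`. If `i < k`: `z_{i+1} ∉ R`. If `z_{i+1} = m u` then `u` is not among `z_j, …, z_i` (regularity), `ee'` for the walk `z_j..z_i` gives `a (m h) ≤ i - j + 1`, so `θ ≤ a g + i + 1`, but `a g + 1 + k ≤ θ` and `k ≥ i + 1`, contradiction.
Otherwise apply the induction hypothesis to `g' = z_i`, `z' = z_{i+1}` and the rest of the walk, of weight `k - i - 1`: `a g' + 1 + (k - i - 1) ≤ a g + k < θ`. We get `x ≠ m u`, `a x ≤ a g' + 1 + (k - i - 1) ≤ a g + k`. -/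
theorem t2 (hM : MM m E) (hu : m u ≠ u) (hθ : θ < ZZ V) (hg : Cn m E (dd m E u) θ u g) (he : E g (m z)) (hz : ¬ Cn m E (dd m E u) θ u z) (hzu : z ≠ m u)
    (hW : WW m (one E) z (x :: L) k) (hk : dd m E u g + 1 + k ≤ θ) :
    x ≠ m u ∧ (dd m E u x ≤ dd m E u g + k ∨
      (dd m E u x ≤ dd m E u g + 1 + k ∧ ∀ y ∈ x :: L, ¬ Cn m E (dd m E u) θ u y ∧ y ≠ m u)) := by
  induction k using Nat.strong_induction_on generalizing g z x L with
  | _ k ih =>
  have hgZ : dd m E u g < ZZ V := by omega
  have hmz : m z ≠ z := by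
    intro h
    apply hM.cov _ _ (hM.symm _ _ he)
    rw [hM.invol]
    exact h.symm
  obtain ⟨P, L₂, hPL, hL₂, hP⟩ :=
    t2_suffix (fun y => ¬ (Cn m E (dd m E u) θ u y ∨ y = m u)) (x :: L)
  rcases hP with rfl | ⟨L₁, h, rfl, hh⟩
  · -- case 1
    rw [List.nil_append] at hPL
    have hav : ∀ y ∈ x :: L, ¬ (Cn m E (dd m E u) θ u y ∨ y = m u) := by
      rw [hPL]
      exact hL₂
    refine ⟨?_, Or.inr ⟨t2_avoid hM hu hθ hg he hW hgZ hav, ?_⟩⟩
    · intro hx
      exact hav x List.mem_cons_self (Or.inr hx)
    · intro y hy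
      exact ⟨fun h1 => hav y hy (Or.inl h1), fun h1 => hav y hy (Or.inr h1)⟩
  · -- case 2
    have hh' : Cn m E (dd m E u) θ u h ∨ h = m u := not_not.1 hh
    rw [List.append_assoc, List.singleton_append] at hPL
    have hW' : WW m (one E) z (L₁ ++ h :: L₂) k := by
      rw [← hPL]
      exact hW
    obtain ⟨s₁, s₂, hW1, hW2, hks⟩ := hW'.split
    -- the vertex before `h`
    have hzL : ∃ y L₂', L₂ = y :: L₂' ∧ ∃ j, s₂ = j + 1 ∧ WW m (one E) z (y :: L₂') j ∧ E y (m h) := by
      generalize hT : h :: L₂ = T at hW2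
      cases hW2 with
      | nil =>
        exfalso
        have hhz : h = z := (List.cons.inj hT).1
        rw [hhz] at hh'
        rcases hh' with h1 | h1
        · exact hz h1
        · exact hzu h1
      | @cons y h2 L₂' s' k' hw he' _ _ =>
        obtain ⟨hT1, hT2⟩ := List.cons.inj hT
        subst hT1
        obtain ⟨he1, hk1⟩ := he'
        subst hk1
        exact ⟨y, L₂', hT2, s', rfl, hw, he1⟩
    obtain ⟨y, L₂', rfl, j, rfl, hWy, hey⟩ := hzL
    have hyle : dd m E u y ≤ dd m E u g + 1 + j := t2_avoid hM hu hθ hg he hWy hgZ hL₂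
    have hyR : ¬ Cn m E (dd m E u) θ u y := fun h1 => hL₂ y List.mem_cons_self (Or.inl h1)
    have hhR : Cn m E (dd m E u) θ u h := by
      rcases hh' with h1 | h1
      · exact h1
      · exfalso
        rw [h1, hM.invol] at hey
        have h2 := rc_edge (m := m) (u := u) (θ := θ) ReflTransGen.refl hyR (hM.symm _ _ hey)
        rw [dd_self] at h2
        omega
    have hF : h ≠ u → θ ≤ dd m E u (m h) + (dd m E u g + 1 + j) := by
      intro hhu
      have h1 := rc_mate hM hu hθ hhR hhu
      have h2 := rc_edge h1 hyR (hM.symm _ _ hey)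
      omega
    -- the part of the walk inside `R`
    obtain ⟨Q, S, hQS, hS, hQ⟩ := t2_suffix (fun y => Cn m E (dd m E u) θ u y) L₁
    have hRS : ∀ y ∈ S ++ [h], Cn m E (dd m E u) θ u y := by
      intro y hy
      rcases List.mem_append.1 hy with hy | hy
      · exact hS y hy
      · rw [List.mem_singleton] at hy
        rw [hy]
        exact hhR
    obtain ⟨e, S', hS'⟩ : ∃ e S', S ++ [h] = e :: S' := by
      cases S with
      | nil => exact ⟨h, [], rfl⟩
      | cons e S' => exact ⟨e, S' ++ [h], rfl⟩
    have heR : Cn m E (dd m E u) θ u e := hRS e (by rw [hS']; exact List.mem_cons_self)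
    rcases hQ with rfl | ⟨Q', q, rfl, hq⟩
    · -- the walk stays in `R`
      rw [List.nil_append] at hQS
      subst hQS
      have hxe : x = e := by
        cases L₁ with
        | nil =>
          have h1 : x = h := (List.cons.inj hPL).1
          have h2 : h = e := (List.cons.inj hS').1
          rw [h1, h2]
        | cons e' S'' =>
          have h1 : x = e' := (List.cons.inj hPL).1
          have h2 : e' = e := (List.cons.inj hS').1
          rw [h1, h2]
      rw [hS'] at hW1 hRS
      have h1 := t2_seg hM hu hθ hW1 hRS hF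
      refine ⟨?_, Or.inl ?_⟩
      · rintro rfl
        apply rc_mate_root hM hu hθ
        rw [hxe]
        exact heR
      · rw [hxe]
        omega
    · -- the walk leaves `R` at `q`
      rw [hQS] at hPL
      have hPL' : x :: L = Q' ++ q :: (S ++ h :: y :: L₂') := by
        rw [hPL]
        simp only [List.append_assoc, List.singleton_append, List.cons_append, List.nil_append]
      have hWq : WW m (one E) z (Q' ++ q :: (S ++ h :: y :: L₂')) k := by
        rw [← hPL']
        exact hW
      obtain ⟨t₁, t₂, hWq1, hWq2, hkt⟩ := hWq.split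
      obtain ⟨T', hT'⟩ : ∃ T', S ++ h :: y :: L₂' = e :: T' := by
        cases S with
        | nil =>
          have h2 : h = e := (List.cons.inj hS').1
          exact ⟨y :: L₂', by rw [h2]; rfl⟩
        | cons e' S'' =>
          have h2 : e' = e := (List.cons.inj hS').1
          exact ⟨S'' ++ h :: y :: L₂', by rw [h2]; rfl⟩
      obtain ⟨i, hti, hWe, heq⟩ : ∃ i, t₂ = i + 1 ∧ WW m (one E) z (S ++ h :: y :: L₂') i ∧ E e (m q) := by
        rw [hT'] at hWq2 ⊢
        cases hWq2 with
        | @cons _ _ _ s' k' hw he' _ _ =>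
          obtain ⟨he1, hk1⟩ := he'
          subst hk1
          exact ⟨s', rfl, hw, he1⟩
      obtain ⟨r₁, r₂, hWh, hWh2, hir⟩ := hWe.split
      have hl1 := hWh2.length
      have hl2 := hWy.length
      simp only [List.length_cons] at hl1 hl2
      have hr2 : r₂ = j + 1 := by omega
      rw [hS'] at hWh hRS
      have hqmem : q ∈ x :: L := by
        rw [hPL']
        simp
      have hsub : ∀ w ∈ e :: S', w ∈ x :: L := by
        intro w hw
        rw [← hS'] at hw
        rw [hPL']
        rcases List.mem_append.1 hw with hw | hw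
        · simp [hw]
        · rw [List.mem_singleton] at hw
          simp [hw]
      by_cases hqu : q = m u
      · exfalso
        have hux : u ∉ e :: S' := by
          intro hmem
          have h1 := WW.mate_not_mem hM.mt hmz hW hqmem
          rw [hqu, hM.invol] at h1
          exact h1 (hsub u hmem)
        have hhu : h ≠ u := by
          rintro rfl
          exact hux hWh.start_mem
        have heu : E e u := by
          rw [hqu, hM.invol] at heq
          exact heq
        have h1 := ee' hM hu hθ hWh (fun w hw => rc_absorbed hM hu hθ (hRS w hw)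
          (fun hwu => hux (hwu ▸ hw))) heu hux
        have h2 := hF hhu
        omega
      · have h1 := t2_seg hM hu hθ hWh hRS hF
        -- the rest of the walk
        obtain ⟨L', hL'⟩ : ∃ L', Q' ++ [q] = x :: L' := by
          cases Q' with
          | nil =>
            have h2 : x = q := (List.cons.inj hPL').1
            exact ⟨[], by rw [h2]; rfl⟩
          | cons x' Q'' =>
            have h2 : x = x' := (List.cons.inj hPL').1
            exact ⟨Q'' ++ [q], by rw [h2]; rfl⟩
        rw [hL'] at hWq1
        have h3 := ih t₁ (by omega) heR heq hq hqu hWq1 (by omega)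
        refine ⟨h3.1, Or.inl ?_⟩
        rcases h3.2 with h4 | h4
        · omega
        · have := h4.1
          omega

/-- `u ⇒ z` is an exit of cost `κ`. -/
def Ex (m : V → V) (E : V → V → Prop) (θ : ℕ) (u z : V) (κ : ℕ) : Prop :=
  ∃ g, Cn m E (dd m E u) θ u g ∧ E g (m z) ∧ ¬ Cn m E (dd m E u) θ u z ∧ z ≠ m u ∧ κ = dd m E u g + 1

/-- Sequences of exits, with total cost. -/
inductive Cl (m : V → V) (E : V → V → Prop) (θ : ℕ) : V → V → ℕ → Prop
  | base {u x : V} : Cn m E (dd m E u) θ u x → Cl m E θ u x (dd m E u x)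
  | step {u z x : V} {κ D : ℕ} : Ex m E θ u z κ → Cl m E θ z x D → Cl m E θ u x (κ + D)

/-- Job CL. Induction on `Cl` with `t2` (shortest walk from `z` to `x`). If `m u = u` there are no edges at `u`, so `Cn … u x` means `x = u` and there are no exits. `m z ≠ z` for an exit `z` since `E g (m z)` (`cov`). -/
theorem cl_sound (hM : MM m E) (hθ : θ < ZZ V) (h : Cl m E θ u x D) (hD : D ≤ θ) : dd m E u x ≤ D := by
  induction h with
  | base _ => exact le_rfl
  | @step u z x κ D hex _ ih =>
    obtain ⟨g, hg, he, hz, hzu, rfl⟩ := hex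
    have hzx := ih (by omega)
    have hu : m u ≠ u := by
      intro hu
      have h1 := dd_fixed hM hu (x := g) (by omega)
      rw [h1] at he
      exact hM.cov _ _ he hu
    obtain ⟨L, hL⟩ := dd_walk (m := m) (E := E) (u := z) (x := x) (by omega)
    have h2 := (t2 hM hu hθ hg he hz hzu hL (by omega)).2
    rcases h2 with h2 | h2
    · omega
    · have := h2.1
      omega

/-- Job CL. Strong induction on `dd m E u x`. If `x` is in the component of `u`: `base`. Otherwise a shortest walk to `x` has consecutive vertices `g, z` with `g` in the component, `z` not in it (and `z ≠ m u` by regularity); `dd u g + 1 + dd z x ≤ dd u x` (`dd_prefix`,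
`WW.split`, `dd_le_of_walk`), induction for `z, x`. -/
theorem cl_complete (hM : MM m E) (hθ : θ < ZZ V) (h : dd m E u x < ZZ V) : ∃ D ≤ dd m E u x, Cl m E θ u x D := by
  generalize hd : dd m E u x = d
  induction d using Nat.strong_induction_on generalizing u with
  | _ d ih =>
  by_cases hx : Cn m E (dd m E u) θ u x
  · exact ⟨dd m E u x, hd.le, Cl.base hx⟩
  · obtain ⟨L, hL⟩ := dd_walk h
    obtain ⟨P, S, hPS, hS, hP⟩ := t2_suffix (fun y => Cn m E (dd m E u) θ u y) (x :: L)
    rcases hP with rfl | ⟨P', z, rfl, hz⟩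
    · exfalso
      rw [List.nil_append] at hPS
      apply hx
      apply hS
      rw [← hPS]
      exact List.mem_cons_self
    · cases S with
      | nil =>
        exfalso
        obtain ⟨L', hL'⟩ := hL.last
        rw [hPS, List.append_nil] at hL'
        have h1 := List.append_inj_right' hL' rfl
        have h2 : z = u := (List.cons.inj h1).1
        apply hz
        rw [h2]
      | cons g S' =>
        have hPS' : x :: L = P' ++ z :: g :: S' := by
          rw [hPS]
          simp
        rw [hPS'] at hL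
        obtain ⟨s₁, s₂, hW1, hW2, hs⟩ := hL.split
        obtain ⟨L', hL'⟩ : ∃ L', P' ++ [z] = x :: L' := by
          cases P' with
          | nil =>
            have h2 : x = z := (List.cons.inj hPS').1
            exact ⟨[], by rw [h2]; rfl⟩
          | cons x' P'' =>
            have h2 : x = x' := (List.cons.inj hPS').1
            exact ⟨P'' ++ [z], by rw [h2]; rfl⟩
        rw [hL'] at hW1
        have hzx := dd_le_of_walk hW1
        have hzxZ := dd_lt_of_walk hW1
        cases hW2 with
        | @cons _ _ _ s₃ k' hw he _ hmz =>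
          obtain ⟨he1, hk1⟩ := he
          subst hk1
          have hug := dd_le_of_walk hw
          have hzu : z ≠ m u := by
            intro hzu
            apply hmz
            rw [hzu, hM.invol]
            exact hw.start_mem
          obtain ⟨D, hD, hcl⟩ := ih (dd m E z x) (by omega) hzxZ rfl
          refine ⟨dd m E u g + 1 + D, by omega, Cl.step ⟨g, hS g List.mem_cons_self, he1, hz, hzu, rfl⟩ hcl⟩

end Pool.Agent.AUG
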