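import Pool.Agent.Lib.MP_0087d5_lc.AUG.Prog
import Pool.Agent.Lib.MP_0087d5_lc.AUG.Berge
import Pool.Agent.Lib.MP_0087d5_lc.AUG.Compile2

/-!
# Maximality of a matching is in NC

Jobs FA (`mt_…`, `q2_…`), FB (`q2_max`).
-/

namespace Pool.Agent.AUG

open Relation Pool.Agent.UPM

variable {n : ℕ} {G M : SimpleGraph (Fin n)} {x y : Fin n}

/-- Job FA. -/
theorem mt_exists (M : SimpleGraph (Fin n)) (x : Fin n) :
    ∃ y, (M.Adj x y ∧ ∀ z < y, ¬ M.Adj x z) ∨ (y = x ∧ ∀ z, ¬ M.Adj x z) := by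
  classical
  by_cases h : ∃ y, M.Adj x y
  · obtain ⟨y0, hy0⟩ := h
    have hne : (Finset.univ.filter (fun y => M.Adj x y)).Nonempty :=
      ⟨y0, Finset.mem_filter.2 ⟨Finset.mem_univ _, hy0⟩⟩
    refine ⟨(Finset.univ.filter (fun y => M.Adj x y)).min' hne, Or.inl ⟨?_, ?_⟩⟩
    · exact (Finset.mem_filter.1 (Finset.min'_mem _ hne)).2
    · intro z hz hadj
      exact absurd (Finset.min'_le _ z (Finset.mem_filter.2 ⟨Finset.mem_univ _, hadj⟩)) (not_le.2 hz)
  · push Not at h
    exact ⟨x, Or.inr ⟨rfl, h⟩⟩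

open Classical in
/-- The map of a graph `M`: the smallest neighbour, or `x` itself. -/
noncomputable def mt (M : SimpleGraph (Fin n)) (x : Fin n) : Fin n := (mt_exists M x).choose

/-- Job FA. -/
theorem mt_iff : mt M x = y ↔ (M.Adj x y ∧ ∀ z < y, ¬ M.Adj x z) ∨ (y = x ∧ ∀ z, ¬ M.Adj x z) := by
  have hs : (M.Adj x (mt M x) ∧ ∀ z < mt M x, ¬ M.Adj x z) ∨ (mt M x = x ∧ ∀ z, ¬ M.Adj x z) :=
    (mt_exists M x).choose_spec
  constructor
  · rintro rfl
    exact hs
  · intro h
    rcases hs with ⟨h1, h2⟩ | ⟨h1, h2⟩ <;> rcases h with ⟨h3, h4⟩ | ⟨h3, h4⟩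
    · refine le_antisymm ?_ ?_
      · by_contra hlt
        exact h2 y (not_le.1 hlt) h3
      · by_contra hlt
        exact h4 _ (not_le.1 hlt) h1
    · exact absurd h1 (h4 _)
    · exact absurd h3 (h2 _)
    · rw [h1, h3]

/-- Job FA. -/
theorem mt_mate (h : IsMat G M) : Mate G (mt M) ∧ IsMateOf M (mt M) := by
  have hadj : ∀ x y, M.Adj x y → mt M x = y := by
    intro x y hxy
    rcases (mt_iff (M := M) (x := x) (y := mt M x)).1 rfl with ⟨h1, -⟩ | ⟨-, h2⟩
    · exact h.2 x _ _ h1 hxy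
    · exact absurd hxy (h2 y)
  have hne : ∀ x, mt M x ≠ x → M.Adj x (mt M x) := by
    intro x hx
    rcases (mt_iff (M := M) (x := x) (y := mt M x)).1 rfl with ⟨h1, -⟩ | ⟨h1, -⟩
    · exact h1
    · exact absurd h1 hx
  refine ⟨⟨fun x => ?_, fun x hx => h.1 (hne x hx)⟩, fun x y => ⟨fun hxy => ⟨hadj x y hxy, hxy.ne⟩, ?_⟩⟩
  · by_cases hx : mt M x = x
    · rw [hx, hx]
    · exact hadj _ _ (hne x hx).symm
  · rintro ⟨h1, h2⟩
    have h3 := hne x (by rw [h1]; exact h2.symm)
    rwa [h1] at h3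

/-- The input of the distance program. -/
noncomputable def qs (n : ℕ) (s : GS2 n) : QS n := ⟨mt s.2, EE s.1 (mt s.2)⟩

private theorem fa_fst {ι : Type} (hι : Finite ι) (i j : ι) :
    NCP GS2 GB2 ι (fun _ s x => s.1.Adj (x i) (x j)) :=
  NCP.comap hι ![i, j] (NCP.base inferInstance GB2.fst)

private theorem fa_snd {ι : Type} (hι : Finite ι) (i j : ι) :
    NCP GS2 GB2 ι (fun _ s x => s.2.Adj (x i) (x j)) :=
  NCP.comap hι ![i, j] (NCP.base inferInstance GB2.snd)

theorem fa_mt {ι : Type} (hι : Finite ι) (i j : ι) :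
    NCP GS2 GB2 ι (fun _ s x => mt s.2 (x i) = x j) := by
  have h1 : NCP GS2 GB2 ι (fun n s x => ∀ z : Fin n, ¬ (z < x j ∧ s.2.Adj (x i) z)) :=
    NCP.all1 (S := GS2) (R := fun n s x z => ¬ (z < x j ∧ s.2.Adj (x i) z))
      (NCP.not (NCP.and (NCP.lt (ι := Option ι) inferInstance none (some j))
        (fa_snd (ι := Option ι) inferInstance (some i) none)))
  have h2 : NCP GS2 GB2 ι (fun n s x => ∀ z : Fin n, ¬ s.2.Adj (x i) z) :=
    NCP.all1 (S := GS2) (R := fun n s x z => ¬ s.2.Adj (x i) z)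
      (NCP.not (fa_snd (ι := Option ι) inferInstance (some i) none))
  refine (NCP.or (NCP.and (fa_snd hι i j) h1) (NCP.and (NCP.eq hι j i) h2)).congr fun n s x => ?_
  rw [mt_iff]
  refine or_congr (and_congr_right fun _ => forall_congr' fun z => ?_) Iff.rfl
  tauto

/-- Job FA. -/
theorem q2_readers (ι : Type) (_ : Finite ι) (P : RF QS ι) (h : QB ι P) : NCP GS2 GB2 ι (fun n s x => P n (qs n s) x) := by
  cases h with
  | mate => exact (fa_mt (ι := Fin 2) inferInstance 0 1).congr fun n s x => Iff.rfl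
  | edge =>
    refine (NCP.and (fa_fst (ι := Fin 2) inferInstance 0 1)
      (NCP.and (NCP.not (fa_mt (ι := Fin 2) inferInstance 0 1))
        (NCP.and (NCP.not (fa_mt (ι := Fin 2) inferInstance 0 0))
          (NCP.not (fa_mt (ι := Fin 2) inferInstance 1 1))))).congr fun n s x => ?_
    exact Iff.rfl

/-- Job FA. `q_dist` and `NCP.pull`. -/
theorem q2_dist : NCP GS2 GB2 (Fin 3) (fun n s x => distK n (qs n s) (x 0) (x 1) (x 2)) :=
  NCP.pull (S := QS) (B := QB) qs q2_readers q_dist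

/-- Reachability by regular walks, as computed. -/
def reachK (n : ℕ) (s : GS2 n) (z x : Fin n) : Prop := ∃ k : Fin n, distK n (qs n s) z x k

/-- Job FA. (`distK_iff`, `dd_lt_n`.) -/
theorem reachK_iff (s : GS2 n) (h : IsMat s.1 s.2) (z x : Fin n) : reachK n s z x ↔ dd (mt s.2) (EE s.1 (mt s.2)) z x < ZZ (Fin n) := by
  have hM : MM (qs n s).m (qs n s).E := (mt_mate h).1.mm
  unfold reachK
  constructor
  · rintro ⟨k, hk⟩
    have h1 := (distK_iff (qs n s) hM z x k).1 hk
    have h2 : dd (mt s.2) (EE s.1 (mt s.2)) z x = k := h1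
    rw [h2]
    have h3 := k.2
    unfold ZZ
    rw [Fintype.card_fin]
    omega
  · intro hlt
    have h1 := dd_lt_n hlt
    exact ⟨⟨_, h1⟩, (distK_iff (qs n s) hM z x _).2 rfl⟩

/-- The augmenting path condition, as computed. -/
def augK (n : ℕ) (s : GS2 n) : Prop :=
  ∃ a b : Fin n, a ≠ b ∧ mt s.2 a = a ∧ mt s.2 b = b ∧
    (s.1.Adj a b ∨ ∃ z x : Fin n, mt s.2 z ≠ z ∧ s.1.Adj a (mt s.2 z) ∧ reachK n s z x ∧ s.1.Adj x b)

private theorem fb_fst {ι : Type} (hι : Finite ι) (i j : ι) : NCP GS2 GB2 ι (fun _ s x => s.1.Adj (x i) (x j)) :=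
  NCP.comap hι ![i, j] (NCP.base inferInstance GB2.fst)

private theorem fb_snd {ι : Type} (hι : Finite ι) (i j : ι) : NCP GS2 GB2 ι (fun _ s x => s.2.Adj (x i) (x j)) :=
  NCP.comap hι ![i, j] (NCP.base inferInstance GB2.snd)

private theorem fb_mt {ι : Type} (hι : Finite ι) (i j : ι) : NCP GS2 GB2 ι (fun _ s x => mt s.2 (x i) = x j) := by
  have h : NCP GS2 GB2 ι (fun n s x => (s.2.Adj (x i) (x j) ∧ ∀ z : Fin n, z < x j → ¬ s.2.Adj (x i) z) ∨
      (x j = x i ∧ ∀ z : Fin n, ¬ s.2.Adj (x i) z)) :=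
    NCP.or (NCP.and (fb_snd hι i j) (NCP.all1 (NCP.imp (NCP.lt (ι := Option ι) inferInstance none (some j))
        (NCP.not (fb_snd (ι := Option ι) inferInstance (some i) none)))))
      (NCP.and (NCP.eq hι j i) (NCP.all1 (NCP.not (fb_snd (ι := Option ι) inferInstance (some i) none))))
  exact h.congr fun n s x => mt_iff.symm

private theorem fb_reach {ι : Type} (hι : Finite ι) (i j : ι) : NCP GS2 GB2 ι (fun n s x => reachK n s (x i) (x j)) := by
  have h : NCP GS2 GB2 ι (fun n s x => ∃ k : Fin n, distK n (qs n s) (x i) (x j) k) :=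
    NCP.ex1 (NCP.comap (κ := Option ι) inferInstance ![some i, some j, none] q2_dist)
  exact h

private theorem fb_mat : NCP GS2 GB2 (Fin 0) (fun _ s _ => IsMat s.1 s.2) := by
  have h : NCP GS2 GB2 (Fin 0) (fun n s _ => (∀ a b : Fin n, s.2.Adj a b → s.1.Adj a b) ∧
      ∀ v w w' : Fin n, s.2.Adj v w → s.2.Adj v w' → w = w') :=
    NCP.and (NCP.all1 (NCP.all1 (NCP.imp (fb_snd (ι := Option (Option (Fin 0))) inferInstance (some none) none)
        (fb_fst (ι := Option (Option (Fin 0))) inferInstance (some none) none))))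
      (NCP.all1 (NCP.all1 (NCP.all1 (NCP.imp
        (fb_snd (ι := Option (Option (Option (Fin 0)))) inferInstance (some (some none)) (some none))
        (NCP.imp (fb_snd (ι := Option (Option (Option (Fin 0)))) inferInstance (some (some none)) none)
          (NCP.eq (ι := Option (Option (Option (Fin 0)))) inferInstance (some none) none))))))
  exact h.congr fun n s x => Iff.rfl

private theorem fb_aug : NCP GS2 GB2 (Fin 0) (fun n s _ => augK n s) := by
  have h : NCP GS2 GB2 (Fin 0) (fun n s _ => ∃ a b : Fin n, ¬ (a = b) ∧ mt s.2 a = a ∧ mt s.2 b = b ∧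
      (s.1.Adj a b ∨ ∃ z x : Fin n, ¬ (mt s.2 z = z) ∧ (∃ y : Fin n, mt s.2 z = y ∧ s.1.Adj a y) ∧ reachK n s z x ∧ s.1.Adj x b)) := by
    refine NCP.ex1 (NCP.ex1 ?_)
    refine NCP.and (NCP.not (NCP.eq (ι := Option (Option (Fin 0))) inferInstance (some none) none))
      (NCP.and (fb_mt inferInstance (some none) (some none)) (NCP.and (fb_mt inferInstance none none)
        (NCP.or (fb_fst inferInstance (some none) none) (NCP.ex1 (NCP.ex1 ?_)))))
    exact NCP.and (NCP.not (fb_mt (ι := Option (Option (Option (Option (Fin 0))))) inferInstance (some none) (some none)))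
      (NCP.and (NCP.ex1 (NCP.and
          (fb_mt (ι := Option (Option (Option (Option (Option (Fin 0)))))) inferInstance (some (some none)) none)
          (fb_fst (ι := Option (Option (Option (Option (Option (Fin 0)))))) inferInstance (some (some (some (some none)))) none)))
        (NCP.and (fb_reach inferInstance (some none) none)
          (fb_fst inferInstance none (some (some none)))))
  refine h.congr fun n s x => ?_
  simp only [augK, exists_eq_left', ne_eq]

/-- Job FB. -/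
theorem q2_max : NCP GS2 GB2 (Fin 0) (fun n s _ => IsMat s.1 s.2 ∧ ¬ augK n s) :=
  NCP.and fb_mat (NCP.not fb_aug)

/-- Job FB. -/
theorem max_iff (s : GS2 n) : (IsMat s.1 s.2 ∧ ¬ augK n s) ↔ IsMaxMat s.1 s.2 := by
  have key : IsMat s.1 s.2 → (IsMaxMat s.1 s.2 ↔ ¬ augK n s) := by
    intro h
    obtain ⟨h1, h2⟩ := mt_mate h
    rw [isMaxMat_iff h h1 h2]
    have h3 : AugPath s.1 (mt s.2) ↔ augK n s := by
      simp only [AugPath, augK, reachK_iff s h]
    rw [h3]
  constructor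
  · rintro ⟨h1, h2⟩
    exact (key h1).2 h2
  · intro h
    exact ⟨h.1, (key h.1).1 h⟩

/-- **It can be decided in NC whether a given matching of a given graph has the largest number of edges.** -/
theorem maximality_in_NC : InNC2 (fun n G M => IsMaxMat G M) := by
  have h := relNC2_of_NCP q2_max
  have he : (fun (n : ℕ) (G M : SimpleGraph (Fin n)) (_ : Fin 0 → Fin n) => IsMat G M ∧ ¬ augK n (G, M)) =
      (fun (n : ℕ) (G M : SimpleGraph (Fin n)) (_ : Fin 0 → Fin n) => IsMaxMat G M) := by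
    funext n G M _
    exact propext (max_iff (G, M))
  unfold InNC2
  rw [← he]
  exact h

end Pool.Agent.AUG
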