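import Pool.Agent.Lib.MP_0087d5_lc.AUG.Berge

/-!
# The Gallai–Edmonds set and the allowed edges, by regular walks

Jobs GA (`ge_of_reach`), GB (`reach_of_ge`), GC (`allowed_iff`).
-/

namespace Pool.Agent.AUG

open Relation Finset

variable {V : Type*} [Fintype V] {G M : SimpleGraph V} {m ν : V → V} {v a b : V}

/-- `v` is exposed, or reached from an exposed vertex by an alternating path of even length. -/
def EvenReach (G : SimpleGraph V) (m : V → V) (v : V) : Prop :=
  m v = v ∨ ∃ s z, m s = s ∧ m z ≠ z ∧ G.Adj s (m z) ∧ dd m (EE G m) z v < ZZ V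

/-- Job GEB. Transfer of a walk to a larger matching in a larger graph. -/
theorem geb_transfer {G' : SimpleGraph V} {m' : V → V} (hM' : Mate G' m') (hle : ∀ a b, G'.Adj a b → G.Adj a b)
    (he : ∀ w, m' w ≠ w → m' w = m w) {z : V} {Lx : List V} {k : ℕ} (hW : WW m' (one (EE G' m')) z Lx k) :
    WW m (one (EE G m)) z Lx k := by
  induction hW with
  | nil => exact WW.nil
  | @cons x y L s k h hk h1 h2 ih =>
    obtain ⟨⟨e1, e2, e3, e4⟩, hk1⟩ := hk
    have hy : m' y ≠ y := by
      intro hc
      apply e4
      rw [hc, hc]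
    have hy' := he y hy
    have hx' := he x e3
    have hyy := he (m' y) e4
    refine WW.cons ih ⟨⟨?_, ?_, ?_, ?_⟩, hk1⟩ h1 ?_
    · rw [← hy']; exact hle _ _ e1
    · rw [← hx', ← hy']; exact e2
    · rw [← hx']; exact e3
    · rw [← hy', ← hyy]; exact e4
    · rw [← hy']; exact h2

/-- Job GEB. The vertices of a walk from a covered vertex are covered. -/
theorem geb_covered (hm : Mate G m) {z : V} {Lx : List V} {k : ℕ} (hz : m z ≠ z) (hW : WW m (one (EE G m)) z Lx k) :
    ∀ w ∈ Lx, m w ≠ w := by
  induction hW with
  | nil =>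
    intro w hw
    rw [List.mem_singleton] at hw
    rw [hw]
    exact hz
  | @cons x y L s k h hk h1 h2 ih =>
    intro w hw
    rcases List.mem_cons.1 hw with h3 | h3
    · subst h3
      intro hc
      apply hk.1.2.2.2
      rw [hc, hc]
    · exact ih w h3

/-- Job GEB. Reversing an augmenting path. -/
theorem geb_symm (hm : Mate G m) {s t : V}
    (h : G.Adj s t ∨ ∃ z x, m z ≠ z ∧ G.Adj s (m z) ∧ dd m (EE G m) z x < ZZ V ∧ G.Adj x t) :
    G.Adj t s ∨ ∃ z x, m z ≠ z ∧ G.Adj t (m z) ∧ dd m (EE G m) z x < ZZ V ∧ G.Adj x s := by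
  rcases h with h | ⟨z, x, h1, h2, h3, h4⟩
  · exact Or.inl h.symm
  · right
    obtain ⟨L, hW⟩ := dd_walk h3
    have hcov := geb_covered hm h1 hW
    have hmir := hW.mirror hm.mm.mt
    obtain ⟨L', hL'⟩ := hW.last
    rw [hL', List.map_append, List.reverse_append, List.map_singleton, List.reverse_singleton,
      List.singleton_append] at hmir
    refine ⟨m x, m z, ?_, ?_, dd_lt_of_walk hmir, h2.symm⟩
    · rw [hm.invol]
      exact (hcov x (by simp)).symm
    · rw [hm.invol]
      exact h4.symm

/-- Job GEB. The graph without the edges at `v`. -/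
def gebG (G : SimpleGraph V) (v : V) : SimpleGraph V where
  Adj x y := G.Adj x y ∧ x ≠ v ∧ y ≠ v
  symm := ⟨fun _ _ h => ⟨h.1.symm, h.2.2, h.2.1⟩⟩
  loopless := ⟨fun _ h => h.1.ne rfl⟩

open Classical in
/-- Job GEB. The matching with the pair of `v` exposed. -/
noncomputable def gebM (m : V → V) (v w : V) : V := if w = v ∨ w = m v then w else m w

theorem gebM_cov {w : V} (h : gebM m v w ≠ w) : w ≠ v ∧ w ≠ m v ∧ gebM m v w = m w := by
  unfold gebM at h ⊢
  by_cases h1 : w = v ∨ w = m v
  · rw [if_pos h1] at h
    exact absurd rfl h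
  · rw [if_neg h1]
    rw [not_or] at h1
    exact ⟨h1.1, h1.2, rfl⟩

theorem gebM_of {w : V} (h1 : w ≠ v) (h2 : w ≠ m v) : gebM m v w = m w := by
  unfold gebM
  rw [if_neg]
  rw [not_or]
  exact ⟨h1, h2⟩

theorem gebM_left : gebM m v v = v := by
  unfold gebM
  rw [if_pos (Or.inl rfl)]

theorem gebM_right : gebM m v (m v) = m v := by
  unfold gebM
  rw [if_pos (Or.inr rfl)]

theorem gebM_mate (hm : Mate G m) : Mate (gebG G v) (gebM m v) := by
  constructor
  · intro w
    by_cases h : gebM m v w = w
    · rw [h, h]
    · obtain ⟨h1, h2, h3⟩ := gebM_cov h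
      rw [h3, gebM_of, hm.invol]
      · intro he
        apply h2
        rw [← he, hm.invol]
      · intro he
        apply h1
        rw [← hm.invol w, he, hm.invol]
  · intro w h
    obtain ⟨h1, h2, h3⟩ := gebM_cov h
    rw [h3] at h ⊢
    refine ⟨hm.adj w h, h1, ?_⟩
    intro he
    apply h2
    rw [← he, hm.invol]

open Classical in
theorem gebM_card (hm : Mate G m) (hv : m v ≠ v) :
    (univ.filter (fun w => gebM m v w ≠ w)).card + 2 = (univ.filter (fun w => m w ≠ w)).card := by
  have hset : univ.filter (fun w => gebM m v w ≠ w) = ((univ.filter (fun w => m w ≠ w)).erase v).erase (m v) := by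
    ext w
    simp only [mem_filter, mem_univ, true_and, mem_erase]
    constructor
    · intro hw
      obtain ⟨h1, h2, h3⟩ := gebM_cov hw
      rw [h3] at hw
      exact ⟨h2, h1, hw⟩
    · rintro ⟨h2, h1, hw⟩
      rw [gebM_of h1 h2]
      exact hw
  have hv1 : v ∈ univ.filter (fun w => m w ≠ w) := by
    simp only [mem_filter, mem_univ, true_and]
    exact hv
  have hv2 : m v ∈ (univ.filter (fun w => m w ≠ w)).erase v := by
    simp only [mem_filter, mem_univ, true_and, mem_erase]
    refine ⟨hv, ?_⟩
    rw [hm.invol]
    exact hv.symm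
  rw [hset]
  have e1 := card_erase_add_one hv2
  have e2 := card_erase_add_one hv1
  omega

theorem gebG_mate {ν : V → V} (hν : Mate G ν) (hv : ν v = v) : Mate (gebG G v) ν := by
  refine ⟨hν.invol, ?_⟩
  intro w hw
  refine ⟨hν.adj w hw, ?_, ?_⟩
  · rintro rfl
    exact hw hv
  · intro he
    apply hw
    have : w = v := by rw [← hν.invol w, he, hv]
    rw [this, hv]

/-- Job GA. `swap_walk` (and `exists_graph`, `two_edges`). -/
theorem ge_of_reach (hM : IsMaxMat G M) (hm : Mate G m) (hMm : IsMateOf M m) (h : EvenReach G m v) :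
    ∃ N, IsMaxMat G N ∧ ∀ y, ¬ N.Adj v y := by
  classical
  rcases h with h | ⟨s, z, h1, h2, h3, h4⟩
  · refine ⟨M, hM, ?_⟩
    intro y hy
    have := (hMm v y).1 hy
    exact this.2 (h.symm.trans this.1)
  · obtain ⟨L, hW⟩ := dd_walk h4
    obtain ⟨ν, g1, g2, g3, g4, g5⟩ := swap_walk hm h1 h2 h3 hW
    obtain ⟨N, k1, k2⟩ := exists_graph g1
    have e1 := two_edges g1 k2
    have e2 := two_edges hm hMm
    refine ⟨N, ⟨k1, ?_⟩, ?_⟩
    · intro N' hN'
      have := hM.2 N' hN'
      omega
    · intro y hy
      have := (k2 v y).1 hy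
      exact this.2 (g2.symm.trans this.1)

/-- Job GB. Let `N` be a maximum matching which does not cover `v`, and suppose `m v ≠ v`. Let `G'` be `G` without the edges at `v`, and `m'` = `m` with `v`, `m v` made exposed; it is a matching of `G'` which covers two vertices less than `m`; the mate map `ν` of `N` is a matching of `G'` which covers as many vertices as `m`. By `berge` there is an augmenting path for
`m'` in `G'`, with end points `s, t` exposed in `m'`, not `v` (no edges at `v`). If both are exposed in `m` (i.e. different from `m v`), it is an augmenting path for `m` in `G`, contradicting `aug_bigger` and maximality (`isMaxMat_iff`). (A regular walk for `m'`, `EE G' m'` is one for `m`, `EE G m`; it does not contain `v`, `m v`.)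
So one of them is `m v`, the other one `s` is exposed in `m` (for the case `s = m v` reverse the path, `WW.mirror`). If `G'.Adj s (m v)`: `z = v`, the walk `[v]`. Otherwise `G.Adj s (m z)`, regular walk from `z` to `x`, `G.Adj x (m v)`: the arc `x → v` prolongs the walk. -/
theorem reach_of_ge (hM : IsMaxMat G M) (hm : Mate G m) (hMm : IsMateOf M m) {N : SimpleGraph V} (hN : IsMaxMat G N) (hv : ∀ y, ¬ N.Adj v y) : EvenReach G m v := by
  classical
  by_cases hmv : m v = v
  · exact Or.inl hmv
  right
  obtain ⟨ν, hν, hNν⟩ := exists_mate hN.1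
  have hνv : ν v = v := by
    by_contra hc
    exact hv (ν v) ((hNν v (ν v)).2 ⟨rfl, fun h => hc h.symm⟩)
  have hM' : Mate (gebG G v) (gebM m v) := gebM_mate hm
  have hN' : Mate (gebG G v) ν := gebG_mate hν hνv
  have hcard : (univ.filter (fun w => gebM m v w ≠ w)).card < (univ.filter (fun w => ν w ≠ w)).card := by
    have e1 := gebM_card hm hmv
    have e2 := two_edges hm hMm
    have e3 := two_edges hν hNν
    have e4 := hM.2 N hN.1
    have e5 := hN.2 M hM.1
    omega
  have hnoaug : ¬ AugPath G m := (isMaxMat_iff hM.1 hm hMm).1 hM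
  have hmax := berge hM' hN' hcard
  have hle : ∀ a b, (gebG G v).Adj a b → G.Adj a b := fun a b h => h.1
  have heq : ∀ w, gebM m v w ≠ w → gebM m v w = m w := fun w h => (gebM_cov h).2.2
  -- the main case
  have main : ∀ s t, s ≠ t → gebM m v s = s → gebM m v t = t →
      ((gebG G v).Adj s t ∨ ∃ z x, gebM m v z ≠ z ∧ (gebG G v).Adj s (gebM m v z) ∧
        dd (gebM m v) (EE (gebG G v) (gebM m v)) z x < ZZ V ∧ (gebG G v).Adj x t) → s ≠ m v →
      ∃ s z, m s = s ∧ m z ≠ z ∧ G.Adj s (m z) ∧ dd m (EE G m) z v < ZZ V := by
    intro s t hst hs ht hp hsv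
    have hsv' : s ≠ v := by
      rcases hp with hp | ⟨z, x, _, hp, _⟩
      · exact hp.2.1
      · exact hp.2.1
    have htv' : t ≠ v := by
      rcases hp with hp | ⟨z, x, _, _, _, hp⟩
      · exact hp.2.2
      · exact hp.2.2
    have hms : m s = s := by
      rw [← gebM_of (v := v) hsv' hsv]
      exact hs
    by_cases htm : t = m v
    · subst htm
      rcases hp with hp | ⟨z, x, h1, h2, h3, h4⟩
      · refine ⟨s, v, hms, hmv, hp.1, ?_⟩
        rw [dd_self]
        unfold ZZ
        omega
      · obtain ⟨L, hW⟩ := dd_walk h3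
        have hcov := geb_covered hM' h1 hW
        have hW2 := geb_transfer (m := m) hM' hle heq hW
        have hz := gebM_cov h1
        have hx := gebM_cov (hcov x (by simp))
        refine ⟨s, z, hms, ?_, ?_, ?_⟩
        · rw [← hz.2.2]; exact h1
        · rw [← hz.2.2]; exact h2.1
        · have harc : EE G m x (m v) := by
            refine ⟨h4.1, ?_, ?_, ?_⟩
            · intro he
              apply hx.1
              rw [← hm.invol x, he, hm.invol]
            · rw [← hx.2.2]
              exact hcov x (by simp)
            · rw [hm.invol]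
              exact Ne.symm hmv
          have hW3 := hW2.snoc harc (fun hc => hcov v hc gebM_left) (fun hc => hcov (m v) hc gebM_right)
          exact dd_lt_of_walk hW3
    · exfalso
      apply hnoaug
      have hmt : m t = t := by
        rw [← gebM_of (v := v) htv' htm]
        exact ht
      refine ⟨s, t, hst, hms, hmt, ?_⟩
      rcases hp with hp | ⟨z, x, h1, h2, h3, h4⟩
      · exact Or.inl hp.1
      · right
        obtain ⟨L, hW⟩ := dd_walk h3
        have hW2 := geb_transfer (m := m) hM' hle heq hW
        have hz := gebM_cov h1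
        refine ⟨z, x, ?_, ?_, dd_lt_of_walk hW2, h4.1⟩
        · rw [← hz.2.2]; exact h1
        · rw [← hz.2.2]; exact h2.1
  obtain ⟨s, t, hst, hs, ht, hp⟩ := hmax
  by_cases hsm : s = m v
  · exact main t s hst.symm ht hs (geb_symm hM' hp) (by rw [← hsm]; exact hst.symm)
  · exact main s t hst hs ht hp hsm

/-- Job GEC. Transfer of a walk to a smaller matching, if it avoids the exposed vertices. -/
theorem gec_transfer {m' : V → V} (hm : Mate G m) {b : V} (he : ∀ w, w ≠ b → w ≠ m b → m' w = m w)
    {z : V} {Lx : List V} {k : ℕ} (hW : WW m (one (EE G m)) z Lx k) (hb : ∀ w ∈ Lx, w ≠ b ∧ w ≠ m b) :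
    WW m' (one (EE G m')) z Lx k := by
  induction hW with
  | nil => exact WW.nil
  | @cons x y L s k h hk h1 h2 ih =>
    obtain ⟨⟨e1, e2, e3, e4⟩, hk1⟩ := hk
    have hy := hb y (by simp)
    have hx := hb x (by simp)
    have hy' := he y hy.1 hy.2
    have hx' := he x hx.1 hx.2
    have hyy : m' (m y) = m (m y) := by
      apply he
      · intro hc
        apply hy.2
        rw [← hc, hm.invol]
      · intro hc
        apply hy.1
        rw [← hm.invol y, hc, hm.invol]
    refine WW.cons (ih (fun w hw => hb w (List.mem_cons_of_mem _ hw))) ⟨⟨?_, ?_, ?_, ?_⟩, hk1⟩ h1 ?_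
    · rw [hy']; exact e1
    · rw [hx', hy']; exact e2
    · rw [hx']; exact e3
    · rw [hy', hyy]; exact e4
    · rw [hy']; exact h2

open Classical in
/-- Job GEC. Joining two exposed vertices of an almost perfect matching. -/
theorem gec_join {ν : V → V} {a b : V} (hν : Mate G ν) (ha : ν a = a) (hb : ν b = b) (hadj : G.Adj a b)
    (hc : ∀ w, w ≠ a → w ≠ b → ν w ≠ w) : ∃ ν', Mate G ν' ∧ (∀ x, ν' x ≠ x) ∧ ν' a = b := by
  have hab : a ≠ b := hadj.ne
  have hinv := hν.invol
  refine ⟨fun w => if w = a then b else if w = b then a else ν w, ⟨?_, ?_⟩, ?_, by simp⟩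
  · intro w
    by_cases h1 : w = a
    · subst h1
      simp [hab.symm]
    · by_cases h2 : w = b
      · subst h2
        simp [hab.symm]
      · have h4 : ν w ≠ a := by
          intro h
          apply h1
          rw [← hinv w, h, ha]
        have h5 : ν w ≠ b := by
          intro h
          apply h2
          rw [← hinv w, h, hb]
        simp [h1, h2, h4, h5, hinv w]
  · intro w hw
    by_cases h1 : w = a
    · subst h1
      simpa using hadj
    · by_cases h2 : w = b
      · subst h2
        simpa [hab.symm] using hadj.symm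
      · simp only [h1, h2, if_false] at hw ⊢
        exact hν.adj w hw
  · intro w
    by_cases h1 : w = a
    · subst h1
      simp [hab.symm]
    · by_cases h2 : w = b
      · subst h2
        simp [hab, h1]
      · simp only [h1, h2, if_false]
        exact hc w h1 h2

open Classical in
/-- Job GEC. A matching without edges at `b` of a graph with a perfect matching covers at most all but two vertices. -/
theorem gec_max {μ ν : V → V} {b : V} (hm : Mate G m) (hp : ∀ x, m x ≠ x) (hμ : Mate (gebG G b) μ) (hν : Mate (gebG G b) ν)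
    (hc : (univ.filter (fun w => ν w ≠ w)).card + 2 = (univ.filter (fun w => m w ≠ w)).card) :
    (univ.filter (fun w => μ w ≠ w)).card ≤ (univ.filter (fun w => ν w ≠ w)).card := by
  obtain ⟨M₀, h1, h2⟩ := exists_graph hm
  obtain ⟨M₁, h3, h4⟩ := exists_graph hμ
  have e1 := two_edges hm h2
  have e2 := two_edges hμ h4
  have e3 : (univ.filter (fun w => m w ≠ w)) = (univ : Finset V) := by
    ext w
    simp [hp w]
  have e4 : (univ.filter (fun w => μ w ≠ w)).card < (univ : Finset V).card := by
    apply card_lt_card
    rw [ssubset_iff_of_subset (subset_univ _)]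
    refine ⟨b, mem_univ _, ?_⟩
    simp only [mem_filter, mem_univ, true_and, not_not]
    by_contra hcon
    exact (hμ.adj b hcon).2.1 rfl
  have e5 : (univ.filter (fun w => m w ≠ w)).card = (univ : Finset V).card := by rw [e3]
  omega

/-- Job GC. Allowed edges. `M` is a perfect matching (`m x ≠ x` for all `x`). An edge `{a, b}` which is not in `M` is in some perfect matching iff there is a regular walk from `m b` to `a`.
(←) The walk has at least one arc (`a ≠ m b`): `m b → z → … → a`. Let `m'` be `m` with `b`, `m b` made exposed: the path `m b, m z, z, …, a, b` is augmenting for `m'`; apply `swap_walk` for `m'`, `s = m b`, from `z` to `a`, and then match `a` with `b`: a perfect matching containing `{a, b}`.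
(→) Let `ν` be the mate map of a perfect matching with `ν a = b`. Let `G'` be `G` without the edges at `b`. In `G'` the matchings `m'` (`b`, `m b` exposed) and `ν'` (`a`, `b` exposed) cover all but two vertices, one of which is `b`, so both are maximal (the number of covered vertices is even). By `reach_of_ge` for `G'`, `m'`, `a` (`m' a ≠ a` since `a ≠ b`, `a ≠ m b`) there are `s` exposed in `m'`,
not `b` (no edges at `b`), so `s = m b`, and `z` with `G.Adj (m b) (m z)` and a regular walk from `z` to `a` (for `m'`, hence for `m`; it does not contain `b`, `m b`). So `m b → z → … → a` is a regular walk. -/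
theorem allowed_iff (hm : Mate G m) (hp : ∀ x, m x ≠ x) (hab : G.Adj a b) (hma : m a ≠ b) :
    (∃ ν, Mate G ν ∧ (∀ x, ν x ≠ x) ∧ ν a = b) ↔ dd m (EE G m) (m b) a < ZZ V := by
  classical
  have hamb : a ≠ m b := by
    intro he
    apply hma
    rw [he, hm.invol]
  have hmbb : m b ≠ b := hp b
  constructor
  · rintro ⟨ν, hν, hνp, hνab⟩
    have hνba : ν b = a := by rw [← hνab, hν.invol]
    have hM' : Mate (gebG G b) (gebM m b) := gebM_mate hm
    have hN' : Mate (gebG G b) (gebM ν b) := gebM_mate hν
    have c1 := gebM_card hm hmbb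
    have c2 := gebM_card hν (hνp b)
    have hall : (univ.filter (fun w => ν w ≠ w)).card = (univ.filter (fun w => m w ≠ w)).card := by
      congr 1
      ext w
      simp [hp w, hνp w]
    obtain ⟨M', k1, k2⟩ := exists_graph hM'
    obtain ⟨N', k3, k4⟩ := exists_graph hN'
    have e1 := two_edges hM' k2
    have e2 := two_edges hN' k4
    have hmaxM : IsMaxMat (gebG G b) M' := by
      refine ⟨k1, ?_⟩
      intro K hK
      obtain ⟨μ, hμ1, hμ2⟩ := exists_mate hK
      have e3 := two_edges hμ1 hμ2
      have e4 := gec_max hm hp hμ1 hM' c1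
      omega
    have hmaxN : IsMaxMat (gebG G b) N' := by
      refine ⟨k3, ?_⟩
      intro K hK
      obtain ⟨μ, hμ1, hμ2⟩ := exists_mate hK
      have e3 := two_edges hμ1 hμ2
      have e4 := gec_max hm hp hμ1 hM' c1
      omega
    have hva : gebM ν b a = a := by
      have : gebM ν b (ν b) = ν b := gebM_right
      rwa [hνba] at this
    have hNv : ∀ y, ¬ N'.Adj a y := by
      intro y hy
      have := (k4 a y).1 hy
      exact this.2 (hva.symm.trans this.1)
    rcases reach_of_ge hmaxM hM' k2 hmaxN hNv with h | ⟨s, z, h1, h2, h3, h4⟩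
    · exfalso
      rw [gebM_of hab.ne hamb] at h
      exact hp a h
    · have hsb : s ≠ b := h3.2.1
      have hsm : s = m b := by
        by_contra hc
        rw [gebM_of hsb hc] at h1
        exact hp s h1
      subst hsm
      obtain ⟨L, hW⟩ := dd_walk h4
      have hcov := geb_covered hM' h2 hW
      have hz := gebM_cov h2
      have hW2 := geb_transfer (G := G) (m := m) hM' (fun a b h => h.1) (fun w h => (gebM_cov h).2.2) hW
      have harc : one (EE G m) (m b) (m z) 1 := by
        refine ⟨⟨?_, ?_, ?_, ?_⟩, rfl⟩
        · rw [← hz.2.2]; exact h3.1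
        · rw [hm.invol]
          intro he
          apply hz.2.1
          rw [he, hm.invol]
        · rw [hm.invol]
          exact hmbb.symm
        · rw [hm.invol]
          exact (hp z).symm
      have hW3 : WW m (one (EE G m)) (m b) ((a :: L) ++ m b :: [])
          (0 + 1 + dd (gebM m b) (EE (gebG G b) (gebM m b)) z a) := by
        refine WW.append_arc WW.nil harc hW2 ?_
        intro w hw
        have c1 := gebM_cov (hcov w hw)
        simp only [List.mem_singleton]
        refine ⟨c1.2.1, ?_⟩
        intro he
        apply c1.1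
        rw [← hm.invol w, he, hm.invol]
      exact dd_lt_of_walk hW3
  · intro hd
    obtain ⟨L, hW⟩ := dd_walk hd
    obtain ⟨L', hL'⟩ := hW.last
    -- the walk has at least one arc
    have hL0 : L' ≠ [] := by
      rintro rfl
      simp only [List.nil_append, List.cons.injEq] at hL'
      exact hamb hL'.1
    obtain ⟨L₁, z, rfl⟩ : ∃ L₁ z, L' = L₁ ++ [z] :=
      ⟨L'.dropLast, L'.getLast hL0, (List.dropLast_append_getLast hL0).symm⟩
    have hWl : WW m (one (EE G m)) (m b) (L₁ ++ z :: [m b]) (dd m (EE G m) (m b) a) := by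
      have : L₁ ++ z :: [m b] = a :: L := by rw [hL']; simp
      rw [this]
      exact hW
    obtain ⟨s₁, s₂, hW1, hW2, _⟩ := hWl.split
    have hnd := hWl.nodup
    have hnm := fun w (hw : w ∈ L₁ ++ z :: [m b]) => hWl.mate_not_mem hm.mm.mt (by rw [hm.invol]; exact hmbb.symm) hw
    have hbn : b ∉ L₁ ++ z :: [m b] := by
      have := hnm (m b) (by simp)
      rwa [hm.invol] at this
    have hmbn : m b ∉ L₁ ++ [z] := by
      have : (L₁ ++ z :: [m b]) = (L₁ ++ [z]) ++ [m b] := by simp
      rw [this, List.nodup_append] at hnd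
      intro hc
      exact hnd.2.2 _ hc _ (by simp) rfl
    have hav : ∀ w ∈ L₁ ++ [z], w ≠ b ∧ w ≠ m b := by
      intro w hw
      constructor
      · rintro rfl
        apply hbn
        rw [List.mem_append] at hw ⊢
        rcases hw with hw | hw
        · exact Or.inl hw
        · right
          rw [List.mem_singleton] at hw
          simp [hw]
      · rintro rfl
        exact hmbn hw
    have hm'v : ∀ w, w ≠ b → w ≠ m b → gebM m b w = m w := fun w h1 h2 => gebM_of h1 h2
    have hW1' := gec_transfer hm hm'v hW1 hav
    have hz := hav z (by simp)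
    have harc : G.Adj (m b) (m z) := by
      cases hW2 with
      | cons h hk h1 h2 => exact hk.1.1
    have hMG : Mate G (gebM m b) := by
      have := gebM_mate (v := b) hm
      exact ⟨this.invol, fun w hw => (this.adj w hw).1⟩
    -- the head of the first part is `a`
    obtain ⟨T, hT⟩ : ∃ T, L₁ ++ [z] = a :: T := by
      cases L₁ with
      | nil =>
        simp only [List.nil_append, List.cons_append, List.cons.injEq] at hL'
        exact ⟨[], by rw [hL'.1]; rfl⟩
      | cons c L₁ =>
        simp only [List.cons_append, List.cons.injEq] at hL'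
        exact ⟨L₁ ++ [z], by rw [hL'.1]; rfl⟩
    rw [hT] at hW1'
    obtain ⟨ν, g1, g2, g3, g4, g5⟩ := swap_walk (s := m b) hMG gebM_right
      (by rw [hm'v z hz.1 hz.2]; exact hp z) (by rw [hm'v z hz.1 hz.2]; exact harc) hW1'
    rw [hT] at hav
    have hbT : b ∉ a :: T := fun hc => (hav b hc).1 rfl
    have hνb : ν b = b := by
      rw [g4 b hmbb.symm hbT (by rw [gebM_left]; exact hbT), gebM_left]
    apply gec_join g1 g2 hνb hab
    have c1 := gebM_card hm hmbb
    have e3 : (univ.filter (fun w => m w ≠ w)) = (univ : Finset V) := by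
      ext w
      simp [hp w]
    rw [e3] at c1
    -- counting
    intro w hwa hwb hc
    have hsub : (univ.filter (fun w => ν w ≠ w)) ⊆ (((univ : Finset V).erase a).erase b).erase w := by
      intro y hy
      simp only [mem_filter, mem_univ, true_and, mem_erase] at hy ⊢
      refine ⟨?_, ?_, ?_, trivial⟩
      · rintro rfl
        exact hy hc
      · rintro rfl
        exact hy hνb
      · rintro rfl
        exact hy g2
    have hcard := card_le_card hsub
    have f1 : w ∈ ((univ : Finset V).erase a).erase b := by simp [hwa, hwb]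
    have f2 : b ∈ (univ : Finset V).erase a := by simp [hab.ne.symm]
    have f3 : a ∈ (univ : Finset V) := mem_univ a
    have d1 := card_erase_add_one f1
    have d2 := card_erase_add_one f2
    have d3 := card_erase_add_one f3
    omega

end Pool.Agent.AUG
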