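import Pool.Agent.Lib.MP_0087d5_lc.UPM.NC

/-!
# Circuits whose input is a pair of graphs

As `UPM/NC.lean` (first-order uniform families of NAND circuits of polynomial size, fan-in two and polylogarithmic depth), but the input is a pair of graphs `G, M` on the vertices 0,…,n-1, given by their adjacency matrices.
The output is a relation with `r` arguments: `r = 0` is a decision problem (one output gate), `r = 2` an adjacency matrix (n² output gates).
-/

namespace Pool.Agent.AUG

open Pool.Agent.UPM (FODef)

/-- A first-order uniform family of circuits with NAND gates, whose input is a pair of graphs, and whose output is an `r`-ary relation on {0,…,n-1}. -/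
structure CircuitFamily2 (r : ℕ) where
  /-- the tags -/
  T : Type
  finT : Finite T
  /-- the gates with tag `t` of the n-th circuit are the tuples `A t → Fin n` -/
  A : T → Type
  finA : ∀ t, Finite (A t)
  /-- `inp t = some (b, i, j)`: the gates `(t, x)` read the entry `(x i, x j)` of the adjacency matrix of the first graph (`b = true`) or of the second graph (`b = false`) -/
  inp : ∀ t, Option (Bool × A t × A t)
  /-- `wire a b n x y`: gate `(b, y)` is an input of gate `(a, x)` -/
  wire : ∀ (a b : T) (n : ℕ), (A a → Fin n) → (A b → Fin n) → Prop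
  uniform : ∀ a b, FODef (A a ⊕ A b) (fun n z => wire a b n (fun i => z (Sum.inl i)) (fun i => z (Sum.inr i)))
  /-- the output gates are those with the tag `out`; their coordinates are the arguments of the output relation -/
  out : T
  outA : A out ≃ Fin r

variable {r : ℕ}

/-- Gates of the n-th circuit. -/
def CircuitFamily2.Gate (C : CircuitFamily2 r) (n : ℕ) : Type := Σ t : C.T, (C.A t → Fin n)

/-- `h` is an input of `g`. -/
def CircuitFamily2.Wire (C : CircuitFamily2 r) (n : ℕ) (g h : C.Gate n) : Prop := C.wire g.1 h.1 n g.2 h.2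

/-- The output gate for the arguments `x`. -/
def CircuitFamily2.outGate (C : CircuitFamily2 r) (n : ℕ) (x : Fin r → Fin n) : C.Gate n := ⟨C.out, fun i => x (C.outA i)⟩

/-- `v` is a correct assignment of truth values to the gates on the input graphs `G`, `M`. -/
def CircuitFamily2.Consistent (C : CircuitFamily2 r) (n : ℕ) (G M : SimpleGraph (Fin n)) (v : C.Gate n → Prop) : Prop :=
  ∀ g : C.Gate n, v g ↔
    match C.inp g.1 with
    | some (true, i, j) => G.Adj (g.2 i) (g.2 j)
    | some (false, i, j) => M.Adj (g.2 i) (g.2 j)
    | none => ¬ ∀ h, C.Wire n g h → v h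

/-- Every gate has at most two inputs. -/
def CircuitFamily2.FanInTwo (C : CircuitFamily2 r) (n : ℕ) : Prop :=
  ∀ g h₁ h₂ h₃ : C.Gate n, C.Wire n g h₁ → C.Wire n g h₂ → C.Wire n g h₃ → h₁ = h₂ ∨ h₁ = h₃ ∨ h₂ = h₃

/-- The circuit has depth at most `d`: the gates can be put on levels 0,…,d such that wires go to lower levels. -/
def CircuitFamily2.DepthLE (C : CircuitFamily2 r) (n d : ℕ) : Prop :=
  ∃ lev : C.Gate n → ℕ, (∀ g, lev g ≤ d) ∧ ∀ g h, C.Wire n g h → lev h < lev g

/-- The `r`-ary relation `P n G M` is computed from the pair of graphs `(G, M)` by a first-order uniform family of Boolean circuits of polynomial size, fan-in two and depth `O((log n)^k)` for some `k`. -/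
def RelNC2 (r : ℕ) (P : ∀ n : ℕ, SimpleGraph (Fin n) → SimpleGraph (Fin n) → (Fin r → Fin n) → Prop) : Prop :=
  ∃ (C : CircuitFamily2 r) (c k : ℕ), ∀ n, C.FanInTwo n ∧ C.DepthLE n (c * (Nat.log 2 n + 1) ^ k) ∧
    ∀ G M : SimpleGraph (Fin n), (∃ v, C.Consistent n G M v) ∧ ∀ v, C.Consistent n G M v → ∀ x, (v (C.outGate n x) ↔ P n G M x)

/-- The property `P` of pairs of graphs is decided in NC. -/
def InNC2 (P : ∀ n : ℕ, SimpleGraph (Fin n) → SimpleGraph (Fin n) → Prop) : Prop :=
  RelNC2 0 (fun n G M _ => P n G M)

/-- The graph `F n G M` is computed from the pair of graphs `(G, M)` in NC (all entries of its adjacency matrix by one circuit). -/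
def FunNC2 (F : ∀ n : ℕ, SimpleGraph (Fin n) → SimpleGraph (Fin n) → SimpleGraph (Fin n)) : Prop :=
  RelNC2 2 (fun n G M x => (F n G M).Adj (x 0) (x 1))

end Pool.Agent.AUG
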