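import Pool.Agent.Lib.MP_0087d5_lc.AUG.PDdefs

/-!
# The primal-dual theorem: existence of the blossom

Jobs TP (tree paths) and PB (`pd_blossom`).
-/

namespace Pool.Agent.AUG

open Relation

variable {V : Type*} [DecidableEq V] {m : V → V} {E : V → V → ℕ → Prop} {u : V} {S D : Finset V} {l : V → ℕ} {τ : ℕ} {x y c : V} {L L₁ L₂ : List V}

/-- Job TP. Every vertex of `S` has a tree path (strong induction on `l y`, `s2`, positive weights). -/
theorem TP.exists (hM : Mt m E) (hS : State m E u S l τ D) (hy : y ∈ S) : ∃ L, TP m E S l u (y :: L) := by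
  have main : ∀ n : ℕ, ∀ y ∈ S, l y = n → ∃ L, TP m E S l u (y :: L) := by
    intro n
    induction n using Nat.strong_induction_on with
    | _ n ih =>
      intro y hy hn
      by_cases hyu : y = u
      · subst hyu
        exact ⟨[], TP.nil⟩
      · obtain ⟨x, hx, k, hk, hl⟩ := hS.s2 y hy hyu
        have hpos := hM.pos _ _ _ hk
        obtain ⟨L, hL⟩ := ih (l x) (by omega) x hx rfl
        exact ⟨x :: L, TP.cons hL hy hk hl⟩
  exact main (l y) y hy rfl

/-- Job TP. -/
theorem TP.mem (hS : State m E u S l τ D) (h : TP m E S l u L) (hx : x ∈ L) : x ∈ S := by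
  induction h with
  | nil =>
    rw [List.mem_singleton] at hx
    subst hx
    exact hS.root
  | cons hL hy hk hl ih =>
    rcases List.mem_cons.1 hx with rfl | hx'
    · exact hy
    · exact ih hx'

private theorem tp_pairwise (hM : Mt m E) (h : TP m E S l u L) : L.Pairwise (fun a b => l b < l a) := by
  induction h with
  | nil => simp
  | @cons x y L k hL hy hk hl ih =>
    refine List.Pairwise.cons ?_ ih
    have hpos := hM.pos _ _ _ hk
    intro z hz
    rcases List.mem_cons.1 hz with rfl | hz'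
    · omega
    · have := (List.pairwise_cons.1 ih).1 z hz'
      omega

/-- Job TP. Levels decrease strictly along the list. -/
theorem TP.lt (hM : Mt m E) (h : TP m E S l u (L₁ ++ c :: L₂)) (hx : x ∈ L₁) : l c < l x := by
  have key : (L₁ ++ c :: L₂).Pairwise (fun a b => l b < l a) := by
    clear hx
    generalize L₁ ++ c :: L₂ = P at h
    exact tp_pairwise hM h
  rw [List.pairwise_append] at key
  exact key.2.2 x hx c (by simp)

/-- Job TP. -/
theorem TP.root_mem (h : TP m E S l u L) : u ∈ L := by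
  induction h with
  | nil => simp
  | cons hL hy hk hl ih => exact List.mem_cons_of_mem _ ih

/-- Job TP. The part of a tree path from `c` to its end `x` is a regular walk of weight `l x - l c` (the vertices are in `S`, with strictly increasing levels, their mates are not in `S`). -/
theorem TP.walk (hM : Mt m E) (hS : State m E u S l τ D) (h : TP m E S l u (x :: L₁ ++ c :: L₂)) : WW m E c (x :: L₁ ++ [c]) (l x - l c) := by
  induction L₁ generalizing x with
  | nil =>
    have hlt : l c < l x := TP.lt (L₁ := [x]) hM h (by simp)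
    have hcS : c ∈ S := TP.mem hS h (by simp)
    have hxS : x ∈ S := TP.mem hS h (by simp)
    cases h with
    | @cons _ _ _ k hL hy hk hl =>
      have hpos := hM.pos _ _ _ hk
      have hw : WW m E c [c] 0 := WW.nil
      have hne : x ≠ c := by
        rintro rfl
        omega
      have := WW.cons hw hk (by simpa using hne) (by
        rw [List.mem_singleton]
        intro hmx
        exact hS.s1 x hxS (hmx ▸ hcS))
      have e : l x - l c = 0 + k := by omega
      rw [e]
      exact this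
  | cons z L₁ ih =>
    have hpw := tp_pairwise hM h
    have hmem : ∀ w ∈ x :: z :: L₁ ++ c :: L₂, w ∈ S := fun w hw => TP.mem hS h hw
    have hlt : l c < l z := by
      have : (x :: z :: L₁) ++ c :: L₂ = x :: z :: L₁ ++ c :: L₂ := rfl
      exact TP.lt (L₁ := x :: z :: L₁) (c := c) (L₂ := L₂) hM h (by simp)
    cases h with
    | @cons _ _ _ k hL hy hk hl =>
      have hw := ih hL
      have hpos := hM.pos _ _ _ hk
      have hpw' := (List.pairwise_cons.1 hpw).1
      have hnot : ∀ w ∈ z :: L₁ ++ [c], w ∈ z :: L₁ ++ c :: L₂ := by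
        intro w hw
        simp only [List.cons_append, List.mem_cons, List.mem_append, List.not_mem_nil, or_false] at hw ⊢
        tauto
      have := WW.cons hw hk (by
        intro hx
        have := hpw' x (hnot x hx)
        omega) (by
        intro hmx
        exact hS.s1 x hy (hmem (m x) (List.mem_cons_of_mem _ (hnot _ hmx))))
      have e : l x - l c = l z - l c + k := by omega
      rw [e]
      exact this

/-- Job TP. The head of the list is above all others; so a common vertex with the largest level cuts two tree paths into disjoint parts: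
for tree paths `P` to `p` and `Q` to `q` there is a common vertex `c` with `P = P₁ ++ c :: P₂`, `Q = Q₁ ++ c :: Q₂` and `P₁`, `Q₁` disjoint
(choose `c` in both with `l c` maximal; vertices of `P₁` have larger level by `TP.lt`). -/
theorem TP.meet (hM : Mt m E) {P Q : List V} (hP : TP m E S l u P) (hQ : TP m E S l u Q) :
    ∃ c P₁ P₂ Q₁ Q₂, P = P₁ ++ c :: P₂ ∧ Q = Q₁ ++ c :: Q₂ ∧ ∀ x ∈ P₁, x ∉ Q₁ := by
  have hne : (P.toFinset ∩ Q.toFinset).Nonempty := ⟨u, by simp [TP.root_mem hP, TP.root_mem hQ]⟩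
  obtain ⟨c, hc, hmax⟩ := Finset.exists_max_image (P.toFinset ∩ Q.toFinset) l hne
  rw [Finset.mem_inter, List.mem_toFinset, List.mem_toFinset] at hc
  obtain ⟨P₁, P₂, rfl⟩ := List.append_of_mem hc.1
  obtain ⟨Q₁, Q₂, rfl⟩ := List.append_of_mem hc.2
  refine ⟨c, P₁, P₂, Q₁, Q₂, rfl, rfl, ?_⟩
  intro x hx hx'
  have h1 := TP.lt hM hP hx
  have h2 := hmax x (by simp [hx, hx'])
  omega

/-- Job PB, auxiliary: a part of a tree path is a tree path. -/
private theorem pb_tail {A L : List V} {z : V} (h : TP m E S l u (A ++ z :: L)) : TP m E S l u (z :: L) := by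
  induction A with
  | nil => exact h
  | cons a A ih =>
    apply ih
    generalize hX : a :: A ++ z :: L = X at h
    cases h with
    | nil =>
      exfalso
      have := congrArg List.length hX
      simp at this
    | cons h1 h2 h3 h4 =>
      rw [List.cons_append] at hX
      obtain ⟨_, h6⟩ := List.cons.inj hX
      rw [h6]
      exact h1

/-- Job PB, auxiliary: the part of a tree path above `c`, possibly trivial. -/
private theorem pb_walk (hM : Mt m E) (hS : State m E u S l τ D) {q : V} {Q₁ Q₂ L : List V}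
    (hQ : TP m E S l u (Q₁ ++ c :: Q₂)) (hq : Q₁ ++ c :: Q₂ = q :: L) :
    l c ≤ l q ∧ WW m E c (Q₁ ++ [c]) (l q - l c) ∧ ∃ L', Q₁ ++ [c] = q :: L' := by
  cases Q₁ with
  | nil =>
    rw [List.nil_append] at hq
    obtain ⟨h1, _⟩ := List.cons.inj hq
    subst h1
    refine ⟨le_refl _, ?_, [], rfl⟩
    rw [Nat.sub_self]
    exact WW.nil
  | cons a Q =>
    rw [List.cons_append] at hq
    obtain ⟨h1, _⟩ := List.cons.inj hq
    subst h1
    refine ⟨?_, TP.walk hM hS hQ, Q ++ [c], rfl⟩
    exact (TP.lt hM hQ (List.mem_cons_self)).le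

/-- Job PB, auxiliary: the two inner walks for a vertex of the first branch. -/
private theorem pb_inner (hM : Mt m E) (hS : State m E u S l τ D) {p q : V} {k : ℕ} {P₁ P₂ Q₁ Q₂ Lp Lq : List V}
    (hP : TP m E S l u (P₁ ++ c :: P₂)) (hQ : TP m E S l u (Q₁ ++ c :: Q₂))
    (hp : P₁ ++ c :: P₂ = p :: Lp) (hq : Q₁ ++ c :: Q₂ = q :: Lq) (he : E p q k)
    (hd : ∀ x ∈ P₁, x ∉ Q₁) {z : V} (hz : z ∈ P₁) :
    (∃ L, WW m E c (z :: L ++ [c]) (l z - l c) ∧ ∀ x ∈ z :: L, x ∈ P₁) ∧
    (∃ L, WW m E c (m z :: L ++ [c]) (l p + l q + k - l z - l c) ∧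
      ∀ x ∈ m z :: L, x ∈ Q₁ ∨ ∃ y ∈ P₁, x = m y) := by
  obtain ⟨A, A', hA⟩ := List.append_of_mem hz
  have hP' : TP m E S l u (A ++ z :: (A' ++ c :: P₂)) := by
    have : A ++ z :: (A' ++ c :: P₂) = P₁ ++ c :: P₂ := by rw [hA]; simp
    rw [this]; exact hP
  have hPz : TP m E S l u (z :: (A' ++ c :: P₂)) := pb_tail hP'
  have hcz : l c < l z := TP.lt hM hP hz
  constructor
  · refine ⟨A', ?_, ?_⟩
    · exact TP.walk hM hS hPz
    · intro x hx
      rw [hA]
      rcases List.mem_cons.1 hx with h | h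
      · rw [h]; simp
      · simp [h]
  · have hp' : A ++ z :: (A' ++ c :: P₂) = p :: Lp := by
      rw [← hp, hA]; simp
    obtain ⟨hzp, hWz, Lz, hLz⟩ := pb_walk hM hS hP' hp'
    obtain ⟨hcq, hWq, Lc, hLc⟩ := pb_walk hM hS hQ hq
    rw [hLz] at hWz
    have hmir := WW.mirror hM hWz
    rw [hLc] at hWq
    have hk : E q (m (m p)) k := by
      rw [hM.invol]; exact hM.symm _ _ _ he
    have hPmem : ∀ x ∈ A ++ [z], x ∈ P₁ := by
      intro x hx
      rw [hA]
      rcases List.mem_append.1 hx with h | h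
      · simp [h]
      · rw [List.mem_singleton.1 h]; simp
    have hPS : ∀ x ∈ P₁, x ∈ S := fun x hx => TP.mem hS hP (List.mem_append_left _ hx)
    have hcS : c ∈ S := TP.mem hS hP (by simp)
    have hQS : ∀ x ∈ q :: Lc, x ∈ S := by
      intro x hx
      rw [← hLc] at hx
      rcases List.mem_append.1 hx with h | h
      · exact TP.mem hS hQ (List.mem_append_left _ h)
      · rw [List.mem_singleton.1 h]; exact hcS
    have key := WW.append_arc hWq hk hmir (by
      intro w hw
      rw [List.mem_reverse, List.mem_map] at hw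
      obtain ⟨y, hy, rfl⟩ := hw
      rw [← hLz] at hy
      have hyP := hPmem y hy
      refine ⟨fun h => hS.s1 y (hPS y hyP) (hQS _ h), fun h => ?_⟩
      rw [hM.invol, ← hLc] at h
      rcases List.mem_append.1 h with h | h
      · exact hd y hyP h
      · rw [List.mem_singleton.1 h] at hyP
        exact absurd (TP.lt hM hP hyP) (lt_irrefl _))
    rw [← hLz, ← hLc] at key
    have hw : l q - l c + k + (l p - l z) = l p + l q + k - l z - l c := by omega
    rw [hw] at key
    refine ⟨(A.map m).reverse ++ Q₁, ?_, ?_⟩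
    · have : m z :: ((A.map m).reverse ++ Q₁) ++ [c] = (List.map m (A ++ [z])).reverse ++ (Q₁ ++ [c]) := by simp
      rw [this]
      exact key
    · intro x hx
      rcases List.mem_cons.1 hx with h | h
      · exact Or.inr ⟨z, hz, h⟩
      · rcases List.mem_append.1 h with h | h
        · rw [List.mem_reverse, List.mem_map] at h
          obtain ⟨y, hy, rfl⟩ := h
          exact Or.inr ⟨y, hPmem y (List.mem_append_left _ hy), rfl⟩
        · exact Or.inl h

/-- Job PB. The blossom of the bridging edge `E p q k`, `p, q ∈ S`. `P = P₁ ++ c :: P₂` tree path to `p`, `Q = Q₁ ++ c :: Q₂` tree path to `q` (`TP.meet`),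
`B` = the vertices of `P₁ ∪ Q₁` and their mates, `a x = l x` if `x ∈ S` and `a x = l p + l q + k - l (m x)` otherwise.
`p ≠ q` (`irrefl`), so `P₁` or `Q₁` is nonempty. `lc`: `l c < l z` for `z ∈ P₁ ∪ Q₁` (`TP.lt`), and for the mates `τ' - l z ≥ l z > l c` since `2 l z ≤ τ ≤ τ'`.
`inner` for `z ∈ P₁`: `P₁ = A ++ z :: A'`: `TP.walk` for the path to `z` (cut `P` at `z`: a part of a tree path is a tree path).
`inner` for `m z`, `z ∈ P₁`: the walk from `c` to `q` (`TP.walk`; trivial if `Q₁ = []`), then the arc `q → m p` (edge `E q (m (m p)) k`), then the mirror image of the walk from `z` to `p`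
(`WW.mirror`): weights `(l q - l c) + k + (l p - l z) = a (m z) - l c`. It is regular because `P₁`, `Q₁` are disjoint subsets of `S` and mates are not in `S`. Symmetric for `Q₁`. -/
theorem pd_blossom (hM : Mt m E) (hS : State m E u S l τ D) {p q : V} {k : ℕ} (hp : p ∈ S) (hq : q ∈ S) (he : E p q k) :
    ∃ c B a, Blossom m E u S l (l p + l q + k) c B a := by
  obtain ⟨Lp, hLp⟩ := TP.exists hM hS hp
  obtain ⟨Lq, hLq⟩ := TP.exists hM hS hq
  obtain ⟨c, P₁, P₂, Q₁, Q₂, hPe, hQe, hd⟩ := TP.meet hM hLp hLq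
  have hP : TP m E S l u (P₁ ++ c :: P₂) := by rw [← hPe]; exact hLp
  have hQ : TP m E S l u (Q₁ ++ c :: Q₂) := by rw [← hQe]; exact hLq
  have hd' : ∀ x ∈ Q₁, x ∉ P₁ := fun x hx hx' => hd x hx' hx
  have hcS : c ∈ S := TP.mem hS hP (by simp)
  have hR : ∀ z, z ∈ P₁ ∨ z ∈ Q₁ → z ∈ S ∧ l c < l z := by
    intro z hz
    rcases hz with hz | hz
    · exact ⟨TP.mem hS hP (List.mem_append_left _ hz), TP.lt hM hP hz⟩
    · exact ⟨TP.mem hS hQ (List.mem_append_left _ hz), TP.lt hM hQ hz⟩
  have hτ : τ ≤ l p + l q + k := hS.s3c p hp q hq k he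
  have hmemB : ∀ x, x ∈ ((P₁ ++ Q₁).toFinset ∪ ((P₁ ++ Q₁).map m).toFinset) ↔
      (x ∈ P₁ ∨ x ∈ Q₁) ∨ ∃ z, (z ∈ P₁ ∨ z ∈ Q₁) ∧ m z = x := by
    intro x
    rw [Finset.mem_union, List.mem_toFinset, List.mem_toFinset, List.mem_append, List.mem_map]
    constructor
    · rintro (h | ⟨z, hz, rfl⟩)
      · exact Or.inl h
      · exact Or.inr ⟨z, List.mem_append.1 hz, rfl⟩
    · rintro (h | ⟨z, hz, rfl⟩)
      · exact Or.inl h
      · exact Or.inr ⟨z, List.mem_append.2 hz, rfl⟩
  have haS : ∀ x, x ∈ S → (if x ∈ S then l x else l p + l q + k - l (m x)) = l x := by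
    intro x hx
    rw [if_pos hx]
  have haN : ∀ x, x ∈ S → (if m x ∈ S then l (m x) else l p + l q + k - l (m (m x))) = l p + l q + k - l x := by
    intro x hx
    rw [if_neg (hS.s1 x hx), hM.invol]
  refine ⟨c, (P₁ ++ Q₁).toFinset ∪ ((P₁ ++ Q₁).map m).toFinset,
    fun x => if x ∈ S then l x else l p + l q + k - l (m x), ?_⟩
  refine ⟨hcS, ?_, ?_, ?_, ?_, ?_, ?_, ?_, ?_, ?_⟩
  · rw [hmemB]
    rintro (h | ⟨z, hz, hzc⟩)
    · exact absurd (hR c h).2 (lt_irrefl _)
    · exact hS.s1 z (hR z hz).1 (hzc ▸ hcS)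
  · rw [hmemB]
    rintro (h | ⟨z, hz, hzc⟩)
    · have := (hR u h).2
      rw [hS.lroot] at this
      exact absurd this (Nat.not_lt_zero _)
    · exact hS.s1 z (hR z hz).1 (hzc ▸ hS.root)
  · intro x hx
    rw [hmemB] at hx ⊢
    rcases hx with h | ⟨z, hz, rfl⟩
    · exact Or.inr ⟨x, h, rfl⟩
    · rw [hM.invol]
      exact Or.inl hz
  · intro h
    exact hS.s1 c hcS (h.symm ▸ hcS)
  · cases P₁ with
    | nil =>
      cases Q₁ with
      | nil =>
        exfalso
        rw [List.nil_append] at hPe hQe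
        have h1 := (List.cons.inj hPe).1
        have h2 := (List.cons.inj hQe).1
        rw [h1, h2] at he
        exact hM.irrefl _ _ he
      | cons b Q =>
        refine ⟨b, ?_⟩
        rw [hmemB]
        exact Or.inl (Or.inr (List.mem_cons_self))
    | cons b P =>
      refine ⟨b, ?_⟩
      rw [hmemB]
      exact Or.inl (Or.inl (List.mem_cons_self))
  · intro x hx
    rw [hmemB] at hx
    rcases hx with h | ⟨z, hz, rfl⟩
    · exact Or.inl (hR x h).1
    · rw [hM.invol]
      exact Or.inr (hR z hz).1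
  · intro x _ hxS
    exact ⟨haS x hxS, haN x hxS⟩
  · intro x hx
    rw [hmemB] at hx
    rcases hx with h | ⟨z, hz, rfl⟩
    · rw [haS x (hR x h).1]
      exact (hR x h).2
    · rw [haN z (hR z hz).1]
      have h1 := (hR z hz).2
      have h2 := hS.s4 z (hR z hz).1
      omega
  · intro b hb
    have hmem := hb
    rw [hmemB] at hb
    have key : ∀ z, z ∈ P₁ ∨ z ∈ Q₁ →
        (∃ L, WW m E c (z :: L ++ [c]) (l z - l c) ∧ ∀ x ∈ z :: L, (x ∈ P₁ ∨ x ∈ Q₁)) ∧
        (∃ L, WW m E c (m z :: L ++ [c]) (l p + l q + k - l z - l c) ∧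
          ∀ x ∈ m z :: L, (x ∈ P₁ ∨ x ∈ Q₁) ∨ ∃ y, (y ∈ P₁ ∨ y ∈ Q₁) ∧ m y = x) := by
      intro z hz
      rcases hz with hz | hz
      · obtain ⟨⟨L, h1, h2⟩, ⟨L', h3, h4⟩⟩ := pb_inner hM hS hP hQ hPe.symm hQe.symm he hd hz
        refine ⟨⟨L, h1, fun x hx => Or.inl (h2 x hx)⟩, ⟨L', h3, fun x hx => ?_⟩⟩
        rcases h4 x hx with h | ⟨y, hy, h⟩
        · exact Or.inl (Or.inr h)
        · exact Or.inr ⟨y, Or.inl hy, h.symm⟩
      · obtain ⟨⟨L, h1, h2⟩, ⟨L', h3, h4⟩⟩ := pb_inner hM hS hQ hP hQe.symm hPe.symm (hM.symm _ _ _ he) hd' hz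
        refine ⟨⟨L, h1, fun x hx => Or.inr (h2 x hx)⟩, ⟨L', ?_, fun x hx => ?_⟩⟩
        · rw [Nat.add_comm (l p) (l q)]
          exact h3
        · rcases h4 x hx with h | ⟨y, hy, h⟩
          · exact Or.inl (Or.inl h)
          · exact Or.inr ⟨y, Or.inr hy, h.symm⟩
    rcases hb with h | ⟨z, hz, rfl⟩
    · obtain ⟨⟨L, h1, h2⟩, _⟩ := key b h
      refine ⟨L, ?_, fun x hx => ?_⟩
      · rw [haS b (hR b h).1]
        exact h1
      · rw [hmemB]
        exact Or.inl (h2 x hx)
    · obtain ⟨_, ⟨L, h1, h2⟩⟩ := key z hz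
      refine ⟨L, ?_, fun x hx => ?_⟩
      · rw [haN z (hR z hz).1]
        exact h1
      · rw [hmemB]
        exact h2 x hx

end Pool.Agent.AUG
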