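import Pool.Agent.Lib.MP_0087d5_lc.AUG.Walk

/-!
# The primal-dual theorem: definitions

Weighted multigraph `E`, root `u`. We prove the existence of levels with the properties `Sol`.
A STATE (`State`) is a partial exploration: `S` = vertices already reached, `l` = their distances, `τ` = twice the time, `D` = dead (isolated) vertices.
The theorem (file `PDmain`): for every state there is a `Result`. Proof by induction: if nothing can be done any more the levels are final (`pd_final`), otherwise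
the state is enlarged by a vertex (`pd_grow`), or, if the next event is a bridging edge between two vertices of `S`, the blossom is contracted (`pd_blossom`, `ctr`,
`pd_ctr_state`) and the result for the contracted graph is lifted (`pd_lift_…`).
-/

namespace Pool.Agent.AUG

open Relation

variable {V : Type*}

/-- Adjacency in `G_θ` for partial levels (`F` = domain of the levels) on a weighted multigraph. -/
def AdjF (m : V → V) (E : V → V → ℕ → Prop) (F : V → Prop) (a : V → ℕ) (θ : ℕ) (x y : V) : Prop :=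
  F x ∧ F y ∧ ((∃ k, E x y k ∧ a x + a y + k ≤ θ) ∨ (y = m x ∧ a x + a y ≤ θ))

/-- Alive at `θ`. -/
def AlF (m : V → V) (F : V → Prop) (a : V → ℕ) (θ : ℕ) (x : V) : Prop := ¬ (F x ∧ F (m x) ∧ a x + a (m x) ≤ θ)

/-- Good levels: they are attained by regular walks, satisfy the relaxation property, and two alive vertices in one component of `G_θ` are equal. -/
structure Sol (m : V → V) (E : V → V → ℕ → Prop) (u : V) (F : V → Prop) (a : V → ℕ) : Prop where
  att : ∀ x, F x → ∃ L, WW m E u (x :: L) (a x)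
  rel : ∀ x y k, F x → E x (m y) k → (F y ∧ a y ≤ a x + k) ∨ F (m y)
  uu : ∀ θ x y, ReflTransGen (AdjF m E F a θ) x y → AlF m F a θ x → AlF m F a θ y → x = y

/-- A state of the exploration. -/
structure State (m : V → V) (E : V → V → ℕ → Prop) (u : V) (S : Finset V) (l : V → ℕ) (τ : ℕ) (D : Finset V) : Prop where
  root : u ∈ S
  lroot : l u = 0
  s1 : ∀ x ∈ S, m x ∉ S
  s2 : ∀ y ∈ S, y ≠ u → ∃ x ∈ S, ∃ k, E x (m y) k ∧ l y = l x + k
  s3a : ∀ x ∈ S, ∀ y ∈ S, ∀ k, E x (m y) k → l y ≤ l x + k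
  s3b : ∀ x ∈ S, ∀ y k, E x (m y) k → y ∉ S → m y ∉ S → τ ≤ 2 * (l x + k)
  s3c : ∀ x ∈ S, ∀ y ∈ S, ∀ k, E x y k → τ ≤ l x + l y + k
  s4 : ∀ x ∈ S, 2 * l x ≤ τ
  dead : ∀ x ∈ D, ∀ y k, ¬ E x y k
  deadm : ∀ x ∈ D, m x ∈ D
  deadS : ∀ x ∈ S, x ∉ D

/-- The result of the exploration. -/
structure Result (m : V → V) (E : V → V → ℕ → Prop) (u : V) (S : Finset V) (l : V → ℕ) (τ : ℕ) (F : V → Prop) (a : V → ℕ) : Prop
    extends Sol m E u F a where
  ext : ∀ x ∈ S, F x ∧ a x = l x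
  t1 : ∀ x, F x → F (m x) → τ ≤ a x + a (m x)
  t2 : ∀ x y k, F x → F y → E x y k → τ ≤ a x + a y + k

/-- A blossom: `c` = base, `B` = the other vertices (closed under `m`), `a` = levels on `B`. -/
structure Blossom (m : V → V) (E : V → V → ℕ → Prop) (u : V) (S : Finset V) (l : V → ℕ) (τ : ℕ) (c : V) (B : Finset V) (a : V → ℕ) : Prop where
  cS : c ∈ S
  cB : c ∉ B
  uB : u ∉ B
  mB : ∀ x ∈ B, m x ∈ B
  mc : m c ≠ c
  ne : B.Nonempty
  half : ∀ x ∈ B, x ∈ S ∨ m x ∈ S
  aS : ∀ x ∈ B, x ∈ S → a x = l x ∧ a (m x) = τ - l x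
  lc : ∀ x ∈ B, l c < a x
  inner : ∀ b ∈ B, ∃ L, WW m E c (b :: L ++ [c]) (a b - l c) ∧ ∀ x ∈ b :: L, x ∈ B

/-- Contraction of `B` to `c`: the vertices of `B` become isolated, an edge of weight `k` from `b ∈ B` to `y ∉ B ∪ {c}` gives an edge of weight `k + a b - l c` from `c` to `y`. -/
def ctr (E : V → V → ℕ → Prop) (l : V → ℕ) (c : V) (B : Finset V) (a : V → ℕ) (x y : V) (k : ℕ) : Prop :=
  (x ∉ B ∧ y ∉ B ∧ E x y k) ∨
  (x = c ∧ y ≠ c ∧ y ∉ B ∧ ∃ b ∈ B, ∃ k₀, E b y k₀ ∧ k = k₀ + (a b - l c)) ∨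
  (y = c ∧ x ≠ c ∧ x ∉ B ∧ ∃ b ∈ B, ∃ k₀, E b x k₀ ∧ k = k₀ + (a b - l c))

/-- Tree paths in a state (reversed order: the head is the end of the path, the last entry is the root). -/
inductive TP (m : V → V) (E : V → V → ℕ → Prop) (S : Finset V) (l : V → ℕ) (u : V) : List V → Prop
  | nil : TP m E S l u [u]
  | cons {x y : V} {L : List V} {k : ℕ} : TP m E S l u (x :: L) → y ∈ S → E x (m y) k → l y = l x + k → TP m E S l u (y :: x :: L)

end Pool.Agent.AUG
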