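import Pool.Agent.Lib.MP_0087d5_lc.AUG.PDdefs

/-!
# The primal-dual theorem: lifting a result of the contracted graph

Jobs PW (walks), PR (`rel`, `t1`, `t2`), PU (`uu`).
-/

namespace Pool.Agent.AUG

open Relation

variable {V : Type*} [DecidableEq V] {m : V → V} {E : V → V → ℕ → Prop} {u : V} {S D : Finset V} {l : V → ℕ} {τ : ℕ}
  {c : V} {B : Finset V} {a a₁ : V → ℕ} {F₁ : V → Prop}

private theorem pw_head {E' : V → V → ℕ → Prop} {x : V} {L : List V} {s : ℕ} (h : WW m E' u (x :: L) s) :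
    x ∉ L ∧ m x ∉ L := by
  cases h with
  | nil => simp
  | cons h1 h2 h3 h4 => exact ⟨h3, h4⟩

private theorem pw_mem (hM : Mt m E) (hB : Blossom m E u S l τ c B a) {y : V} (h : m y ∉ B) : y ∉ B :=
  fun hy => h (hB.mB y hy)

private theorem pw_mem' (hM : Mt m E) (hB : Blossom m E u S l τ c B a) {y : V} (h : y ∉ B) : m y ∉ B := by
  intro hy
  have := hB.mB _ hy
  rw [hM.invol] at this
  exact h this

private theorem pw_edge (hM : Mt m E) (hB : Blossom m E u S l τ c B a) {x y : V} {k : ℕ}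
    (h : ctr E l c B a x (m y) k) : y ∉ B ∧ m y ∉ B := by
  have h1 : m y ∉ B := by
    rcases h with h | h | h
    · exact h.2.1
    · exact h.2.2.1
    · rw [h.1]; exact hB.cB
  exact ⟨pw_mem hM hB h1, h1⟩

private theorem pw_not_mem (hM : Mt m E) (hB : Blossom m E u S l τ c B a) {L : List V} {s : ℕ}
    (h : WW m (ctr E l c B a) u L s) : ∀ w ∈ L, w ∉ B := by
  induction h with
  | nil =>
    intro w hw
    rw [List.mem_singleton] at hw
    rw [hw]
    exact hB.uB
  | cons h1 h2 h3 h4 ih =>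
    intro w hw
    rcases List.mem_cons.1 hw with h5 | h5
    · rw [h5]
      exact (pw_edge hM hB h2).1
    · exact ih w h5

private theorem pw_lift (hM : Mt m E) (hB : Blossom m E u S l τ c B a) {L₀ : List V} {s : ℕ}
    (h : WW m (ctr E l c B a) u L₀ s) : ∀ (x : V) (L : List V), L₀ = x :: L →
    ∃ L', WW m E u (x :: L') s ∧ ∀ w ∈ L', w ∈ L ∨ (w ∈ B ∧ (c ∈ L ∨ m c ∈ x :: L)) := by
  induction h with
  | nil =>
    intro x L heq
    rw [List.cons.injEq] at heq
    obtain ⟨rfl, rfl⟩ := heq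
    exact ⟨[], WW.nil, fun w hw => absurd hw List.not_mem_nil⟩
  | @cons x₀ y L₁ s k h he hy hmy ih =>
    intro x L heq
    rw [List.cons.injEq] at heq
    obtain ⟨rfl, rfl⟩ := heq
    obtain ⟨L', hW, hL'⟩ := ih x₀ L₁ rfl
    obtain ⟨hyB, hmyB⟩ := pw_edge hM hB he
    have hx₀B : x₀ ∉ B := pw_not_mem hM hB h x₀ List.mem_cons_self
    have hL₁B : ∀ w ∈ L₁, w ∉ B := fun w hw => pw_not_mem hM hB h w (List.mem_cons_of_mem _ hw)
    have hfresh : ∀ w, w ∉ B → w ∉ x₀ :: L₁ → w ∉ x₀ :: L' := by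
      intro w hwB hw hw'
      rcases List.mem_cons.1 hw' with h5 | h5
      · exact hw (by rw [h5]; exact List.mem_cons_self)
      · rcases hL' w h5 with h6 | h6
        · exact hw (List.mem_cons_of_mem _ h6)
        · exact hwB h6.1
    rcases he with he | he | he
    · refine ⟨x₀ :: L', WW.cons hW he.2.2 (hfresh y hyB hy) (hfresh (m y) hmyB hmy), ?_⟩
      intro w hw
      rcases List.mem_cons.1 hw with h5 | h5
      · left; rw [h5]; exact List.mem_cons_self
      · rcases hL' w h5 with h6 | h6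
        · exact Or.inl (List.mem_cons_of_mem _ h6)
        · refine Or.inr ⟨h6.1, ?_⟩
          rcases h6.2 with h7 | h7
          · exact Or.inl (List.mem_cons_of_mem _ h7)
          · exact Or.inr (List.mem_cons_of_mem _ h7)
    · obtain ⟨hxc, hmyc, _, b, hb, k₀, hEb, hk⟩ := he
      subst hxc
      obtain ⟨Li, hWi, hLi⟩ := hB.inner b hb
      have hhd := pw_head h
      have hnoB : ∀ w ∈ B, w ∉ x₀ :: L' := by
        intro w hwB hw
        rcases List.mem_cons.1 hw with h5 | h5
        · rw [h5] at hwB; exact hx₀B hwB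
        · rcases hL' w h5 with h6 | h6
          · exact hL₁B w h6 hwB
          · rcases h6.2 with h7 | h7
            · exact hhd.1 h7
            · rcases List.mem_cons.1 h7 with h8 | h8
              · exact hB.mc h8
              · exact hhd.2 h8
      have happ := WW.append (L₁ := b :: Li) hW hWi
        (fun w hw => ⟨hnoB w (hLi w hw), hnoB (m w) (hB.mB w (hLi w hw))⟩)
      have hcons : WW m E u (y :: b :: (Li ++ x₀ :: L')) (s + (a b - l x₀) + k₀) := by
        refine WW.cons happ hEb ?_ ?_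
        · intro hw
          rcases List.mem_append.1 (show y ∈ (b :: Li) ++ x₀ :: L' from hw) with h5 | h5
          · exact hyB (hLi y h5)
          · exact hfresh y hyB hy h5
        · intro hw
          rcases List.mem_append.1 (show m y ∈ (b :: Li) ++ x₀ :: L' from hw) with h5 | h5
          · exact hmyB (hLi (m y) h5)
          · exact hfresh (m y) hmyB hmy h5
      refine ⟨b :: (Li ++ x₀ :: L'), ?_, ?_⟩
      · rw [hk, show s + (k₀ + (a b - l x₀)) = s + (a b - l x₀) + k₀ by ring]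
        exact hcons
      · intro w hw
        rcases List.mem_append.1 (show w ∈ (b :: Li) ++ x₀ :: L' from hw) with h5 | h5
        · exact Or.inr ⟨hLi w h5, Or.inl List.mem_cons_self⟩
        · rcases List.mem_cons.1 h5 with h6 | h6
          · left; rw [h6]; exact List.mem_cons_self
          · rcases hL' w h6 with h7 | h7
            · exact Or.inl (List.mem_cons_of_mem _ h7)
            · exact absurd h5 (hnoB w h7.1)
    · obtain ⟨hmyc, hx₀c, _, b, hb, k₀, hEb, hk⟩ := he
      obtain ⟨Li, hWi, hLi⟩ := hB.inner b hb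
      have hmc : m c = y := by rw [← hmyc, hM.invol]
      have hnoB : ∀ w ∈ B, w ∉ x₀ :: L' := by
        intro w hwB hw
        rcases List.mem_cons.1 hw with h5 | h5
        · rw [h5] at hwB; exact hx₀B hwB
        · rcases hL' w h5 with h6 | h6
          · exact hL₁B w h6 hwB
          · rcases h6.2 with h7 | h7
            · rw [← hmyc] at h7
              exact hmy (List.mem_cons_of_mem _ h7)
            · rw [hmc] at h7
              exact hy h7
      have hmir : WW m E (m b) (((b :: (Li ++ [c])).map m).reverse) (a b - l c) := WW.mirror hM hWi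
      have hlist : ((b :: (Li ++ [c])).map m).reverse = y :: ((b :: Li).map m).reverse := by
        simp [hmc]
      rw [hlist] at hmir
      have hrev : ∀ w ∈ ((b :: Li).map m).reverse, w ∈ B := by
        intro w hw
        rw [List.mem_reverse, List.mem_map] at hw
        obtain ⟨v, hv, rfl⟩ := hw
        exact hB.mB v (hLi v hv)
      have happ := WW.append_arc (z := m b) hW
        (by rw [hM.invol]; exact hM.symm _ _ _ hEb) hmir (by
          intro w hw
          rcases List.mem_cons.1 hw with h5 | h5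
          · rw [h5]
            exact ⟨hfresh y hyB hy, hfresh (m y) hmyB hmy⟩
          · exact ⟨hnoB w (hrev w h5), hnoB (m w) (hB.mB w (hrev w h5))⟩)
      refine ⟨((b :: Li).map m).reverse ++ x₀ :: L', ?_, ?_⟩
      · rw [hk, show s + (k₀ + (a b - l c)) = s + k₀ + (a b - l c) by ring]
        exact happ
      · intro w hw
        rcases List.mem_append.1 hw with h5 | h5
        · exact Or.inr ⟨hrev w h5, Or.inr (by rw [hmc]; exact List.mem_cons_self)⟩
        · rcases List.mem_cons.1 h5 with h6 | h6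
          · left; rw [h6]; exact List.mem_cons_self
          · rcases hL' w h6 with h7 | h7
            · exact Or.inl (List.mem_cons_of_mem _ h7)
            · exact absurd h5 (hnoB w h7.1)

/-- Job PW. Lifting walks of the contracted graph: a walk `x :: L` of `ctr` gives a walk `x :: L'` of `E` of the same weight, where the new vertices lie in `B` and
are only present if the walk has passed `c` (`c ∈ L`) or `m c`. Induction on the walk; the new vertex is `y`, the edge `ctr x (m y) k` (for a walk with head `c`: `c ∉ L` and `m c ∉ c :: L`, by the last constructor and `Blossom.mc`):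
(1) an edge of `E`: add `y` (`y ∉ B` because `m y ∉ B`, `mB`). (2) `x = c`, `b ∈ B`, `E b (m y) k₀`, `k = k₀ + (a b - l c)`: insert the inner walk from `c` to `b` (`Blossom.inner`,
`WW.append`), then `y`; no vertex of `B` was present as `c ∉ L`, `m c ∉ c :: L`. (3) `m y = c`, `x ≠ c`, `b ∈ B`, `E b x k₀`: arc `x → m b` of weight `k₀`, then the mirror image of the inner walk
(`WW.mirror`), which leads from `m b` to `m c = y` and has its other vertices in `B`; no vertex of `B` was present as `y = m c`, `m y = c` are not in `x :: L`. -/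
theorem pd_lift_walk (hM : Mt m E) (hu : m u ≠ u) (hB : Blossom m E u S l τ c B a) {x : V} {L : List V} {s : ℕ} (h : WW m (ctr E l c B a) u (x :: L) s) :
    ∃ L', WW m E u (x :: L') s ∧ ∀ w ∈ L', w ∈ L ∨ (w ∈ B ∧ (c ∈ L ∨ m c ∈ x :: L)) :=
  pw_lift hM hB h x L rfl

/-- Job PW. All vertices of a walk of the contracted graph are outside of `B`. -/
theorem ctr_walk_not_mem (hB : Blossom m E u S l τ c B a) (hM : Mt m E) {L : List V} {s : ℕ} (h : WW m (ctr E l c B a) u L s) {w : V} (hw : w ∈ L) : w ∉ B :=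
  pw_not_mem hM hB h w hw

/-- Job PW. Every `x` with `F₁ x` or `x ∈ B` is attained. For `x ∈ B`: lift a walk to `c` (`F₁ c`, `a₁ c = l c`), it has no vertices in `B` (first use `ctr_walk_not_mem` and regularity:
`c ∉ L`, `m c ∉ c :: L`), and append the inner walk. -/
theorem pd_lift_att (hM : Mt m E) (hu : m u ≠ u) (hB : Blossom m E u S l τ c B a) (h₁ : Result m (ctr E l c B a) u (S \ B) l τ F₁ a₁) (x : V)
    (hx : F₁ x ∨ x ∈ B) : ∃ L, WW m E u (x :: L) (if x ∈ B then a x else a₁ x) := by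
  by_cases hxB : x ∈ B
  · rw [if_pos hxB]
    obtain ⟨hFc, hac⟩ := h₁.ext c (Finset.mem_sdiff.2 ⟨hB.cS, hB.cB⟩)
    obtain ⟨L, hL⟩ := h₁.att c hFc
    obtain ⟨L', hW, hL'⟩ := pd_lift_walk hM hu hB hL
    obtain ⟨Li, hWi, hLi⟩ := hB.inner x hxB
    have hhd := pw_head hL
    have hnoB : ∀ w ∈ B, w ∉ c :: L' := by
      intro w hwB hw
      rcases List.mem_cons.1 hw with h5 | h5
      · rw [h5] at hwB; exact hB.cB hwB
      · rcases hL' w h5 with h6 | h6
        · exact ctr_walk_not_mem hB hM hL (List.mem_cons_of_mem _ h6) hwB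
        · rcases h6.2 with h7 | h7
          · exact hhd.1 h7
          · rcases List.mem_cons.1 h7 with h8 | h8
            · exact hB.mc h8
            · exact hhd.2 h8
    have happ := WW.append (L₁ := x :: Li) hW hWi
      (fun w hw => ⟨hnoB w (hLi w hw), hnoB (m w) (hB.mB w (hLi w hw))⟩)
    refine ⟨Li ++ c :: L', ?_⟩
    have hlc := hB.lc x hxB
    have hs : a₁ c + (a x - l c) = a x := by omega
    rw [hs] at happ
    exact happ
  · rw [if_neg hxB]
    have hF : F₁ x := hx.resolve_right hxB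
    obtain ⟨L, hL⟩ := h₁.att x hF
    obtain ⟨L', hW, -⟩ := pd_lift_walk hM hu hB hL
    exact ⟨L', hW⟩

private theorem pr_disj (hM : Mt m E) (hB : Blossom m E u S l τ c B a)
    (h₁ : Result m (ctr E l c B a) u (S \ B) l τ F₁ a₁) {x : V} (hx : F₁ x) : x ∉ B := by
  obtain ⟨L, hL⟩ := h₁.att x hx
  exact ctr_walk_not_mem hB hM hL List.mem_cons_self

private theorem pr_c (hB : Blossom m E u S l τ c B a)
    (h₁ : Result m (ctr E l c B a) u (S \ B) l τ F₁ a₁) : F₁ c ∧ a₁ c = l c :=
  h₁.ext c (Finset.mem_sdiff.2 ⟨hB.cS, hB.cB⟩)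

private theorem pr_half (hM : Mt m E) {τ₀ : ℕ} (hS : State m E u S l τ₀ D) (hτ : τ₀ ≤ τ)
    (hB : Blossom m E u S l τ c B a) {b : V} (hb : b ∈ B) :
    (b ∈ S ∧ a b = l b ∧ a (m b) = τ - l b ∧ 2 * l b ≤ τ) ∨
      (m b ∈ S ∧ a b = τ - l (m b) ∧ a (m b) = l (m b) ∧ 2 * l (m b) ≤ τ) := by
  rcases hB.half b hb with h | h
  · have h1 := hB.aS b hb h
    have h2 := hS.s4 b h
    exact Or.inl ⟨h, h1.1, h1.2, by omega⟩
  · have h1 := hB.aS (m b) (hB.mB b hb) h
    rw [hM.invol] at h1
    have h2 := hS.s4 (m b) h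
    exact Or.inr ⟨h, h1.2, h1.1, by omega⟩

/-- Job PR. `F₁` and `B` are disjoint (`ctr_walk_not_mem`). The relaxation property. Cases: `x, y ∉ B`: the edge `E x (m y) k` is an edge of `ctr`. `y ∈ B` (equivalently `m y ∈ B`): right alternative.
`x ∈ B`, `y ∉ B`: if `m y = c`: right alternative, as `F₁ c`. Otherwise `ctr c (m y) (k + (a x - l c))` is an edge of `ctr`; use `rel` for `c → y`, with `a₁ c = l c < a x`. -/
theorem pd_lift_rel (hM : Mt m E) (hB : Blossom m E u S l τ c B a) (h₁ : Result m (ctr E l c B a) u (S \ B) l τ F₁ a₁)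
    (x y : V) (k : ℕ) (hx : F₁ x ∨ x ∈ B) (he : E x (m y) k) :
    ((F₁ y ∨ y ∈ B) ∧ (if y ∈ B then a y else a₁ y) ≤ (if x ∈ B then a x else a₁ x) + k) ∨ (F₁ (m y) ∨ m y ∈ B) := by
  by_cases hyB : y ∈ B
  · exact Or.inr (Or.inr (hB.mB y hyB))
  · have hmyB : m y ∉ B := pw_mem' hM hB hyB
    rw [if_neg hyB]
    by_cases hxB : x ∈ B
    · rw [if_pos hxB]
      obtain ⟨hFc, hac⟩ := pr_c hB h₁
      by_cases hmyc : m y = c
      · right; left; rw [hmyc]; exact hFc
      · have he' : ctr E l c B a c (m y) (k + (a x - l c)) :=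
          Or.inr (Or.inl ⟨rfl, hmyc, hmyB, x, hxB, k, he, rfl⟩)
        have hlc := hB.lc x hxB
        rcases h₁.rel c y _ hFc he' with h | h
        · left
          exact ⟨Or.inl h.1, by have := h.2; omega⟩
        · exact Or.inr (Or.inl h)
    · rw [if_neg hxB]
      have hF : F₁ x := hx.resolve_right hxB
      have he' : ctr E l c B a x (m y) k := Or.inl ⟨hxB, hmyB, he⟩
      rcases h₁.rel x y k hF he' with h | h
      · exact Or.inl ⟨Or.inl h.1, h.2⟩
      · exact Or.inr (Or.inl h)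

/-- Job PR. For `x ∈ B`: `a x + a (m x) = τ` (`half`, `aS`; note `m (m x) = x`, and `l x ≤ τ` by `s4`; `τ₀` is the time of the old state, `τ` the time of the bridging event). -/
theorem pd_lift_t1 (hM : Mt m E) {τ₀ : ℕ} (hS : State m E u S l τ₀ D) (hτ : τ₀ ≤ τ) (hB : Blossom m E u S l τ c B a) (h₁ : Result m (ctr E l c B a) u (S \ B) l τ F₁ a₁) (x : V)
    (hx : F₁ x ∨ x ∈ B) (hx' : F₁ (m x) ∨ m x ∈ B) :
    τ ≤ (if x ∈ B then a x else a₁ x) + (if m x ∈ B then a (m x) else a₁ (m x)) := by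
  by_cases hxB : x ∈ B
  · have hmxB := hB.mB x hxB
    rw [if_pos hxB, if_pos hmxB]
    rcases pr_half hM hS hτ hB hxB with h | h <;> omega
  · have hmxB : m x ∉ B := pw_mem' hM hB hxB
    rw [if_neg hxB, if_neg hmxB]
    exact h₁.t1 x (hx.resolve_right hxB) (hx'.resolve_right hmxB)

private theorem pr_t2 (hM : Mt m E) {τ₀ : ℕ} (hS : State m E u S l τ₀ D) (hτ : τ₀ ≤ τ) (hB : Blossom m E u S l τ c B a)
    (hb : ∀ p ∈ S, ∀ q ∈ S, ∀ k, E p q k → τ ≤ l p + l q + k) (h₁ : Result m (ctr E l c B a) u (S \ B) l τ F₁ a₁)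
    (x y : V) (k : ℕ) (hxB : x ∈ B) (hy : F₁ y ∨ y ∈ B) (he : E x y k) :
    τ ≤ a x + (if y ∈ B then a y else a₁ y) + k := by
  have he' : E y x k := hM.symm _ _ _ he
  have hlx := pr_half hM hS hτ hB hxB
  by_cases hyB : y ∈ B
  · rw [if_pos hyB]
    have hly := pr_half hM hS hτ hB hyB
    rcases hlx with h1 | h1
    · rcases hly with h2 | h2
      · have := hb x h1.1 y h2.1 k he
        omega
      · have := hS.s3a x h1.1 (m y) h2.1 k (by rw [hM.invol]; exact he)
        omega
    · rcases hly with h2 | h2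
      · have := hS.s3a y h2.1 (m x) h1.1 k (by rw [hM.invol]; exact he')
        omega
      · omega
  · rw [if_neg hyB]
    have hFy : F₁ y := hy.resolve_right hyB
    obtain ⟨hFc, hac⟩ := pr_c hB h₁
    by_cases hyc : y = c
    · subst hyc
      rw [hac]
      rcases hlx with h1 | h1
      · have := hb x h1.1 y hB.cS k he
        omega
      · have := hS.s3a y hB.cS (m x) h1.1 k (by rw [hM.invol]; exact he')
        omega
    · have he2 : ctr E l c B a c y (k + (a x - l c)) :=
        Or.inr (Or.inl ⟨rfl, hyc, hyB, x, hxB, k, he, rfl⟩)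
      have hlc := hB.lc x hxB
      have := h₁.t2 c y _ hFc hFy he2
      omega

/-- Job PR. Cases: both outside of `B`: `t2` for the edge of `ctr`. One in `B` (say `x`), `y ∉ B`, `y ≠ c`: the edge `ctr c y (k + (a x - l c))`. `x ∈ B`, `y = c`: if `x ∈ S`: `hb` (levels `a x = l x`,
`a₁ c = l c`); if `z = m x ∈ S`: the arc `c → z` (`E c (m z) k`, `m z = x`), so `l z ≤ l c + k` (`s3a`), `a x = τ - l z`. Both in `B`: both in `S`: `hb`. `x ∈ S`, `z = m y ∈ S`: arc `x → z` (`E x (m z) k`): `l z ≤ l x + k`,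
`a y = τ - l z`. Both mates in `S`: `2 l z ≤ τ` for both, so `(τ - l z) + (τ - l z') ≥ τ`. (Here `τ` is the time of the bridging event, `hs4 : 2 l z ≤ τ`.) -/
theorem pd_lift_t2 (hM : Mt m E) {τ₀ : ℕ} (hS : State m E u S l τ₀ D) (hτ : τ₀ ≤ τ) (hB : Blossom m E u S l τ c B a)
    (hb : ∀ p ∈ S, ∀ q ∈ S, ∀ k, E p q k → τ ≤ l p + l q + k) (h₁ : Result m (ctr E l c B a) u (S \ B) l τ F₁ a₁)
    (x y : V) (k : ℕ) (hx : F₁ x ∨ x ∈ B) (hy : F₁ y ∨ y ∈ B) (he : E x y k) :
    τ ≤ (if x ∈ B then a x else a₁ x) + (if y ∈ B then a y else a₁ y) + k := by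
  by_cases hxB : x ∈ B
  · rw [if_pos hxB]
    exact pr_t2 hM hS hτ hB hb h₁ x y k hxB hy he
  · by_cases hyB : y ∈ B
    · have := pr_t2 hM hS hτ hB hb h₁ y x k hyB hx (hM.symm _ _ _ he)
      rw [if_neg hxB] at this ⊢
      rw [if_pos hyB]
      omega
    · rw [if_neg hxB, if_neg hyB]
      exact h₁.t2 x y k (hx.resolve_right hxB) (hy.resolve_right hyB) (Or.inl ⟨hxB, hyB, he⟩)

private theorem pu_step (hM : Mt m E) (hB : Blossom m E u S l τ c B a)
    (h₁ : Result m (ctr E l c B a) u (S \ B) l τ F₁ a₁) (θ : ℕ) (x y : V)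
    (h : AdjF m E (fun x => F₁ x ∨ x ∈ B) (fun x => if x ∈ B then a x else a₁ x) θ x y) :
    (if x ∈ B then c else x) = (if y ∈ B then c else y) ∨
      AdjF m (ctr E l c B a) F₁ a₁ θ (if x ∈ B then c else x) (if y ∈ B then c else y) := by
  obtain ⟨hFc, hac⟩ := pr_c hB h₁
  obtain ⟨hx, hy, hxy⟩ := h
  simp only at hx hy hxy
  by_cases hxB : x ∈ B
  · by_cases hyB : y ∈ B
    · left; rw [if_pos hxB, if_pos hyB]
    · have hFy : F₁ y := hy.resolve_right hyB
      rw [if_pos hxB, if_neg hyB] at hxy ⊢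
      rcases hxy with ⟨k, he, hk⟩ | ⟨h1, -⟩
      · by_cases hyc : y = c
        · left; exact hyc.symm
        · right
          have hlc := hB.lc x hxB
          refine ⟨hFc, hFy, Or.inl ⟨k + (a x - l c),
            Or.inr (Or.inl ⟨rfl, hyc, hyB, x, hxB, k, he, rfl⟩), by omega⟩⟩
      · rw [h1] at hyB
        exact absurd (hB.mB x hxB) hyB
  · have hFx : F₁ x := hx.resolve_right hxB
    by_cases hyB : y ∈ B
    · rw [if_neg hxB, if_pos hyB] at hxy ⊢
      rcases hxy with ⟨k, he, hk⟩ | ⟨h1, -⟩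
      · by_cases hxc : x = c
        · left; exact hxc
        · right
          have hlc := hB.lc y hyB
          refine ⟨hFx, hFc, Or.inl ⟨k + (a y - l c),
            Or.inr (Or.inr ⟨rfl, hxc, hxB, y, hyB, k, hM.symm _ _ _ he, rfl⟩), by omega⟩⟩
      · rw [h1] at hyB
        exact absurd hyB (pw_mem' hM hB hxB)
    · have hFy : F₁ y := hy.resolve_right hyB
      rw [if_neg hxB, if_neg hyB] at hxy ⊢
      right
      refine ⟨hFx, hFy, ?_⟩
      rcases hxy with ⟨k, he, hk⟩ | h1
      · exact Or.inl ⟨k, Or.inl ⟨hxB, hyB, he⟩, hk⟩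
      · exact Or.inr h1

private theorem pu_al (hM : Mt m E) {τ₀ : ℕ} (hS : State m E u S l τ₀ D) (hτ : τ₀ ≤ τ)
    (hB : Blossom m E u S l τ c B a) (θ : ℕ) (hθ : τ ≤ θ) (x : V)
    (hx : AlF m (fun x => F₁ x ∨ x ∈ B) (fun x => if x ∈ B then a x else a₁ x) θ x) :
    x ∉ B ∧ AlF m F₁ a₁ θ x := by
  unfold AlF at hx ⊢
  have hxB : x ∉ B := by
    intro hxB
    have hmxB := hB.mB x hxB
    apply hx
    refine ⟨Or.inr hxB, Or.inr hmxB, ?_⟩
    simp only [if_pos hxB, if_pos hmxB]
    rcases pr_half hM hS hτ hB hxB with h | h <;> omega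
  have hmxB : m x ∉ B := pw_mem' hM hB hxB
  refine ⟨hxB, fun h => hx ⟨Or.inl h.1, Or.inl h.2.1, ?_⟩⟩
  simp only [if_neg hxB, if_neg hmxB]
  exact h.2.2

/-- Job PU. Two alive vertices in one component are equal. Let `F x := F₁ x ∨ x ∈ B`, `a' x := if x ∈ B then a x else a₁ x`. `t1`, `t2` (the hypotheses `ht1`, `ht2`) say that for `θ < τ` there are no edges in
`AdjF m E F a' θ`, so `x = y`. For `θ ≥ τ`: let `ρ x = if x ∈ B then c else x`. If `AdjF m E F a' θ x y` then `ρ x = ρ y` or `AdjF m (ctr …) F₁ a₁ θ (ρ x) (ρ y)`: both outside of `B`: same edge or pair;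
`x ∈ B`, `y ∉ B`, `y ≠ c`, edge of weight `k`: the edge `ctr c y (k + (a x - l c))`, with `a₁ c + a₁ y + (k + (a x - l c)) = a x + a₁ y + k`. So `ρ x`, `ρ y` are connected in `ctr`. Alive vertices are not in `B` for `θ ≥ τ`
(`a x + a (m x) = τ` for `x ∈ B`, see `pd_lift_t1`), and for `x ∉ B` (then `m x ∉ B`) alive with respect to `F₁, a₁` is the same as alive with respect to `F, a'`. -/
theorem pd_lift_uu (hM : Mt m E) {τ₀ : ℕ} (hS : State m E u S l τ₀ D) (hτ : τ₀ ≤ τ) (hB : Blossom m E u S l τ c B a) (h₁ : Result m (ctr E l c B a) u (S \ B) l τ F₁ a₁)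
    (ht1 : ∀ x, (F₁ x ∨ x ∈ B) → (F₁ (m x) ∨ m x ∈ B) → τ ≤ (if x ∈ B then a x else a₁ x) + (if m x ∈ B then a (m x) else a₁ (m x)))
    (ht2 : ∀ x y k, (F₁ x ∨ x ∈ B) → (F₁ y ∨ y ∈ B) → E x y k → τ ≤ (if x ∈ B then a x else a₁ x) + (if y ∈ B then a y else a₁ y) + k)
    (θ : ℕ) (x y : V) (h : ReflTransGen (AdjF m E (fun x => F₁ x ∨ x ∈ B) (fun x => if x ∈ B then a x else a₁ x) θ) x y)
    (hx : AlF m (fun x => F₁ x ∨ x ∈ B) (fun x => if x ∈ B then a x else a₁ x) θ x)
    (hy : AlF m (fun x => F₁ x ∨ x ∈ B) (fun x => if x ∈ B then a x else a₁ x) θ y) : x = y := by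
  rcases lt_or_ge θ τ with hθ | hθ
  · rcases ReflTransGen.cases_head h with h1 | ⟨z, hz, -⟩
    · exact h1
    · exfalso
      obtain ⟨hFx, hFz, hxz⟩ := hz
      rcases hxz with ⟨k, he, hk⟩ | ⟨h1, h2⟩
      · have := ht2 x z k hFx hFz he
        simp only at hk
        omega
      · subst h1
        have := ht1 x hFx hFz
        simp only at h2
        omega
  · obtain ⟨hxB, hxA⟩ := pu_al hM hS hτ hB θ hθ x hx
    obtain ⟨hyB, hyA⟩ := pu_al hM hS hτ hB θ hθ y hy
    have hconn : ReflTransGen (AdjF m (ctr E l c B a) F₁ a₁ θ) (if x ∈ B then c else x)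
        (if y ∈ B then c else y) := by
      clear hy hyB hyA
      induction h with
      | refl => exact ReflTransGen.refl
      | tail _ hstep ih =>
        rcases pu_step hM hB h₁ θ _ _ hstep with h2 | h2
        · rw [← h2]; exact ih
        · exact ih.tail h2
    rw [if_neg hxB, if_neg hyB] at hconn
    exact h₁.uu θ x y hconn hxA hyA

end Pool.Agent.AUG
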