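import Pool.Agent.Lib.MP_0087d5_lc.AUG.PDstate
import Pool.Agent.Lib.MP_0087d5_lc.AUG.PDblossom
import Pool.Agent.Lib.MP_0087d5_lc.AUG.PDlift

/-!
# The primal-dual theorem

Job PM.
-/

namespace Pool.Agent.AUG

open Relation

variable {V : Type*} {m : V → V} {u : V}

open Classical in
/-- Job PM. The primal-dual theorem. Induction on `N` for all `E, S, l, τ, D`. (`N = 0` is impossible: `S` is disjoint from `D` and contains `u`, so `2 |Dᶜ| ≤ |S| ≤ |Dᶜ|` fails.)
Step. Let `G` = set of the numbers `2 (l x + k)` for arcs from `x ∈ S` to `y`, `y ∉ S`, `m y ∉ S`; `H` = set of the numbers `l p + l q + k` for edges `E p q k`, `p, q ∈ S`.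
1. Both empty: `pd_final`. 2. `G` nonempty with minimum `g` (attained at `x, y, k`), and `g ≤ h` for all `h ∈ H`: `pd_grow`, `pd_grow_result`; the measure: `|insert y S| = |S| + 1`.
3. Otherwise `H` is nonempty, its minimum `τ'` attained at `p, q, k`; `τ' ≤ g` for all `g ∈ G`. `pd_blossom` gives `c, B, a`; `pd_ctr_state`, `ctr_mt`; the measure: `B` is disjoint from `D` (`half`, `deadS`, `deadm`),
`|(D ∪ B)ᶜ| = |Dᶜ| - |B|`, `|S ∖ B| ≥ |S| - |B|`, `|B| ≥ 1`, so `2 |(D ∪ B)ᶜ| ≤ N + 1 + |S| - 2 |B| ≤ N + |S ∖ B|`. The induction hypothesis gives `F₁, a₁`; the result is `F x := F₁ x ∨ x ∈ B`, `fun x => if x ∈ B then a x else a₁ x`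
by `pd_lift_att`, `pd_lift_rel`, `pd_lift_uu`, `pd_lift_t1`, `pd_lift_t2`; `ext`: for `x ∈ S ∩ B` `aS`, for `x ∈ S ∖ B` `ext` of the contracted graph; and `τ ≤ τ'` (`s3c`). (`m u ≠ u` by `s1`, `root`.) -/
theorem pd_main [Fintype V] (N : ℕ) : ∀ (E : V → V → ℕ → Prop) (S : Finset V) (l : V → ℕ) (τ : ℕ) (D : Finset V), Mt m E → State m E u S l τ D →
    2 * (Finset.univ \ D).card ≤ N + S.card → ∃ F a, Result m E u S l τ F a := by
  induction N with
  | zero =>
    intro E S l τ D hM hS hN
    exfalso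
    have h1 : S ⊆ Finset.univ \ D := fun x hx => by simp [hS.deadS x hx]
    have h2 := Finset.card_le_card h1
    have h3 : 0 < S.card := Finset.card_pos.2 ⟨u, hS.root⟩
    omega
  | succ N ih =>
    intro E S l τ D hM hS hN
    have hu : m u ≠ u := by
      intro h
      have h1 := hS.s1 u hS.root
      rw [h] at h1
      exact h1 hS.root
    have bridge : ∀ p ∈ S, ∀ q ∈ S, ∀ k, E p q k →
        (∀ x ∈ S, ∀ y k', E x (m y) k' → y ∉ S → m y ∉ S → l p + l q + k ≤ 2 * (l x + k')) →
        (∀ p' ∈ S, ∀ q' ∈ S, ∀ k', E p' q' k' → l p + l q + k ≤ l p' + l q' + k') →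
        ∃ F a, Result m E u S l τ F a := by
      intro p hp q hq k hk hg hb
      have hτ : τ ≤ l p + l q + k := hS.s3c p hp q hq k hk
      obtain ⟨c, B, a, hB⟩ := pd_blossom hM hS hp hq hk
      have hS' := pd_ctr_state hM hS hτ hB hg hb
      have hM' := ctr_mt hM hS hB
      have hBD : ∀ x ∈ B, x ∉ D := by
        intro x hx hxD
        rcases hB.half x hx with h | h
        · exact hS.deadS x h hxD
        · exact hS.deadS _ h (hS.deadm x hxD)
      have hcard : (Finset.univ \ (D ∪ B)).card + B.card = (Finset.univ \ D).card := by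
        have e : Finset.univ \ D = (Finset.univ \ (D ∪ B)) ∪ B := by
          ext x
          have := hBD x
          simp only [Finset.mem_sdiff, Finset.mem_univ, true_and, Finset.mem_union]
          tauto
        rw [e, Finset.card_union_of_disjoint]
        rw [Finset.disjoint_left]
        intro x hx
        simp only [Finset.mem_sdiff, Finset.mem_univ, true_and, Finset.mem_union] at hx
        tauto
      have hSB : S.card ≤ (S \ B).card + B.card := by
        have := Finset.le_card_sdiff B S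
        omega
      have hB1 : 0 < B.card := hB.ne.card_pos
      obtain ⟨F₁, a₁, h₁⟩ := ih (ctr E l c B a) (S \ B) l (l p + l q + k) (D ∪ B) hM' hS' (by omega)
      have ht1 := pd_lift_t1 hM hS hτ hB h₁
      have ht2 := pd_lift_t2 hM hS hτ hB hb h₁
      refine ⟨fun x => F₁ x ∨ x ∈ B, fun x => if x ∈ B then a x else a₁ x, ?_⟩
      exact
        { att := fun x hx => pd_lift_att hM hu hB h₁ x hx
          rel := fun x y k hx he => pd_lift_rel hM hB h₁ x y k hx he
          uu := pd_lift_uu hM hS hτ hB h₁ ht1 ht2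
          ext := by
            intro x hx
            by_cases hxB : x ∈ B
            · refine ⟨Or.inr hxB, ?_⟩
              simp only [hxB, if_true]
              exact (hB.aS x hxB hx).1
            · have := h₁.ext x (Finset.mem_sdiff.2 ⟨hx, hxB⟩)
              refine ⟨Or.inl this.1, ?_⟩
              simp only [hxB, if_false]
              exact this.2
          t1 := fun x hx hx' => hτ.trans (ht1 x hx hx')
          t2 := fun x y k hx hy he => hτ.trans (ht2 x y k hx hy he) }
    have grow : ∀ x ∈ S, ∀ y k, E x (m y) k → y ∉ S → m y ∉ S →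
        (∀ x' ∈ S, ∀ y' k', E x' (m y') k' → y' ∉ S → m y' ∉ S → l x + k ≤ l x' + k') →
        (∀ p ∈ S, ∀ q ∈ S, ∀ k', E p q k' → 2 * (l x + k) ≤ l p + l q + k') →
        ∃ F a, Result m E u S l τ F a := by
      intro x hx y k he hy hy' hg hb
      have hS' := pd_grow hM hS hx he hy hy' hg hb
      obtain ⟨F, a, h⟩ := ih E (insert y S) (Function.update l y (l x + k)) (2 * (l x + k)) D hM hS' (by
        rw [Finset.card_insert_of_notMem hy]
        omega)
      exact ⟨F, a, pd_grow_result hS hx he hy hy' h⟩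
    by_cases hG : ∃ g, ∃ x ∈ S, ∃ y k, E x (m y) k ∧ y ∉ S ∧ m y ∉ S ∧ g = l x + k
    · obtain ⟨x, hx, y, k, he, hy, hy', hgk⟩ := Nat.find_spec hG
      have hgmin : ∀ x' ∈ S, ∀ y' k', E x' (m y') k' → y' ∉ S → m y' ∉ S → l x + k ≤ l x' + k' := by
        intro x' hx' y' k' he' h1 h2
        rw [← hgk]
        exact Nat.find_min' hG ⟨x', hx', y', k', he', h1, h2, rfl⟩
      by_cases hH : ∃ h, ∃ p ∈ S, ∃ q ∈ S, ∃ k, E p q k ∧ h = l p + l q + k
      · obtain ⟨p, hp, q, hq, k₂, he₂, hhk⟩ := Nat.find_spec hH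
        have hhmin : ∀ p' ∈ S, ∀ q' ∈ S, ∀ k', E p' q' k' → l p + l q + k₂ ≤ l p' + l q' + k' := by
          intro p' hp' q' hq' k' he'
          rw [← hhk]
          exact Nat.find_min' hH ⟨p', hp', q', hq', k', he', rfl⟩
        rcases le_or_gt (2 * (l x + k)) (l p + l q + k₂) with hle | hlt
        · exact grow x hx y k he hy hy' hgmin (fun p' hp' q' hq' k' he' => hle.trans (hhmin p' hp' q' hq' k' he'))
        · refine bridge p hp q hq k₂ he₂ ?_ hhmin
          intro x' hx' y' k' he' h1 h2
          have := hgmin x' hx' y' k' he' h1 h2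
          omega
      · refine grow x hx y k he hy hy' hgmin ?_
        intro p hp q hq k' he'
        exact absurd ⟨_, p, hp, q, hq, k', he', rfl⟩ hH
    · have hg0 : ∀ x ∈ S, ∀ y k, E x (m y) k → y ∈ S ∨ m y ∈ S := by
        intro x hx y k he
        by_contra hcon
        rw [not_or] at hcon
        exact hG ⟨_, x, hx, y, k, he, hcon.1, hcon.2, rfl⟩
      by_cases hH : ∃ h, ∃ p ∈ S, ∃ q ∈ S, ∃ k, E p q k ∧ h = l p + l q + k
      · obtain ⟨p, hp, q, hq, k₂, he₂, hhk⟩ := Nat.find_spec hH
        have hhmin : ∀ p' ∈ S, ∀ q' ∈ S, ∀ k', E p' q' k' → l p + l q + k₂ ≤ l p' + l q' + k' := by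
          intro p' hp' q' hq' k' he'
          rw [← hhk]
          exact Nat.find_min' hH ⟨p', hp', q', hq', k', he', rfl⟩
        refine bridge p hp q hq k₂ he₂ ?_ hhmin
        intro x hx y k he h1 h2
        rcases hg0 x hx y k he with h | h
        · exact absurd h h1
        · exact absurd h h2
      · refine ⟨_, _, pd_final hM hS hg0 ?_⟩
        intro p hp q hq k' he'
        exact hH ⟨_, p, hp, q, hq, k', he', rfl⟩

open Classical in
/-- Job PM. The unweighted case: start with `S = {u}`, `l = 0`, `τ = 0`, `D = ∅`. -/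
theorem sol_exists [Fintype V] {E : V → V → Prop} (hM : MM m E) (hu : m u ≠ u) :
    ∃ F a, Sol m (one E) u F a ∧ F u ∧ a u = 0 := by
  have hMt : Mt m (one E) := hM.mt
  have hS : State m (one E) u {u} (fun _ => 0) 0 ∅ :=
    { root := Finset.mem_singleton_self u
      lroot := rfl
      s1 := by
        intro x hx
        rw [Finset.mem_singleton] at hx ⊢
        rw [hx]
        exact hu
      s2 := by
        intro y hy hne
        exact absurd (Finset.mem_singleton.1 hy) hne
      s3a := fun _ _ _ _ _ _ => Nat.zero_le _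
      s3b := fun _ _ _ _ _ _ _ => Nat.zero_le _
      s3c := fun _ _ _ _ _ _ => Nat.zero_le _
      s4 := fun _ _ => le_rfl
      dead := fun x hx => absurd hx (Finset.notMem_empty x)
      deadm := fun x hx => absurd hx (Finset.notMem_empty x)
      deadS := fun x _ => Finset.notMem_empty x }
  obtain ⟨F, a, h⟩ := pd_main (2 * (Finset.univ \ (∅ : Finset V)).card) (one E) {u} (fun _ => 0) 0 ∅ hMt hS (Nat.le_add_right _ _)
  have := h.ext u (Finset.mem_singleton_self u)
  exact ⟨F, a, h.toSol, this.1, this.2⟩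

end Pool.Agent.AUG
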