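import Pool.Agent.Lib.MP_0087d5_lc.AUG.PDdefs

/-!
# The primal-dual theorem: final state, growth, state of the contracted graph

Jobs PG (`pd_final`, `pd_grow`, `pd_grow_result`), PC (`ctr_mt`, `pd_ctr_state`).
-/

namespace Pool.Agent.AUG

open Relation

variable {V : Type*} [DecidableEq V] {m : V → V} {E : V → V → ℕ → Prop} {u : V} {S D : Finset V} {l : V → ℕ} {τ : ℕ}

/-- Job PG. Nothing to do: no arc leads from `S` to a pair outside of `S`, and there is no edge inside `S`. Take `F = S`, `a = l`.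
`att`: strong induction on `l` using `s2` (weights are positive): a walk inside `S` whose vertices have level `< l y` is extended by `y`;
so prove: for all `y ∈ S` there is `L` with `WW m E u (y :: L) (l y)` and all vertices of `L` are in `S` and have smaller level. `m y ∉ S` by `s1`.
`rel`: `y ∈ S` by `s3a`, otherwise `m y ∈ S` by `hg`. `uu`: no edges and no pairs inside `S`, so `ReflTransGen` is equality. `t1`, `t2` are vacuous. -/
theorem pd_final (hM : Mt m E) (hS : State m E u S l τ D)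
    (hg : ∀ x ∈ S, ∀ y k, E x (m y) k → y ∈ S ∨ m y ∈ S) (hb : ∀ x ∈ S, ∀ y ∈ S, ∀ k, ¬ E x y k) :
    Result m E u S l τ (fun x => x ∈ S) l := by
  classical
  have hatt : ∀ n : ℕ, ∀ y ∈ S, l y = n → ∃ L, WW m E u (y :: L) (l y) ∧ ∀ z ∈ L, z ∈ S ∧ l z < l y := by
    intro n
    induction n using Nat.strong_induction_on with
    | _ n ih =>
      intro y hy hn
      by_cases hyu : y = u
      · refine ⟨[], ?_, fun z hz => absurd hz List.not_mem_nil⟩
        rw [hyu, hS.lroot]
        exact WW.nil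
      · obtain ⟨x, hx, k, he, hl⟩ := hS.s2 y hy hyu
        have hk := hM.pos _ _ _ he
        obtain ⟨L, hL, hLS⟩ := ih (l x) (by omega) x hx rfl
        refine ⟨x :: L, ?_, ?_⟩
        · rw [hl]
          refine WW.cons hL he ?_ ?_
          · intro hmem
            rcases List.mem_cons.1 hmem with h | h
            · rw [h] at hl
              omega
            · have := (hLS y h).2
              omega
          · intro hmem
            rcases List.mem_cons.1 hmem with h | h
            · exact hS.s1 y hy (h ▸ hx)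
            · exact hS.s1 y hy (hLS _ h).1
        · intro z hz
          rcases List.mem_cons.1 hz with h | h
          · rw [h]
            exact ⟨hx, by omega⟩
          · have := hLS z h
            exact ⟨this.1, by omega⟩
  have hadj : ∀ θ x y, ¬ AdjF m E (fun x => x ∈ S) l θ x y := by
    rintro θ x y ⟨hx, hy, ⟨k, he, -⟩ | ⟨rfl, -⟩⟩
    · exact hb x hx y hy k he
    · exact hS.s1 x hx hy
  refine { att := ?_, rel := ?_, uu := ?_, ext := ?_, t1 := ?_, t2 := ?_ }
  · intro x hx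
    obtain ⟨L, hL, -⟩ := hatt (l x) x hx rfl
    exact ⟨L, hL⟩
  · intro x y k hx he
    rcases hg x hx y k he with h | h
    · exact Or.inl ⟨h, hS.s3a x hx y h k he⟩
    · exact Or.inr h
  · intro θ x y h _ _
    induction h with
    | refl => rfl
    | tail _ h _ => exact absurd h (hadj _ _ _)
  · intro x hx
    exact ⟨hx, rfl⟩
  · intro x hx hx'
    exact absurd hx' (hS.s1 x hx)
  · intro x y k hx hy he
    exact absurd he (hb x hx y hy k)

/-- Job PG. Growth: `x → y` is an arc from `S` to a pair outside of `S` with `l x + k` minimal, and no bridging edge comes earlier. Then `y` joins `S`, the new time is `2 (l x + k)`.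
Write `τ' = 2 (l x + k)`, `l' y = l x + k`, so `2 l' y = τ'`. All checks: `s1`: `m y ∉ S`, `m y ≠ y` (`cov` for the edge `E x (m y) k` and `symm`: `m (m y) ≠ m y`).
`s3a` for arcs from `y` to `z ∈ S`: `2 l z ≤ τ ≤ τ'` (`s4`, and `τ ≤ τ'` is `s3b`). For arcs `x' → y` with `x' ∈ S`: `hg`. Arc `y → y`: trivial.
`s3b`: arcs from `S`: `hg` (a pair outside of `S ∪ {y}` is outside of `S`); arcs from `y`: trivial as `2 l' y = τ'`.
`s3c`: both in `S`: `hb`. `E z y k'` with `z ∈ S`: it is the arc `z → m y`, and `m y ∉ S`, `m (m y) = y ∉ S`: by `hg` `2 (l z + k') ≥ τ'`, and `2 l' y = τ'`. `E y y k'` does not exist. -/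
theorem pd_grow (hM : Mt m E) (hS : State m E u S l τ D) {x y : V} {k : ℕ} (hx : x ∈ S) (he : E x (m y) k) (hy : y ∉ S) (hy' : m y ∉ S)
    (hg : ∀ x' ∈ S, ∀ y' k', E x' (m y') k' → y' ∉ S → m y' ∉ S → l x + k ≤ l x' + k')
    (hb : ∀ p ∈ S, ∀ q ∈ S, ∀ k', E p q k' → 2 * (l x + k) ≤ l p + l q + k') :
    State m E u (insert y S) (Function.update l y (l x + k)) (2 * (l x + k)) D := by
  have hmy : m y ≠ y := by
    have h := hM.cov _ _ _ (hM.symm _ _ _ he)
    rw [hM.invol] at h
    exact fun h' => h h'.symm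
  have hτ : τ ≤ 2 * (l x + k) := hS.s3b x hx y k he hy hy'
  have hlS : ∀ z ∈ S, Function.update l y (l x + k) z = l z := by
    intro z hz
    have hzy : z ≠ y := fun h => hy (h ▸ hz)
    exact Function.update_of_ne hzy _ _
  have hly : Function.update l y (l x + k) y = l x + k := Function.update_self _ _ _
  refine { root := ?_, lroot := ?_, s1 := ?_, s2 := ?_, s3a := ?_, s3b := ?_, s3c := ?_, s4 := ?_, dead := hS.dead, deadm := hS.deadm, deadS := ?_ }
  · exact Finset.mem_insert_of_mem hS.root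
  · rw [hlS u hS.root, hS.lroot]
  · intro z hz hz'
    rcases Finset.mem_insert.1 hz with rfl | h
    · rcases Finset.mem_insert.1 hz' with h' | h'
      · exact hmy h'
      · exact hy' h'
    · rcases Finset.mem_insert.1 hz' with h' | h'
      · rw [← h', hM.invol] at hy'
        exact hy' h
      · exact hS.s1 z h h'
  · intro z hz hzu
    rcases Finset.mem_insert.1 hz with rfl | h
    · exact ⟨x, Finset.mem_insert_of_mem hx, k, he, by rw [hly, hlS x hx]⟩
    · obtain ⟨w, hw, k', he', hl⟩ := hS.s2 z h hzu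
      exact ⟨w, Finset.mem_insert_of_mem hw, k', he', by rw [hlS z h, hlS w hw, hl]⟩
  · intro p hp0 q hq0 k' he'
    rcases Finset.mem_insert.1 hp0 with rfl | hp
    · rcases Finset.mem_insert.1 hq0 with rfl | hq
      · omega
      · rw [hly, hlS q hq]
        have := hS.s4 q hq
        omega
    · rcases Finset.mem_insert.1 hq0 with rfl | hq
      · rw [hly, hlS p hp]
        exact hg p hp _ k' he' hy hy'
      · rw [hlS p hp, hlS q hq]
        exact hS.s3a p hp q hq k' he'
  · intro p hp q k' he' hq hq'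
    rcases Finset.mem_insert.1 hp with rfl | hp
    · rw [hly]
      omega
    · rw [hlS p hp]
      have := hg p hp q k' he' (fun h => hq (Finset.mem_insert_of_mem h)) (fun h => hq' (Finset.mem_insert_of_mem h))
      omega
  · have hkey : ∀ p ∈ S, ∀ k', E p y k' → l x + k ≤ l p + k' := by
      intro p hp k' he'
      have h : E p (m (m y)) k' := by
        rw [hM.invol]
        exact he'
      exact hg p hp (m y) k' h hy' (by rw [hM.invol]; exact hy)
    intro p hp0 q hq0 k' he'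
    rcases Finset.mem_insert.1 hp0 with rfl | hp
    · rcases Finset.mem_insert.1 hq0 with rfl | hq
      · exact absurd he' (hM.irrefl _ _)
      · rw [hly, hlS q hq]
        have := hkey q hq k' (hM.symm _ _ _ he')
        omega
    · rcases Finset.mem_insert.1 hq0 with rfl | hq
      · rw [hly, hlS p hp]
        have := hkey p hp k' he'
        omega
      · rw [hlS p hp, hlS q hq]
        exact hb p hp q hq k' he'
  · intro z hz
    rcases Finset.mem_insert.1 hz with rfl | h
    · rw [hly]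
    · rw [hlS z h]
      exact (hS.s4 z h).trans hτ
  · intro z hz
    rcases Finset.mem_insert.1 hz with rfl | h
    · intro hD
      exact hS.dead _ (hS.deadm _ hD) _ _ (hM.symm _ _ _ he)
    · exact hS.deadS z h

/-- Job PG. -/
theorem pd_grow_result (hS : State m E u S l τ D) {x y : V} {k : ℕ} (hx : x ∈ S) (he : E x (m y) k) (hy : y ∉ S) (hy' : m y ∉ S)
    {F : V → Prop} {a : V → ℕ} (h : Result m E u (insert y S) (Function.update l y (l x + k)) (2 * (l x + k)) F a) :
    Result m E u S l τ F a := by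
  have hτ : τ ≤ 2 * (l x + k) := hS.s3b x hx y k he hy hy'
  refine { toSol := h.toSol, ext := ?_, t1 := ?_, t2 := ?_ }
  · intro z hz
    have h1 := h.ext z (Finset.mem_insert_of_mem hz)
    have hzy : z ≠ y := fun h => hy (h ▸ hz)
    rwa [Function.update_of_ne hzy] at h1
  · intro z hz hz'
    exact hτ.trans (h.t1 z hz hz')
  · intro p q k' hp hq he'
    exact hτ.trans (h.t2 p q k' hp hq he')

variable {c : V} {B : Finset V} {a : V → ℕ}

/-- Job PC. The contracted graph satisfies `Mt`. (`irrefl`: the new edges have `y ≠ c`. `pos`: `k₀ ≥ 1`. `cov`: for `x = c`: `m c ≠ c` since `c ∈ S`, `m c ∉ S`.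
For the third case `x ∉ B`, `E b x k₀` gives by `symm` and `cov` `m x ≠ x`.) -/
theorem ctr_mt (hM : Mt m E) (hS : State m E u S l τ D) {τ' : ℕ} (hB : Blossom m E u S l τ' c B a) : Mt m (ctr E l c B a) := by
  refine { invol := hM.invol, symm := ?_, irrefl := ?_, pos := ?_, cov := ?_ }
  · rintro x y k (⟨hx, hy, he⟩ | h | h)
    · exact Or.inl ⟨hy, hx, hM.symm _ _ _ he⟩
    · exact Or.inr (Or.inr h)
    · exact Or.inr (Or.inl h)
  · rintro x k (⟨-, -, he⟩ | ⟨h1, h2, -⟩ | ⟨h1, h2, -⟩)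
    · exact hM.irrefl _ _ he
    · exact h2 h1
    · exact h2 h1
  · rintro x y k (⟨-, -, he⟩ | ⟨-, -, -, b, -, k₀, he, rfl⟩ | ⟨-, -, -, b, -, k₀, he, rfl⟩)
    · exact hM.pos _ _ _ he
    · have := hM.pos _ _ _ he
      omega
    · have := hM.pos _ _ _ he
      omega
  · rintro x y k (⟨-, -, he⟩ | ⟨rfl, -⟩ | ⟨-, -, -, b, -, k₀, he, -⟩)
    · exact hM.cov _ _ _ he
    · exact hB.mc
    · exact hM.cov _ _ _ (hM.symm _ _ _ he)

/-- Job PC. The state of the contracted graph. Here `τ'` is the time of the bridging event: `hg` and `hb` say that no growth event and no bridging event comes before `τ'`.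
Note for `b ∈ B`: if `b ∈ S` then `a b = l b`; otherwise `z = m b ∈ S`, `a b = τ' - l z` and `2 l z ≤ τ'`.
`s2`: `y ∈ S ∖ B`, parent `x ∈ S` (in the old state). If `x ∉ B` the edge survives. If `x ∈ B`: `E x (m y) k` gives the edge `ctr c (m y) (k + (a x - l c))`, and
`l y = l x + k = l c + (k + (a x - l c))` (`m y ≠ c` because `y, c ∈ S` and `s1`; `m y ∉ B` because `y ∉ B`).
`s3a` (x → y, both in S∖B, edge `ctr x (m y) k`): old edge: `s3a`. `x = c`, from `b ∈ B`, `E b (m y) k₀`: need `l y ≤ l c + k = k₀ + a b`: for `b ∈ S`: `s3a`; for `z = m b ∈ S`: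
`l y ≤ k₀ + τ' - l z`, as `2 l y ≤ τ'`, `2 l z ≤ τ'`. `m y = c`: impossible (`y ∈ S`, `m y = c ∈ S`).
`s3b` (x ∈ S∖B, `y, m y ∉ S∖B`; both `y`, `m y` are not in `B` as `m y ∉ B` is part of the edge, hence not in `S`): old edge: `hg`. `x = c`, from `b ∈ B`: `b ∈ S`: `hg` for the arc `b → y`;
`z = m b ∈ S`: `2 (a b) ≥ τ'`. `m y = c`: then `m y ∈ S∖B`, contradiction.
`s3c` (x, y ∈ S∖B, edge `ctr x y k`): old: `hb`. `x = c`, `b ∈ B`, `E b y k₀`, `k = k₀ + a b - l c`: need `τ' ≤ k₀ + a b + l y`: `b ∈ S`: `hb`; `z = m b ∈ S`: `E y (m z) k₀`, the arc `y → z`,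
`s3a`: `l z ≤ l y + k₀`, so `τ' - l z + k₀ + l y ≥ τ'`. `y = c`: symmetric. `dead`, `deadm`, `deadS`: clear (the vertices of `B` have no edges in `ctr`). -/
theorem pd_ctr_state (hM : Mt m E) (hS : State m E u S l τ D) {τ' : ℕ} (hτ : τ ≤ τ') (hB : Blossom m E u S l τ' c B a)
    (hg : ∀ x ∈ S, ∀ y k, E x (m y) k → y ∉ S → m y ∉ S → τ' ≤ 2 * (l x + k))
    (hb : ∀ p ∈ S, ∀ q ∈ S, ∀ k, E p q k → τ' ≤ l p + l q + k) :
    State m (ctr E l c B a) u (S \ B) l τ' (D ∪ B) := by
  have hmB : ∀ z, m z ∈ B → z ∈ B := by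
    intro z hz
    have := hB.mB _ hz
    rwa [hM.invol] at this
  have ha1 : ∀ b ∈ B, b ∈ S → a b = l b := fun b hb hbS => (hB.aS b hb hbS).1
  have ha2 : ∀ b ∈ B, b ∉ S → m b ∈ S ∧ a b = τ' - l (m b) ∧ 2 * l (m b) ≤ τ' := by
    intro b hb hbS
    have hmS : m b ∈ S := (hB.half b hb).resolve_left hbS
    have h := (hB.aS (m b) (hB.mB b hb) hmS).2
    rw [hM.invol] at h
    exact ⟨hmS, h, (hS.s4 _ hmS).trans hτ⟩
  have hcSB : c ∈ S \ B := Finset.mem_sdiff.2 ⟨hB.cS, hB.cB⟩
  refine { root := Finset.mem_sdiff.2 ⟨hS.root, hB.uB⟩, lroot := hS.lroot, s1 := ?_, s2 := ?_, s3a := ?_, s3b := ?_, s3c := ?_, s4 := ?_, dead := ?_, deadm := ?_, deadS := ?_ }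
  · intro x hx hx'
    exact hS.s1 x (Finset.mem_sdiff.1 hx).1 (Finset.mem_sdiff.1 hx').1
  · intro y hy hyu
    obtain ⟨hyS, hyB⟩ := Finset.mem_sdiff.1 hy
    obtain ⟨x, hx, k, he, hl⟩ := hS.s2 y hyS hyu
    by_cases hxB : x ∈ B
    · refine ⟨c, hcSB, k + (a x - l c), Or.inr (Or.inl ⟨rfl, ?_, fun h => hyB (hmB _ h), x, hxB, k, he, rfl⟩), ?_⟩
      · intro h
        exact hS.s1 y hyS (h ▸ hB.cS)
      · have h1 := ha1 x hxB hx
        have h2 := hB.lc x hxB
        omega
    · exact ⟨x, Finset.mem_sdiff.2 ⟨hx, hxB⟩, k, Or.inl ⟨hxB, fun h => hyB (hmB _ h), he⟩, hl⟩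
  · intro x hx y hy k he
    obtain ⟨hxS, hxB⟩ := Finset.mem_sdiff.1 hx
    obtain ⟨hyS, hyB⟩ := Finset.mem_sdiff.1 hy
    rcases he with ⟨-, -, he⟩ | ⟨rfl, -, -, b, hbB, k₀, he, rfl⟩ | ⟨h, -⟩
    · exact hS.s3a x hxS y hyS k he
    · have hlc := hB.lc b hbB
      by_cases hbS : b ∈ S
      · have h1 := ha1 b hbB hbS
        have h2 := hS.s3a b hbS y hyS k₀ he
        omega
      · obtain ⟨hmS, h1, h2⟩ := ha2 b hbB hbS
        have h3 := hS.s4 y hyS
        omega
    · exact absurd hB.cS (h ▸ hS.s1 y hyS)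
  · intro x hx y k he hy hy'
    obtain ⟨hxS, hxB⟩ := Finset.mem_sdiff.1 hx
    rcases he with ⟨-, hyB', he⟩ | ⟨rfl, -, hyB', b, hbB, k₀, he, rfl⟩ | ⟨h, -⟩
    · have hyB : y ∉ B := fun h => hyB' (hB.mB _ h)
      exact hg x hxS y k he (fun h => hy (Finset.mem_sdiff.2 ⟨h, hyB⟩)) (fun h => hy' (Finset.mem_sdiff.2 ⟨h, hyB'⟩))
    · have hyB : y ∉ B := fun h => hyB' (hB.mB _ h)
      have hlc := hB.lc b hbB
      by_cases hbS : b ∈ S
      · have h1 := ha1 b hbB hbS
        have h2 := hg b hbS y k₀ he (fun h => hy (Finset.mem_sdiff.2 ⟨h, hyB⟩)) (fun h => hy' (Finset.mem_sdiff.2 ⟨h, hyB'⟩))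
        omega
      · obtain ⟨hmS, h1, h2⟩ := ha2 b hbB hbS
        omega
    · exact absurd hcSB (h ▸ hy')
  · have key : ∀ y ∈ S \ B, ∀ b ∈ B, ∀ k₀, E b y k₀ → τ' ≤ l c + l y + (k₀ + (a b - l c)) := by
      intro y hy b hbB k₀ he
      obtain ⟨hyS, hyB⟩ := Finset.mem_sdiff.1 hy
      have hlc := hB.lc b hbB
      by_cases hbS : b ∈ S
      · have h1 := ha1 b hbB hbS
        have h2 := hb b hbS y hyS k₀ he
        omega
      · obtain ⟨hmS, h1, h2⟩ := ha2 b hbB hbS
        have he' : E y (m (m b)) k₀ := by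
          rw [hM.invol]
          exact hM.symm _ _ _ he
        have h3 := hS.s3a y hyS (m b) hmS k₀ he'
        omega
    intro x hx y hy k he
    rcases he with ⟨-, -, he⟩ | ⟨rfl, -, -, b, hbB, k₀, he, rfl⟩ | ⟨rfl, -, -, b, hbB, k₀, he, rfl⟩
    · exact hb x (Finset.mem_sdiff.1 hx).1 y (Finset.mem_sdiff.1 hy).1 k he
    · exact key y hy b hbB k₀ he
    · have := key x hx b hbB k₀ he
      omega
  · intro x hx
    exact (hS.s4 x (Finset.mem_sdiff.1 hx).1).trans hτ
  · intro x hx y k he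
    rcases Finset.mem_union.1 hx with hxD | hxB
    · rcases he with ⟨-, -, he⟩ | ⟨rfl, -⟩ | ⟨-, -, -, b, hbB, k₀, he, -⟩
      · exact hS.dead x hxD _ _ he
      · exact hS.deadS _ hB.cS hxD
      · exact hS.dead x hxD _ _ (hM.symm _ _ _ he)
    · rcases he with ⟨h, -⟩ | ⟨rfl, -⟩ | ⟨-, -, h, -⟩
      · exact h hxB
      · exact hB.cB hxB
      · exact h hxB
  · intro x hx
    rcases Finset.mem_union.1 hx with h | h
    · exact Finset.mem_union_left _ (hS.deadm x h)
    · exact Finset.mem_union_right _ (hB.mB x h)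
  · intro x hx hx'
    obtain ⟨hxS, hxB⟩ := Finset.mem_sdiff.1 hx
    rcases Finset.mem_union.1 hx' with h | h
    · exact hS.deadS x hxS h
    · exact hxB h

end Pool.Agent.AUG
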