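import Pool.Agent.Lib.MP_0087d5_lc.AUG.Stage
import Pool.Agent.Lib.MP_0087d5_lc.UPM.NCPlib

/-!
# The distances as a parallel program

`NCP`, `Ext`, `Readers`, `RF`, `RelF` are from `UPM/NCP.lean`, the closure properties from `UPM/NCPlib.lean` (`NCP.ex1`, `NCP.all1`, `NCP.rel2`, `NCP.rel3`, `NCP.comap`, `NCP.tc`, `NCP.pull`, …; see `UPM/Alg.lean` for examples).
Jobs QA (`rtc1`, `rtc2`), QB (`q_sbK` … `q_unkK`), QC (`q_baseK` … `q_AnK`), QD (`q_RnK` … `q_stageK`), QE (`known_…`, `distK`).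
-/

namespace Pool.Agent.AUG

open Relation Pool.Agent.UPM

/-- Job QA. Reflexive transitive closure of a binary relation with one parameter. (`ReflTransGen R a b ↔ a = b ∨ TransGen R a b`, `NCP.tc1` or `NCP.tc`.) -/
theorem rtc1 {S : ℕ → Type} {B : Readers S} {R : ∀ n, S n → Fin n → Fin n → Fin n → Prop}
    (h : NCP S B (Fin 3) (fun n s x => R n s (x 0) (x 1) (x 2))) :
    NCP S B (Fin 3) (fun n s x => ReflTransGen (R n s (x 0)) (x 1) (x 2)) := by
  have h1 : NCP S B (Option (Option (Fin 1)))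
      (fun n s z => R n s (z (some (some 0))) (z (some none)) (z none)) :=
    NCP.comap inferInstance ![some (some 0), some none, none] h
  have h2 := NCP.tc1 (ι := Fin 1) inferInstance (Q := fun n s y a b => R n s (y 0) a b) h1
  have h3 := NCP.comap (κ := Fin 3) inferInstance
    (fun o : Option (Option (Fin 1)) => match o with
      | some (some _) => 0
      | some none => 1
      | none => 2) h2
  refine NCP.congr (NCP.or (NCP.eq inferInstance 2 1) h3) (fun n s x => ?_)
  rw [Relation.reflTransGen_iff_eq_or_transGen]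

/-- Job QA. The same for a relation between pairs. (`NCP.tc` with `κ = Fin 2`, `Fl = Unit`.) -/
theorem rtc2 {S : ℕ → Type} {B : Readers S} {R : ∀ n, S n → Fin n → Fin n × Fin n → Fin n × Fin n → Prop}
    (h : NCP S B (Fin 5) (fun n s x => R n s (x 0) (x 1, x 2) (x 3, x 4))) :
    NCP S B (Fin 5) (fun n s x => ReflTransGen (R n s (x 0)) (x 1, x 2) (x 3, x 4)) := by
  have h1 : NCP S B (Fin 1 ⊕ (Fin 2 ⊕ Fin 2))
      (fun n s z => R n s (z (Sum.inl 0)) (z (Sum.inr (Sum.inl 0)), z (Sum.inr (Sum.inl 1)))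
        (z (Sum.inr (Sum.inr 0)), z (Sum.inr (Sum.inr 1)))) :=
    NCP.comap inferInstance ![Sum.inl 0, Sum.inr (Sum.inl 0), Sum.inr (Sum.inl 1),
      Sum.inr (Sum.inr 0), Sum.inr (Sum.inr 1)] h
  have h2 := NCP.tc (ι := Fin 1) (κ := Fin 2) (Fl := Unit) inferInstance inferInstance inferInstance
    (Q := fun n s y a b => R n s (y 0) (a.1 0, a.1 1) (b.1 0, b.1 1)) (fun _ _ => h1) () ()
  have h3 := NCP.comap (κ := Fin 5) inferInstance
    (fun o : Fin 1 ⊕ (Fin 2 ⊕ Fin 2) => match o with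
      | Sum.inl _ => 0
      | Sum.inr (Sum.inl i) => ![1, 2] i
      | Sum.inr (Sum.inr i) => ![3, 4] i) h2
  have h4 : NCP S B (Fin 5) (fun n s x => x 3 = x 1 ∧ x 4 = x 2) :=
    NCP.and (NCP.eq inferInstance 3 1) (NCP.eq inferInstance 4 2)
  refine NCP.congr (NCP.or h4 h3) (fun n s x => ?_)
  rw [Relation.reflTransGen_iff_eq_or_transGen, Prod.mk.injEq]
  refine or_congr Iff.rfl ⟨fun h => ?_, fun h => ?_⟩
  · exact h.lift (fun p : (Fin 2 → Fin n) × Unit => (p.1 0, p.1 1)) (fun _ _ h => h)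
  · have h5 : TransGen (fun a b : (Fin 2 → Fin n) × Unit =>
        R n s (x 0) (a.1 0, a.1 1) (b.1 0, b.1 1)) (![x 1, x 2], ()) (![x 3, x 4], ()) :=
      h.lift (p := fun a b : (Fin 2 → Fin n) × Unit =>
        R n s (x 0) (a.1 0, a.1 1) (b.1 0, b.1 1)) (fun q : Fin n × Fin n => (![q.1, q.2], ()))
        (fun _ _ h => h)
    have e1 : ∀ a b : Fin 5, ![x a, x b] = fun i => x (![a, b] i) := by
      intro a b
      funext i
      fin_cases i <;> rfl
    rw [e1, e1] at h5
    exact h5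

/-- Input: mate map and edges. -/
structure QS (n : ℕ) where
  m : Fin n → Fin n
  E : Fin n → Fin n → Prop

inductive QB : Readers QS
  | mate : QB (Fin 2) (fun _ s x => s.m (x 0) = x 1)
  | edge : QB (Fin 2) (fun _ s x => s.E (x 0) (x 1))

/-- Input together with the current relations. -/
abbrev QT (n : ℕ) : Type := QS n × RelF (Fin 3) Bool n

/-- The readers for `QT`. -/
abbrev QE : Readers QT := Ext QB (Fin 3) Bool

/-- The relation of known distances. -/
def Kr {n : ℕ} (R : RelF (Fin 3) Bool n) (u x k : Fin n) : Prop := R true ![u, x, k]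

/-- The set of numbers up to the threshold. -/
def Tr {n : ℕ} (R : RelF (Fin 3) Bool n) (k : Fin n) : Prop := R false ![k, k, k]

/-- Job QB. -/
theorem q_K {ι : Type} (hι : Finite ι) (i j k : ι) : NCP QT QE ι (fun _ s x => Kr s.2 (x i) (x j) (x k)) := by
  have h : NCP QT QE (Fin 3) (fun _ s x => s.2 true x) := NCP.base inferInstance (Ext.new true)
  refine (NCP.comap hι ![i, j, k] h).congr fun n s x => ?_
  refine iff_of_eq (congrArg (s.2 true) ?_)
  funext a
  fin_cases a <;> rfl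

/-- Job QB. -/
theorem q_T {ι : Type} (hι : Finite ι) (i : ι) : NCP QT QE ι (fun _ s x => Tr s.2 (x i)) := by
  have h : NCP QT QE (Fin 3) (fun _ s x => s.2 false x) := NCP.base inferInstance (Ext.new false)
  refine (NCP.comap hι ![i, i, i] h).congr fun n s x => ?_
  refine iff_of_eq (congrArg (s.2 false) ?_)
  funext a
  fin_cases a <;> rfl

/-- Job QB. -/
theorem q_mate {ι : Type} (hι : Finite ι) (i j : ι) : NCP QT QE ι (fun _ s x => s.1.m (x i) = x j) := by
  have h : NCP QT QE (Fin 2) (fun _ s x => s.1.m (x 0) = x 1) := NCP.base inferInstance (Ext.old QB.mate)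
  exact NCP.comap hι ![i, j] h

/-- Job QB. -/
theorem q_edge {ι : Type} (hι : Finite ι) (i j : ι) : NCP QT QE ι (fun _ s x => s.1.E (x i) (x j)) := by
  have h : NCP QT QE (Fin 2) (fun _ s x => s.1.E (x 0) (x 1)) := NCP.base inferInstance (Ext.old QB.edge)
  exact NCP.comap hι ![i, j] h

/-- Job QB. An edge to the mate: `E g (m z)` is `∃ y, m z = y ∧ E g y`. -/
theorem q_arc {ι : Type} (hι : Finite ι) (i j : ι) : NCP QT QE ι (fun _ s x => s.1.E (x i) (s.1.m (x j))) := by
  have h : NCP QT QE ι (fun n s x => ∃ y : Fin n, s.1.m (x j) = y ∧ s.1.E (x i) y) :=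
    NCP.ex1 (NCP.and (q_mate (ι := Option ι) inferInstance (some j) none) (q_edge (ι := Option ι) inferInstance (some i) none))
  refine h.congr fun n s x => ?_
  rw [exists_eq_left']

/-- Job QB, auxiliary: `K u (m v) j`. -/
theorem qb_Km {ι : Type} (hι : Finite ι) (i j k : ι) : NCP QT QE ι (fun _ s x => Kr s.2 (x i) (s.1.m (x j)) (x k)) := by
  have h : NCP QT QE ι (fun n s x => ∃ y : Fin n, s.1.m (x j) = y ∧ Kr s.2 (x i) y (x k)) :=
    NCP.ex1 (NCP.and (q_mate (ι := Option ι) inferInstance (some j) none)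
      (q_K (ι := Option ι) inferInstance (some i) none (some k)))
  refine h.congr fun n s x => ?_
  rw [exists_eq_left']

/-- Job QB, auxiliary. -/
theorem qb_sb {ι : Type} (hι : Finite ι) (i j k : ι) : NCP QT QE ι (fun _ s x => sbK (Kr s.2) (x i) (x j) (x k)) := by
  have h : NCP QT QE ι (fun n s x => ∃ a b c : Fin n, Kr s.2 (x i) (x j) a ∧ Kr s.2 (x j) (x k) b ∧
      Kr s.2 (x i) (x k) c ∧ (a : ℕ) + (b : ℕ) = (c : ℕ)) :=
    NCP.ex1 (NCP.ex1 (NCP.ex1 (NCP.and
      (q_K (ι := Option (Option (Option ι))) inferInstance (some (some (some i))) (some (some (some j))) (some (some none)))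
      (NCP.and (q_K (ι := Option (Option (Option ι))) inferInstance (some (some (some j))) (some (some (some k))) (some none))
      (NCP.and (q_K (ι := Option (Option (Option ι))) inferInstance (some (some (some i))) (some (some (some k))) none)
        (NCP.add (ι := Option (Option (Option ι))) inferInstance (some (some none)) (some none) none))))))
  exact h

/-- Job QB. -/
theorem q_sbK : NCP QT QE (Fin 3) (fun _ s x => sbK (Kr s.2) (x 0) (x 1) (x 2)) :=
  qb_sb inferInstance 0 1 2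

/-- Job QB, auxiliary. -/
theorem qb_le {ι : Type} (hι : Finite ι) (i j : ι) : NCP QT QE ι (fun _ s x => leK s.1.m (Kr s.2) (x i) (x j)) := by
  have h : NCP QT QE ι (fun n s x => ∃ a : Fin n, Kr s.2 (x i) (x j) a ∧
      ∀ b : Fin n, Kr s.2 (x i) (s.1.m (x j)) b → a ≤ b) :=
    NCP.ex1 (NCP.and (q_K (ι := Option ι) inferInstance (some i) (some j) none)
      (NCP.all1 (NCP.imp
        (qb_Km (ι := Option (Option ι)) inferInstance (some (some i)) (some (some j)) none)
        (NCP.le (ι := Option (Option ι)) inferInstance (some none) none))))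
  exact h

/-- Job QB, auxiliary. -/
theorem qb_psi {ι : Type} (hι : Finite ι) (i j k : ι) :
    NCP QT QE ι (fun _ s x => psiK s.1.m (Kr s.2) (x i) (x j) (x k)) := by
  have h : NCP QT QE ι (fun n s x => (leK s.1.m (Kr s.2) (x i) (x k) ∧ sbK (Kr s.2) (x i) (x j) (x k)) ∨
      ∃ y : Fin n, s.1.m (x k) = y ∧ leK s.1.m (Kr s.2) (x i) y ∧ sbK (Kr s.2) (x i) (x j) y) :=
    NCP.or (NCP.and (qb_le hι i k) (qb_sb hι i j k))
      (NCP.ex1 (NCP.and (q_mate (ι := Option ι) inferInstance (some k) none)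
        (NCP.and (qb_le (ι := Option ι) inferInstance (some i) none)
          (qb_sb (ι := Option ι) inferInstance (some i) (some j) none))))
  refine h.congr fun n s x => ?_
  rw [exists_eq_left']
  exact Iff.rfl

/-- Job QB. -/
theorem q_psiK : NCP QT QE (Fin 3) (fun _ s x => psiK s.1.m (Kr s.2) (x 0) (x 1) (x 2)) :=
  qb_psi inferInstance 0 1 2

/-- Job QB, auxiliary. -/
theorem qb_abs {ι : Type} (hι : Finite ι) (i j k : ι) :
    NCP QT QE ι (fun _ s x => absK s.1.m (Kr s.2) (x i) (x j) (x k)) := by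
  have h : NCP QT QE ι (fun n s x => ∃ a b : Fin n, Kr s.2 (x i) (x j) a ∧ Kr s.2 (x i) (s.1.m (x j)) b ∧
      ∃ c : Fin n, (a : ℕ) + (b : ℕ) = (c : ℕ) ∧ c ≤ x k) :=
    NCP.ex1 (NCP.ex1 (NCP.and (q_K (ι := Option (Option ι)) inferInstance (some (some i)) (some (some j)) (some none))
      (NCP.and (qb_Km (ι := Option (Option ι)) inferInstance (some (some i)) (some (some j)) none)
        (NCP.ex1 (NCP.and (NCP.add (ι := Option (Option (Option ι))) inferInstance (some (some none)) (some none) none)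
          (NCP.le (ι := Option (Option (Option ι))) inferInstance none (some (some (some k)))))))))
  refine h.congr fun n s x => ?_
  constructor
  · rintro ⟨a, b, h1, h2, c, h3, h4⟩
    refine ⟨a, b, h1, h2, ?_⟩
    rw [h3]
    exact h4
  · rintro ⟨a, b, h1, h2, h3⟩
    exact ⟨a, b, h1, h2, ⟨(a : ℕ) + (b : ℕ), lt_of_le_of_lt h3 (x k).2⟩, rfl, h3⟩

/-- Job QB. -/
theorem q_absK : NCP QT QE (Fin 3) (fun _ s x => absK s.1.m (Kr s.2) (x 0) (x 1) (x 2)) :=
  qb_abs inferInstance 0 1 2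

/-- Job QB. -/
theorem q_phiK : NCP QT QE (Fin 4) (fun _ s x => phiK s.1.m (Kr s.2) (x 0) (x 1) (x 2) (x 3)) :=
  NCP.or (NCP.and (qb_abs inferInstance 0 3 2) (qb_psi inferInstance 0 1 3))
    (NCP.and (NCP.not (qb_abs inferInstance 0 3 2)) (qb_sb inferInstance 0 1 3))

/-- Job QB. -/
theorem q_unkK : NCP QT QE (Fin 2) (fun _ s x => unkK s.1.m (Kr s.2) (x 0) (x 1)) := by
  have h : NCP QT QE (Fin 2) (fun n s x => ¬ (x 1 = x 0) ∧ (∃ a : Fin n, Kr s.2 (x 0) (x 1) a) ∧
      ¬ ∃ b : Fin n, Kr s.2 (x 0) (s.1.m (x 1)) b) :=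
    NCP.and (NCP.not (NCP.eq inferInstance 1 0))
      (NCP.and (NCP.ex1 (q_K (ι := Option (Fin 2)) inferInstance (some 0) (some 1) none))
        (NCP.not (NCP.ex1 (qb_Km (ι := Option (Fin 2)) inferInstance (some 0) (some 1) none))))
  exact h

private theorem qc_K {ι : Type} (hι : Finite ι) (i j k : ι) : NCP QT QE ι (fun _ s x => Kr s.2 (x i) (x j) (x k)) := q_K hι i j k

private theorem qc_phi {ι : Type} (hι : Finite ι) (i j k l : ι) :
    NCP QT QE ι (fun _ s x => phiK s.1.m (Kr s.2) (x i) (x j) (x k) (x l)) :=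
  NCP.comap hι ![i, j, k, l] q_phiK

private theorem qc_sb {ι : Type} (hι : Finite ι) (i j k : ι) :
    NCP QT QE ι (fun _ s x => sbK (Kr s.2) (x i) (x j) (x k)) :=
  NCP.comap hι ![i, j, k] q_sbK

private theorem qc_unk {ι : Type} (hι : Finite ι) (i j : ι) :
    NCP QT QE ι (fun _ s x => unkK s.1.m (Kr s.2) (x i) (x j)) :=
  NCP.comap hι ![i, j] q_unkK

/-- `x i + x j + 1 ≤ x c` -/
private theorem qc_sum {S : ℕ → Type} {B : Readers S} {ι : Type} (hι : Finite ι) (i j c : ι) :
    NCP S B ι (fun _ _ x => (x i : ℕ) + (x j : ℕ) + 1 ≤ (x c : ℕ)) := by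
  have h : NCP S B ι (fun n _ x => ∃ a : Fin n, (x i : ℕ) + (x j : ℕ) = (a : ℕ) ∧ a < x c) :=
    NCP.ex1 (NCP.and (NCP.add (ι := Option ι) inferInstance (some i) (some j) none)
      (NCP.lt (ι := Option ι) inferInstance none (some c)))
  refine h.congr fun n s x => ⟨?_, fun h => ?_⟩
  · rintro ⟨a, h1, h2⟩
    have h3 : (a : ℕ) < (x c : ℕ) := h2
    omega
  · have h4 := (x c).2
    exact ⟨⟨(x i : ℕ) + (x j : ℕ), by omega⟩, rfl, Fin.lt_def.2 h⟩

private theorem qc_unk_arc {ι : Type} (hι : Finite ι) (i j : ι) :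
    NCP QT QE ι (fun _ s x => s.1.E (x i) (s.1.m (x j))) := q_arc hι i j

/-- Job QC. -/
theorem q_baseK : NCP QT QE (Fin 3) (fun _ s x => baseK s.1.m s.1.E (Kr s.2) (x 0) (x 1) (x 2)) := by
  have h : NCP QT QE (Fin 3) (fun n s x => unkK s.1.m (Kr s.2) (x 0) (x 1) ∧
      ∃ p q i j : Fin n, s.1.E p q ∧ Kr s.2 (x 0) p i ∧ Kr s.2 (x 0) q j ∧ (i : ℕ) + (j : ℕ) + 1 ≤ (x 2 : ℕ) ∧
        ¬ (phiK s.1.m (Kr s.2) (x 0) (x 1) (x 2) p ↔ phiK s.1.m (Kr s.2) (x 0) (x 1) (x 2) q)) := by
    refine NCP.and (qc_unk inferInstance 0 1) (NCP.ex1 (NCP.ex1 (NCP.ex1 (NCP.ex1 ?_))))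
    exact NCP.and (q_edge (ι := Option (Option (Option (Option (Fin 3))))) inferInstance (some (some (some none))) (some (some none)))
      (NCP.and (q_K inferInstance (some (some (some (some 0)))) (some (some (some none))) (some none))
      (NCP.and (q_K inferInstance (some (some (some (some 0)))) (some (some none)) none)
      (NCP.and (qc_sum inferInstance (some none) none (some (some (some (some 2)))))
      (NCP.not (NCP.iff (qc_phi inferInstance (some (some (some (some 0)))) (some (some (some (some 1)))) (some (some (some (some 2)))) (some (some (some none))))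
        (qc_phi inferInstance (some (some (some (some 0)))) (some (some (some (some 1)))) (some (some (some (some 2)))) (some (some none))))))))
  exact h

/-- Job QC. -/
theorem q_stepK : NCP QT QE (Fin 5) (fun _ s x => stepK s.1.m s.1.E (Kr s.2) (x 0) (x 1, x 2) (x 3, x 4)) := by
  have h : NCP QT QE (Fin 5) (fun n s x => unkK s.1.m (Kr s.2) (x 0) (x 3) ∧
      ∃ p i j e : Fin n, s.1.E p (s.1.m (x 1)) ∧ Kr s.2 (x 0) p i ∧ Kr s.2 (x 0) (x 1) j ∧ (j : ℕ) + (e : ℕ) = (x 2 : ℕ) ∧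
        (e : ℕ) + (i : ℕ) + 1 ≤ (x 4 : ℕ) ∧
        ¬ (phiK s.1.m (Kr s.2) (x 0) (x 3) (x 4) p ↔ sbK (Kr s.2) (x 0) (x 3) (x 1))) := by
    refine NCP.and (qc_unk inferInstance 0 3) (NCP.ex1 (NCP.ex1 (NCP.ex1 (NCP.ex1 ?_))))
    exact NCP.and (q_arc (ι := Option (Option (Option (Option (Fin 5))))) inferInstance (some (some (some none))) (some (some (some (some 1)))))
      (NCP.and (q_K inferInstance (some (some (some (some 0)))) (some (some (some none))) (some (some none)))
      (NCP.and (q_K inferInstance (some (some (some (some 0)))) (some (some (some (some 1)))) (some none))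
      (NCP.and (NCP.add inferInstance (some none) none (some (some (some (some 2)))))
      (NCP.and (qc_sum inferInstance none (some (some none)) (some (some (some (some 4)))))
      (NCP.not (NCP.iff (qc_phi inferInstance (some (some (some (some 0)))) (some (some (some (some 3)))) (some (some (some (some 4)))) (some (some (some none))))
        (qc_sb inferInstance (some (some (some (some 0)))) (some (some (some (some 3)))) (some (some (some (some 1)))))))))))
  exact h

private theorem qc_rtc {ι : Type} (hι : Finite ι) (i a b c d : ι) :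
    NCP QT QE ι (fun _ s x => ReflTransGen (stepK s.1.m s.1.E (Kr s.2) (x i)) (x a, x b) (x c, x d)) :=
  NCP.comap hι ![i, a, b, c, d] (rtc2 (S := QT) (R := fun _ s u => stepK s.1.m s.1.E (Kr s.2) u) q_stepK)

private theorem qc_base {ι : Type} (hι : Finite ι) (i j k : ι) :
    NCP QT QE ι (fun _ s x => baseK s.1.m s.1.E (Kr s.2) (x i) (x j) (x k)) :=
  NCP.comap hι ![i, j, k] q_baseK

/-- Job QC. (`rtc2`) -/
theorem q_DDK : NCP QT QE (Fin 3) (fun _ s x => DDK s.1.m s.1.E (Kr s.2) (x 0) (x 1) (x 2)) := by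
  have h : NCP QT QE (Fin 3) (fun n s x => ∃ y c₀ : Fin n, baseK s.1.m s.1.E (Kr s.2) (x 0) y c₀ ∧
      ReflTransGen (stepK s.1.m s.1.E (Kr s.2) (x 0)) (y, c₀) (x 1, x 2)) :=
    NCP.ex1 (NCP.ex1 (NCP.and (qc_base (ι := Option (Option (Fin 3))) inferInstance (some (some 0)) (some none) none)
      (qc_rtc (ι := Option (Option (Fin 3))) inferInstance (some (some 0)) (some none) none (some (some 1)) (some (some 2)))))
  exact h

private theorem qc_DDK {ι : Type} (hι : Finite ι) (i j k : ι) :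
    NCP QT QE ι (fun _ s x => DDK s.1.m s.1.E (Kr s.2) (x i) (x j) (x k)) :=
  NCP.comap hι ![i, j, k] q_DDK

/-- Job QC. -/
theorem q_T2K : NCP QT QE (Fin 1) (fun _ s x => T2K (Tr s.2) (x 0)) := by
  have h : NCP QT QE (Fin 1) (fun n s x => ∃ i j : Fin n, Tr s.2 i ∧ Tr s.2 j ∧ (i : ℕ) + (j : ℕ) = (x 0 : ℕ)) :=
    NCP.ex1 (NCP.ex1 (NCP.and (q_T (ι := Option (Option (Fin 1))) inferInstance (some none))
      (NCP.and (q_T inferInstance none) (NCP.add inferInstance (some none) none (some (some 0))))))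
  exact h

private theorem qc_T2K {ι : Type} (hι : Finite ι) (i : ι) : NCP QT QE ι (fun _ s x => T2K (Tr s.2) (x i)) :=
  NCP.comap hι ![i] q_T2K

/-- Job QC. -/
theorem q_tnK : NCP QT QE (Fin 3) (fun _ s x => tnK s.1.m s.1.E (Kr s.2) (Tr s.2) (x 0) (x 1) (x 2)) := by
  have h : NCP QT QE (Fin 3) (fun n s x => DDK s.1.m s.1.E (Kr s.2) (x 0) (x 1) (x 2) ∧ T2K (Tr s.2) (x 2) ∧
      ∀ c' : Fin n, c' < x 2 → ¬ DDK s.1.m s.1.E (Kr s.2) (x 0) (x 1) c') :=
    NCP.and q_DDK (NCP.and (qc_T2K inferInstance 2)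
      (NCP.all1 (NCP.imp (NCP.lt (ι := Option (Fin 3)) inferInstance none (some 2))
        (NCP.not (qc_DDK inferInstance (some 0) (some 1) none)))))
  exact h

private theorem qc_tnK {ι : Type} (hι : Finite ι) (i j k : ι) :
    NCP QT QE ι (fun _ s x => tnK s.1.m s.1.E (Kr s.2) (Tr s.2) (x i) (x j) (x k)) :=
  NCP.comap hι ![i, j, k] q_tnK

/-- Job QC. -/
theorem q_AnK : NCP QT QE (Fin 3) (fun _ s x => AnK s.1.m s.1.E (Kr s.2) (Tr s.2) (x 0) (x 1) (x 2)) := by
  have h : NCP QT QE (Fin 3) (fun n s x => Kr s.2 (x 0) (x 1) (x 2) ∨ ∃ y : Fin n, s.1.m (x 1) = y ∧ ∃ c i : Fin n,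
      unkK s.1.m (Kr s.2) (x 0) y ∧ tnK s.1.m s.1.E (Kr s.2) (Tr s.2) (x 0) y c ∧ Kr s.2 (x 0) y i ∧ (i : ℕ) + (x 2 : ℕ) = (c : ℕ)) :=
    NCP.or (q_K inferInstance 0 1 2) (NCP.ex1 (NCP.and (q_mate (ι := Option (Fin 3)) inferInstance (some 1) none)
      (NCP.ex1 (NCP.ex1 (NCP.and (qc_unk (ι := Option (Option (Option (Fin 3)))) inferInstance (some (some (some 0))) (some (some none)))
        (NCP.and (qc_tnK inferInstance (some (some (some 0))) (some (some none)) (some none))
        (NCP.and (q_K inferInstance (some (some (some 0))) (some (some none)) none)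
          (NCP.add inferInstance none (some (some (some 2))) (some none)))))))))
  refine h.congr fun n s x => ?_
  simp only [AnK, exists_eq_left']

private theorem qd_An {ι : Type} (hι : Finite ι) (i j k : ι) :
    NCP QT QE ι (fun _ s x => AnK s.1.m s.1.E (Kr s.2) (Tr s.2) (x i) (x j) (x k)) :=
  NCP.rel3 (S := QT) (B := QE) (R := fun _ s a b c => AnK s.1.m s.1.E (Kr s.2) (Tr s.2) a b c) hι q_AnK i j k

private theorem qd_T2 {ι : Type} (hι : Finite ι) (i : ι) : NCP QT QE ι (fun _ s x => T2K (Tr s.2) (x i)) :=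
  NCP.comap hι ![i] q_T2K

private theorem qd_add1 {ι : Type} (hι : Finite ι) (i j k : ι) :
    NCP QT QE ι (fun _ _ x => (x i : ℕ) + x j + 1 = x k) := by
  have h : NCP QT QE ι (fun n s x => ∃ a : Fin n, (x i : ℕ) + (x j : ℕ) = (a : ℕ) ∧ (x k : ℕ) = (a : ℕ) + 1) :=
    NCP.ex1 (NCP.and (NCP.add (ι := Option ι) inferInstance (some i) (some j) none)
      (NCP.succ (ι := Option ι) inferInstance (some k) none))
  refine h.congr fun n s x => ⟨?_, fun h => ?_⟩
  · rintro ⟨a, h1, h2⟩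
    omega
  · have h1 := (x k).2
    exact ⟨⟨(x i : ℕ) + x j, by omega⟩, rfl, h.symm⟩

/-- Job QD. -/
theorem q_GnK : NCP QT QE (Fin 3) (fun _ s x => GnK s.1.m s.1.E (Kr s.2) (Tr s.2) (x 0) (x 1) (x 2)) := by
  have h : NCP QT QE (Fin 3) (fun n s x =>
      (s.1.E (x 1) (x 2) ∧ ∃ i : Fin n, ∃ j : Fin n, ∃ c : Fin n,
        AnK s.1.m s.1.E (Kr s.2) (Tr s.2) (x 0) (x 1) i ∧ AnK s.1.m s.1.E (Kr s.2) (Tr s.2) (x 0) (x 2) j ∧
          (i : ℕ) + j + 1 = c ∧ T2K (Tr s.2) c) ∨
      (s.1.m (x 1) = x 2 ∧ ∃ i : Fin n, ∃ j : Fin n, ∃ c : Fin n,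
        AnK s.1.m s.1.E (Kr s.2) (Tr s.2) (x 0) (x 1) i ∧ AnK s.1.m s.1.E (Kr s.2) (Tr s.2) (x 0) (x 2) j ∧
          (i : ℕ) + j = c ∧ T2K (Tr s.2) c)) :=
    NCP.or
      (NCP.and (q_edge inferInstance 1 2) (NCP.ex1 (NCP.ex1 (NCP.ex1 (NCP.and
        (qd_An (ι := Option (Option (Option (Fin 3)))) inferInstance (some (some (some 0))) (some (some (some 1))) (some (some none)))
        (NCP.and
          (qd_An (ι := Option (Option (Option (Fin 3)))) inferInstance (some (some (some 0))) (some (some (some 2))) (some none))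
          (NCP.and (qd_add1 (ι := Option (Option (Option (Fin 3)))) inferInstance (some (some none)) (some none) none)
            (qd_T2 (ι := Option (Option (Option (Fin 3)))) inferInstance none))))))))
      (NCP.and (q_mate inferInstance 1 2) (NCP.ex1 (NCP.ex1 (NCP.ex1 (NCP.and
        (qd_An (ι := Option (Option (Option (Fin 3)))) inferInstance (some (some (some 0))) (some (some (some 1))) (some (some none)))
        (NCP.and
          (qd_An (ι := Option (Option (Option (Fin 3)))) inferInstance (some (some (some 0))) (some (some (some 2))) (some none))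
          (NCP.and (NCP.add (ι := Option (Option (Option (Fin 3)))) inferInstance (some (some none)) (some none) none)
            (qd_T2 (ι := Option (Option (Option (Fin 3)))) inferInstance none))))))))
  refine h.congr fun n s x => ?_
  unfold GnK
  rw [eq_comm (a := s.1.m (x 1)) (b := x 2)]

/-- Job QD. (`rtc1`) -/
theorem q_RnK : NCP QT QE (Fin 2) (fun _ s x => RnK s.1.m s.1.E (Kr s.2) (Tr s.2) (x 0) (x 1)) := by
  have h := rtc1 (S := QT) (B := QE) (R := fun _ s a b c => GnK s.1.m s.1.E (Kr s.2) (Tr s.2) a b c) q_GnK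
  exact (NCP.comap (κ := Fin 2) inferInstance ![0, 0, 1] h).congr fun n s x => Iff.rfl

private theorem qd_Rn {ι : Type} (hι : Finite ι) (i j : ι) :
    NCP QT QE ι (fun _ s x => RnK s.1.m s.1.E (Kr s.2) (Tr s.2) (x i) (x j)) :=
  NCP.rel2 (S := QT) (B := QE) (R := fun _ s a b => RnK s.1.m s.1.E (Kr s.2) (Tr s.2) a b) hι q_RnK i j

/-- Job QD. -/
theorem q_ExK : NCP QT QE (Fin 3) (fun _ s x => ExK s.1.m s.1.E (Kr s.2) (Tr s.2) (x 0) (x 1) (x 2)) := by
  have h : NCP QT QE (Fin 3) (fun n s x => ∃ g : Fin n, ∃ i : Fin n,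
      RnK s.1.m s.1.E (Kr s.2) (Tr s.2) (x 0) g ∧ s.1.E g (s.1.m (x 1)) ∧
        ¬ RnK s.1.m s.1.E (Kr s.2) (Tr s.2) (x 0) (x 1) ∧ ¬ (s.1.m (x 0) = x 1) ∧
          AnK s.1.m s.1.E (Kr s.2) (Tr s.2) (x 0) g i ∧ (x 2 : ℕ) = (i : ℕ) + 1) :=
    NCP.ex1 (NCP.ex1 (NCP.and (qd_Rn (ι := Option (Option (Fin 3))) inferInstance (some (some 0)) (some none))
      (NCP.and (q_arc (ι := Option (Option (Fin 3))) inferInstance (some none) (some (some 1)))
        (NCP.and (NCP.not (qd_Rn (ι := Option (Option (Fin 3))) inferInstance (some (some 0)) (some (some 1))))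
          (NCP.and (NCP.not (q_mate (ι := Option (Option (Fin 3))) inferInstance (some (some 0)) (some (some 1))))
            (NCP.and (qd_An (ι := Option (Option (Fin 3))) inferInstance (some (some 0)) (some none) none)
              (NCP.succ (ι := Option (Option (Fin 3))) inferInstance (some (some 2)) none)))))))
  refine h.congr fun n s x => ?_
  unfold ExK
  constructor
  · rintro ⟨g, i, h1, h2, h3, h4, h5, h6⟩
    exact ⟨g, i, h1, h2, h3, fun e => h4 e.symm, h5, h6.symm⟩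
  · rintro ⟨g, i, h1, h2, h3, h4, h5, h6⟩
    exact ⟨g, i, h1, h2, h3, fun e => h4 e.symm, h5, h6.symm⟩

private theorem qd_Ex {ι : Type} (hι : Finite ι) (i j k : ι) :
    NCP QT QE ι (fun _ s x => ExK s.1.m s.1.E (Kr s.2) (Tr s.2) (x i) (x j) (x k)) :=
  NCP.rel3 (S := QT) (B := QE) (R := fun _ s a b c => ExK s.1.m s.1.E (Kr s.2) (Tr s.2) a b c) hι q_ExK i j k

private theorem qd_cls : NCP QT QE (Fin 5) (fun _ s x => clsK s.1.m s.1.E (Kr s.2) (Tr s.2) (x 1, x 2) (x 3, x 4)) := by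
  have h : NCP QT QE (Fin 5) (fun n s x => ∃ κ : Fin n,
      ExK s.1.m s.1.E (Kr s.2) (Tr s.2) (x 1) (x 3) κ ∧ (κ : ℕ) + (x 4 : ℕ) = (x 2 : ℕ)) :=
    NCP.ex1 (NCP.and (qd_Ex (ι := Option (Fin 5)) inferInstance (some 1) (some 3) none)
      (NCP.add (ι := Option (Fin 5)) inferInstance none (some 4) (some 2)))
  refine h.congr fun n s x => ?_
  unfold clsK
  constructor
  · rintro ⟨κ, h1, h2⟩
    exact ⟨κ, h1, h2.symm⟩
  · rintro ⟨κ, h1, h2⟩
    exact ⟨κ, h1, h2.symm⟩

/-- Job QD. (`rtc2`; the parameter `x 0` is not used.) -/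
theorem q_ClK : NCP QT QE (Fin 3) (fun _ s x => ClK s.1.m s.1.E (Kr s.2) (Tr s.2) (x 0) (x 1) (x 2)) := by
  have h0 := rtc2 (S := QT) (B := QE) (R := fun _ s _ a b => clsK s.1.m s.1.E (Kr s.2) (Tr s.2) a b) qd_cls
  have h1 : NCP QT QE (Option (Option (Fin 3))) (fun _ s z => ReflTransGen (clsK s.1.m s.1.E (Kr s.2) (Tr s.2))
      (z (some (some 0)), z (some (some 2))) (z (some none), z none)) :=
    (NCP.comap (κ := Option (Option (Fin 3))) inferInstance
      ![some (some 0), some (some 0), some (some 2), some none, none] h0).congr fun n s x => Iff.rfl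
  have h : NCP QT QE (Fin 3) (fun n s x => ∃ z : Fin n, ∃ D' : Fin n,
      ReflTransGen (clsK s.1.m s.1.E (Kr s.2) (Tr s.2)) (x 0, x 2) (z, D') ∧
        RnK s.1.m s.1.E (Kr s.2) (Tr s.2) z (x 1) ∧ AnK s.1.m s.1.E (Kr s.2) (Tr s.2) z (x 1) D') :=
    NCP.ex1 (NCP.ex1 (NCP.and h1
      (NCP.and (qd_Rn (ι := Option (Option (Fin 3))) inferInstance (some none) (some (some 1)))
        (qd_An (ι := Option (Option (Fin 3))) inferInstance (some none) (some (some 1)) none))))
  exact h.congr fun n s x => Iff.rfl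

/-- Job QD. -/
theorem q_stageK : NCP QT QE (Fin 3) (fun _ s x => stageK s.1.m s.1.E (Kr s.2) (Tr s.2) (x 0) (x 1) (x 2)) := by
  have h : NCP QT QE (Fin 3) (fun n s x => T2K (Tr s.2) (x 2) ∧ ClK s.1.m s.1.E (Kr s.2) (Tr s.2) (x 0) (x 1) (x 2) ∧
      ∀ k' : Fin n, (k' < x 2 → ¬ ClK s.1.m s.1.E (Kr s.2) (Tr s.2) (x 0) (x 1) k')) :=
    NCP.and (qd_T2 inferInstance 2) (NCP.and q_ClK
      (NCP.all1 (NCP.imp (NCP.lt (ι := Option (Fin 3)) inferInstance none (some 2))
        (NCP.not (NCP.rel3 (ι := Option (Fin 3)) (S := QT) (B := QE) (R := fun _ s a b c => ClK s.1.m s.1.E (Kr s.2) (Tr s.2) a b c)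
          inferInstance q_ClK (some 0) (some 1) none)))))
  exact h.congr fun n s x => Iff.rfl

/-- The start: the distances at most one. -/
def iniK (n : ℕ) (s : QS n) : RelF (Fin 3) Bool n := fun f x =>
  match f with
  | true => ((x 2 : ℕ) = 0 ∧ x 1 = x 0) ∨ ((x 2 : ℕ) = 1 ∧ x 1 ≠ x 0 ∧ s.E (x 0) (s.m (x 1)))
  | false => (x 0 : ℕ) ≤ 1

/-- One stage. -/
def opK (n : ℕ) (s : QS n) (R : RelF (Fin 3) Bool n) : RelF (Fin 3) Bool n := fun f x =>
  match f with
  | true => stageK s.m s.E (Kr R) (Tr R) (x 0) (x 1) (x 2)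
  | false => T2K (Tr R) (x 0)

/-- The computed relation. -/
def distK (n : ℕ) (s : QS n) (u x k : Fin n) : Prop := Kr ((opK n s)^[Nat.size (n - 1)] (iniK n s)) u x k

private theorem qe_arc : NCP QS QB (Fin 3) (fun _ s x => s.E (x 0) (s.m (x 1))) := by
  have h : NCP QS QB (Fin 3) (fun n s x => ∃ v : Fin n, s.m (x 1) = v ∧ s.E (x 0) v) :=
    NCP.ex1 (NCP.and
      (NCP.comap (κ := Option (Fin 3)) inferInstance ![some 1, none] (NCP.base inferInstance QB.mate))
      (NCP.comap (κ := Option (Fin 3)) inferInstance ![some 0, none] (NCP.base inferInstance QB.edge)))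
  refine h.congr fun n s x => ?_
  exact exists_eq_left'

/-- Job QE. -/
theorem q_ini (f : Bool) : NCP QS QB (Fin 3) (fun n s x => iniK n s f x) := by
  cases f with
  | true =>
    have h : NCP QS QB (Fin 3) (fun n s x => ((x 2 : ℕ) = 0 ∧ x 1 = x 0) ∨ ((x 2 : ℕ) = 1 ∧ ¬ (x 1 = x 0) ∧ s.E (x 0) (s.m (x 1)))) :=
      NCP.or (NCP.and (NCP.zero inferInstance 2) (NCP.eq inferInstance 1 0))
        (NCP.and (NCP.one inferInstance 2) (NCP.and (NCP.not (NCP.eq inferInstance 1 0)) qe_arc))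
    exact h.congr fun n s x => Iff.rfl
  | false =>
    have h : NCP QS QB (Fin 3) (fun n s x => (x 0 : ℕ) = 0 ∨ (x 0 : ℕ) = 1) :=
      NCP.or (NCP.zero inferInstance 0) (NCP.one inferInstance 0)
    refine h.congr fun n s x => ?_
    show _ ↔ (x 0 : ℕ) ≤ 1
    omega

/-- Job QE. -/
theorem q_op (f : Bool) : NCP QT QE (Fin 3) (fun n s x => opK n s.1 s.2 f x) := by
  cases f with
  | true => exact q_stageK.congr fun n s x => Iff.rfl
  | false => exact (NCP.comap (κ := Fin 3) inferInstance ![0] q_T2K).congr fun n s x => Iff.rfl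

/-- Job QE. (`NCP.iter`) -/
theorem q_dist : NCP QS QB (Fin 3) (fun n s x => distK n s (x 0) (x 1) (x 2)) := by
  have h := NCP.iter (S := QS) (B := QB) (κ := Fin 3) (Fl := Bool) inferInstance
    (H := fun f n s x => iniK n s f x) (F := fun f n s x => opK n s.1 s.2 f x) q_ini q_op true
  refine h.congr fun n s x => ?_
  have e : ![x 0, x 1, x 2] = x := by
    funext i
    fin_cases i <;> rfl
  unfold distK Kr
  rw [e]

/-- Job QE. Distances at most one. `dd u x = 1` iff `x ≠ u` and `E u (m x)` (then `m x ≠ u` by `irrefl`, so `[x, u]` is a walk); `dd_eq_zero`. -/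
theorem known_ini {n : ℕ} (s : QS n) (hM : MM s.m s.E) : Known s.m s.E 1 (Kr (iniK n s)) (Tr (iniK n s)) := by
  refine ⟨fun u x k => ?_, fun k => Iff.rfl⟩
  have hZ : 1 < ZZ (Fin n) := by
    unfold ZZ
    omega
  have h0 : dd s.m s.E u x = 0 ↔ x = u := dd_eq_zero
  have h1 : dd s.m s.E u x = 1 ↔ x ≠ u ∧ s.E u (s.m x) := by
    constructor
    · intro h
      have hne : x ≠ u := by
        intro hxu
        rw [h0.2 hxu] at h
        omega
      obtain ⟨L, hL⟩ := dd_walk (h ▸ hZ)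
      rw [h] at hL
      refine ⟨hne, ?_⟩
      generalize hs : 1 = w at hL
      cases hL with
      | nil => omega
      | @cons x' _ L' s' k' hL' hk h3 h4 =>
        have hk1 := hk.2
        have hs' : s' = 0 := by omega
        subst hs'
        obtain ⟨rfl, -⟩ := WW.zero hM.mt hL'
        exact hk.1
    · rintro ⟨hne, hE⟩
      have hw : WW s.m (one s.E) u [x, u] (0 + 1) := by
        refine WW.cons WW.nil ⟨hE, rfl⟩ ?_ ?_
        · simpa using hne
        · rw [List.mem_singleton]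
          intro hmx
          rw [hmx] at hE
          exact hM.irrefl u hE
      have h2 := dd_le_of_walk hw
      have h3 : dd s.m s.E u x ≠ 0 := fun h => hne (h0.1 h)
      omega
  show (((k : ℕ) = 0 ∧ x = u) ∨ ((k : ℕ) = 1 ∧ x ≠ u ∧ s.E u (s.m x))) ↔ _
  rw [← h0, ← h1]
  omega

/-- Job QE. Induction on `j` with `stage_known`. -/
theorem known_iter {n : ℕ} (s : QS n) (hM : MM s.m s.E) (j : ℕ) (hj : 2 ^ j < ZZ (Fin n)) :
    Known s.m s.E (2 ^ j) (Kr ((opK n s)^[j] (iniK n s))) (Tr ((opK n s)^[j] (iniK n s))) := by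
  induction j with
  | zero => exact known_ini s hM
  | succ j ih =>
    have h2 : 2 ^ (j + 1) = 2 * 2 ^ j := by rw [pow_succ, mul_comm]
    have hK := ih (by omega)
    rw [h2] at hj ⊢
    rw [Function.iterate_succ_apply']
    exact stage_known hM hK hj

/-- Job QE. (`n ≤ 2 ^ Nat.size (n - 1) ≤ 2 n` for `n ≥ 1`.) -/
theorem distK_iff {n : ℕ} (s : QS n) (hM : MM s.m s.E) (u x k : Fin n) : distK n s u x k ↔ dd s.m s.E u x = k := by
  have hn : 0 < n := lt_of_le_of_lt (Nat.zero_le _) u.2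
  have h1 : n - 1 < 2 ^ Nat.size (n - 1) := Nat.lt_size_self _
  have h2 : 2 ^ Nat.size (n - 1) < ZZ (Fin n) := by
    unfold ZZ
    rw [Fintype.card_fin]
    rcases Nat.eq_zero_or_pos (Nat.size (n - 1)) with h | h
    · rw [h]
      omega
    · have h3 : 2 ^ (Nat.size (n - 1) - 1) ≤ n - 1 := Nat.lt_size.1 (by omega)
      have h4 : 2 ^ Nat.size (n - 1) = 2 * 2 ^ (Nat.size (n - 1) - 1) := by
        rw [← pow_succ']
        congr 1
        omega
      omega
  have hK := (known_iter s hM _ h2).K u x k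
  refine hK.trans ?_
  have hk := k.2
  constructor
  · exact fun h => h.1
  · intro h
    exact ⟨h, by omega⟩

end Pool.Agent.AUG
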