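import Pool.Agent.Lib.MP_0087d5_lc.AUG.Exits
import Pool.Agent.Lib.MP_0087d5_lc.AUG.Berge

/-!
# A shortest walk is found by splitting at exits

Let `D = dd m E u x`. The component of the root `u` at the threshold `D` does not contain `x`; a shortest walk to `x` leaves it over an arc `g → z`, and `dd u g + 1 + dd z x = D`.
For every such pair `(g, z)` ALL shortest walks from `u` to `g` and from `z` to `x` can be composed (`free_concat`). So we may choose the least pair `(g, z)` (`Chs`), and the walk is found by repeated splitting; it is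
described by the reflexive transitive closure of the relation `chd` on pairs of vertices. Jobs FC (`cand_…`, `free_concat`, `chs_…`), XT (`extract`), XS (`swap_walk2`), XG (`aug_graph`, `direct_graph`).
-/

namespace Pool.Agent.AUG

open Relation Finset

variable {n : ℕ} {m : Fin n → Fin n} {E : Fin n → Fin n → Prop} {L L₁ L₂ : List (Fin n)} {u x y z g g' z' s t : Fin n} {k : ℕ}

/-- `g → z` is an arc over which a shortest walk from `u` to `x` leaves the component of `u` at the threshold `dd u x`. -/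
def Cand (m : Fin n → Fin n) (E : Fin n → Fin n → Prop) (u x g z : Fin n) : Prop :=
  x ≠ u ∧ dd m E u x < ZZ (Fin n) ∧ Cn m E (dd m E u) (dd m E u x) u g ∧ E g (m z) ∧ ¬ Cn m E (dd m E u) (dd m E u x) u z ∧ z ≠ m u ∧
    dd m E u g + 1 + dd m E z x = dd m E u x

/-- The lexicographically least candidate. -/
def Chs (m : Fin n → Fin n) (E : Fin n → Fin n → Prop) (u x g z : Fin n) : Prop :=
  Cand m E u x g z ∧ ∀ g' z', Cand m E u x g' z' → g < g' ∨ (g = g' ∧ z ≤ z')

/-- Splitting a pair (start, end) into two. -/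
def chd (m : Fin n → Fin n) (E : Fin n → Fin n → Prop) (a b : Fin n × Fin n) : Prop :=
  ∃ g z, Chs m E a.1 a.2 g z ∧ (b = (a.1, g) ∨ b = (z, a.2))

/-- Job FC, auxiliary: the longest suffix of a list with a property. -/
private theorem fc_suffix {W : Type*} (P : W → Prop) (l : List W) :
    ∃ l₁ l₂ : List W, l = l₁ ++ l₂ ∧ (∀ y ∈ l₂, P y) ∧ (l₁ = [] ∨ ∃ l₃ q, l₁ = l₃ ++ [q] ∧ ¬ P q) := by
  induction l with
  | nil => exact ⟨[], [], rfl, fun y hy => by simp at hy, Or.inl rfl⟩
  | cons a l ih =>
    obtain ⟨l₁, l₂, h1, h2, h3⟩ := ih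
    rcases h3 with h3 | ⟨l₃, q, h3, h4⟩
    · subst h3
      by_cases ha : P a
      · refine ⟨[], a :: l₂, ?_, ?_, Or.inl rfl⟩
        · rw [h1]
          rfl
        · intro y hy
          rcases List.mem_cons.1 hy with rfl | hy
          · exact ha
          · exact h2 y hy
      · refine ⟨[a], l₂, ?_, h2, Or.inr ⟨[], a, rfl, ha⟩⟩
        rw [h1]
        rfl
    · refine ⟨a :: l₁, l₂, ?_, h2, Or.inr ⟨a :: l₃, q, ?_, h4⟩⟩
      · rw [h1]
        rfl
      · rw [h3]
        rfl

/-- Job FC. `x` is not in the component of `u` at the threshold `dd u x`: otherwise it is absorbed (`rc_absorbed`), so `dd u (m x) = 0`, `m x = u`, `x = m u`, contradiction to `rc_mate_root`. So a shortest walk to `x` has consecutive vertices `g, z`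
with `g` in the component and `z` not; `z ≠ m u` by regularity. Cutting the walk: `dd u g + 1 + dd z x ≤ dd u x` (`WW.split`, `dd_le_of_walk`). By `t2` for a shortest walk from `z` to `x` (`θ = dd u x`): `dd u x ≤ dd u g + dd z x` or `dd u x ≤ dd u g + 1 + dd z x`, so we have equality. -/
theorem cand_exists (hM : MM m E) (hu : m u ≠ u) (hxu : x ≠ u) (hx : dd m E u x < ZZ (Fin n)) : ∃ g z, Cand m E u x g z := by
  have hxC : ¬ Cn m E (dd m E u) (dd m E u x) u x := by
    intro hC
    have h1 := rc_absorbed hM hu hx hC hxu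
    have h2 : dd m E u (m x) = 0 := by omega
    rw [dd_eq_zero] at h2
    apply rc_mate_root hM hu hx
    have h3 : x = m u := by rw [← h2, hM.invol]
    rw [← h3]
    exact hC
  obtain ⟨L, hL⟩ := dd_walk hx
  obtain ⟨P, S, hPS, hS, hP⟩ := fc_suffix (fun y => Cn m E (dd m E u) (dd m E u x) u y) (x :: L)
  rcases hP with rfl | ⟨P', z, rfl, hz⟩
  · exfalso
    rw [List.nil_append] at hPS
    apply hxC
    apply hS
    rw [← hPS]
    exact List.mem_cons_self
  · cases S with
    | nil =>
      exfalso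
      obtain ⟨L', hL'⟩ := hL.last
      rw [hPS, List.append_nil] at hL'
      have h1 := List.append_inj_right' hL' rfl
      have h2 : z = u := (List.cons.inj h1).1
      apply hz
      rw [h2]
    | cons g S' =>
      have hPS' : x :: L = P' ++ z :: g :: S' := by
        rw [hPS]
        simp
      rw [hPS'] at hL
      obtain ⟨s₁, s₂, hW1, hW2, hs⟩ := hL.split
      obtain ⟨L', hL'⟩ : ∃ L', P' ++ [z] = x :: L' := by
        cases P' with
        | nil =>
          have h2 : x = z := (List.cons.inj hPS').1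
          exact ⟨[], by rw [h2]; rfl⟩
        | cons x' P'' =>
          have h2 : x = x' := (List.cons.inj hPS').1
          exact ⟨P'' ++ [z], by rw [h2]; rfl⟩
      rw [hL'] at hW1
      have hzx := dd_le_of_walk hW1
      have hzxZ := dd_lt_of_walk hW1
      cases hW2 with
      | @cons _ _ _ s₃ k' hw he _ hmz =>
        obtain ⟨he1, hk1⟩ := he
        subst hk1
        have hug := dd_le_of_walk hw
        have hzu : z ≠ m u := by
          intro hzu
          apply hmz
          rw [hzu, hM.invol]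
          exact hw.start_mem
        have hgC := hS g List.mem_cons_self
        obtain ⟨L₂, hL₂⟩ := dd_walk hzxZ
        have h3 := (t2 hM hu hx hgC he1 hz hzu hL₂ (by omega)).2
        refine ⟨g, z, hxu, hx, hgC, he1, hz, hzu, ?_⟩
        rcases h3 with h3 | h3
        · omega
        · have := h3.1
          omega

/-- Job FC. All shortest walks compose. (`rc_walk`: a shortest walk to `g` is in the component `R`; `t2`: as `dd u x ≤ dd u g + dd z x` is false the walk from `z` to `x` avoids `R ∪ {m u}`; `R ∪ {m u}` is closed under `m` (`rc_mate`).) -/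
theorem free_concat (hM : MM m E) (hu : m u ≠ u) (h : Cand m E u x g z) (h₁ : WW m (one E) u (g :: L₁) (dd m E u g)) (h₂ : WW m (one E) z (x :: L₂) (dd m E z x)) :
    WW m (one E) u (x :: L₂ ++ g :: L₁) (dd m E u x) := by
  obtain ⟨_, hx, hgC, he, hz, hzu, heq⟩ := h
  have h3 := (t2 hM hu hx hgC he hz hzu h₂ heq.le).2
  have hav : ∀ y ∈ x :: L₂, ¬ Cn m E (dd m E u) (dd m E u x) u y ∧ y ≠ m u := by
    rcases h3 with h3 | h3
    · omega
    · exact h3.2
  have hR : ∀ y ∈ g :: L₁, Cn m E (dd m E u) (dd m E u x) u y := fun y hy =>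
    rc_walk hM hu hx hgC h₁ hy
  have h4 := WW.append_arc (L₁ := x :: L₂) h₁ (k := 1) (⟨he, rfl⟩ : one E g (m z) 1) h₂ (by
    intro w hw
    constructor
    · intro hwg
      exact (hav w hw).1 (hR w hwg)
    · intro hwg
      by_cases hwu : m w = u
      · apply (hav w hw).2
        rw [← hwu, hM.invol]
      · have h5 := rc_mate hM hu hx (hR _ hwg) hwu
        rw [hM.invol] at h5
        exact (hav w hw).1 h5)
  rw [heq] at h4
  exact h4

/-- Job FC. -/
theorem chs_exists (hM : MM m E) (hu : m u ≠ u) (hxu : x ≠ u) (hx : dd m E u x < ZZ (Fin n)) : ∃ g z, Chs m E u x g z := by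
  obtain ⟨g₀, z₀, h₀⟩ := cand_exists hM hu hxu hx
  obtain ⟨g, ⟨z₁, hz₁⟩, hg⟩ := (inferInstance : WellFoundedLT (Fin n)).wf.has_min
    {g | ∃ z, Cand m E u x g z} ⟨g₀, z₀, h₀⟩
  obtain ⟨z, hz, hzmin⟩ := (inferInstance : WellFoundedLT (Fin n)).wf.has_min
    {z | Cand m E u x g z} ⟨z₁, hz₁⟩
  refine ⟨g, z, hz, ?_⟩
  intro g' z' h'
  have h1 : g ≤ g' := not_lt.1 (hg g' ⟨z', h'⟩)
  rcases lt_or_eq_of_le h1 with h2 | h2
  · exact Or.inl h2
  · right
    subst h2
    exact ⟨rfl, not_lt.1 (hzmin z' h')⟩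

/-- Job FC. -/
theorem chs_unique (h : Chs m E u x g z) (h' : Chs m E u x g' z') : g = g' ∧ z = z' := by
  rcases h.2 g' z' h'.1 with h1 | ⟨h1, h2⟩
  · rcases h'.2 g z h.1 with h3 | ⟨h3, _⟩
    · exact absurd h1 (lt_asymm h3)
    · exact absurd h1 (by rw [h3]; exact lt_irrefl _)
  · rcases h'.2 g z h.1 with h3 | ⟨_, h4⟩
    · exact absurd h3 (by rw [h1]; exact lt_irrefl _)
    · exact ⟨h1, le_antisymm h2 h4⟩

/-- Job XT, auxiliary: consecutive entries of a concatenation. -/
private theorem xt_pairs {W : Type*} {P Q : List W} {a b : W} :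
    (∃ A B, P ++ Q = A ++ b :: a :: B) ↔ (∃ A B, P = A ++ b :: a :: B) ∨ (∃ A B, Q = A ++ b :: a :: B) ∨ ∃ P' Q', P = P' ++ [b] ∧ Q = a :: Q' := by
  constructor
  · rintro ⟨A, B, h⟩
    rcases List.append_eq_append_iff.1 h with ⟨a', _, h2⟩ | ⟨c', h1, h2⟩
    · exact Or.inr (Or.inl ⟨a', B, h2⟩)
    · rcases c' with _ | ⟨c, c'⟩
      · exact Or.inr (Or.inl ⟨[], B, h2.symm⟩)
      · rw [List.cons_append, List.cons_eq_cons] at h2
        obtain ⟨rfl, h2⟩ := h2
        rcases c' with _ | ⟨c₁, c'⟩
        · exact Or.inr (Or.inr ⟨A, B, h1, h2.symm⟩)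
        · rw [List.cons_append, List.cons_eq_cons] at h2
          obtain ⟨rfl, h2⟩ := h2
          exact Or.inl ⟨A, c', h1⟩
  · rintro (⟨A, B, rfl⟩ | ⟨A, B, rfl⟩ | ⟨P', Q', rfl, rfl⟩)
    · exact ⟨A, B ++ Q, by simp⟩
    · exact ⟨P ++ A, B, by simp⟩
    · exact ⟨P', Q', by simp⟩

/-- Job XT. The shortest walk described by `chd`. Strong induction on `dd u x`. `x = u`: `L = []`, no `chd`-step starts at `(u, u)` (`Cand` requires `x ≠ u`). `x ≠ u`: let `(g, z)` be the chosen pair (`chs_exists`); `m z ≠ z` since `E g (m z)`; by induction there are walks for `(u, g)` and `(z, x)`,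
compose them with `free_concat`. The first step from `(u, x)` leads to `(u, g)` or `(z, x)` (`chs_unique`), and `(u, x) ≠ (v, v)`. The consecutive pairs are those of the two parts and `(g, z)`, which is the pair chosen at `(u, x)`. -/
theorem extract (hM : MM m E) (hu : m u ≠ u) (hx : dd m E u x < ZZ (Fin n)) :
    ∃ L, WW m (one E) u (x :: L) (dd m E u x) ∧ (∀ v, v ∈ x :: L ↔ ReflTransGen (chd m E) (u, x) (v, v)) ∧
      ∀ a b, (∃ A B, x :: L = A ++ b :: a :: B) ↔ ∃ u' x', ReflTransGen (chd m E) (u, x) (u', x') ∧ Chs m E u' x' a b := by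
  generalize hd : dd m E u x = d
  induction d using Nat.strong_induction_on generalizing u x with
  | _ d ih =>
  by_cases hxu : x = u
  · subst hxu
    rw [dd_self] at hd
    subst hd
    have hst : ∀ q : Fin n × Fin n, ReflTransGen (chd m E) (x, x) q → q = (x, x) := by
      intro q hq
      rcases ReflTransGen.cases_head hq with h | ⟨b, ⟨g, z, h, _⟩, _⟩
      · exact h.symm
      · exact absurd rfl h.1.1
    refine ⟨[], WW.nil, fun v => ?_, fun a b => ?_⟩
    · rw [List.mem_singleton]
      constructor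
      · rintro rfl
        exact ReflTransGen.refl
      · intro h
        exact (Prod.mk.inj (hst _ h)).1
    · constructor
      · rintro ⟨A, B, h⟩
        exfalso
        have := congrArg List.length h
        simp only [List.length_cons, List.length_nil, List.length_append] at this
        omega
      · rintro ⟨u', x', h1, h2⟩
        exfalso
        obtain ⟨rfl, rfl⟩ := Prod.mk.inj (hst _ h1)
        exact h2.1.1 rfl
  · obtain ⟨g, z, hgz⟩ := chs_exists hM hu hxu hx
    have hC := hgz.1
    obtain ⟨_, _, _, he, _, _, hs⟩ := hC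
    have hzz : m z ≠ z := by
      have h1 := hM.cov _ _ (hM.symm _ _ he)
      rw [hM.invol] at h1
      exact fun h => h1 h.symm
    obtain ⟨L₁, hL₁, hm₁, hp₁⟩ := ih (dd m E u g) (by omega) hu (by omega) rfl
    obtain ⟨L₂, hL₂, hm₂, hp₂⟩ := ih (dd m E z x) (by omega) hzz (by omega) rfl
    have hW := free_concat hM hu hgz.1 hL₁ hL₂
    have hstep : ∀ q : Fin n × Fin n, ReflTransGen (chd m E) (u, x) q ↔
        q = (u, x) ∨ ReflTransGen (chd m E) (u, g) q ∨ ReflTransGen (chd m E) (z, x) q := by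
      intro q
      constructor
      · intro hq
        rcases ReflTransGen.cases_head hq with h | ⟨b, ⟨g', z', h, h'⟩, hb⟩
        · exact Or.inl h.symm
        · obtain ⟨rfl, rfl⟩ := chs_unique hgz h
          rcases h' with rfl | rfl
          · exact Or.inr (Or.inl hb)
          · exact Or.inr (Or.inr hb)
      · rintro (rfl | h | h)
        · exact ReflTransGen.refl
        · exact ReflTransGen.head ⟨g, z, hgz, Or.inl rfl⟩ h
        · exact ReflTransGen.head ⟨g, z, hgz, Or.inr rfl⟩ h
    refine ⟨L₂ ++ g :: L₁, hd ▸ hW, fun v => ?_, fun a b => ?_⟩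
    · rw [hstep, ← hm₁, ← hm₂, ← List.cons_append, List.mem_append]
      constructor
      · rintro (h | h)
        · exact Or.inr (Or.inr h)
        · exact Or.inr (Or.inl h)
      · rintro (h | h | h)
        · exfalso
          obtain ⟨h1, h2⟩ := Prod.mk.inj h
          exact hxu (h2.symm.trans h1)
        · exact Or.inr h
        · exact Or.inl h
    · rw [← List.cons_append, xt_pairs, hp₁, hp₂]
      constructor
      · rintro (⟨u', x', h1, h2⟩ | ⟨u', x', h1, h2⟩ | ⟨P', Q', h1, h2⟩)
        · exact ⟨u', x', (hstep _).2 (Or.inr (Or.inr h1)), h2⟩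
        · exact ⟨u', x', (hstep _).2 (Or.inr (Or.inl h1)), h2⟩
        · obtain ⟨L', hL'⟩ := hL₂.last
          have hb : z = b := by
            rw [h1] at hL'
            have := congrArg List.getLast? hL'
            rw [List.getLast?_concat, List.getLast?_concat, Option.some.injEq] at this
            exact this.symm
          have ha : g = a := (List.cons_eq_cons.1 h2).1
          subst hb
          subst ha
          exact ⟨u, x, ReflTransGen.refl, hgz⟩
      · rintro ⟨u', x', h1, h2⟩
        rcases (hstep _).1 h1 with h | h | h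
        · obtain ⟨rfl, rfl⟩ := Prod.mk.inj h
          obtain ⟨rfl, rfl⟩ := chs_unique hgz h2
          obtain ⟨L', hL'⟩ := hL₂.last
          exact Or.inr (Or.inr ⟨L', L₁, hL', rfl⟩)
        · exact Or.inr (Or.inl ⟨u', x', h, h2⟩)
        · exact Or.inl ⟨u', x', h, h2⟩

variable {G M : SimpleGraph (Fin n)}

open Classical in
/-- Shifting one matched pair: `s` exposed, `y` covered, `s` adjacent to the mate of `y`. -/
private theorem xs_shift {ν : Fin n → Fin n} (h : Mate G ν) (hs : ν s = s) (hy : ν y ≠ y) (hsy : G.Adj s (ν y)) :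
    ∃ μ : Fin n → Fin n, Mate G μ ∧ μ s = ν y ∧ μ y = y ∧ (∀ w, w ≠ s → w ≠ y → w ≠ ν y → μ w = ν w) ∧
      (univ.filter (fun w => μ w ≠ w)).card = (univ.filter (fun w => ν w ≠ w)).card := by
  have h1 : s ≠ y := fun h => hy (by rw [← h]; exact hs)
  have h2 : s ≠ ν y := hsy.ne
  have h3 := h.invol
  set μ : Fin n → Fin n := fun w => if w = s then ν y else if w = ν y then s else if w = y then y else ν w with hμ
  have e1 : μ s = ν y := by simp [hμ]
  have e2 : μ (ν y) = s := by simp [hμ]
  have e3 : μ y = y := by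
    simp only [hμ]
    rw [if_neg h1.symm, if_neg (fun h => hy h.symm)]
    simp
  have e4 : ∀ w, w ≠ s → w ≠ y → w ≠ ν y → μ w = ν w := by
    intro w w1 w2 w3
    simp only [hμ]
    rw [if_neg w1, if_neg w3, if_neg w2]
  have e5 : ∀ w, w ≠ s → w ≠ y → w ≠ ν y → ν w ≠ s ∧ ν w ≠ y ∧ ν w ≠ ν y := by
    intro w w1 w2 w3
    refine ⟨fun h => w1 ?_, fun h => w3 ?_, fun h => w2 ?_⟩
    · rw [← h3 w, h, hs]
    · rw [← h3 w, h]
    · rw [← h3 w, h, h3]
  refine ⟨μ, ⟨?_, ?_⟩, e1, e3, e4, ?_⟩
  · intro w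
    by_cases w1 : w = s
    · rw [w1, e1, e2]
    by_cases w2 : w = y
    · rw [w2, e3, e3]
    by_cases w3 : w = ν y
    · rw [w3, e2, e1]
    obtain ⟨a1, a2, a3⟩ := e5 w w1 w2 w3
    rw [e4 w w1 w2 w3, e4 _ a1 a2 a3, h3]
  · intro w hw
    by_cases w1 : w = s
    · rw [w1, e1]
      exact hsy
    by_cases w2 : w = y
    · rw [w2] at hw
      exact absurd e3 hw
    by_cases w3 : w = ν y
    · rw [w3, e2]
      exact hsy.symm
    rw [e4 w w1 w2 w3] at hw ⊢
    exact h.adj w hw
  · have hset : univ.filter (fun w => μ w ≠ w) = insert s ((univ.filter (fun w => ν w ≠ w)).erase y) := by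
      ext w
      simp only [mem_filter, mem_univ, true_and, mem_insert, mem_erase]
      by_cases w1 : w = s
      · subst w1
        rw [e1]
        exact ⟨fun _ => Or.inl rfl, fun _ => h2.symm⟩
      by_cases w2 : w = y
      · subst w2
        simp [e3, w1]
      by_cases w3 : w = ν y
      · subst w3
        rw [e2, h3]
        exact ⟨fun _ => Or.inr ⟨w2, fun h => w2 h.symm⟩, fun _ => Ne.symm w1⟩
      rw [e4 w w1 w2 w3]
      simp [w1, w2]
    rw [hset, card_insert_of_notMem, card_erase_of_mem, Nat.sub_add_cancel]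
    · exact card_pos.2 ⟨y, by simp [hy]⟩
    · simp [hy]
    · simp [hs]

open Classical in
/-- Joining two exposed vertices. -/
private theorem xs_join {ν : Fin n → Fin n} (h : Mate G ν) (hx : ν x = x) (ht : ν t = t) (hxt : G.Adj x t) :
    ∃ μ : Fin n → Fin n, Mate G μ ∧ μ x = t ∧ μ t = x ∧ (∀ w, w ≠ x → w ≠ t → μ w = ν w) ∧
      (univ.filter (fun w => μ w ≠ w)).card = (univ.filter (fun w => ν w ≠ w)).card + 2 := by
  have h1 : x ≠ t := hxt.ne
  have h3 := h.invol
  set μ : Fin n → Fin n := fun w => if w = x then t else if w = t then x else ν w with hμ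
  have e1 : μ x = t := by simp [hμ]
  have e2 : μ t = x := by
    simp only [hμ]
    rw [if_neg h1.symm]
    simp
  have e4 : ∀ w, w ≠ x → w ≠ t → μ w = ν w := by
    intro w w1 w2
    simp only [hμ]
    rw [if_neg w1, if_neg w2]
  have e5 : ∀ w, w ≠ x → w ≠ t → ν w ≠ x ∧ ν w ≠ t := by
    intro w w1 w2
    refine ⟨fun h => w1 ?_, fun h => w2 ?_⟩
    · rw [← h3 w, h, hx]
    · rw [← h3 w, h, ht]
  refine ⟨μ, ⟨?_, ?_⟩, e1, e2, e4, ?_⟩
  · intro w
    by_cases w1 : w = x
    · rw [w1, e1, e2]
    by_cases w2 : w = t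
    · rw [w2, e2, e1]
    obtain ⟨a1, a2⟩ := e5 w w1 w2
    rw [e4 w w1 w2, e4 _ a1 a2, h3]
  · intro w hw
    by_cases w1 : w = x
    · rw [w1, e1]
      exact hxt
    by_cases w2 : w = t
    · rw [w2, e2]
      exact hxt.symm
    rw [e4 w w1 w2] at hw ⊢
    exact h.adj w hw
  · have hset : univ.filter (fun w => μ w ≠ w) = insert x (insert t (univ.filter (fun w => ν w ≠ w))) := by
      ext w
      simp only [mem_filter, mem_univ, true_and, mem_insert]
      by_cases w1 : w = x
      · subst w1
        rw [e1]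
        exact ⟨fun _ => Or.inl rfl, fun _ => h1.symm⟩
      by_cases w2 : w = t
      · subst w2
        rw [e2]
        exact ⟨fun _ => Or.inr (Or.inl rfl), fun _ => h1⟩
      rw [e4 w w1 w2]
      simp [w1, w2]
    rw [hset, card_insert_of_notMem, card_insert_of_notMem]
    · simp [ht]
    · simp [h1, hx]

private theorem xs_head_not_mem {F : Fin n → Fin n → ℕ → Prop} (h : WW m F u (x :: L) k) : x ∉ L := by
  have := h.nodup
  rw [List.nodup_cons] at this
  exact this.1

private theorem xs_succ_mem {A B : List (Fin n)} {a b : Fin n} (h : x :: L = A ++ b :: a :: B) : a ∈ L := by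
  cases A with
  | nil =>
    rw [List.nil_append, List.cons.injEq] at h
    rw [h.2]
    simp
  | cons c A =>
    rw [List.cons_append, List.cons.injEq] at h
    rw [h.2]
    simp

open Classical in
/-- Job XS. As `swap_walk`, with an explicit description of the new matching: `s` is matched with `m z`, and if `b` comes directly after `a` in the walk then `a` is matched with `m b`. (Same induction as `swap_walk`.) -/
theorem swap_walk2 (h : Mate G m) (hs : m s = s) (hz : m z ≠ z) (hsz : G.Adj s (m z)) (hW : WW m (one (EE G m)) z (x :: L) k) :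
    ∃ ν, Mate G ν ∧ ν x = x ∧ ν s = m z ∧ (∀ A b a B, x :: L = A ++ b :: a :: B → ν a = m b) ∧
      (∀ w, w ≠ s → w ∉ x :: L → m w ∉ x :: L → ν w = m w) ∧
      (univ.filter (fun w => ν w ≠ w)).card = (univ.filter (fun w => m w ≠ w)).card := by
  have key : ∀ (L' : List (Fin n)) (k : ℕ), WW m (one (EE G m)) z L' k → ∀ (x : Fin n) (L : List (Fin n)), L' = x :: L →
      ∃ ν : Fin n → Fin n, Mate G ν ∧ ν x = x ∧ ν s = m z ∧ (∀ A b a B, x :: L = A ++ b :: a :: B → ν a = m b) ∧
      (∀ w, w ≠ s → w ∉ x :: L → m w ∉ x :: L → ν w = m w) ∧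
      (univ.filter (fun w => ν w ≠ w)).card = (univ.filter (fun w => m w ≠ w)).card := by
    intro L' k hW
    induction hW with
    | nil =>
      intro x L hx
      rw [List.cons.injEq] at hx
      obtain ⟨rfl, rfl⟩ := hx
      obtain ⟨μ, h1, h2, h3, h4, h5⟩ := xs_shift h hs hz hsz
      refine ⟨μ, h1, h3, h2, ?_, ?_, h5⟩
      · intro A b a B hAB
        have := congrArg List.length hAB
        simp at this
        omega
      · intro w w1 w2 w3
        rw [List.mem_singleton] at w2 w3
        exact h4 w w1 w2 (fun h6 => w3 (by rw [h6, h.invol]))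
    | @cons x y L k' k hW hE hy hmy ih =>
      intro x' L' hx'
      rw [List.cons.injEq] at hx'
      obtain ⟨rfl, rfl⟩ := hx'
      obtain ⟨ν, h1, h2, h3, h4, h5, h6⟩ := ih x L rfl
      obtain ⟨⟨a1, a2, a3, a4⟩, -⟩ := hE
      have b1 : y ≠ s := by
        rintro rfl
        exact a4 (by rw [hs, hs])
      have b2 : ν y = m y := h5 y b1 hy hmy
      have b3 : m y ≠ y := fun h7 => a4 (by rw [h7, h7])
      have b4 : m y ≠ s := by
        intro h7
        apply b1
        rw [← h.invol y, h7, hs]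
      have b5 : s ≠ x := by
        rintro rfl
        rw [h2] at h3
        exact hsz.ne h3
      obtain ⟨μ, c1, c2, c3, c4, c5⟩ := xs_shift h1 h2 (by rw [b2]; exact b3) (by rw [b2]; exact a1)
      rw [b2] at c2 c4
      refine ⟨μ, c1, c3, ?_, ?_, ?_, c5.trans h6⟩
      · rw [c4 s b5 b1.symm b4.symm, h3]
      · intro A b a B hAB
        cases A with
        | nil =>
          rw [List.nil_append, List.cons.injEq, List.cons.injEq] at hAB
          obtain ⟨rfl, rfl, -⟩ := hAB
          exact c2
        | cons c A =>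
          rw [List.cons_append, List.cons.injEq] at hAB
          have d1 := xs_succ_mem hAB.2
          have d2 := xs_head_not_mem hW
          have d3 : a ∈ x :: L := List.mem_cons_of_mem _ d1
          rw [c4 a (fun h7 => d2 (h7 ▸ d1)) (fun h7 => hy (h7 ▸ d3)) (fun h7 => hmy (h7 ▸ d3))]
          exact h4 A b a B hAB.2
      · intro w w1 w2 w3
        rw [List.mem_cons, not_or] at w2 w3
        have d1 : w ≠ x := fun h7 => w2.2 (by rw [h7]; simp)
        have d2 : w ≠ m y := fun h7 => w3.1 (by rw [h7, h.invol])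
        rw [c4 w d1 w2.1 d2]
        exact h5 w w1 w2.2 w3.2
  exact key _ _ hW x L rfl

/-- The edges of the new matching in one direction: `On` = the vertices of the walk, `Nx a b`: `b` comes directly after `a`. -/
def newE (M : SimpleGraph (Fin n)) (m : Fin n → Fin n) (On : Fin n → Prop) (Nx : Fin n → Fin n → Prop) (s t z x p q : Fin n) : Prop :=
  (M.Adj p q ∧ ¬ On p ∧ ¬ On q) ∨ (p = s ∧ q = m z) ∨ (p = x ∧ q = t) ∨ ∃ b, Nx p b ∧ q = m b

/-- a member different from the last entry has a successor in the walk -/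
private theorem xg_pred {F : Fin n → Fin n → ℕ → Prop} {L' : List (Fin n)} (h : WW m F z L' k) {v : Fin n} (hv : v ∈ L') (hvz : v ≠ z) :
    ∃ A a B, L' = A ++ v :: a :: B := by
  obtain ⟨A, B, hAB⟩ := List.append_of_mem hv
  cases B with
  | nil =>
    exfalso
    obtain ⟨L'', hL''⟩ := h.last
    rw [hL''] at hAB
    have := List.append_inj_right' hAB rfl
    rw [List.cons.injEq] at this
    exact hvz this.1.symm
  | cons a B => exact ⟨A, a, B, hAB⟩

/-- a member different from the head comes after some entry of the list -/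
private theorem xg_succ {p : Fin n} (hp : p ∈ L) : ∃ A b B, x :: L = A ++ b :: p :: B := by
  obtain ⟨A, B, hAB⟩ := List.append_of_mem hp
  rcases List.eq_nil_or_concat A with hA | ⟨A', b, hA⟩
  · refine ⟨[], x, B, ?_⟩
    rw [hAB, hA]
    rfl
  · refine ⟨x :: A', b, B, ?_⟩
    rw [hAB, hA]
    simp

/-- walk vertices are covered -/
private theorem xg_cov (hinv : ∀ x, m (m x) = x) {L' : List (Fin n)} (hz : m z ≠ z) (h : WW m (one (EE G m)) z L' k) : ∀ v ∈ L', m v ≠ v := by
  induction h with
  | nil =>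
    intro v hv
    rw [List.mem_singleton] at hv
    rw [hv]
    exact hz
  | @cons x y L k' k hW hE hy hmy ih =>
    intro v hv
    rw [List.mem_cons] at hv
    rcases hv with rfl | hv
    · intro h7
      exact hE.1.2.2.2 (by rw [hinv, h7])
    · exact ih v hv

/-- Job XG. The new matching has one edge more. (`swap_walk2`, then match `x` with `t`; `IsMateOf` for the new map `ν'`: the vertices are `s`, `t`, the vertices of the walk, their mates, and the others. `two_edges`.) -/
theorem aug_graph (hM : IsMat G M) (hm : Mate G m) (hMm : IsMateOf M m) (hst : s ≠ t) (hs : m s = s) (ht : m t = t) (hz : m z ≠ z) (hsz : G.Adj s (m z))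
    (hxt : G.Adj x t) (hW : WW m (one (EE G m)) z (x :: L) k) {On : Fin n → Prop} {Nx : Fin n → Fin n → Prop} (hOn : ∀ v, On v ↔ v ∈ x :: L)
    (hNx : ∀ a b, Nx a b ↔ ∃ A B, x :: L = A ++ b :: a :: B) :
    IsMat G (SimpleGraph.fromRel (newE M m On Nx s t z x)) ∧
      (SimpleGraph.fromRel (newE M m On Nx s t z x)).edgeSet.ncard = M.edgeSet.ncard + 1 := by
  classical
  obtain ⟨ν, h1, h2, h3, h4, h5, h6⟩ := swap_walk2 hm hs hz hsz hW
  have hcov := xg_cov hm.invol hz hW
  have hsW : s ∉ x :: L := fun h7 => hcov s h7 hs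
  have htW : t ∉ x :: L := fun h7 => hcov t h7 ht
  have htν : ν t = t := by
    rw [h5 t hst.symm htW (by rw [ht]; exact htW), ht]
  obtain ⟨μ, c1, c2, c3, c4, c5⟩ := xs_join h1 h2 htν hxt
  have hxL : x ∉ L := xs_head_not_mem hW
  have hsx : s ≠ x := fun h7 => hsW (by rw [h7]; simp)
  have hxt' : x ≠ t := hxt.ne
  have hμs : μ s = m z := by rw [c4 s hsx hst, h3]
  -- the values of the new map
  have hμ1 : ∀ a b, Nx a b → μ a = m b ∧ a ∈ x :: L ∧ b ∈ x :: L := by
    intro a b hab
    obtain ⟨A, B, hAB⟩ := (hNx a b).1 hab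
    have d1 := xs_succ_mem hAB
    have d2 : a ∈ x :: L := List.mem_cons_of_mem _ d1
    refine ⟨?_, d2, ?_⟩
    · rw [c4 a (fun h7 => hxL (h7 ▸ d1)) (fun h7 => htW (h7 ▸ d2))]
      exact h4 A b a B hAB
    · rw [hAB]
      simp
  have hμ2 : ∀ w, w ≠ s → w ≠ t → w ∉ x :: L → m w ∉ x :: L → μ w = m w := by
    intro w w1 w2 w3 w4
    rw [c4 w (fun h7 => w3 (by rw [h7]; simp)) w2]
    exact h5 w w1 w3 w4
  obtain ⟨N, hN, hNμ⟩ := exists_graph c1
  have hfw : ∀ p q, newE M m On Nx s t z x p q → μ p = q := by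
    rintro p q (⟨e1, e2, e3⟩ | ⟨rfl, rfl⟩ | ⟨rfl, rfl⟩ | ⟨b, e1, rfl⟩)
    · obtain ⟨f1, f2⟩ := (hMm p q).1 e1
      rw [hOn] at e2 e3
      rw [hμ2 p ?_ ?_ e2 (by rw [f1]; exact e3), f1]
      · rintro rfl
        exact f2 (hs.symm.trans f1)
      · rintro rfl
        exact f2 (ht.symm.trans f1)
    · exact hμs
    · exact c2
    · exact (hμ1 p b e1).1
  have hbw : ∀ p q, μ p = q → p ≠ q → newE M m On Nx s t z x p q ∨ newE M m On Nx s t z x q p := by
    intro p q hpq hne
    by_cases p1 : p = s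
    · left; right; left
      exact ⟨p1, by rw [← hpq, p1, hμs]⟩
    by_cases p2 : p = x
    · left; right; right; left
      exact ⟨p2, by rw [← hpq, p2, c2]⟩
    by_cases p3 : p = t
    · right; right; right; left
      exact ⟨by rw [← hpq, p3, c3], p3⟩
    by_cases p4 : p ∈ x :: L
    · left; right; right; right
      have p5 : p ∈ L := by
        rw [List.mem_cons] at p4
        exact p4.resolve_left p2
      obtain ⟨A, b, B, hAB⟩ := xg_succ (x := x) p5
      have e1 := (hNx p b).2 ⟨A, B, hAB⟩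
      exact ⟨b, e1, by rw [← hpq, (hμ1 p b e1).1]⟩
    by_cases p5 : m p ∈ x :: L
    · right
      by_cases p6 : m p = z
      · right; left
        have e1 : p = m z := by rw [← p6, hm.invol]
        refine ⟨?_, e1⟩
        rw [← hpq, e1, ← hμs, c1.invol]
      · right; right; right
        obtain ⟨A, a, B, hAB⟩ := xg_pred hW p5 p6
        have e1 := (hNx a (m p)).2 ⟨A, B, hAB⟩
        have e2 := (hμ1 a (m p) e1).1
        rw [hm.invol] at e2
        have e3 : q = a := by rw [← hpq, ← e2, c1.invol]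
        rw [e3]
        exact ⟨m p, e1, by rw [hm.invol]⟩
    · left; left
      have e1 := hμ2 p p1 p3 p4 p5
      rw [hpq] at e1
      refine ⟨(hMm p q).2 ⟨e1.symm, hne⟩, ?_, ?_⟩
      · rw [hOn]
        exact p4
      · rw [hOn, e1]
        exact p5
  have hNe : SimpleGraph.fromRel (newE M m On Nx s t z x) = N := by
    ext p q
    rw [SimpleGraph.fromRel_adj, hNμ p q]
    constructor
    · rintro ⟨e1, e2 | e2⟩
      · exact ⟨hfw p q e2, e1⟩
      · refine ⟨?_, e1⟩
        rw [← hfw q p e2, c1.invol]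
    · rintro ⟨e1, e2⟩
      exact ⟨e2, hbw p q e1 e2⟩
  rw [hNe]
  refine ⟨hN, ?_⟩
  have g1 : 2 * N.edgeSet.ncard = (univ.filter (fun w => μ w ≠ w)).card := by
    convert two_edges c1 hNμ
  have g2 : 2 * M.edgeSet.ncard = (univ.filter (fun w => m w ≠ w)).card := by
    convert two_edges hm hMm
  omega

/-- Job XG. The case of an edge between exposed vertices. -/
theorem direct_graph (hM : IsMat G M) (hm : Mate G m) (hMm : IsMateOf M m) (hs : m s = s) (ht : m t = t) (hst : G.Adj s t) :
    IsMat G (SimpleGraph.fromRel (fun p q => M.Adj p q ∨ (p = s ∧ q = t))) ∧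
      (SimpleGraph.fromRel (fun p q => M.Adj p q ∨ (p = s ∧ q = t))).edgeSet.ncard = M.edgeSet.ncard + 1 := by
  classical
  obtain ⟨μ, c1, c2, c3, c4, c5⟩ := xs_join hm hs ht hst
  obtain ⟨N, hN, hNμ⟩ := exists_graph c1
  have hfw : ∀ p q, (M.Adj p q ∨ (p = s ∧ q = t)) → μ p = q := by
    rintro p q (e1 | ⟨rfl, rfl⟩)
    · obtain ⟨f1, f2⟩ := (hMm p q).1 e1
      rw [c4 p ?_ ?_, f1]
      · rintro rfl
        exact f2 (hs.symm.trans f1)
      · rintro rfl
        exact f2 (ht.symm.trans f1)
    · exact c2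
  have hNe : SimpleGraph.fromRel (fun p q => M.Adj p q ∨ (p = s ∧ q = t)) = N := by
    ext p q
    rw [SimpleGraph.fromRel_adj, hNμ p q]
    constructor
    · rintro ⟨e1, e2 | e2⟩
      · exact ⟨hfw p q e2, e1⟩
      · refine ⟨?_, e1⟩
        rw [← hfw q p e2, c1.invol]
    · rintro ⟨e1, e2⟩
      refine ⟨e2, ?_⟩
      by_cases p1 : p = s
      · left; right
        exact ⟨p1, by rw [← e1, p1, c2]⟩
      by_cases p2 : p = t
      · right; right
        exact ⟨by rw [← e1, p2, c3], p2⟩
      left; left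
      rw [c4 p p1 p2] at e1
      exact (hMm p q).2 ⟨e1, e2⟩
  rw [hNe]
  refine ⟨hN, ?_⟩
  have g1 : 2 * N.edgeSet.ncard = (univ.filter (fun w => μ w ≠ w)).card := by
    convert two_edges c1 hNμ
  have g2 : 2 * M.edgeSet.ncard = (univ.filter (fun w => m w ≠ w)).card := by
    convert two_edges hm hMm
  omega

end Pool.Agent.AUG
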