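import Pool.Agent.Lib.MP_0087d5_lc.AUG.Search
import Pool.Agent.Lib.MP_0087d5_lc.AUG.Final

/-!
# Augmenting a given matching in NC

Jobs YA (`gaK_iff` … `chdK_iff`), YB (`q3_cand` … `q3_chd`), YC (`augG_spec`), YD (`q3_aug`), YE (`q3_it`, `itG_spec`), YF (`search_in_NC`).
-/

namespace Pool.Agent.AUG

open Relation Pool.Agent.UPM

section defs

variable {n : ℕ} (m : Fin n → Fin n) (E : Fin n → Fin n → Prop) (K : Fin n → Fin n → Fin n → Prop)

/-- Adjacency in the graph of the threshold `k` for the root `u`, from the computed distances. -/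
def gaK (u k x y : Fin n) : Prop := (E x y ∧ ∃ i j : Fin n, K u x i ∧ K u y j ∧ (i : ℕ) + j + 1 ≤ k) ∨
  (y = m x ∧ ∃ i j : Fin n, K u x i ∧ K u y j ∧ (i : ℕ) + j ≤ k)

def candK (u x g z : Fin n) : Prop := x ≠ u ∧ ∃ k : Fin n, K u x k ∧ ReflTransGen (gaK m E K u k) u g ∧ E g (m z) ∧
  ¬ ReflTransGen (gaK m E K u k) u z ∧ z ≠ m u ∧ ∃ i j : Fin n, K u g i ∧ K z x j ∧ (i : ℕ) + j + 1 = k

def chsK (u x g z : Fin n) : Prop := candK m E K u x g z ∧ ∀ g' z', candK m E K u x g' z' → g < g' ∨ (g = g' ∧ z ≤ z')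

def chdK (a b : Fin n × Fin n) : Prop := ∃ g z, chsK m E K a.1 a.2 g z ∧ (b = (a.1, g) ∨ b = (z, a.2))

end defs

variable {n : ℕ} {m : Fin n → Fin n} {E : Fin n → Fin n → Prop} {K : Fin n → Fin n → Fin n → Prop} {u x y z g k : Fin n}

/-- Job YA. (Levels `ZZ` exceed all thresholds `k < n`.) -/
theorem gaK_iff (hK : ∀ u x k : Fin n, K u x k ↔ dd m E u x = k) : gaK m E K u k x y ↔ GA m E (dd m E u) k x y := by
  unfold gaK GA
  constructor
  · rintro (⟨h, i, j, hi, hj, hij⟩ | ⟨h, i, j, hi, hj, hij⟩)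
    · left
      refine ⟨h, ?_⟩
      rw [(hK _ _ _).1 hi, (hK _ _ _).1 hj]
      exact hij
    · right
      refine ⟨h, ?_⟩
      rw [(hK _ _ _).1 hi, (hK _ _ _).1 hj]
      exact hij
  · have hk := k.isLt
    rintro (⟨h, hij⟩ | ⟨h, hij⟩)
    · left
      exact ⟨h, ⟨dd m E u x, by omega⟩, ⟨dd m E u y, by omega⟩, (hK _ _ _).2 rfl,
        (hK _ _ _).2 rfl, hij⟩
    · right
      exact ⟨h, ⟨dd m E u x, by omega⟩, ⟨dd m E u y, by omega⟩, (hK _ _ _).2 rfl,
        (hK _ _ _).2 rfl, hij⟩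

private theorem ya_gaK_eq (hK : ∀ u x k : Fin n, K u x k ↔ dd m E u x = k) (u k : Fin n) :
    gaK m E K u k = GA m E (dd m E u) k := by
  funext x y
  exact propext (gaK_iff hK)

/-- Job YA. -/
theorem candK_iff (hK : ∀ u x k : Fin n, K u x k ↔ dd m E u x = k) : candK m E K u x g z ↔ Cand m E u x g z := by
  unfold candK Cand
  constructor
  · rintro ⟨hxu, k, hk, h1, h2, h3, h4, i, j, hi, hj, hij⟩
    rw [ya_gaK_eq hK] at h1 h3
    have hkk := (hK _ _ _).1 hk
    refine ⟨hxu, ?_, ?_, h2, ?_, h4, ?_⟩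
    · rw [hkk]
      have h5 := k.isLt
      unfold ZZ
      rw [Fintype.card_fin]
      omega
    · rw [hkk]
      exact h1
    · rw [hkk]
      exact h3
    · rw [hkk, (hK _ _ _).1 hi, (hK _ _ _).1 hj]
      omega
  · rintro ⟨hxu, hlt, h1, h2, h3, h4, h5⟩
    have hn := dd_lt_n hlt
    refine ⟨hxu, ⟨dd m E u x, hn⟩, (hK _ _ _).2 rfl, ?_, h2, ?_, h4, ⟨dd m E u g, by omega⟩,
      ⟨dd m E z x, by omega⟩, (hK _ _ _).2 rfl, (hK _ _ _).2 rfl, ?_⟩
    · rw [ya_gaK_eq hK]
      exact h1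
    · rw [ya_gaK_eq hK]
      exact h3
    · show dd m E u g + dd m E z x + 1 = dd m E u x
      omega

/-- Job YA. -/
theorem chsK_iff (hK : ∀ u x k : Fin n, K u x k ↔ dd m E u x = k) : chsK m E K u x g z ↔ Chs m E u x g z := by
  unfold chsK Chs
  rw [candK_iff hK]
  refine and_congr_right fun _ => ?_
  constructor
  · intro h g' z' h'
    exact h g' z' ((candK_iff hK).2 h')
  · intro h g' z' h'
    exact h g' z' ((candK_iff hK).1 h')

/-- Job YA. -/
theorem chdK_iff (hK : ∀ u x k : Fin n, K u x k ↔ dd m E u x = k) (a b : Fin n × Fin n) : chdK m E K a b ↔ chd m E a b := by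
  unfold chdK chd
  constructor
  · rintro ⟨g, z, h, h'⟩
    exact ⟨g, z, (chsK_iff hK).1 h, h'⟩
  · rintro ⟨g, z, h, h'⟩
    exact ⟨g, z, (chsK_iff hK).2 h, h'⟩

/-- The computed distances. -/
def DK (n : ℕ) (s : GS2 n) (u x k : Fin n) : Prop := distK n (qs n s) u x k

/-- Job YB. Reflexive transitive closure with parameters. (`NCP.tc1`, `ReflTransGen R a b ↔ a = b ∨ TransGen R a b`.) -/
theorem rtcP {S : ℕ → Type} {B : Readers S} {R : ∀ n, S n → Fin n → Fin n → Fin n → Fin n → Prop}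
    (h : NCP S B (Fin 4) (fun n s x => R n s (x 0) (x 1) (x 2) (x 3))) :
    NCP S B (Fin 4) (fun n s x => ReflTransGen (R n s (x 0) (x 1)) (x 2) (x 3)) := by
  have h1 : NCP S B (Option (Option (Fin 2))) (fun n s z =>
      R n s (z (some (some 0))) (z (some (some 1))) (z (some none)) (z none)) :=
    NCP.comap inferInstance ![some (some 0), some (some 1), some none, none] h
  have h2 := NCP.tc1 (ι := Fin 2) inferInstance (Q := fun n s p u v => R n s (p 0) (p 1) u v) h1
  have h3 : NCP S B (Fin 4) (fun n s x => TransGen (R n s (x 0) (x 1)) (x 2) (x 3)) :=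
    NCP.comap (κ := Fin 4) inferInstance (fun o : Option (Option (Fin 2)) => match o with
      | some (some i) => (![0, 1] : Fin 2 → Fin 4) i
      | some none => 2
      | none => 3) h2
  refine (NCP.or (NCP.eq (ι := Fin 4) inferInstance 3 2) h3).congr fun n s x => ?_
  rw [reflTransGen_iff_eq_or_transGen]

private theorem yb_K {ι : Type} (hι : Finite ι) (i j k : ι) :
    NCP GS2 GB2 ι (fun n s x => DK n s (x i) (x j) (x k)) :=
  NCP.comap hι ![i, j, k] q2_dist

private theorem yb_edge {ι : Type} (hι : Finite ι) (i j : ι) :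
    NCP GS2 GB2 ι (fun _ s x => EE s.1 (mt s.2) (x i) (x j)) :=
  NCP.comap hι ![i, j] (q2_readers (Fin 2) inferInstance _ QB.edge)

private theorem yb_arc {ι : Type} (hι : Finite ι) (i j : ι) :
    NCP GS2 GB2 ι (fun _ s x => EE s.1 (mt s.2) (x i) (mt s.2 (x j))) := by
  have h : NCP GS2 GB2 ι (fun n s x => ∃ y : Fin n, mt s.2 (x j) = y ∧ EE s.1 (mt s.2) (x i) y) :=
    NCP.ex1 (NCP.and (fa_mt (ι := Option ι) inferInstance (some j) none)
      (yb_edge (ι := Option ι) inferInstance (some i) none))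
  refine h.congr fun n s x => ?_
  simp only [exists_eq_left']

private theorem yb_sum {S : ℕ → Type} {B : Readers S} {ι : Type} (hι : Finite ι) (i j c : ι) :
    NCP S B ι (fun _ _ x => (x i : ℕ) + (x j : ℕ) ≤ (x c : ℕ)) := by
  have h : NCP S B ι (fun n _ x => ∃ a : Fin n, (x i : ℕ) + (x j : ℕ) = (a : ℕ) ∧ a ≤ x c) :=
    NCP.ex1 (NCP.and (NCP.add (ι := Option ι) inferInstance (some i) (some j) none)
      (NCP.le (ι := Option ι) inferInstance none (some c)))
  refine h.congr fun n s x => ⟨?_, fun h => ?_⟩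
  · rintro ⟨a, h1, h2⟩
    have h3 : (a : ℕ) ≤ (x c : ℕ) := h2
    omega
  · have h4 := (x c).2
    exact ⟨⟨(x i : ℕ) + (x j : ℕ), by omega⟩, rfl, Fin.le_def.2 h⟩

private theorem yb_sum1 {S : ℕ → Type} {B : Readers S} {ι : Type} (hι : Finite ι) (i j c : ι) :
    NCP S B ι (fun _ _ x => (x i : ℕ) + (x j : ℕ) + 1 ≤ (x c : ℕ)) := by
  have h : NCP S B ι (fun n _ x => ∃ a : Fin n, (x i : ℕ) + (x j : ℕ) = (a : ℕ) ∧ a < x c) :=
    NCP.ex1 (NCP.and (NCP.add (ι := Option ι) inferInstance (some i) (some j) none)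
      (NCP.lt (ι := Option ι) inferInstance none (some c)))
  refine h.congr fun n s x => ⟨?_, fun h => ?_⟩
  · rintro ⟨a, h1, h2⟩
    have h3 : (a : ℕ) < (x c : ℕ) := h2
    omega
  · have h4 := (x c).2
    exact ⟨⟨(x i : ℕ) + (x j : ℕ), by omega⟩, rfl, Fin.lt_def.2 h⟩

private theorem yb_sumeq {S : ℕ → Type} {B : Readers S} {ι : Type} (hι : Finite ι) (i j c : ι) :
    NCP S B ι (fun _ _ x => (x i : ℕ) + (x j : ℕ) + 1 = (x c : ℕ)) := by
  have h : NCP S B ι (fun n _ x => ∃ a : Fin n, (x i : ℕ) + (x j : ℕ) = (a : ℕ) ∧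
      (x c : ℕ) = (a : ℕ) + 1) :=
    NCP.ex1 (NCP.and (NCP.add (ι := Option ι) inferInstance (some i) (some j) none)
      (NCP.succ (ι := Option ι) inferInstance (some c) none))
  refine h.congr fun n s x => ⟨?_, fun h => ?_⟩
  · rintro ⟨a, h1, h2⟩
    omega
  · have h4 := (x c).2
    exact ⟨⟨(x i : ℕ) + (x j : ℕ), by omega⟩, rfl, h.symm⟩

private theorem yb_ga : NCP GS2 GB2 (Fin 4) (fun n s x =>
    gaK (mt s.2) (EE s.1 (mt s.2)) (DK n s) (x 0) (x 1) (x 2) (x 3)) := by
  have h : NCP GS2 GB2 (Fin 4) (fun n s x =>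
      (EE s.1 (mt s.2) (x 2) (x 3) ∧ ∃ i j : Fin n, DK n s (x 0) (x 2) i ∧ DK n s (x 0) (x 3) j ∧
        (i : ℕ) + (j : ℕ) + 1 ≤ (x 1 : ℕ)) ∨
      (mt s.2 (x 2) = x 3 ∧ ∃ i j : Fin n, DK n s (x 0) (x 2) i ∧ DK n s (x 0) (x 3) j ∧
        (i : ℕ) + (j : ℕ) ≤ (x 1 : ℕ))) := by
    refine NCP.or (NCP.and (yb_edge inferInstance 2 3) (NCP.ex1 (NCP.ex1 ?_)))
      (NCP.and (fa_mt inferInstance 2 3) (NCP.ex1 (NCP.ex1 ?_)))
    · exact NCP.and (yb_K (ι := Option (Option (Fin 4))) inferInstance (some (some 0)) (some (some 2)) (some none))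
        (NCP.and (yb_K inferInstance (some (some 0)) (some (some 3)) none)
          (yb_sum1 inferInstance (some none) none (some (some 1))))
    · exact NCP.and (yb_K (ι := Option (Option (Fin 4))) inferInstance (some (some 0)) (some (some 2)) (some none))
        (NCP.and (yb_K inferInstance (some (some 0)) (some (some 3)) none)
          (yb_sum inferInstance (some none) none (some (some 1))))
  refine h.congr fun n s x => ?_
  unfold gaK
  rw [eq_comm (a := x 3) (b := mt s.2 (x 2))]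

private theorem yb_rga {ι : Type} (hι : Finite ι) (i j a b : ι) : NCP GS2 GB2 ι (fun n s x =>
    ReflTransGen (gaK (mt s.2) (EE s.1 (mt s.2)) (DK n s) (x i) (x j)) (x a) (x b)) :=
  NCP.comap hι ![i, j, a, b] (rtcP (S := GS2) (R := fun n s u k =>
    gaK (mt s.2) (EE s.1 (mt s.2)) (DK n s) u k) yb_ga)

/-- Job YB. -/
theorem q3_cand : NCP GS2 GB2 (Fin 4) (fun n s x => candK (mt s.2) (EE s.1 (mt s.2)) (DK n s) (x 0) (x 1) (x 2) (x 3)) := by
  have h : NCP GS2 GB2 (Fin 4) (fun n s x => ¬ (x 1 = x 0) ∧ ∃ k : Fin n, DK n s (x 0) (x 1) k ∧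
      ReflTransGen (gaK (mt s.2) (EE s.1 (mt s.2)) (DK n s) (x 0) k) (x 0) (x 2) ∧
      EE s.1 (mt s.2) (x 2) (mt s.2 (x 3)) ∧
      ¬ ReflTransGen (gaK (mt s.2) (EE s.1 (mt s.2)) (DK n s) (x 0) k) (x 0) (x 3) ∧
      ¬ (mt s.2 (x 0) = x 3) ∧ ∃ i j : Fin n, DK n s (x 0) (x 2) i ∧ DK n s (x 3) (x 1) j ∧
        (i : ℕ) + (j : ℕ) + 1 = (k : ℕ)) := by
    refine NCP.and (NCP.not (NCP.eq inferInstance 1 0)) (NCP.ex1 ?_)
    refine NCP.and (yb_K (ι := Option (Fin 4)) inferInstance (some 0) (some 1) none)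
      (NCP.and (yb_rga inferInstance (some 0) none (some 0) (some 2))
      (NCP.and (yb_arc inferInstance (some 2) (some 3))
      (NCP.and (NCP.not (yb_rga inferInstance (some 0) none (some 0) (some 3)))
      (NCP.and (NCP.not (fa_mt inferInstance (some 0) (some 3))) (NCP.ex1 (NCP.ex1 ?_))))))
    exact NCP.and (yb_K (ι := Option (Option (Option (Fin 4)))) inferInstance (some (some (some 0))) (some (some (some 2))) (some none))
      (NCP.and (yb_K inferInstance (some (some (some 3))) (some (some (some 1))) none)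
        (yb_sumeq inferInstance (some none) none (some (some none))))
  refine h.congr fun n s x => ?_
  unfold candK
  rw [ne_eq, eq_comm (a := mt s.2 (x 0)) (b := x 3)]

/-- Job YB. -/
theorem q3_chs : NCP GS2 GB2 (Fin 4) (fun n s x => chsK (mt s.2) (EE s.1 (mt s.2)) (DK n s) (x 0) (x 1) (x 2) (x 3)) := by
  have h0 : ∀ {ι : Type} (hι : Finite ι) (i j k l : ι), NCP GS2 GB2 ι (fun n s x =>
      candK (mt s.2) (EE s.1 (mt s.2)) (DK n s) (x i) (x j) (x k) (x l)) :=
    fun hι i j k l => NCP.comap hι ![i, j, k, l] q3_cand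
  have h : NCP GS2 GB2 (Fin 4) (fun n s x =>
      candK (mt s.2) (EE s.1 (mt s.2)) (DK n s) (x 0) (x 1) (x 2) (x 3) ∧
      ∀ g' z' : Fin n, candK (mt s.2) (EE s.1 (mt s.2)) (DK n s) (x 0) (x 1) g' z' →
        x 2 < g' ∨ (x 2 = g' ∧ x 3 ≤ z')) := by
    refine NCP.and q3_cand (NCP.all1 (NCP.all1 ?_))
    exact NCP.imp (h0 (ι := Option (Option (Fin 4))) inferInstance (some (some 0)) (some (some 1)) (some none) none)
      (NCP.or (NCP.lt inferInstance (some (some 2)) (some none))
        (NCP.and (NCP.eq inferInstance (some (some 2)) (some none)) (NCP.le inferInstance (some (some 3)) none)))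
  exact h

/-- Job YB. The closure of `chdK` (`rtc2`; no parameter is needed). -/
theorem q3_chd : NCP GS2 GB2 (Fin 4) (fun n s x => ReflTransGen (chdK (mt s.2) (EE s.1 (mt s.2)) (DK n s)) (x 0, x 1) (x 2, x 3)) := by
  have h0 : ∀ {ι : Type} (hι : Finite ι) (i j k l : ι), NCP GS2 GB2 ι (fun n s x =>
      chsK (mt s.2) (EE s.1 (mt s.2)) (DK n s) (x i) (x j) (x k) (x l)) :=
    fun hι i j k l => NCP.comap hι ![i, j, k, l] q3_chs
  have h : NCP GS2 GB2 (Fin 5) (fun n s x =>
      ∃ g z : Fin n, chsK (mt s.2) (EE s.1 (mt s.2)) (DK n s) (x 1) (x 2) g z ∧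
        ((x 3 = x 1 ∧ x 4 = g) ∨ (x 3 = z ∧ x 4 = x 2))) := by
    refine NCP.ex1 (NCP.ex1 ?_)
    exact NCP.and (h0 (ι := Option (Option (Fin 5))) inferInstance (some (some 1)) (some (some 2)) (some none) none)
      (NCP.or (NCP.and (NCP.eq inferInstance (some (some 3)) (some (some 1))) (NCP.eq inferInstance (some (some 4)) (some none)))
        (NCP.and (NCP.eq inferInstance (some (some 3)) none) (NCP.eq inferInstance (some (some 4)) (some (some 2)))))
  have h2 : NCP GS2 GB2 (Fin 5) (fun n s x =>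
      chdK (mt s.2) (EE s.1 (mt s.2)) (DK n s) (x 1, x 2) (x 3, x 4)) := by
    refine h.congr fun n s x => ?_
    simp only [chdK, Prod.mk.injEq]
  exact NCP.comap (κ := Fin 4) inferInstance ![0, 0, 1, 2, 3]
    (rtc2 (S := GS2) (R := fun n s _ => chdK (mt s.2) (EE s.1 (mt s.2)) (DK n s)) h2)

/-- Two adjacent exposed vertices. -/
def dirK (n : ℕ) (s : GS2 n) (a b : Fin n) : Prop := mt s.2 a = a ∧ mt s.2 b = b ∧ s.1.Adj a b

/-- The data of an augmenting path. -/
def datK (n : ℕ) (s : GS2 n) (a b z x : Fin n) : Prop :=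
  a ≠ b ∧ mt s.2 a = a ∧ mt s.2 b = b ∧ mt s.2 z ≠ z ∧ s.1.Adj a (mt s.2 z) ∧ reachK n s z x ∧ s.1.Adj x b

/-- `v` is on the chosen walk from `z` to `x`. -/
def OnK (n : ℕ) (s : GS2 n) (z x v : Fin n) : Prop := ReflTransGen (chdK (mt s.2) (EE s.1 (mt s.2)) (DK n s)) (z, x) (v, v)

/-- `b` comes directly after `a` on the chosen walk from `z` to `x`. -/
def NxK (n : ℕ) (s : GS2 n) (z x a b : Fin n) : Prop :=
  ∃ u' x', ReflTransGen (chdK (mt s.2) (EE s.1 (mt s.2)) (DK n s)) (z, x) (u', x') ∧ chsK (mt s.2) (EE s.1 (mt s.2)) (DK n s) u' x' a b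

/-- The edges of the new matching, in one direction. The least (lexicographically) adjacent exposed pair, or if there is none the least data of an augmenting path are used; otherwise the matching is not changed. -/
def stepE (n : ℕ) (s : GS2 n) (p q : Fin n) : Prop :=
  (¬ IsMat s.1 s.2 ∧ s.2.Adj p q) ∨
  (IsMat s.1 s.2 ∧ ∃ a b, dirK n s a b ∧ (∀ a' b', dirK n s a' b' → a < a' ∨ (a = a' ∧ b ≤ b')) ∧ (s.2.Adj p q ∨ (p = a ∧ q = b))) ∨
  (IsMat s.1 s.2 ∧ (¬ ∃ a b, dirK n s a b) ∧ ∃ a b z x, datK n s a b z x ∧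
    (∀ a' b' z' x', datK n s a' b' z' x' → a < a' ∨ (a = a' ∧ (b < b' ∨ (b = b' ∧ (z < z' ∨ (z = z' ∧ x ≤ x')))))) ∧
    newE s.2 (mt s.2) (OnK n s z x) (NxK n s z x) a b z x p q) ∨
  (IsMat s.1 s.2 ∧ (¬ ∃ a b, dirK n s a b) ∧ (¬ ∃ a b z x, datK n s a b z x) ∧ s.2.Adj p q)

/-- One augmentation. -/
def augG (n : ℕ) (G M : SimpleGraph (Fin n)) : SimpleGraph (Fin n) := SimpleGraph.fromRel (stepE n (G, M))

private theorem yc_least1 {P : Fin n → Prop} (h : ∃ a, P a) : ∃ a, P a ∧ ∀ a', P a' → a ≤ a' := by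
  classical
  obtain ⟨a, ha⟩ := h
  have hne : (Finset.univ.filter P).Nonempty := ⟨a, by simpa using ha⟩
  refine ⟨(Finset.univ.filter P).min' hne, ?_, ?_⟩
  · have := Finset.min'_mem _ hne
    simpa using this
  · intro a' ha'
    exact Finset.min'_le _ _ (by simpa using ha')

private theorem yc_least2 {P : Fin n → Fin n → Prop} (h : ∃ a b, P a b) :
    ∃ a b, P a b ∧ ∀ a' b', P a' b' → a < a' ∨ (a = a' ∧ b ≤ b') := by
  obtain ⟨a, ha, hmin⟩ := yc_least1 h
  obtain ⟨b, hb, hmin'⟩ := yc_least1 ha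
  refine ⟨a, b, hb, fun a' b' h' => ?_⟩
  rcases lt_or_eq_of_le (hmin a' ⟨b', h'⟩) with hlt | heq
  · exact Or.inl hlt
  · subst heq
    exact Or.inr ⟨rfl, hmin' b' h'⟩

private theorem yc_least4 {P : Fin n → Fin n → Fin n → Fin n → Prop} (h : ∃ a b z x, P a b z x) :
    ∃ a b z x, P a b z x ∧ ∀ a' b' z' x', P a' b' z' x' →
      a < a' ∨ (a = a' ∧ (b < b' ∨ (b = b' ∧ (z < z' ∨ (z = z' ∧ x ≤ x'))))) := by
  obtain ⟨a, b, hab, hmin⟩ := yc_least2 (P := fun a b => ∃ z x, P a b z x) h
  obtain ⟨z, x, hzx, hmin'⟩ := yc_least2 hab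
  refine ⟨a, b, z, x, hzx, fun a' b' z' x' h' => ?_⟩
  rcases hmin a' b' ⟨z', x', h'⟩ with hlt | ⟨heq, hle⟩
  · exact Or.inl hlt
  · subst heq
    refine Or.inr ⟨rfl, ?_⟩
    rcases lt_or_eq_of_le hle with hlt | heq
    · exact Or.inl hlt
    · subst heq
      exact Or.inr ⟨rfl, hmin' z' x' h'⟩

private theorem yc_uniq2 {a b a' b' : Fin n} (h : a < a' ∨ (a = a' ∧ b ≤ b')) (h' : a' < a ∨ (a' = a ∧ b' ≤ b)) :
    a' = a ∧ b' = b := by
  rcases h with h | ⟨h1, h2⟩
  · rcases h' with h' | ⟨h1', h2'⟩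
    · exact absurd h' (lt_asymm h)
    · exact absurd h1' h.ne'
  · rcases h' with h' | ⟨h1', h2'⟩
    · exact absurd h1 h'.ne'
    · exact ⟨h1', le_antisymm h2' h2⟩

private theorem yc_uniq4 {a b z x a' b' z' x' : Fin n}
    (h : a < a' ∨ (a = a' ∧ (b < b' ∨ (b = b' ∧ (z < z' ∨ (z = z' ∧ x ≤ x'))))))
    (h' : a' < a ∨ (a' = a ∧ (b' < b ∨ (b' = b ∧ (z' < z ∨ (z' = z ∧ x' ≤ x)))))) :
    a' = a ∧ b' = b ∧ z' = z ∧ x' = x := by
  rcases h with h | ⟨h1, h2⟩
  · rcases h' with h' | ⟨h1', h2'⟩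
    · exact absurd h' (lt_asymm h)
    · exact absurd h1' h.ne'
  · rcases h' with h' | ⟨h1', h2'⟩
    · exact absurd h1 h'.ne'
    · refine ⟨h1', ?_⟩
      rcases h2 with h2 | ⟨h3, h4⟩
      · rcases h2' with h2' | ⟨h3', h4'⟩
        · exact absurd h2' (lt_asymm h2)
        · exact absurd h3' h2.ne'
      · rcases h2' with h2' | ⟨h3', h4'⟩
        · exact absurd h3 h2'.ne'
        · exact ⟨h3', yc_uniq2 h4 h4'⟩

/-- Job YC. A matching which is not maximal is augmented, a maximal one is not changed. (`extract`, `aug_graph`, `direct_graph`, `isMaxMat_iff`, `reachK_iff`, `distK_iff`, `mt_mate`; least elements of nonempty sets of pairs and quadruples exist and are unique.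
For the last case: `fromRel M.Adj = M`.) -/
theorem augG_spec {G M : SimpleGraph (Fin n)} (h : IsMat G M) :
    IsMat G (augG n G M) ∧ ((IsMaxMat G M ∧ augG n G M = M) ∨ (augG n G M).edgeSet.ncard = M.edgeSet.ncard + 1) := by
  obtain ⟨hm, hMm⟩ := mt_mate h
  have hMM : MM (mt M) (EE G (mt M)) := hm.mm
  have hK : ∀ u x k : Fin n, DK n (G, M) u x k ↔ dd (mt M) (EE G (mt M)) u x = k :=
    fun u x k => distK_iff (qs n (G, M)) hMM u x k
  have hchd : chdK (mt M) (EE G (mt M)) (DK n (G, M)) = chd (mt M) (EE G (mt M)) := by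
    funext a b
    exact propext (chdK_iff hK a b)
  by_cases hd : ∃ a b, dirK n (G, M) a b
  · obtain ⟨a, b, hab, hmin⟩ := yc_least2 hd
    have hE : stepE n (G, M) = fun p q => M.Adj p q ∨ (p = a ∧ q = b) := by
      funext p q
      refine propext ⟨?_, fun hpq => Or.inr (Or.inl ⟨h, a, b, hab, hmin, hpq⟩)⟩
      rintro (h1 | ⟨-, a', b', h1, h2, h3⟩ | ⟨-, h1, -⟩ | ⟨-, h1, -⟩)
      · exact absurd h h1.1
      · obtain ⟨rfl, rfl⟩ := yc_uniq2 (hmin a' b' h1) (h2 a b hab)
        exact h3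
      · exact absurd hd h1
      · exact absurd hd h1
    have hG : augG n G M = SimpleGraph.fromRel (fun p q => M.Adj p q ∨ (p = a ∧ q = b)) := by
      unfold augG
      rw [hE]
    rw [hG]
    have h1 := direct_graph h hm hMm hab.1 hab.2.1 hab.2.2
    exact ⟨h1.1, Or.inr h1.2⟩
  · by_cases hdat : ∃ a b z x, datK n (G, M) a b z x
    · obtain ⟨a, b, z, x, hab, hmin⟩ := yc_least4 hdat
      have hE : stepE n (G, M) = newE M (mt M) (OnK n (G, M) z x) (NxK n (G, M) z x) a b z x := by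
        funext p q
        refine propext ⟨?_, fun hpq => Or.inr (Or.inr (Or.inl ⟨h, hd, a, b, z, x, hab, hmin, hpq⟩))⟩
        rintro (h1 | ⟨-, a', b', h1, -⟩ | ⟨-, -, a', b', z', x', h1, h2, h3⟩ | ⟨-, -, h1, -⟩)
        · exact absurd h h1.1
        · exact absurd ⟨a', b', h1⟩ hd
        · obtain ⟨rfl, rfl, rfl, rfl⟩ := yc_uniq4 (hmin a' b' z' x' h1) (h2 a b z x hab)
          exact h3
        · exact absurd hdat h1
      have hG : augG n G M = SimpleGraph.fromRel (newE M (mt M) (OnK n (G, M) z x) (NxK n (G, M) z x) a b z x) := by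
        unfold augG
        rw [hE]
      rw [hG]
      obtain ⟨h1, h2, h3, h4, h5, h6, h7⟩ := hab
      have hr := (reachK_iff (G, M) h z x).1 h6
      obtain ⟨L, hL, hon, hnx⟩ := extract hMM h4 hr
      have hOn : ∀ v, OnK n (G, M) z x v ↔ v ∈ x :: L := by
        intro v
        rw [hon v]
        show ReflTransGen (chdK (mt M) (EE G (mt M)) (DK n (G, M))) (z, x) (v, v) ↔ _
        rw [hchd]
      have hNx : ∀ p q, NxK n (G, M) z x p q ↔ ∃ A B, x :: L = A ++ q :: p :: B := by
        intro p q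
        rw [hnx p q]
        show (∃ u' x', ReflTransGen (chdK (mt M) (EE G (mt M)) (DK n (G, M))) (z, x) (u', x') ∧
          chsK (mt M) (EE G (mt M)) (DK n (G, M)) u' x' p q) ↔ _
        rw [hchd]
        exact exists_congr fun u' => exists_congr fun x' => and_congr_right fun _ => chsK_iff hK
      have h8 := aug_graph h hm hMm h1 h2 h3 h4 h5 h7 hL hOn hNx
      exact ⟨h8.1, Or.inr h8.2⟩
    · have hE : stepE n (G, M) = M.Adj := by
        funext p q
        refine propext ⟨?_, fun hpq => Or.inr (Or.inr (Or.inr ⟨h, hd, hdat, hpq⟩))⟩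
        rintro (h1 | ⟨-, a', b', h1, -⟩ | ⟨-, -, a', b', z', x', h1, -⟩ | ⟨-, -, -, h1⟩)
        · exact absurd h h1.1
        · exact absurd ⟨a', b', h1⟩ hd
        · exact absurd ⟨a', b', z', x', h1⟩ hdat
        · exact h1
      have hG : augG n G M = M := by
        unfold augG
        rw [hE]
        ext p q
        rw [SimpleGraph.fromRel_adj]
        constructor
        · rintro ⟨-, h1 | h1⟩
          · exact h1
          · exact h1.symm
        · intro h1
          exact ⟨h1.ne, Or.inl h1⟩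
      rw [hG]
      refine ⟨h, Or.inl ⟨(isMaxMat_iff h hm hMm).2 ?_, rfl⟩⟩
      rintro ⟨a, b, h1, h2, h3, h4 | ⟨z, x, h4, h5, h6, h7⟩⟩
      · exact hd ⟨a, b, h2, h3, h4⟩
      · exact hdat ⟨a, b, z, x, h1, h2, h3, h4, h5, (reachK_iff (G, M) h z x).2 h6, h7⟩

private theorem yd_fst {ι : Type} (hι : Finite ι) (i j : ι) :
    NCP GS2 GB2 ι (fun _ s x => s.1.Adj (x i) (x j)) :=
  NCP.comap hι ![i, j] (NCP.base inferInstance GB2.fst)

private theorem yd_snd {ι : Type} (hι : Finite ι) (i j : ι) :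
    NCP GS2 GB2 ι (fun _ s x => s.2.Adj (x i) (x j)) :=
  NCP.comap hι ![i, j] (NCP.base inferInstance GB2.snd)

private theorem yd_mat {ι : Type} (hι : Finite ι) : NCP GS2 GB2 ι (fun _ s _ => IsMat s.1 s.2) := by
  have h1 : NCP GS2 GB2 ι (fun n s x => ∀ a : Fin n, ∀ b : Fin n, (s.2.Adj a b → s.1.Adj a b)) :=
    NCP.all1 (NCP.all1 (NCP.imp (yd_snd (ι := Option (Option ι)) inferInstance (some none) none)
      (yd_fst (ι := Option (Option ι)) inferInstance (some none) none)))
  have h2 : NCP GS2 GB2 ι (fun n s x => ∀ v : Fin n, ∀ w : Fin n, ∀ w' : Fin n, (s.2.Adj v w → s.2.Adj v w' → w = w')) :=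
    NCP.all1 (NCP.all1 (NCP.all1 (NCP.imp (yd_snd (ι := Option (Option (Option ι))) inferInstance (some (some none)) (some none))
      (NCP.imp (yd_snd (ι := Option (Option (Option ι))) inferInstance (some (some none)) none)
        (NCP.eq inferInstance (some none) none)))))
  refine (NCP.and h1 h2).congr fun n s x => ?_
  unfold IsMat
  refine and_congr ?_ Iff.rfl
  rw [SimpleGraph.le_iff_adj]

private theorem yd_rel4 {S : ℕ → Type} {B : Readers S} {ι : Type} {R : ∀ n, S n → Fin n → Fin n → Fin n → Fin n → Prop} (hι : Finite ι)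
    (h : NCP S B (Fin 4) (fun n s x => R n s (x 0) (x 1) (x 2) (x 3))) (i j k l : ι) :
    NCP S B ι (fun n s x => R n s (x i) (x j) (x k) (x l)) :=
  NCP.comap hι ![i, j, k, l] h

private theorem yd_dir {ι : Type} (hι : Finite ι) (i j : ι) : NCP GS2 GB2 ι (fun n s x => dirK n s (x i) (x j)) := by
  have h : NCP GS2 GB2 ι (fun n s x => mt s.2 (x i) = x i ∧ mt s.2 (x j) = x j ∧ s.1.Adj (x i) (x j)) :=
    NCP.and (fa_mt hι i i) (NCP.and (fa_mt hι j j) (yd_fst hι i j))
  exact h.congr fun n s x => Iff.rfl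

private theorem yd_reach {ι : Type} (hι : Finite ι) (i j : ι) : NCP GS2 GB2 ι (fun n s x => reachK n s (x i) (x j)) := by
  have h : NCP GS2 GB2 ι (fun n s x => ∃ k : Fin n, distK n (qs n s) (x i) (x j) k) :=
    NCP.ex1 (NCP.rel3 (S := GS2) (B := GB2) (ι := Option ι) (R := fun n s a b c => distK n (qs n s) a b c) inferInstance q2_dist
      (some i) (some j) none)
  exact h.congr fun n s x => Iff.rfl

private theorem yd_dat {ι : Type} (hι : Finite ι) (a b z x : ι) :
    NCP GS2 GB2 ι (fun n s y => datK n s (y a) (y b) (y z) (y x)) := by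
  have h0 : NCP GS2 GB2 ι (fun n s y => ∃ v : Fin n, mt s.2 (y z) = v ∧ s.1.Adj (y a) v) :=
    NCP.ex1 (NCP.and (fa_mt (ι := Option ι) inferInstance (some z) none) (yd_fst (ι := Option ι) inferInstance (some a) none))
  have h : NCP GS2 GB2 ι (fun n s y => ¬ (y a = y b) ∧ mt s.2 (y a) = y a ∧ mt s.2 (y b) = y b ∧ ¬ (mt s.2 (y z) = y z) ∧
      (∃ v : Fin n, mt s.2 (y z) = v ∧ s.1.Adj (y a) v) ∧ reachK n s (y z) (y x) ∧ s.1.Adj (y x) (y b)) :=
    NCP.and (NCP.not (NCP.eq hι a b)) (NCP.and (fa_mt hι a a) (NCP.and (fa_mt hι b b) (NCP.and (NCP.not (fa_mt hι z z))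
      (NCP.and h0 (NCP.and (yd_reach hι z x) (yd_fst hι x b))))))
  refine h.congr fun n s y => ?_
  rw [exists_eq_left']
  rfl

private theorem yd_on {ι : Type} (hι : Finite ι) (z x v : ι) : NCP GS2 GB2 ι (fun n s y => OnK n s (y z) (y x) (y v)) :=
  yd_rel4 (S := GS2) (B := GB2) (R := fun n s a b c d => ReflTransGen (chdK (mt s.2) (EE s.1 (mt s.2)) (DK n s)) (a, b) (c, d)) hι q3_chd z x v v

private theorem yd_nx {ι : Type} (hι : Finite ι) (z x a b : ι) : NCP GS2 GB2 ι (fun n s y => NxK n s (y z) (y x) (y a) (y b)) := by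
  have h : NCP GS2 GB2 ι (fun n s y => ∃ u' : Fin n, ∃ x' : Fin n,
      ReflTransGen (chdK (mt s.2) (EE s.1 (mt s.2)) (DK n s)) (y z, y x) (u', x') ∧
        chsK (mt s.2) (EE s.1 (mt s.2)) (DK n s) u' x' (y a) (y b)) :=
    NCP.ex1 (NCP.ex1 (NCP.and
      (yd_rel4 (S := GS2) (B := GB2) (ι := Option (Option ι))
        (R := fun n s a b c d => ReflTransGen (chdK (mt s.2) (EE s.1 (mt s.2)) (DK n s)) (a, b) (c, d)) inferInstance q3_chd
        (some (some z)) (some (some x)) (some none) none)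
      (yd_rel4 (S := GS2) (B := GB2) (ι := Option (Option ι))
        (R := fun n s a b c d => chsK (mt s.2) (EE s.1 (mt s.2)) (DK n s) a b c d) inferInstance q3_chs
        (some none) none (some (some a)) (some (some b)))))
  exact h.congr fun n s x => Iff.rfl

private theorem yd_new : NCP GS2 GB2 (Option (Option (Option (Option (Fin 2))))) (fun n s y =>
    newE s.2 (mt s.2) (OnK n s (y (some none)) (y none)) (NxK n s (y (some none)) (y none)) (y (some (some (some none))))
      (y (some (some none))) (y (some none)) (y none) (y (some (some (some (some 0))))) (y (some (some (some (some 1)))))) := by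
  have hJ : Finite (Option (Option (Option (Option (Fin 2))))) := inferInstance
  have h1 := NCP.and (yd_snd hJ (some (some (some (some 0)))) (some (some (some (some 1)))))
    (NCP.and (NCP.not (yd_on hJ (some none) none (some (some (some (some 0))))))
      (NCP.not (yd_on hJ (some none) none (some (some (some (some 1)))))))
  have h2 := NCP.and (NCP.eq (S := GS2) (B := GB2) hJ (some (some (some (some 0)))) (some (some (some none))))
    (fa_mt hJ (some none) (some (some (some (some 1)))))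
  have h3 := NCP.and (NCP.eq (S := GS2) (B := GB2) hJ (some (some (some (some 0)))) none)
    (NCP.eq (S := GS2) (B := GB2) hJ (some (some (some (some 1)))) (some (some none)))
  have h4 : NCP GS2 GB2 (Option (Option (Option (Option (Fin 2))))) (fun n s y => ∃ b : Fin n,
      NxK n s (y (some none)) (y none) (y (some (some (some (some 0))))) b ∧ mt s.2 b = y (some (some (some (some 1))))) :=
    NCP.ex1 (NCP.and (yd_nx (ι := Option (Option (Option (Option (Option (Fin 2)))))) inferInstance (some (some none)) (some none)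
        (some (some (some (some (some 0))))) none)
      (fa_mt (ι := Option (Option (Option (Option (Option (Fin 2)))))) inferInstance none (some (some (some (some (some 1)))))))
  refine (NCP.or h1 (NCP.or h2 (NCP.or h3 h4))).congr fun n s y => ?_
  unfold newE
  refine or_congr Iff.rfl (or_congr (and_congr_right fun _ => eq_comm) (or_congr Iff.rfl ?_))
  exact exists_congr fun b => and_congr_right fun _ => eq_comm

/-- `a, b` is the least adjacent exposed pair. -/
private def yd_dirMin (n : ℕ) (s : GS2 n) (a b : Fin n) : Prop :=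
  dirK n s a b ∧ ∀ a' b', dirK n s a' b' → a < a' ∨ (a = a' ∧ b ≤ b')

private theorem yd_dirMinP {ι : Type} (hι : Finite ι) (i j : ι) : NCP GS2 GB2 ι (fun n s x => yd_dirMin n s (x i) (x j)) := by
  have h : NCP GS2 GB2 ι (fun n s x => dirK n s (x i) (x j) ∧ ∀ a' : Fin n, ∀ b' : Fin n,
      (dirK n s a' b' → x i < a' ∨ (x i = a' ∧ x j ≤ b'))) :=
    NCP.and (yd_dir hι i j) (NCP.all1 (NCP.all1 (NCP.imp (yd_dir (ι := Option (Option ι)) inferInstance (some none) none)
      (NCP.or (NCP.lt (ι := Option (Option ι)) inferInstance (some (some i)) (some none))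
        (NCP.and (NCP.eq (ι := Option (Option ι)) inferInstance (some (some i)) (some none))
          (NCP.le (ι := Option (Option ι)) inferInstance (some (some j)) none))))))
  exact h.congr fun n s x => Iff.rfl

/-- The least data of an augmenting path. -/
private def yd_datMin (n : ℕ) (s : GS2 n) (a b z x : Fin n) : Prop :=
  datK n s a b z x ∧ ∀ a' b' z' x', datK n s a' b' z' x' →
    a < a' ∨ (a = a' ∧ (b < b' ∨ (b = b' ∧ (z < z' ∨ (z = z' ∧ x ≤ x')))))

private theorem yd_datMinP {ι : Type} (hι : Finite ι) (a b z x : ι) :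
    NCP GS2 GB2 ι (fun n s y => yd_datMin n s (y a) (y b) (y z) (y x)) := by
  have hJ : Finite (Option (Option (Option (Option ι)))) := inferInstance
  have h : NCP GS2 GB2 ι (fun n s y => datK n s (y a) (y b) (y z) (y x) ∧
      ∀ a' : Fin n, ∀ b' : Fin n, ∀ z' : Fin n, ∀ x' : Fin n, (datK n s a' b' z' x' →
        y a < a' ∨ (y a = a' ∧ (y b < b' ∨ (y b = b' ∧ (y z < z' ∨ (y z = z' ∧ y x ≤ x'))))))) :=
    NCP.and (yd_dat hι a b z x) (NCP.all1 (NCP.all1 (NCP.all1 (NCP.all1
      (NCP.imp (yd_dat hJ (some (some (some none))) (some (some none)) (some none) none)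
        (NCP.or (NCP.lt hJ (some (some (some (some a)))) (some (some (some none))))
          (NCP.and (NCP.eq hJ (some (some (some (some a)))) (some (some (some none))))
            (NCP.or (NCP.lt hJ (some (some (some (some b)))) (some (some none)))
              (NCP.and (NCP.eq hJ (some (some (some (some b)))) (some (some none)))
                (NCP.or (NCP.lt hJ (some (some (some (some z)))) (some none))
                  (NCP.and (NCP.eq hJ (some (some (some (some z)))) (some none))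
                    (NCP.le hJ (some (some (some (some x)))) none))))))))))))
  exact h.congr fun n s x => Iff.rfl

private theorem yd_step : NCP GS2 GB2 (Fin 2) (fun n s x => stepE n s (x 0) (x 1)) := by
  have hmat := yd_mat (ι := Fin 2) inferInstance
  have hdir : NCP GS2 GB2 (Fin 2) (fun n s x => ∃ a : Fin n, ∃ b : Fin n, dirK n s a b) :=
    NCP.ex1 (NCP.ex1 (yd_dir (ι := Option (Option (Fin 2))) inferInstance (some none) none))
  have hdat : NCP GS2 GB2 (Fin 2) (fun n s x => ∃ a : Fin n, ∃ b : Fin n, ∃ z : Fin n, ∃ x : Fin n, datK n s a b z x) :=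
    NCP.ex1 (NCP.ex1 (NCP.ex1 (NCP.ex1 (yd_dat (ι := Option (Option (Option (Option (Fin 2))))) inferInstance
      (some (some (some none))) (some (some none)) (some none) none))))
  have h2 : NCP GS2 GB2 (Fin 2) (fun n s x => ∃ a : Fin n, ∃ b : Fin n, yd_dirMin n s a b ∧
      (s.2.Adj (x 0) (x 1) ∨ (x 0 = a ∧ x 1 = b))) :=
    NCP.ex1 (NCP.ex1 (NCP.and (yd_dirMinP (ι := Option (Option (Fin 2))) inferInstance (some none) none)
      (NCP.or (yd_snd (ι := Option (Option (Fin 2))) inferInstance (some (some 0)) (some (some 1)))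
        (NCP.and (NCP.eq (ι := Option (Option (Fin 2))) inferInstance (some (some 0)) (some none))
          (NCP.eq (ι := Option (Option (Fin 2))) inferInstance (some (some 1)) none)))))
  have h3 : NCP GS2 GB2 (Fin 2) (fun n s y => ∃ a : Fin n, ∃ b : Fin n, ∃ z : Fin n, ∃ x : Fin n, yd_datMin n s a b z x ∧
      newE s.2 (mt s.2) (OnK n s z x) (NxK n s z x) a b z x (y 0) (y 1)) :=
    NCP.ex1 (NCP.ex1 (NCP.ex1 (NCP.ex1 (NCP.and (yd_datMinP (ι := Option (Option (Option (Option (Fin 2))))) inferInstance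
      (some (some (some none))) (some (some none)) (some none) none) yd_new))))
  refine (NCP.or (NCP.and (NCP.not hmat) (yd_snd inferInstance 0 1))
    (NCP.or (NCP.and hmat h2) (NCP.or (NCP.and hmat (NCP.and (NCP.not hdir) h3))
      (NCP.and hmat (NCP.and (NCP.not hdir) (NCP.and (NCP.not hdat) (yd_snd inferInstance 0 1))))))).congr fun n s x => ?_
  unfold stepE yd_dirMin yd_datMin
  simp only [and_assoc]

/-- Job YD. -/
theorem q3_aug : NCP GS2 GB2 (Fin 2) (fun n s x => (augG n s.1 s.2).Adj (x 0) (x 1)) := by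
  refine (NCP.and (NCP.not (NCP.eq inferInstance 0 1)) (NCP.or yd_step
    (NCP.rel2 (S := GS2) (B := GB2) (R := fun n s a b => stepE n s a b) inferInstance yd_step 1 0))).congr fun n s x => ?_
  unfold augG
  rw [SimpleGraph.fromRel_adj]

/-- `Nat.size (n - 1) ^ c` augmentations. -/
def itG : ℕ → ∀ n : ℕ, SimpleGraph (Fin n) → SimpleGraph (Fin n) → SimpleGraph (Fin n)
  | 0 => augG
  | c + 1 => fun n G M => (itG c n G)^[Nat.size (n - 1)] M

/-- The input with the matching replaced by the graph of the current relation. -/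
private def ye_dec (n : ℕ) (s : GS2 n × RelF (Fin 2) Unit n) : GS2 n :=
  (s.1.1, SimpleGraph.fromRel (fun p q => s.2 () ![p, q]))

private theorem ye_readers (ι : Type) (_ : Finite ι) (P : RF GS2 ι) (h : GB2 ι P) :
    NCP (fun n => GS2 n × RelF (Fin 2) Unit n) (Ext GB2 (Fin 2) Unit) ι (fun n s x => P n (ye_dec n s) x) := by
  cases h with
  | fst => exact NCP.base inferInstance (Ext.old GB2.fst)
  | snd =>
    have h1 : NCP (fun n => GS2 n × RelF (Fin 2) Unit n) (Ext GB2 (Fin 2) Unit) (Fin 2) (fun _ s x => s.2 () x) :=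
      NCP.base inferInstance (Ext.new ())
    have h2 : NCP (fun n => GS2 n × RelF (Fin 2) Unit n) (Ext GB2 (Fin 2) Unit) (Fin 2) (fun _ s x => s.2 () ![x 0, x 1]) := by
      refine h1.congr fun n s x => ?_
      have e : ![x 0, x 1] = x := by
        funext i
        fin_cases i <;> rfl
      rw [e]
    have h3 : NCP (fun n => GS2 n × RelF (Fin 2) Unit n) (Ext GB2 (Fin 2) Unit) (Fin 2) (fun _ s x => s.2 () ![x 1, x 0]) :=
      (NCP.comap (κ := Fin 2) inferInstance ![1, 0] h2).congr fun n s x => Iff.rfl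
    refine (NCP.and (NCP.not (NCP.eq inferInstance 0 1)) (NCP.or h2 h3)).congr fun n s x => ?_
    show _ ↔ (SimpleGraph.fromRel (fun p q => s.2 () ![p, q])).Adj (x 0) (x 1)
    rw [SimpleGraph.fromRel_adj]

/-- Job YE. Induction on `c`: `NCP.iter` with `κ = Fin 2`, `Fl = Unit`; the state relation `R` encodes the graph `SimpleGraph.fromRel (fun p q => R () ![p, q])`; `NCP.pull` along `(s, R) ↦ (s.1, fromRel …)`. -/
theorem q3_it (c : ℕ) : NCP GS2 GB2 (Fin 2) (fun n s x => (itG c n s.1 s.2).Adj (x 0) (x 1)) := by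
  induction c with
  | zero => exact q3_aug
  | succ c ih =>
    have hF : ∀ _ : Unit, NCP (fun n => GS2 n × RelF (Fin 2) Unit n) (Ext GB2 (Fin 2) Unit) (Fin 2)
        (fun n s x => (itG c n (ye_dec n s).1 (ye_dec n s).2).Adj (x 0) (x 1)) := fun _ =>
      NCP.pull (S := GS2) (B := GB2) ye_dec ye_readers ih
    have hH : ∀ _ : Unit, NCP GS2 GB2 (Fin 2) (fun n s x => s.2.Adj (x 0) (x 1)) := fun _ => NCP.base inferInstance GB2.snd
    have h := NCP.iter (S := GS2) (B := GB2) (κ := Fin 2) (Fl := Unit) inferInstance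
      (H := fun _ n s x => s.2.Adj (x 0) (x 1))
      (F := fun _ n s x => (itG c n (ye_dec n s).1 (ye_dec n s).2).Adj (x 0) (x 1)) hH hF ()
    refine h.congr fun n s x => ?_
    have key : ∀ j : ℕ, ((fun (R : RelF (Fin 2) Unit n) (_ : Unit) (x : Fin 2 → Fin n) =>
        (itG c n (ye_dec n (s, R)).1 (ye_dec n (s, R)).2).Adj (x 0) (x 1))^[j] (fun _ x => s.2.Adj (x 0) (x 1))) =
        fun _ x => ((itG c n s.1)^[j] s.2).Adj (x 0) (x 1) := by
      intro j
      induction j with
      | zero => rfl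
      | succ j ihj =>
        rw [Function.iterate_succ_apply', ihj, Function.iterate_succ_apply']
        have e : (ye_dec n (s, fun (_ : Unit) (x : Fin 2 → Fin n) => ((itG c n s.1)^[j] s.2).Adj (x 0) (x 1))).2 =
            (itG c n s.1)^[j] s.2 := by
          ext p q
          unfold ye_dec
          rw [SimpleGraph.fromRel_adj]
          show p ≠ q ∧ (((itG c n s.1)^[j] s.2).Adj p q ∨ ((itG c n s.1)^[j] s.2).Adj q p) ↔ _
          constructor
          · rintro ⟨-, h1 | h1⟩
            · exact h1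
            · exact h1.symm
          · intro h1
            exact ⟨h1.ne, Or.inl h1⟩
        funext _ y
        rw [e]
        rfl
    exact iff_of_eq (congrFun (congrFun (key (Nat.size (n - 1))) ()) x)

/-- Job YE. -/
theorem itG_spec (c : ℕ) {G M : SimpleGraph (Fin n)} (h : IsMat G M) :
    IsMat G (itG c n G M) ∧ (IsMaxMat G (itG c n G M) ∨ M.edgeSet.ncard + Nat.size (n - 1) ^ c ≤ (itG c n G M).edgeSet.ncard) := by
  induction c generalizing M with
  | zero =>
    have h1 := augG_spec h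
    refine ⟨h1.1, ?_⟩
    rcases h1.2 with ⟨h2, h3⟩ | h2
    · left
      show IsMaxMat G (augG n G M)
      rw [h3]
      exact h2
    · right
      show M.edgeSet.ncard + Nat.size (n - 1) ^ 0 ≤ (augG n G M).edgeSet.ncard
      rw [h2, pow_zero]
  | succ c ih =>
    have key : ∀ j : ℕ, IsMat G ((itG c n G)^[j] M) ∧ (IsMaxMat G ((itG c n G)^[j] M) ∨
        M.edgeSet.ncard + j * Nat.size (n - 1) ^ c ≤ ((itG c n G)^[j] M).edgeSet.ncard) := by
      intro j
      induction j with
      | zero =>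
        refine ⟨h, Or.inr ?_⟩
        simp
      | succ j ihj =>
        rw [Function.iterate_succ_apply']
        obtain ⟨h1, h2⟩ := ihj
        obtain ⟨h3, h4⟩ := ih h1
        refine ⟨h3, ?_⟩
        rcases h4 with h4 | h4
        · exact Or.inl h4
        · rcases h2 with h2 | h2
          · left
            refine ⟨h3, fun N hN => (h2.2 N hN).trans ?_⟩
            omega
          · right
            have h5 : (j + 1) * Nat.size (n - 1) ^ c = j * Nat.size (n - 1) ^ c + Nat.size (n - 1) ^ c := by ring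
            omega
    have h1 := key (Nat.size (n - 1))
    rw [pow_succ, mul_comm]
    exact h1

/-- Job YF. **For every `c`: a given matching is turned in NC into a matching which has the largest number of edges or `(log n) ^ c` edges more.** (`Nat.log 2 n ≤ Nat.size (n - 1)`.) -/
theorem search_in_NC (c : ℕ) : ∃ F : ∀ n : ℕ, SimpleGraph (Fin n) → SimpleGraph (Fin n) → SimpleGraph (Fin n), FunNC2 F ∧
    ∀ (n : ℕ) (G M : SimpleGraph (Fin n)), IsMat G M → IsMat G (F n G M) ∧
      (IsMaxMat G (F n G M) ∨ M.edgeSet.ncard + Nat.log 2 n ^ c ≤ (F n G M).edgeSet.ncard) := by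
  refine ⟨itG c, relNC2_of_NCP (q3_it c), fun n G M h => ?_⟩
  have h1 := itG_spec c h
  refine ⟨h1.1, h1.2.imp_right fun h2 => le_trans ?_ h2⟩
  refine Nat.add_le_add_left (Nat.pow_le_pow_left ?_ c) _
  rcases Nat.eq_zero_or_pos (Nat.log 2 n) with h3 | h3
  · rw [h3]
    exact Nat.zero_le _
  · have hn : n ≠ 0 := by
      rintro rfl
      simp at h3
    have h4 := Nat.pow_log_le_self 2 hn
    have h5 : 2 ^ Nat.log 2 n = 2 * 2 ^ (Nat.log 2 n - 1) := by
      rw [← pow_succ']
      congr 1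
      omega
    have h6 : 0 < 2 ^ (Nat.log 2 n - 1) := by positivity
    have h7 : Nat.log 2 n - 1 < Nat.size (n - 1) := Nat.lt_size.2 (by omega)
    omega

end Pool.Agent.AUG
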