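import Pool.Agent.Lib.MP_0087d5_lc.AUG.Dist

/-!
# Consequences of the counting lemma

Jobs SG (`seg`, `pp0`), BS (`pp_root`, `base_exists`, …), EE (`ee`, `ee'`). Throughout `a = dd m E u` for a root `u` with `m u ≠ u`, and `θ < ZZ V`.
-/

namespace Pool.Agent.AUG

open Relation Finset

variable {V : Type*} [Fintype V] {m : V → V} {E : V → V → Prop} {L L₁ L₂ : List V} {u v w x y z g b b' : V} {c s k r θ : ℕ}

private theorem sg_tail {W : V → V → ℕ → Prop} {l : List V} (h : WW m W u (z :: l) s) (hl : l ≠ []) :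
    ∃ s', WW m W u l s' := by
  cases h with
  | nil => exact absurd rfl hl
  | cons h' _ _ _ => exact ⟨_, h'⟩

/-- Job SG. Consecutive vertices of a walk (induction on `L₁`). -/
theorem WW.edge (h : WW m (one E) u (L₁ ++ y :: x :: L₂) s) : E x (m y) := by
  induction L₁ generalizing s with
  | nil =>
    rw [List.nil_append] at h
    cases h with
    | cons h' hk _ _ => exact hk.1
  | cons a l ih =>
    obtain ⟨s', h'⟩ := sg_tail h (by simp)
    exact ih h'

/-- Job SG. -/
theorem CE_edge {a : V → ℕ} (h : CE m a c (L₁ ++ y :: x :: L₂) = 0) : a x + a (m y) + 1 ≤ c := by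
  induction L₁ with
  | nil =>
    rw [List.nil_append, CE] at h
    by_contra hc
    rw [if_pos (by omega)] at h
    omega
  | cons b l ih =>
    apply ih
    cases l with
    | nil =>
      rw [List.cons_append, List.nil_append, CE] at h
      rw [List.nil_append]
      omega
    | cons d l' =>
      rw [List.cons_append, List.cons_append, CE] at h
      rw [List.cons_append]
      omega

private theorem sg_CE_cons {a : V → ℕ} : CE m a c (L) ≤ CE m a c (x :: L) := by
  cases L with
  | nil => simp [CE]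
  | cons g l =>
    rw [CE.eq_1 m a c x g l]
    omega

/-- the list is cut at its first element with the property -/
private theorem sg_cut (P : V → Prop) (l : List V) (hv : v ∈ l) (hP : P v) :
    ∃ l₁ b l₂, l = l₁ ++ b :: l₂ ∧ P b ∧ ∀ y ∈ l₁, ¬ P y := by
  induction l with
  | nil => simp at hv
  | cons d l ih =>
    by_cases hd : P d
    · exact ⟨[], d, l, rfl, hd, by simp⟩
    · have hvl : v ∈ l := by
        rcases List.mem_cons.1 hv with h | h
        · subst h
          exact absurd hP hd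
        · exact h
      obtain ⟨l₁, b, l₂, h1, h2, h3⟩ := ih hvl
      refine ⟨d :: l₁, b, l₂, by rw [h1, List.cons_append], h2, ?_⟩
      intro y hy
      rcases List.mem_cons.1 hy with h | h
      · subst h
        exact hd
      · exact h3 y h

/-- Job SG. Let `b` be alive at `θ` and reachable, and consider a regular walk from `b` to `x` of weight `s` all of whose vertices except `b` are absorbed at `θ`. Then `a x ≤ a b + s`, and in case of equality
no edge of the walk is crossing at `θ`.
Proof. `s = 0` is trivial (`x = b`). Otherwise the list is `x :: g :: L`. Write `t = a x + a (m x) ≤ θ`. For `c < t`: `b` and `x` are alive at `c`, so `LV c (g :: L) + 1 ≤ CE c (x :: g :: L)` (`cc_alive`, `good_start`, `dist_UU`).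
For `t ≤ c ≤ θ`: `LV c (g :: L) ≤ CE c (g :: L) ≤ CE c (x :: g :: L)` (`cc_le`). For `c > θ`: `LV c (g :: L) = 0` (`LV_zero`). Sum over `c < N = 2 ZZ V + 1`: `TV (g :: L) + t ≤ TE (x :: g :: L)`, and
`TE (x :: g :: L) = TE (g :: L) + a g + a (m x) + 1 = TV (g :: L) + a b + s + a (m x)` (`telescope`). So `a x ≤ a b + s`. In case of equality all the inequalities for the single `c` are equalities
(otherwise the sum would be strictly smaller), so `CE θ (x :: g :: L) = LV θ (g :: L) = 0`. -/
theorem seg (hM : MM m E) (hu : m u ≠ u) (hθ : θ < ZZ V) (hb : Al m (dd m E u) θ b) (hbf : dd m E u b < ZZ V)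
    (hW : WW m (one E) b (x :: L) s) (hL : ∀ y ∈ x :: L, y ≠ b → dd m E u y + dd m E u (m y) ≤ θ) :
    dd m E u x ≤ dd m E u b + s ∧ (dd m E u x = dd m E u b + s → CE m (dd m E u) θ (x :: L) = 0) := by
  cases hW with
  | nil => exact ⟨by omega, fun _ => rfl⟩
  | @cons g _ L' s' k hW' hk h1 h2 =>
    obtain ⟨hk1, rfl⟩ := hk
    have hW : WW m (one E) b (x :: g :: L') (s' + 1) := WW.cons hW' ⟨hk1, rfl⟩ h1 h2
    have hxb : x ≠ b := by
      rintro rfl
      exact h1 hW'.start_mem
    have hxt := hL x (by simp) hxb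
    have hbal : ∀ c, c ≤ θ → Al m (dd m E u) c b := fun c hc => lt_of_le_of_lt hc hb
    have hle : ∀ c ∈ range (2 * ZZ V + 1),
        LV m (dd m E u) c (g :: L') + (if c < dd m E u x + dd m E u (m x) then 1 else 0) ≤
          CE m (dd m E u) c (x :: g :: L') := by
      intro c _
      by_cases hc : c < dd m E u x + dd m E u (m x)
      · rw [if_pos hc]
        exact cc_alive hM (dist_UU hM hu (by omega)) hW
          (good_start hW (hbal c (by omega)) hM.invol) hc
      · rw [if_neg hc, add_zero]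
        by_cases hcθ : c ≤ θ
        · exact (cc_le hM (dist_UU hM hu (by omega)) hW'
            (good_start hW' (hbal c hcθ) hM.invol)).trans sg_CE_cons
        · rw [LV_zero hW' fun y hy hyb => (hL y (List.mem_cons_of_mem _ hy) hyb).trans (by omega)]
          exact Nat.zero_le _
    have hsum := Finset.sum_le_sum hle
    rw [Finset.sum_add_distrib, sum_LV (a := dd m E u) (Z := ZZ V) (fun _ => dd_le_ZZ) le_rfl,
      sum_CE (a := dd m E u) (Z := ZZ V) (fun _ => dd_le_ZZ) le_rfl, sum_ite (by omega)] at hsum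
    have htel := telescope (a := dd m E u) hW'
    have hTE : TE m (dd m E u) (x :: g :: L') =
        (dd m E u g + dd m E u (m x) + 1) + TE m (dd m E u) (g :: L') := rfl
    rw [hTE] at hsum
    refine ⟨by omega, fun heq => ?_⟩
    have hall := (Finset.sum_eq_sum_iff_of_le hle).1 (by
      rw [Finset.sum_add_distrib, sum_LV (a := dd m E u) (Z := ZZ V) (fun _ => dd_le_ZZ) le_rfl,
        sum_CE (a := dd m E u) (Z := ZZ V) (fun _ => dd_le_ZZ) le_rfl, sum_ite (by omega), hTE]
      omega) θ (by rw [Finset.mem_range]; omega)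
    rw [← hall, if_neg (by omega),
      LV_zero hW' fun y hy hyb => hL y (List.mem_cons_of_mem _ hy) hyb]

/-- Job SG. Let `v` be alive at `θ`, `x` absorbed at `θ`, and let a regular walk from `v` to `x` of weight `r` satisfy `a x = a v + r`, and `a y ≤ a v + j` for each vertex `y` of the walk in position `j`
(`hub`). Let `b` be the last vertex of the walk which is alive at `θ`. Then `a b = a v + (position of b)`, and after `b` no edge is crossing at `θ`. Proof: cut the walk at `b` (`WW.split`), weights `s₁` (from `b` to `x`) and `s₂`;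
`seg` gives `a v + r = a x ≤ a b + s₁ ≤ a v + s₂ + s₁ = a v + r`, so we have equality. `Cn … b y` for `y ∈ L₁` by `cn_of_CE_zero`. -/
theorem pp0 (hM : MM m E) (hu : m u ≠ u) (hθ : θ < ZZ V) (hv : Al m (dd m E u) θ v) (hvf : dd m E u v < ZZ V)
    (hW : WW m (one E) v (x :: L) r) (hr : dd m E u x = dd m E u v + r) (hx : dd m E u x + dd m E u (m x) ≤ θ)
    (hub : ∀ L₁ b L₂ s₂, x :: L = L₁ ++ b :: L₂ → WW m (one E) v (b :: L₂) s₂ → dd m E u b ≤ dd m E u v + s₂) :
    ∃ L₁ b L₂ s₁ s₂, x :: L = L₁ ++ b :: L₂ ∧ L₁ ≠ [] ∧ Al m (dd m E u) θ b ∧ WW m (one E) b (L₁ ++ [b]) s₁ ∧ WW m (one E) v (b :: L₂) s₂ ∧ r = s₂ + s₁ ∧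
      dd m E u b = dd m E u v + s₂ ∧ (∀ y ∈ L₁, dd m E u y + dd m E u (m y) ≤ θ) ∧ CE m (dd m E u) θ (L₁ ++ [b]) = 0 ∧
      ∀ y ∈ L₁, Cn m E (dd m E u) θ b y := by
  obtain ⟨L₁, b, L₂, hl, hb, hL₁⟩ := sg_cut (Al m (dd m E u) θ) (x :: L) hW.start_mem hv
  have hab : ∀ y ∈ L₁, dd m E u y + dd m E u (m y) ≤ θ := fun y hy => not_lt.1 (hL₁ y hy)
  have hne : L₁ ≠ [] := by
    rintro rfl
    rw [List.nil_append] at hl
    have hxb : x = b := (List.cons.inj hl).1
    rw [← hxb] at hb
    unfold Al at hb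
    omega
  have hW0 := hW
  rw [hl] at hW0
  obtain ⟨s₁, s₂, hW1, hW2, hs⟩ := hW0.split
  have hubb := hub L₁ b L₂ s₂ hl hW2
  obtain ⟨x', L₁', rfl⟩ : ∃ x' L₁', L₁ = x' :: L₁' := by
    cases L₁ with
    | nil => exact absurd rfl hne
    | cons d l => exact ⟨d, l, rfl⟩
  have hxx : x = x' := by
    rw [List.cons_append] at hl
    exact (List.cons.inj hl).1
  subst hxx
  have hall : ∀ y ∈ x :: (L₁' ++ [b]), y ≠ b → dd m E u y + dd m E u (m y) ≤ θ := by
    intro y hy hyb
    apply hab
    rw [← List.cons_append, List.mem_append, List.mem_singleton] at hy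
    rcases hy with hy | hy
    · exact hy
    · exact absurd hy hyb
  rw [List.cons_append] at hW1
  have hbf : dd m E u b < ZZ V := by omega
  obtain ⟨hs1, hs2⟩ := seg hM hu hθ hb hbf hW1 hall
  have hCE : CE m (dd m E u) θ (x :: (L₁' ++ [b])) = 0 := hs2 (by omega)
  refine ⟨x :: L₁', b, L₂, s₁, s₂, hl, hne, hb, hW1, hW2, hs, by omega, hab, hCE, ?_⟩
  intro y hy
  refine cn_of_CE_zero hM hW1 hall hCE ?_
  rw [← List.cons_append, List.mem_append]
  exact Or.inl hy

/-- Job BS. The case `v = u` of `pp0`, for a shortest walk to `x`. -/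
theorem pp_root (hM : MM m E) (hu : m u ≠ u) (hθ : θ < ZZ V) (hW : WW m (one E) u (x :: L) (dd m E u x)) (hx : dd m E u x + dd m E u (m x) ≤ θ) :
    ∃ L₁ b L₂ s₁ s₂, x :: L = L₁ ++ b :: L₂ ∧ L₁ ≠ [] ∧ Al m (dd m E u) θ b ∧ WW m (one E) b (L₁ ++ [b]) s₁ ∧ WW m (one E) u (b :: L₂) s₂ ∧ dd m E u x = s₂ + s₁ ∧
      dd m E u b = s₂ ∧ (∀ y ∈ L₁, dd m E u y + dd m E u (m y) ≤ θ) ∧ CE m (dd m E u) θ (L₁ ++ [b]) = 0 ∧
      ∀ y ∈ L₁, Cn m E (dd m E u) θ b y := by
  have h0 : dd m E u u = 0 := dd_self
  obtain ⟨L₁, b, L₂, s₁, s₂, h1, h2, h3, h4, h5, h6, h7, h8, h9, h10⟩ :=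
    pp0 (v := u) hM hu hθ (by
      unfold Al
      rw [h0, dd_mate_root hM hu]
      omega) (by
      rw [h0]
      omega) hW (by rw [h0, zero_add]) hx (fun L₁ b L₂ s₂ _ h => by
      rw [h0, zero_add]
      exact dd_le_of_walk h)
  rw [h0, zero_add] at h7
  exact ⟨L₁, b, L₂, s₁, s₂, h1, h2, h3, h4, h5, h6, h7, h8, h9, h10⟩

/-- Job BS. The component of an absorbed vertex `x` contains an alive vertex `b` (its base), and `b` lies on a shortest walk to `x`. -/
theorem base_exists (hM : MM m E) (hu : m u ≠ u) (hθ : θ < ZZ V) (hx : dd m E u x + dd m E u (m x) ≤ θ) :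
    ∃ b, Al m (dd m E u) θ b ∧ Cn m E (dd m E u) θ b x ∧ dd m E u b < dd m E u x ∧ dd m E u b + dd m E b x ≤ dd m E u x := by
  obtain ⟨L, hW⟩ := dd_walk (m := m) (E := E) (u := u) (x := x) (by omega)
  obtain ⟨L₁, b, L₂, s₁, s₂, h1, h2, h3, h4, h5, h6, h7, h8, h9, h10⟩ := pp_root hM hu hθ hW hx
  cases L₁ with
  | nil => exact absurd rfl h2
  | cons x' l =>
    have hxx : x = x' := by
      rw [List.cons_append] at h1
      exact (List.cons.inj h1).1
    subst hxx
    rw [List.cons_append] at h4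
    have hs : s₁ ≠ 0 := by
      rintro rfl
      have := (WW.zero hM.mt h4).2
      simp at this
    have hd := dd_le_of_walk h4
    exact ⟨b, h3, h10 x (by simp), by omega, by omega⟩

/-- Job BS. If `b` is alive and in the component of the absorbed vertex `x` then it is the base. -/
theorem base_lt (hM : MM m E) (hu : m u ≠ u) (hθ : θ < ZZ V) (hx : dd m E u x + dd m E u (m x) ≤ θ)
    (hb : Al m (dd m E u) θ b) (hbx : Cn m E (dd m E u) θ b x) : dd m E u b < dd m E u x ∧ dd m E u b + dd m E b x ≤ dd m E u x := by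
  obtain ⟨b', h1, h2, h3, h4⟩ := base_exists hM hu hθ hx
  have heq : b = b' := dist_UU hM hu hθ b b' (hbx.trans (Cn.symm hM h2)) hb h1
  subst heq
  exact ⟨h3, h4⟩

/-- Job BS. Every vertex reachable from `u` has a base at `θ` (itself if it is alive). -/
theorem base_exists' (hM : MM m E) (hu : m u ≠ u) (hθ : θ < ZZ V) (x : V) :
    ∃ b, Al m (dd m E u) θ b ∧ Cn m E (dd m E u) θ b x := by
  by_cases hx : Al m (dd m E u) θ x
  · exact ⟨x, hx, ReflTransGen.refl⟩
  · obtain ⟨b, h1, h2, _⟩ := base_exists hM hu hθ (not_lt.1 hx)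
    exact ⟨b, h1, h2⟩

/-- Job BS. A reachable vertex is not its own mate. (The last arc of a walk to `x` is an edge at `m x`; `cov`.) -/
theorem mate_ne (hM : MM m E) (hu : m u ≠ u) (hx : dd m E u x < ZZ V) : m x ≠ x := by
  obtain ⟨L, hW⟩ := dd_walk hx
  generalize dd m E u x = r at hW
  cases hW with
  | nil => exact hu
  | cons h' hk _ _ =>
    intro hmx
    have h1 := hM.cov _ _ (hM.symm _ _ hk.1)
    rw [hM.invol] at h1
    exact h1 hmx.symm

/-- Job EE. All vertices of the walk (also the start) are absorbed at `θ`. Proof: for `c < θ`: `LA c ≤ CE c + 1` (`ccA`); for `c ≥ θ`: `LA c = 0` (`LA_zero`). Sum: `TA ≤ TE + θ`; use `telescope`, `telescopeA`. -/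
theorem ee (hM : MM m E) (hu : m u ≠ u) (hθ : θ < ZZ V) (hW : WW m (one E) y (x :: L) s)
    (h : ∀ y ∈ x :: L, dd m E u y + dd m E u (m y) ≤ θ) : dd m E u (m y) + dd m E u x ≤ θ + s := by
  have hle : ∀ c ∈ range (2 * ZZ V + 1), LA m (dd m E u) c (x :: L) ≤
      CE m (dd m E u) c (x :: L) + (if c < θ then 1 else 0) := by
    intro c _
    by_cases hc : c < θ
    · rw [if_pos hc]
      rcases ccA hM (dist_UU hM hu (show c < ZZ V by omega)) hW with h1 | h1
      · omega
      · exact h1.1.le
    · rw [LA_zero fun y hy => (h y hy).trans (not_lt.1 hc)]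
      exact Nat.zero_le _
  have hsum := Finset.sum_le_sum hle
  rw [Finset.sum_add_distrib, sum_LA (a := dd m E u) (Z := ZZ V) (fun _ => dd_le_ZZ) le_rfl,
    sum_CE (a := dd m E u) (Z := ZZ V) (fun _ => dd_le_ZZ) le_rfl, sum_ite (by omega)] at hsum
  have h1 := telescope (a := dd m E u) hW
  have h2 := telescopeA (a := dd m E u) hW
  omega

/-- Job EE. The same if the walk can be continued by an arc to `m u` (edge `E x u`), and `u` is not on the walk. Proof: for `c ≤ θ` we claim `LA c (x :: L) ≤ CE c (x :: L) + (if c < a x + 1 then 1 else 0)`: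
by `ccA` otherwise there is `b ∈ x :: L` alive and connected with `x`, and `a x + a u + 1 ≤ c`, so `b` is connected with `u`, which is alive (`dd_mate_root`); `b = u` by `dist_UU`, contradiction.
For `c > θ`: `LA c = 0`. Sum: `TA ≤ TE + a x + 1`; use `telescope`, `telescopeA`. -/
theorem ee' (hM : MM m E) (hu : m u ≠ u) (hθ : θ < ZZ V) (hW : WW m (one E) y (x :: L) s)
    (h : ∀ y ∈ x :: L, dd m E u y + dd m E u (m y) ≤ θ) (he : E x u) (hux : u ∉ x :: L) : dd m E u (m y) ≤ s + 1 := by
  have hle : ∀ c ∈ range (2 * ZZ V + 1), LA m (dd m E u) c (x :: L) ≤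
      CE m (dd m E u) c (x :: L) + (if c < dd m E u x + 1 then 1 else 0) := by
    intro c _
    by_cases hc : c ≤ θ
    · have hU := dist_UU hM hu (show c < ZZ V by omega)
      rcases ccA hM hU hW with h1 | ⟨h1, b, hb, hbal, hbc⟩
      · omega
      · by_cases hcx : c < dd m E u x + 1
        · rw [if_pos hcx]
          exact h1.le
        · exfalso
          apply hux
          have hcu : Cn m E (dd m E u) c b u := by
            refine hbc.tail (Or.inl ⟨he, ?_⟩)
            rw [dd_self]
            omega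
          have hual : Al m (dd m E u) c u := by
            unfold Al
            rw [dd_self, dd_mate_root hM hu]
            omega
          rw [← hU b u hcu hbal hual]
          exact hb
    · rw [LA_zero fun y hy => (h y hy).trans (by omega)]
      exact Nat.zero_le _
  have hsum := Finset.sum_le_sum hle
  have hxZ : dd m E u x ≤ ZZ V := dd_le_ZZ
  rw [Finset.sum_add_distrib, sum_LA (a := dd m E u) (Z := ZZ V) (fun _ => dd_le_ZZ) le_rfl,
    sum_CE (a := dd m E u) (Z := ZZ V) (fun _ => dd_le_ZZ) le_rfl, sum_ite (by omega)] at hsum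
  have h1 := telescope (a := dd m E u) hW
  have h2 := telescopeA (a := dd m E u) hW
  omega

end Pool.Agent.AUG
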