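import Pool.Agent.Lib.MP_0087d5_lc.AUG.Delta
import Pool.Agent.Lib.MP_0087d5_lc.AUG.Exits

/-!
# One stage: from the distances at most t to the distances at most 2 t

The relation `K u x k` (known distances) means `dd m E u x = k` and `k ≤ t`; `T k` means `k ≤ t`. All numbers are elements of `Fin n` (finite levels and the relevant sums are less than `n`, `WW.two_card`).
Jobs SA (`sbK_iff`, `phiK_iff`, `unkK_iff`), SS (`DDK_sound`), SC (`DDK_complete`), SN (`tnK_iff`, `AnK_iff`), SR (`RnK_iff`), SX (`ExK_iff`, `ClK_iff`, `stageK`).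
-/

namespace Pool.Agent.AUG

open Relation

section defs

variable {n : ℕ} (m : Fin n → Fin n) (E : Fin n → Fin n → Prop) (K : Fin n → Fin n → Fin n → Prop) (T : Fin n → Prop)

/-- `v` lies on a shortest walk from `u` to `x` (numerically; distances known). -/
def sbK (u v x : Fin n) : Prop := ∃ i j k : Fin n, K u v i ∧ K v x j ∧ K u x k ∧ (i : ℕ) + j = k

/-- The level of `p` is known and at most the level of its mate. -/
def leK (u p : Fin n) : Prop := ∃ i : Fin n, K u p i ∧ ∀ j : Fin n, K u (m p) j → i ≤ j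

def psiK (u v p : Fin n) : Prop := (leK m K u p ∧ sbK K u v p) ∨ (leK m K u (m p) ∧ sbK K u v (m p))

/-- Both levels of the pair of `p` are known, with sum at most `c`. -/
def absK (u p c : Fin n) : Prop := ∃ i j : Fin n, K u p i ∧ K u (m p) j ∧ (i : ℕ) + j ≤ c

def phiK (u v c p : Fin n) : Prop := (absK m K u p c ∧ psiK m K u v p) ∨ (¬ absK m K u p c ∧ sbK K u v p)

/-- `v ≠ u` has a known level, the level of the mate is not known. -/
def unkK (u v : Fin n) : Prop := v ≠ u ∧ (∃ i : Fin n, K u v i) ∧ ¬ ∃ j : Fin n, K u (m v) j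

/-- An edge with known levels and sum at most `c` along which `phi` changes. -/
def baseK (u v c : Fin n) : Prop := unkK m K u v ∧
  ∃ p q i j : Fin n, E p q ∧ K u p i ∧ K u q j ∧ (i : ℕ) + j + 1 ≤ c ∧ ¬ (phiK m K u v c p ↔ phiK m K u v c q)

/-- The edge `{p, m y}`, where `m y` has level at most `e = c₁ - (level of y)`; `a = (y, c₁)`, `b = (v, c)`. -/
def stepK (u : Fin n) (a b : Fin n × Fin n) : Prop := unkK m K u b.1 ∧
  ∃ p i j e : Fin n, E p (m a.1) ∧ K u p i ∧ K u a.1 j ∧ (j : ℕ) + e = a.2 ∧ (e : ℕ) + i + 1 ≤ b.2 ∧ ¬ (phiK m K u b.1 b.2 p ↔ sbK K u b.1 a.1)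

/-- The sum of the levels of the pair of `v` is at most `c`, with a proof. -/
def DDK (u v c : Fin n) : Prop := ∃ y c₀ : Fin n, baseK m E K u y c₀ ∧ ReflTransGen (stepK m E K u) (y, c₀) (v, c)

/-- `c ≤ 2 t` -/
def T2K (c : Fin n) : Prop := ∃ i j : Fin n, T i ∧ T j ∧ (i : ℕ) + j = c

/-- The sum of the levels of the pair of `v` is `c ≤ 2 t`. -/
def tnK (u v c : Fin n) : Prop := DDK m E K u v c ∧ T2K T c ∧ ∀ c' < c, ¬ DDK m E K u v c'

/-- The levels known now. -/
def AnK (u x k : Fin n) : Prop := K u x k ∨ ∃ c i : Fin n, unkK m K u (m x) ∧ tnK m E K T u (m x) c ∧ K u (m x) i ∧ (i : ℕ) + k = c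

/-- Adjacency in the graph of the threshold `2 t`. -/
def GnK (u x y : Fin n) : Prop := (E x y ∧ ∃ i j c : Fin n, AnK m E K T u x i ∧ AnK m E K T u y j ∧ (i : ℕ) + j + 1 = c ∧ T2K T c) ∨
  (y = m x ∧ ∃ i j c : Fin n, AnK m E K T u x i ∧ AnK m E K T u y j ∧ (i : ℕ) + j = c ∧ T2K T c)

/-- The component of the root. -/
def RnK (u x : Fin n) : Prop := ReflTransGen (GnK m E K T u) u x

def ExK (u z κ : Fin n) : Prop := ∃ g i : Fin n, RnK m E K T u g ∧ E g (m z) ∧ ¬ RnK m E K T u z ∧ z ≠ m u ∧ AnK m E K T u g i ∧ (i : ℕ) + 1 = κ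

def clsK (a b : Fin n × Fin n) : Prop := ∃ κ : Fin n, ExK m E K T a.1 b.1 κ ∧ (a.2 : ℕ) = κ + b.2

def ClK (u x D : Fin n) : Prop := ∃ z D' : Fin n, ReflTransGen (clsK m E K T) (u, D) (z, D') ∧ RnK m E K T z x ∧ AnK m E K T z x D'

/-- The new relation of known distances. -/
def stageK (u x k : Fin n) : Prop := T2K T k ∧ ClK m E K T u x k ∧ ∀ k' < k, ¬ ClK m E K T u x k'

end defs

variable {n : ℕ} {m : Fin n → Fin n} {E : Fin n → Fin n → Prop} {K : Fin n → Fin n → Fin n → Prop} {T : Fin n → Prop} {t : ℕ} {u v x p z : Fin n}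

/-- `K` and `T` describe the distances at most `t`. -/
structure Known (m : Fin n → Fin n) (E : Fin n → Fin n → Prop) (t : ℕ) (K : Fin n → Fin n → Fin n → Prop) (T : Fin n → Prop) : Prop where
  K : ∀ u x k : Fin n, K u x k ↔ (dd m E u x = k ∧ (k : ℕ) ≤ t)
  T : ∀ k : Fin n, T k ↔ (k : ℕ) ≤ t

/-- Job SA. -/
theorem dd_lt_n (h : dd m E u x < ZZ (Fin n)) : dd m E u x < n := by
  have h1 := dd_card h
  rw [Fintype.card_fin] at h1
  omega

/-- Job SA. The sums of the two levels of a pair, and of the levels of the ends of an edge plus one, fit (`dd_two_card`). -/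
theorem dd_add_lt (hM : MM m E) (hu : m u ≠ u) (hx : dd m E u x < ZZ (Fin n)) (hy : dd m E u z < ZZ (Fin n)) : dd m E u x + dd m E u z + 1 < n := by
  have h1 := dd_two_card hM hu hx
  have h2 := dd_two_card hM hu hy
  rw [Fintype.card_fin] at h1 h2
  omega

/-- Job SA. (The numbers fit: `dd u x ≤ t` and reachable, so all three are less than `n`.) -/
theorem sbK_iff (hK : Known m E t K T) (hx : dd m E u x < ZZ (Fin n)) (hxt : dd m E u x ≤ t) : sbK K u v x ↔ Sb m E u v x := by
  unfold sbK Sb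
  constructor
  · rintro ⟨i, j, k, h1, h2, h3, h4⟩
    rw [((hK.K _ _ _).1 h1).1, ((hK.K _ _ _).1 h2).1, ((hK.K _ _ _).1 h3).1]
    exact h4
  · intro h
    have h1 : dd m E u v < ZZ (Fin n) := by omega
    have h2 : dd m E v x < ZZ (Fin n) := by omega
    exact ⟨⟨_, dd_lt_n h1⟩, ⟨_, dd_lt_n h2⟩, ⟨_, dd_lt_n hx⟩,
      (hK.K _ _ _).2 ⟨rfl, by simp only; omega⟩, (hK.K _ _ _).2 ⟨rfl, by simp only; omega⟩,
      (hK.K _ _ _).2 ⟨rfl, hxt⟩, h⟩

/-- Job SA. Cases: both levels of the pair known: the conditions are the same (`leK` of `p` is `a p ≤ a (m p)`). If the level of `m p` is not known (`a (m p) > t ≥ a p`): `absK` is false, so `phiK` is `Sb … p`; and `psi p` is `Sb … p` as well, so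
`phi … p` is `Sb … p` in both cases of its definition. -/
theorem phiK_iff (hM : MM m E) (hK : Known m E t K T) (hp : dd m E u p < ZZ (Fin n)) (hpt : dd m E u p ≤ t) (c : Fin n) :
    phiK m K u v c p ↔ phi m E u v c p := by
  have hKp : ∀ i : Fin n, K u p i ↔ dd m E u p = i := by
    intro i
    rw [hK.K]
    exact ⟨fun h => h.1, fun h => ⟨h, by omega⟩⟩
  have hsb := sbK_iff (v := v) hK hp hpt
  by_cases hA : dd m E u (m p) < ZZ (Fin n) ∧ dd m E u (m p) ≤ t
  · obtain ⟨hq, hqt⟩ := hA
    have hKq : ∀ i : Fin n, K u (m p) i ↔ dd m E u (m p) = i := by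
      intro i
      rw [hK.K]
      exact ⟨fun h => h.1, fun h => ⟨h, by omega⟩⟩
    have hsb' := sbK_iff (v := v) hK hq hqt
    have habs : absK m K u p c ↔ dd m E u p + dd m E u (m p) ≤ c := by
      unfold absK
      constructor
      · rintro ⟨i, j, h1, h2, h3⟩
        rw [(hKp i).1 h1, (hKq j).1 h2]
        exact h3
      · intro h
        exact ⟨⟨_, dd_lt_n hp⟩, ⟨_, dd_lt_n hq⟩, (hKp _).2 rfl, (hKq _).2 rfl, h⟩
    have hle1 : leK m K u p ↔ dd m E u p ≤ dd m E u (m p) := by
      unfold leK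
      constructor
      · rintro ⟨i, h1, h2⟩
        have h3 := h2 ⟨_, dd_lt_n hq⟩ ((hKq _).2 rfl)
        rw [(hKp i).1 h1]
        exact h3
      · intro h
        refine ⟨⟨_, dd_lt_n hp⟩, (hKp _).2 rfl, fun j hj => ?_⟩
        have h3 := (hKq j).1 hj
        exact Fin.mk_le_of_le_val (by omega)
    have hle2 : leK m K u (m p) ↔ dd m E u (m p) ≤ dd m E u p := by
      unfold leK
      rw [hM.invol]
      constructor
      · rintro ⟨i, h1, h2⟩
        have h3 := h2 ⟨_, dd_lt_n hp⟩ ((hKp _).2 rfl)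
        rw [(hKq i).1 h1]
        exact h3
      · intro h
        refine ⟨⟨_, dd_lt_n hq⟩, (hKq _).2 rfl, fun j hj => ?_⟩
        have h3 := (hKp j).1 hj
        exact Fin.mk_le_of_le_val (by omega)
    unfold phiK phi psiK psi
    rw [habs, hle1, hle2, hsb, hsb', not_le]
  · have hn : (n : ℕ) ≤ ZZ (Fin n) := by
      unfold ZZ
      rw [Fintype.card_fin]
      omega
    have habs : ¬ absK m K u p c := by
      rintro ⟨i, j, h1, h2, h3⟩
      have h4 := (hK.K _ _ _).1 h2
      have h5 := j.2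
      exact hA ⟨by omega, by omega⟩
    have hlt : dd m E u p < dd m E u (m p) := by
      by_contra h
      exact hA ⟨by omega, by omega⟩
    unfold phiK phi psi
    rw [hsb]
    constructor
    · rintro (h | h)
      · exact absurd h.1 habs
      · rcases Nat.lt_or_ge (c : ℕ) (dd m E u p + dd m E u (m p)) with h6 | h6
        · exact Or.inr ⟨h6, h.2⟩
        · exact Or.inl ⟨h6, Or.inl ⟨hlt.le, h.2⟩⟩
    · rintro (h | h)
      · rcases h.2 with h6 | h6
        · exact Or.inr ⟨habs, h6.2⟩
        · omega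
      · exact Or.inr ⟨habs, h.2⟩

/-- Job SA. (Known: reachable with level at most `t`; a reachable vertex has level `< n`; an unreachable one has level `ZZ V > 2 t`.) -/
theorem unkK_iff (hK : Known m E t K T) (ht : 2 * t < ZZ (Fin n)) :
    unkK m K u v ↔ v ≠ u ∧ dd m E u v ≤ t ∧ t < dd m E u (m v) := by
  unfold unkK
  refine and_congr_right fun _ => and_congr ?_ ?_
  · constructor
    · rintro ⟨i, hi⟩
      have h1 := (hK.K _ _ _).1 hi
      omega
    · intro h
      exact ⟨⟨_, dd_lt_n (by omega)⟩, (hK.K _ _ _).2 ⟨rfl, h⟩⟩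
  · constructor
    · intro h
      by_contra h2
      exact h ⟨⟨_, dd_lt_n (x := m v) (E := E) (m := m) (u := u) (by omega)⟩,
        (hK.K _ _ _).2 ⟨rfl, by simp only; omega⟩⟩
    · rintro h ⟨j, hj⟩
      have h1 := (hK.K _ _ _).1 hj
      omega

/-- Job SA. -/
theorem T2K_iff (hK : Known m E t K T) (c : Fin n) : T2K T c ↔ (c : ℕ) ≤ 2 * t := by
  unfold T2K
  constructor
  · rintro ⟨i, j, h1, h2, h3⟩
    have h4 := (hK.T i).1 h1
    have h5 := (hK.T j).1 h2
    omega
  · intro h
    have hc := c.2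
    refine ⟨⟨min c t, by omega⟩, ⟨(c : ℕ) - min (c : ℕ) t, by omega⟩, (hK.T _).2 ?_, (hK.T _).2 ?_, ?_⟩
    · simp only
      omega
    · simp only
      omega
    · simp only
      omega

/-- Job SS: the levels in `unkK`. -/
theorem ss_fin_lt (c : Fin n) : (c : ℕ) < ZZ (Fin n) := by
  have := c.2
  unfold ZZ
  rw [Fintype.card_fin]
  omega

/-- Job SS: the indicator of an absorbed vertex whose mate is lower. -/
theorem ss_phi_absorbed (hM : MM m E) {c : ℕ} {w : Fin n} (h1 : dd m E u w + dd m E u (m w) ≤ c) (h2 : dd m E u (m w) < dd m E u w) :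
    phi m E u v c w ↔ Sb m E u v (m w) := by
  have hpsi : psi m E u v w ↔ Sb m E u v (m w) := by
    unfold psi
    constructor
    · rintro (⟨h, -⟩ | ⟨-, h⟩)
      · omega
      · exact h
    · intro h
      exact Or.inr ⟨h2.le, h⟩
  rw [← hpsi]
  unfold phi
  constructor
  · rintro (⟨-, h⟩ | ⟨h, -⟩)
    · exact h
    · omega
  · intro h
    exact Or.inl ⟨h1, h⟩

/-- Job SS: the base case of soundness. -/
theorem ss_base (hM : MM m E) (hu : m u ≠ u) (hK : Known m E t K T) (ht : 2 * t < ZZ (Fin n)) {c : Fin n} (h : baseK m E K u v c) :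
    dd m E u v + dd m E u (m v) ≤ c := by
  by_contra hcon
  have hal : Al m (dd m E u) c v := not_le.1 hcon
  obtain ⟨hun, p, q, i, j, he, hp, hq, hij, hphi⟩ := h
  have h1 := (unkK_iff (v := v) hK ht).1 hun
  have hp' := (hK.K _ _ _).1 hp
  have hq' := (hK.K _ _ _).1 hq
  have hc := ss_fin_lt c
  apply hphi
  rw [phiK_iff hM hK (by omega) (by omega), phiK_iff hM hK (by omega) (by omega)]
  exact phi_edge hM hu hc hal (by omega) he (by omega)

/-- Job SS: the step of soundness. -/
theorem ss_step (hM : MM m E) (hu : m u ≠ u) (hK : Known m E t K T) (ht : 2 * t < ZZ (Fin n)) {a b : Fin n × Fin n}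
    (ha : unkK m K u a.1) (hac : dd m E u a.1 + dd m E u (m a.1) ≤ a.2) (h : stepK m E K u a b) :
    dd m E u b.1 + dd m E u (m b.1) ≤ b.2 := by
  obtain ⟨y, c₁⟩ := a
  obtain ⟨v, c⟩ := b
  dsimp only at ha hac ⊢
  by_contra hcon
  have hal : Al m (dd m E u) c v := not_le.1 hcon
  obtain ⟨hun, p, i, j, e, he, hp, hj, hje, hei, hphi⟩ := h
  dsimp only at he hj hje hei hun hphi
  have h1 := (unkK_iff (v := v) hK ht).1 hun
  have hy := (unkK_iff (v := y) hK ht).1 ha
  have hp' := (hK.K _ _ _).1 hp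
  have hj' := (hK.K _ _ _).1 hj
  have hc := ss_fin_lt c
  apply hphi
  rw [phiK_iff hM hK (by omega) (by omega), sbK_iff hK (by omega) (by omega)]
  have hedge := phi_edge (v := v) hM hu hc hal (by omega) he (by omega)
  rw [hedge]
  have hmm : m (m y) = y := hM.invol y
  by_cases hyc : dd m E u y + dd m E u (m y) ≤ c
  · have := ss_phi_absorbed (u := u) (v := v) (w := m y) (c := (c : ℕ)) hM (by rw [hmm]; omega) (by rw [hmm]; omega)
    rwa [hmm] at this
  · exfalso
    have hmy : Al m (dd m E u) c (m y) := by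
      unfold Al
      rw [hmm]
      omega
    have hcn : Cn m E (dd m E u) c p (m y) := ReflTransGen.single (Or.inl ⟨he, by omega⟩)
    have hne : p ≠ m y := by
      intro h
      rw [h] at hp'
      omega
    have hpa : dd m E u p + dd m E u (m p) ≤ c := by
      by_contra hpc
      exact hne (dist_UU hM hu hc p (m y) hcn (not_le.1 hpc) hmy)
    have := (base_lt hM hu hc hpa hmy (Cn.symm hM hcn)).1
    omega

/-- Job SS. Soundness: if `DDK u v c` then the sum of the levels of the pair of `v` is at most `c`. Induction along the `ReflTransGen` of `DDK`; let `a = dd m E u`. (If `m u = u` then `baseK` is false: `K u v i` gives `v = u`, `dd_fixed`.)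
`baseK`: suppose `v` is alive at `c`. `phiK_iff` for `p`, `q`, and `phi_edge` for the edge `{p, q}` (with `a p = i`, `a q = j`, `a p + a q + 1 ≤ c`) give a contradiction.
`stepK` from `(y, c₁)`: by induction `a y + a (m y) ≤ c₁ = j + e`, `a y = j`, so `a (m y) ≤ e` and `a p + a (m y) + 1 ≤ c`. Suppose `v` is alive at `c`. `phi_edge` for the edge `{p, m y}`: `phi p ↔ phi (m y)`. `phi (m y) ↔ Sb … y`: `y` is in `unkK` (it is `b.1` of the previous step or of `baseK`), so `a y ≤ t < a (m y)`.
If `a y + a (m y) ≤ c` then `phi (m y)` is `psi (m y)`, i.e. `psi y`, i.e. `Sb … y` (`a y < a (m y)`). Otherwise `m y` is alive at `c` and connected with `p` at `c` by the edge; `p = m y` is impossible (`a p ≤ t < a (m y)`), so `p` is absorbed (`dist_UU`), and `base_lt` gives `a (m y) < a p`, impossible. -/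
theorem DDK_sound (hM : MM m E) (hK : Known m E t K T) (ht : 2 * t < ZZ (Fin n)) {c : Fin n} (h : DDK m E K u v c) :
    dd m E u v + dd m E u (m v) ≤ c := by
  obtain ⟨y, c₀, hb, hr⟩ := h
  by_cases hu : m u = u
  · exfalso
    obtain ⟨hyu, ⟨i, hi⟩, -⟩ := hb.1
    have h1 := (hK.K _ _ _).1 hi
    exact hyu (dd_fixed hM hu (by omega))
  · have hbase := ss_base hM hu hK ht hb
    have key : ∀ b : Fin n × Fin n, ReflTransGen (stepK m E K u) (y, c₀) b →
        unkK m K u b.1 ∧ dd m E u b.1 + dd m E u (m b.1) ≤ b.2 := by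
      intro b hb'
      induction hb' with
      | refl => exact ⟨hb.1, hbase⟩
      | tail _ hst ih => exact ⟨hst.1, ss_step hM hu hK ht ih.1 ih.2 hst⟩
    exact (key (v, c) hr).2

/-- Job SC: the step, `q` is the end of the edge whose level is not yet known. -/
theorem sc_step (hM : MM m E) (hu : m u ≠ u) (hK : Known m E t K T) (ht : 2 * t < ZZ (Fin n)) {c p q : Fin n} (hv : unkK m K u v)
    (hpZ : dd m E u p < ZZ (Fin n)) (hqZ : dd m E u q < ZZ (Fin n)) (he : E p q)
    (hpq : dd m E u p + dd m E u q + 1 ≤ c) (hqt : t < dd m E u q) (hqa : dd m E u q + dd m E u (m q) ≤ c) (hc2 : (c : ℕ) ≤ 2 * t)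
    (ih : ∀ c₁ : Fin n, unkK m K u (m q) → dd m E u (m q) + dd m E u q = c₁ → DDK m E K u (m q) c₁)
    (hphi : ¬ (phi m E u v c p ↔ phi m E u v c q)) : DDK m E K u v c := by
  have hmm : m (m q) = q := hM.invol q
  have hqn := dd_lt_n hqZ
  have hpn := dd_lt_n hpZ
  have hyn : dd m E u (m q) < n := dd_lt_n (by omega)
  have hy : unkK m K u (m q) := by
    rw [unkK_iff hK ht, hmm]
    refine ⟨?_, by omega, hqt⟩
    intro h
    have h1 := dd_mate_root (E := E) hM hu
    have h2 : m u = q := by rw [← h, hmm]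
    rw [h2] at h1
    omega
  have hc1 : dd m E u (m q) + dd m E u q < n := by
    have := c.2
    omega
  obtain ⟨y, c₀, hb, hr⟩ := ih ⟨_, hc1⟩ hy rfl
  refine ⟨y, c₀, hb, hr.tail ?_⟩
  refine ⟨hv, p, ⟨_, hpn⟩, ⟨_, hyn⟩, ⟨_, hqn⟩, by rw [hmm]; exact he, (hK.K _ _ _).2 ⟨rfl, by show dd m E u p ≤ t; omega⟩,
    (hK.K _ _ _).2 ⟨rfl, by show dd m E u (m q) ≤ t; omega⟩, rfl, by show dd m E u q + dd m E u p + 1 ≤ c; omega, ?_⟩
  show ¬ (phiK m K u v c p ↔ sbK K u v (m q))
  rw [phiK_iff hM hK hpZ (by omega), sbK_iff hK (by omega) (by omega), ← ss_phi_absorbed (v := v) (c := (c : ℕ)) hM hqa (by omega)]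
  exact hphi

/-- Job SC. Completeness. Strong induction on `a (m v)`, `a = dd m E u`. `c = a v + a (m v) ≤ 2 t`; `a v ≤ t < a (m v)`, so `phi_change` gives `p, q` with `E p q`, `a p + a q + 1 ≤ c`, `¬ phi p`, `phi q`, both levels `< a (m v)`.
If both levels are `≤ t`: `baseK` (`phiK_iff`). If `a q > t`: then `a p ≤ 2 t - 1 - a q < t`; `a q + a (m q) ≤ c ≤ 2 t`, so `a (m q) < t`; let `y = m q`: `y` is in `unkK` (`y ≠ u` since `m y = q` is reachable, `dd_mate_root`), the sum `c₁` of its levels is at most `c ≤ 2 t`, and `a (m y) = a q < a (m v)`.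
By induction `DDK u y c₁`. `stepK` with `p` and `e = a q`: `c₁ = a y + a q`, `a q + a p + 1 ≤ c`; `phi q ↔ Sb … y`: `phi q = psi q = psi y = Sb … y` (`q` absorbed at `c`, `a y < a (m y)`). If `a p > t`: the same with `p`, `q` exchanged; `p` is absorbed at `c`, because otherwise `a p < a v ≤ t`. -/
theorem DDK_complete (hM : MM m E) (hu : m u ≠ u) (hK : Known m E t K T) (ht : 2 * t < ZZ (Fin n)) {c : Fin n} (hv : unkK m K u v)
    (hc : dd m E u v + dd m E u (m v) = c) (hc2 : (c : ℕ) ≤ 2 * t) : DDK m E K u v c := by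
  have key : ∀ N : ℕ, ∀ (v c : Fin n), dd m E u (m v) = N → unkK m K u v → dd m E u v + dd m E u (m v) = c → (c : ℕ) ≤ 2 * t →
      DDK m E K u v c := by
    intro N
    induction N using Nat.strong_induction_on with
    | _ N ih =>
      intro v c hN hv hc hc2
      have hv' := (unkK_iff (v := v) hK ht).1 hv
      obtain ⟨p, q, he, hpq, hnp, hq, hpv, hqv, hqa, hpa⟩ :=
        phi_change hM hu hv'.1 (by omega) hc (ss_fin_lt c)
      have hpZ : dd m E u p < ZZ (Fin n) := by omega
      have hqZ : dd m E u q < ZZ (Fin n) := by omega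
      have hpn := dd_lt_n hpZ
      have hqn := dd_lt_n hqZ
      by_cases hqt : dd m E u q ≤ t
      · by_cases hpt : dd m E u p ≤ t
        · refine ⟨v, c, ⟨hv, p, q, ⟨_, hpn⟩, ⟨_, hqn⟩, he, (hK.K _ _ _).2 ⟨rfl, hpt⟩, (hK.K _ _ _).2 ⟨rfl, hqt⟩, hpq, ?_⟩, ReflTransGen.refl⟩
          rw [phiK_iff hM hK hpZ hpt, phiK_iff hM hK hqZ hqt]
          intro h
          exact hnp (h.2 hq)
        · have hpa' : dd m E u p + dd m E u (m p) ≤ c := by
            rcases hpa with h | h
            · exact h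
            · omega
          exact sc_step hM hu hK ht hv hqZ hpZ (hM.symm _ _ he) (by omega) (by omega) hpa' hc2 (fun c₁ hu' hc₁ =>
            ih (dd m E u p) (by omega) (m p) c₁ (by rw [hM.invol]) hu' (by rw [hM.invol]; exact hc₁) (by omega))
            (fun h => hnp (h.1 hq))
      · exact sc_step hM hu hK ht hv hpZ hqZ he hpq (by omega) hqa hc2 (fun c₁ hu' hc₁ =>
            ih (dd m E u q) (by omega) (m q) c₁ (by rw [hM.invol]) hu' (by rw [hM.invol]; exact hc₁) (by omega))
            (fun h => hnp (h.2 hq))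
  exact key _ v c rfl hv hc hc2

/-- Job SN. -/
theorem tnK_iff (hM : MM m E) (hu : m u ≠ u) (hK : Known m E t K T) (ht : 2 * t < ZZ (Fin n)) {c : Fin n} (hv : unkK m K u v) :
    tnK m E K T u v c ↔ dd m E u v + dd m E u (m v) = c ∧ (c : ℕ) ≤ 2 * t := by
  constructor
  · rintro ⟨h1, h2, h3⟩
    have hs := DDK_sound hM hK ht h1
    have hc2 := (T2K_iff hK c).1 h2
    have hlt : dd m E u v + dd m E u (m v) < n := by
      have := c.2
      omega
    refine ⟨?_, hc2⟩
    by_contra hne
    refine h3 ⟨_, hlt⟩ ?_ (DDK_complete hM hu hK ht hv rfl (by show dd m E u v + dd m E u (m v) ≤ 2 * t; omega))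
    rw [Fin.lt_def]
    show dd m E u v + dd m E u (m v) < c
    omega
  · rintro ⟨h1, h2⟩
    refine ⟨DDK_complete hM hu hK ht hv h1 h2, (T2K_iff hK c).2 h2, ?_⟩
    intro c' hc' hD
    have := DDK_sound hM hK ht hD
    rw [Fin.lt_def] at hc'
    omega

/-- Job SN. The levels known now. If `m u = u` only `u` is reachable and `unkK` is empty. -/
theorem AnK_iff (hM : MM m E) (hK : Known m E t K T) (ht : 2 * t < ZZ (Fin n)) {k : Fin n} :
    AnK m E K T u x k ↔ dd m E u x = k ∧ ((k : ℕ) ≤ t ∨ dd m E u x + dd m E u (m x) ≤ 2 * t) := by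
  have hmm : m (m x) = x := hM.invol x
  constructor
  · rintro (h | ⟨c, i, hun, htn, hi, hik⟩)
    · have := (hK.K _ _ _).1 h
      exact ⟨this.1, Or.inl this.2⟩
    · have hun' := (unkK_iff (v := m x) hK ht).1 hun
      have hu : m u ≠ u := by
        intro hu
        exact hun'.1 (dd_fixed hM hu (by omega))
      have h1 := (tnK_iff hM hu hK ht hun).1 htn
      have h2 := (hK.K _ _ _).1 hi
      rw [hmm] at h1
      exact ⟨by omega, Or.inr (by omega)⟩
  · rintro ⟨h1, h2⟩
    by_cases hkt : (k : ℕ) ≤ t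
    · exact Or.inl ((hK.K _ _ _).2 ⟨h1, hkt⟩)
    · have h3 : dd m E u x + dd m E u (m x) ≤ 2 * t := by
        rcases h2 with h | h
        · exact absurd h hkt
        · exact h
      have hxZ : dd m E u x < ZZ (Fin n) := by omega
      have hu : m u ≠ u := by
        intro hu
        have hxu := dd_fixed hM hu hxZ
        rw [hxu, dd_self] at h1
        omega
      have hmxu : m x ≠ u := by
        intro h
        have h4 := dd_mate_root (E := E) hM hu
        rw [← h, hmm, h] at h4
        omega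
      have hmxZ : dd m E u (m x) < ZZ (Fin n) := by omega
      have hun : unkK m K u (m x) := by
        rw [unkK_iff hK ht, hmm]
        exact ⟨hmxu, by omega, by omega⟩
      have hsum := dd_add_lt hM hu hxZ hmxZ
      refine Or.inr ⟨⟨dd m E u (m x) + dd m E u x, by omega⟩, ⟨dd m E u (m x), dd_lt_n hmxZ⟩, hun, ?_, ?_, ?_⟩
      · rw [tnK_iff hM hu hK ht hun, hmm]
        refine ⟨rfl, ?_⟩
        show dd m E u (m x) + dd m E u x ≤ 2 * t
        omega
      · rw [hK.K]
        refine ⟨rfl, ?_⟩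
        show dd m E u (m x) ≤ t
        omega
      · show dd m E u (m x) + k = dd m E u (m x) + dd m E u x
        omega

/-- Job SR. The component of the root at `2 t`. (→) every `GnK` edge is an edge of `G_{2t}`. (←) every vertex `x` of the component is `u` or absorbed (`rc_absorbed`), so `AnK u x (dd u x)`; induction along the path. If `m u = u`: both sides are `x = u` (no edges at `u`). -/
theorem RnK_iff (hM : MM m E) (hK : Known m E t K T) (ht : 2 * t < ZZ (Fin n)) :
    RnK m E K T u x ↔ Cn m E (dd m E u) (2 * t) u x := by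
  constructor
  · intro h
    have hstep : ∀ a b, GnK m E K T u a b → GA m E (dd m E u) (2 * t) a b := by
      rintro a b (⟨he, i, j, c, ha, hb, hij, hc⟩ | ⟨rfl, i, j, c, ha, hb, hij, hc⟩)
      · have h1 := ((AnK_iff hM hK ht).1 ha).1
        have h2 := ((AnK_iff hM hK ht).1 hb).1
        have h3 := (T2K_iff hK c).1 hc
        left
        exact ⟨he, by omega⟩
      · have h1 := ((AnK_iff hM hK ht).1 ha).1
        have h2 := ((AnK_iff hM hK ht).1 hb).1
        have h3 := (T2K_iff hK c).1 hc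
        right
        exact ⟨rfl, by omega⟩
    unfold RnK at h
    induction h with
    | refl => exact ReflTransGen.refl
    | tail _ hbc ih => exact ReflTransGen.tail ih (hstep _ _ hbc)
  · intro h
    by_cases hu : m u = u
    · have h1 : x = u := by
        induction h with
        | refl => rfl
        | tail _ hbc ih =>
          rw [ih] at hbc
          rcases hbc with ⟨he, _⟩ | ⟨h, _⟩
          · exact absurd hu (hM.cov _ _ he)
          · rw [h, hu]
      rw [h1]
      exact ReflTransGen.refl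
    · -- every vertex of the component has a known level
      have hkn : ∀ b, Cn m E (dd m E u) (2 * t) u b → dd m E u b < ZZ (Fin n) ∧
          ((dd m E u b ≤ t) ∨ dd m E u b + dd m E u (m b) ≤ 2 * t) := by
        intro b hb
        by_cases hbu : b = u
        · rw [hbu, dd_self]
          exact ⟨by unfold ZZ; omega, Or.inl (Nat.zero_le _)⟩
        · have h1 := rc_absorbed hM hu ht hb hbu
          exact ⟨by omega, Or.inr h1⟩
      have hAn : ∀ b, Cn m E (dd m E u) (2 * t) u b →
          ∃ i : Fin n, AnK m E K T u b i ∧ dd m E u b = i := by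
        intro b hb
        obtain ⟨h1, h2⟩ := hkn b hb
        refine ⟨⟨dd m E u b, dd_lt_n h1⟩, ?_, rfl⟩
        rw [AnK_iff hM hK ht]
        exact ⟨rfl, h2⟩
      induction h with
      | refl => exact ReflTransGen.refl
      | @tail b c hb hbc ih =>
        refine ReflTransGen.tail ih ?_
        obtain ⟨i, hi, hi'⟩ := hAn b hb
        obtain ⟨j, hj, hj'⟩ := hAn c (ReflTransGen.tail hb hbc)
        have hfit := dd_add_lt hM hu (hkn b hb).1 (hkn c (ReflTransGen.tail hb hbc)).1
        rcases hbc with ⟨he, h1⟩ | ⟨he, h1⟩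
        · left
          refine ⟨he, i, j, ⟨dd m E u b + dd m E u c + 1, hfit⟩, hi, hj, ?_, ?_⟩
          · show (i : ℕ) + j + 1 = dd m E u b + dd m E u c + 1
            omega
          · rw [T2K_iff hK]
            exact h1
        · right
          refine ⟨he, i, j, ⟨dd m E u b + dd m E u c, by omega⟩, hi, hj, ?_, ?_⟩
          · show (i : ℕ) + j = dd m E u b + dd m E u c
            omega
          · rw [T2K_iff hK]
            exact h1

/-- Job SX. If `m u = u` the component of `u` is `{u}`. -/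
private theorem sx_fixed (hM : MM m E) (hu : m u = u) {a : Fin n → ℕ} {θ : ℕ} {g : Fin n} (h : Cn m E a θ u g) : g = u := by
  induction h with
  | refl => rfl
  | @tail b c _ hbc ih =>
    subst ih
    rcases hbc with ⟨h1, _⟩ | ⟨h1, _⟩
    · exact absurd hu (hM.cov _ _ h1)
    · rw [h1, hu]

/-- Job SX. An edge from the component of `u`: `u` is not its own mate. -/
private theorem sx_ne (hM : MM m E) {a : Fin n → ℕ} {θ : ℕ} {g w : Fin n} (h : Cn m E a θ u g) (he : E g w) : m u ≠ u := by
  intro hu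
  have h1 := sx_fixed hM hu h
  rw [h1] at he
  exact hM.cov _ _ he hu

/-- Job SX. The levels in the component of the root are known. -/
private theorem sx_level (hM : MM m E) {g : Fin n} {θ : ℕ} (hθ : θ < ZZ (Fin n)) (h : Cn m E (dd m E u) θ u g) :
    dd m E u g = 0 ∨ dd m E u g + dd m E u (m g) ≤ θ := by
  by_cases hu : m u = u
  · left
    rw [sx_fixed hM hu h, dd_self]
  · by_cases hgu : g = u
    · left
      rw [hgu, dd_self]
    · right
      exact rc_absorbed hM hu hθ h hgu

/-- Job SX. (For an edge `E g (m z)` and `g` in the component, `g` has a known level (`AnK`), and `dd u g + 1 < n`.) -/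
theorem ExK_iff (hM : MM m E) (hK : Known m E t K T) (ht : 2 * t < ZZ (Fin n)) {κ : Fin n} :
    ExK m E K T u z κ ↔ Ex m E (2 * t) u z κ := by
  constructor
  · rintro ⟨g, i, hg, he, hz, hzu, hA, hi⟩
    rw [RnK_iff hM hK ht] at hg hz
    rw [AnK_iff hM hK ht] at hA
    exact ⟨g, hg, he, hz, hzu, by rw [hA.1]; exact hi.symm⟩
  · rintro ⟨g, hg, he, hz, hzu, hi⟩
    have hlt : dd m E u g < n := by
      have := κ.2
      omega
    refine ⟨g, ⟨dd m E u g, hlt⟩, (RnK_iff hM hK ht).2 hg, he, fun h => hz ((RnK_iff hM hK ht).1 h), hzu,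
      (AnK_iff hM hK ht).2 ⟨rfl, ?_⟩, hi.symm⟩
    rcases sx_level hM ht hg with h | h
    · left
      show dd m E u g ≤ t
      omega
    · exact Or.inr h

/-- Job SX. -/
theorem Ex_lt (hM : MM m E) {κ θ : ℕ} (hθ : θ < ZZ (Fin n)) (h : Ex m E θ u z κ) : κ < n := by
  obtain ⟨g, hg, he, _, _, rfl⟩ := h
  have hu := sx_ne hM hg he
  have hlt : dd m E u g < ZZ (Fin n) := by
    rcases sx_level hM hθ hg with h | h
    · omega
    · omega
  have h1 := dd_two_card hM hu hlt
  rw [Fintype.card_fin] at h1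
  omega

/-- Job SX. Induction along `ReflTransGen` (from the head) and on `Cl`. -/
theorem ClK_iff (hM : MM m E) (hK : Known m E t K T) (ht : 2 * t < ZZ (Fin n)) {D : Fin n} :
    ClK m E K T u x D ↔ Cl m E (2 * t) u x D := by
  constructor
  · rintro ⟨z, D', h, hR, hA⟩
    have key : ∀ a b : Fin n × Fin n, ReflTransGen (clsK m E K T) a b → Cl m E (2 * t) b.1 x b.2 →
        Cl m E (2 * t) a.1 x a.2 := by
      intro a b hab hb
      induction hab using ReflTransGen.head_induction_on with
      | refl => exact hb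
      | @head a c hac _ ih =>
        obtain ⟨κ, hκ, hs⟩ := hac
        rw [hs]
        exact Cl.step ((ExK_iff hM hK ht).1 hκ) ih
    refine key (u, D) (z, D') h ?_
    show Cl m E (2 * t) z x (D' : ℕ)
    rw [← ((AnK_iff hM hK ht).1 hA).1]
    exact Cl.base ((RnK_iff hM hK ht).1 hR)
  · have key : ∀ D₀ : ℕ, Cl m E (2 * t) u x D₀ → ∀ D : Fin n, (D : ℕ) = D₀ → ClK m E K T u x D := by
      clear D
      intro D₀ h
      induction h with
      | @base u x hC =>
        intro D hD
        refine ⟨u, D, ReflTransGen.refl, (RnK_iff hM hK ht).2 hC, (AnK_iff hM hK ht).2 ⟨hD.symm, ?_⟩⟩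
        rcases sx_level hM ht hC with h | h
        · left
          omega
        · exact Or.inr h
      | @step u z x κ D' hex _ ih =>
        intro D hD
        have h1 := D.2
        obtain ⟨z', D'', h2, h3, h4⟩ := ih ⟨D', by omega⟩ rfl
        refine ⟨z', D'', ReflTransGen.head ?_ h2, h3, h4⟩
        exact ⟨⟨κ, by omega⟩, (ExK_iff hM hK ht).2 hex, hD⟩
    intro h
    exact key D h D rfl

/-- Job SX. One stage doubles `t` (`cl_sound`, `cl_complete`). -/
theorem stage_known (hM : MM m E) (hK : Known m E t K T) (ht : 2 * t < ZZ (Fin n)) : Known m E (2 * t) (stageK m E K T) (T2K T) := by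
  refine ⟨fun u x k => ?_, fun k => T2K_iff hK k⟩
  constructor
  · rintro ⟨h1, h2, h3⟩
    rw [T2K_iff hK] at h1
    rw [ClK_iff hM hK ht] at h2
    have h4 := cl_sound hM ht h2 h1
    obtain ⟨D, hD, hcl⟩ := cl_complete (m := m) (E := E) (u := u) (x := x) hM ht (by omega)
    have hDn : D < n := by
      have := k.2
      omega
    have h5 : ¬ D < (k : ℕ) := by
      intro hlt
      exact h3 ⟨D, hDn⟩ hlt ((ClK_iff hM hK ht).2 hcl)
    exact ⟨by omega, h1⟩
  · rintro ⟨h1, h2⟩
    obtain ⟨D, hD, hcl⟩ := cl_complete (m := m) (E := E) (u := u) (x := x) hM ht (by omega)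
    have h4 := cl_sound hM ht hcl (by omega)
    have hDk : D = k := by omega
    refine ⟨(T2K_iff hK k).2 h2, (ClK_iff hM hK ht).2 (hDk ▸ hcl), ?_⟩
    intro k' hk' hcl'
    have hk'' : (k' : ℕ) < k := hk'
    have h5 := cl_sound hM ht ((ClK_iff hM hK ht).1 hcl') (by omega)
    omega

end Pool.Agent.AUG
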