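import Pool.Agent.Lib.MP_0087d5_lc.AUG.Defs

/-!
# Basic facts on regular walks. Job WA (first part), job WB (`WW.mirror` and the lengths).
-/

namespace Pool.Agent.AUG

variable {V : Type*} {m : V → V} {E : V → V → ℕ → Prop} {u x y z b g : V} {L L₁ L₂ : List V} {s s₁ s₂ k : ℕ}

/-- Job WA. -/
theorem WW.ne_nil (h : WW m E u L s) : L ≠ [] := by
  cases h <;> simp

/-- Job WA. The last entry of the list is the start of the walk. -/
theorem WW.last (h : WW m E u L s) : ∃ L', L = L' ++ [u] := by
  induction h with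
  | nil => exact ⟨[], rfl⟩
  | @cons x y L s k _ _ _ _ ih =>
    obtain ⟨L', hL'⟩ := ih
    exact ⟨y :: L', by rw [hL']; rfl⟩

/-- Job WA. -/
theorem WW.start_mem (h : WW m E u L s) : u ∈ L := by
  obtain ⟨L', rfl⟩ := h.last
  simp

/-- Job WA. -/
theorem WW.nodup (h : WW m E u L s) : L.Nodup := by
  induction h with
  | nil => simp
  | cons _ _ h1 _ ih => exact List.nodup_cons.mpr ⟨h1, ih⟩

/-- Job WA. No vertex of a regular walk is the mate of another one (induction; use `m x ≠ x` for the ends of edges, `m u ≠ u` for the start). -/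
theorem WW.mate_not_mem (hM : Mt m E) (hu : m u ≠ u) (h : WW m E u L s) (hx : x ∈ L) : m x ∉ L := by
  induction h with
  | nil =>
    rw [List.mem_singleton] at hx ⊢
    rw [hx]
    exact hu
  | @cons x' y L' s' k' _ hk h1 h2 ih =>
    have hy : m y ≠ y := by
      have h3 := hM.cov _ _ _ (hM.symm _ _ _ hk)
      rw [hM.invol] at h3
      exact h3.symm
    rcases List.mem_cons.mp hx with rfl | hx'
    · intro h4
      rcases List.mem_cons.mp h4 with h5 | h5
      · exact hy h5
      · exact h2 h5
    · intro h4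
      rcases List.mem_cons.mp h4 with h5 | h5
      · apply h2
        rw [← h5, hM.invol]
        exact hx'
      · exact ih hx' h5

/-- Job WA. A walk of weight zero from `u` with head `x`: `x = u` and the list is `[u]`. -/
theorem WW.zero (hM : Mt m E) (h : WW m E u (x :: L) 0) : x = u ∧ L = [] := by
  generalize ht : (0 : ℕ) = t at h
  cases h with
  | nil => exact ⟨rfl, rfl⟩
  | cons _ hk _ _ =>
    have := hM.pos _ _ _ hk
    omega

private theorem wa_inv {M : List V} (h : WW m E u (y :: M) s) (hM : M ≠ []) :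
    ∃ x L k s', M = x :: L ∧ s = s' + k ∧ WW m E u M s' ∧ E x (m y) k ∧ y ∉ M ∧ m y ∉ M := by
  cases h with
  | nil => exact absurd rfl hM
  | cons h1 hk h2 h3 => exact ⟨_, _, _, _, rfl, rfl, h1, hk, h2, h3⟩

private theorem wa_head {L₁ L₂ L : List V} (h : L₁ ++ b :: L₂ = x :: L) (L₃ : List V) :
    ∃ L', L₁ ++ b :: L₃ = x :: L' := by
  cases L₁ with
  | nil =>
    simp only [List.nil_append, List.cons.injEq] at h
    exact ⟨L₃, by rw [List.nil_append, h.1]⟩
  | cons w L₁ =>
    simp only [List.cons_append, List.cons.injEq] at h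
    exact ⟨L₁ ++ b :: L₃, by rw [List.cons_append, h.1]⟩

/-- Job WA. Cutting a walk at a vertex (induction on `L₁`). -/
theorem WW.split (h : WW m E u (L₁ ++ b :: L₂) s) :
    ∃ s₁ s₂, WW m E b (L₁ ++ [b]) s₁ ∧ WW m E u (b :: L₂) s₂ ∧ s = s₂ + s₁ := by
  induction L₁ generalizing s with
  | nil => exact ⟨0, s, WW.nil, h, rfl⟩
  | cons y L₁ ih =>
    rw [List.cons_append] at h
    obtain ⟨x, L, k, s', hxL, rfl, h1, hk, h2, h3⟩ := wa_inv h (by simp)
    obtain ⟨s₁, s₂, h4, h5, rfl⟩ := ih h1
    obtain ⟨L', hL'⟩ := wa_head hxL []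
    refine ⟨s₁ + k, s₂, ?_, h5, by ring⟩
    rw [List.cons_append]
    have h6 : y ∉ L₁ ++ [b] := by
      intro h7
      apply h2
      rw [List.mem_append, List.mem_singleton] at h7
      rw [List.mem_append, List.mem_cons]
      rcases h7 with h7 | h7
      · exact Or.inl h7
      · exact Or.inr (Or.inl h7)
    have h7 : m y ∉ L₁ ++ [b] := by
      intro h8
      apply h3
      rw [List.mem_append, List.mem_singleton] at h8
      rw [List.mem_append, List.mem_cons]
      rcases h8 with h8 | h8
      · exact Or.inl h8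
      · exact Or.inr (Or.inl h8)
    rw [hL'] at h4 h6 h7 ⊢
    exact WW.cons h4 hk h6 h7

/-- Job WA. Composition of walks (induction on `L₁`). -/
theorem WW.append (h₂ : WW m E u (b :: L₂) s₂) (h₁ : WW m E b (L₁ ++ [b]) s₁)
    (hd : ∀ w ∈ L₁, w ∉ b :: L₂ ∧ m w ∉ b :: L₂) : WW m E u (L₁ ++ b :: L₂) (s₂ + s₁) := by
  induction L₁ generalizing s₁ with
  | nil =>
    rw [List.nil_append] at h₁
    generalize hN : ([] : List V) = N at h₁
    cases h₁ with
    | nil => exact h₂
    | cons _ _ _ _ => exact absurd hN (by simp)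
  | cons y L₁ ih =>
    rw [List.cons_append] at h₁
    obtain ⟨x, L, k, s', hxL, rfl, h1, hk, h2, h3⟩ := wa_inv h₁ (by simp)
    have h4 := ih h1 (fun w hw => hd w (List.mem_cons_of_mem _ hw))
    obtain ⟨L', hL'⟩ := wa_head hxL L₂
    have hdy := hd y List.mem_cons_self
    have h6 : y ∉ L₁ ++ b :: L₂ := by
      intro h7
      rcases List.mem_append.mp h7 with h7 | h7
      · exact h2 (List.mem_append_left _ h7)
      · exact hdy.1 h7
    have h7 : m y ∉ L₁ ++ b :: L₂ := by
      intro h7
      rcases List.mem_append.mp h7 with h7 | h7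
      · exact h3 (List.mem_append_left _ h7)
      · exact hdy.2 h7
    rw [List.cons_append]
    rw [hL'] at h4 h6 h7 ⊢
    have h8 := WW.cons h4 hk h6 h7
    rw [← add_assoc]
    exact h8

/-- Job WA. Composition of walks over an arc `g → z` (induction on the second walk). -/
theorem WW.append_arc (h₂ : WW m E u (g :: L₂) s₂) (hk : E g (m z) k) (h₁ : WW m E z L₁ s₁)
    (hd : ∀ w ∈ L₁, w ∉ g :: L₂ ∧ m w ∉ g :: L₂) : WW m E u (L₁ ++ g :: L₂) (s₂ + k + s₁) := by
  induction h₁ with
  | nil =>
    have h1 := hd z (by simp)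
    have h2 := WW.cons h₂ hk h1.1 h1.2
    exact h2
  | @cons x' y L' s' k' _ hk' h1 h2 ih =>
    have h3 := ih (fun w hw => hd w (List.mem_cons_of_mem _ hw))
    have hdy := hd y List.mem_cons_self
    have h4 : y ∉ (x' :: L') ++ g :: L₂ := by
      intro h7
      rcases List.mem_append.mp h7 with h7 | h7
      · exact h1 h7
      · exact hdy.1 h7
    have h5 : m y ∉ (x' :: L') ++ g :: L₂ := by
      intro h7
      rcases List.mem_append.mp h7 with h7 | h7
      · exact h2 h7
      · exact hdy.2 h7
    rw [List.cons_append] at h3 h4 h5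
    have h6 := WW.cons h3 hk' h4 h5
    rw [← add_assoc, List.cons_append, List.cons_append]
    exact h6

private theorem wb_mirror (hM : Mt m E) (h : WW m E u L s) :
    ∀ x L', L = x :: L' → WW m E (m x) (L.map m).reverse s := by
  induction h with
  | nil =>
    intro x L' h
    simp only [List.cons.injEq] at h
    rw [← h.1]
    exact WW.nil
  | @cons x' y L s k _ hk h1 h2 ih =>
    intro x L' h
    simp only [List.cons.injEq] at h
    obtain ⟨rfl, -⟩ := h
    have h3 := ih x' L rfl
    have h4 : E (m y) (m (m x')) k := by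
      rw [hM.invol]
      exact hM.symm _ _ _ hk
    have h5 := WW.append_arc (u := m y) (L₂ := []) (WW.nil (m := m) (E := E)) h4 h3 (by
      intro w hw
      rw [List.mem_reverse, List.mem_map] at hw
      obtain ⟨v, hv, rfl⟩ := hw
      constructor
      · rw [List.mem_singleton]
        intro h6
        have h7 := congrArg m h6
        rw [hM.invol, hM.invol] at h7
        exact h1 (h7 ▸ hv)
      · rw [List.mem_singleton, hM.invol]
        intro h6
        exact h2 (h6 ▸ hv))
    have h6 : 0 + k + s = s + k := by ring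
    rw [h6] at h5
    rw [List.map_cons, List.reverse_cons]
    exact h5

/-- Job WB. The mirror image of a walk. Induction: the mirror of `y :: x :: L` is the mirror of `x :: L` appended to `[m y]` over the arc `m y → m x` (`WW.append_arc`). -/
theorem WW.mirror (hM : Mt m E) (h : WW m E u (x :: L) s) : WW m E (m x) ((x :: L).map m).reverse s :=
  wb_mirror hM h x L rfl

/-- Job WB. In a walk from `u` cut at `b`, the mirror image of the part from `b` to the end `x` is a walk from `m x` to `m b`:
the list `(m b) :: …`. (From `WW.split` and `WW.mirror`.) -/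
theorem WW.mirror_part (hM : Mt m E) (h : WW m E u (x :: L₁ ++ b :: L₂) s) :
    ∃ s₁ s₂ L', WW m E (m x) (m b :: L') s₁ ∧ WW m E u (b :: L₂) s₂ ∧ s = s₂ + s₁ ∧ ∀ w ∈ L', m w ∈ x :: L₁ := by
  obtain ⟨s₁, s₂, h1, h2, h3⟩ := WW.split h
  have h4 := wb_mirror hM h1 x (L₁ ++ [b]) (by rw [List.cons_append])
  rw [List.map_append, List.reverse_append] at h4
  refine ⟨s₁, s₂, ((x :: L₁).map m).reverse, h4, h2, h3, ?_⟩
  intro w hw
  rw [List.mem_reverse, List.mem_map] at hw
  obtain ⟨v, hv, rfl⟩ := hw
  rw [hM.invol]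
  exact hv

variable {F : V → V → Prop}

/-- Job WB. -/
theorem MM.mt (hM : MM m F) : Mt m (one F) :=
  ⟨hM.invol, fun x y _ h => ⟨hM.symm x y h.1, h.2⟩, fun x _ h => hM.irrefl x h.1, fun _ _ _ h => h.2.ge, fun x y _ h => hM.cov x y h.1⟩

/-- Job WB. The unweighted case: the weight is the number of arcs. -/
theorem WW.length (h : WW m (one F) u L s) : L.length = s + 1 := by
  induction h with
  | nil => rfl
  | cons _ hk _ _ ih =>
    rw [List.length_cons, ih, hk.2]

/-- Job WB. -/
theorem WW.lt_card [Fintype V] (h : WW m (one F) u L s) : s + 1 ≤ Fintype.card V := by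
  rw [← h.length]
  exact h.nodup.length_le_card

/-- Job WB. A regular walk contains at most half of the vertices (the list and the list of the mates are disjoint). -/
theorem WW.two_card [Fintype V] (hM : MM m F) (hu : m u ≠ u) (h : WW m (one F) u L s) : 2 * (s + 1) ≤ Fintype.card V := by
  have hinj : Function.Injective m := fun x y hxy => by
    have := congrArg m hxy
    rwa [hM.invol, hM.invol] at this
  have h1 : (L ++ L.map m).Nodup := by
    rw [List.nodup_append]
    refine ⟨h.nodup, h.nodup.map hinj, ?_⟩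
    intro x hx y hy hxy
    rw [List.mem_map] at hy
    obtain ⟨z, hz, rfl⟩ := hy
    exact WW.mate_not_mem hM.mt hu h hz (hxy ▸ hx)
  have h2 := h1.length_le_card
  rw [List.length_append, List.length_map, h.length] at h2
  omega

/-- Job WB. Extension of a walk by an arc, unweighted. -/
theorem WW.snoc (h : WW m (one F) u (x :: L) s) (hxy : F x (m y)) (h1 : y ∉ x :: L) (h2 : m y ∉ x :: L) :
    WW m (one F) u (y :: x :: L) (s + 1) :=
  WW.cons h ⟨hxy, rfl⟩ h1 h2

end Pool.Agent.AUG
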